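import Pool.Agent.Lib.MP_446a91_nt.Sou.NTop
import Pool.Agent.Lib.MP_446a91_nt.Rk.Main

/-! The nonvanishing theorem for the cyclotomic characters. -/

namespace Pool.Agent.Lib.MP_446a91_nt.Gal

theorem sou (l : ℕ) [Fact l.Prime] (z : ℕ → Qb) (hz : IsRoots l z) : Sou l z :=
  Sou.sou_of_rank (fun _ _ h => Rk.rank_one (by omega)) l z hz

end Pool.Agent.Lib.MP_446a91_nt.Gal
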