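import Pool.Agent.Lib.MP_446a91_nt.Sou.W0

/-! Small tools: graded pieces, denominators, change of coefficients, cosimplicial sums. -/

namespace Pool.Agent.Lib.MP_446a91_nt.Sou

noncomputable section

variable {A : Type} [CommRing A] {X Y : Type}

/-- Sketch: the projection `lin fun w => if w.length = k then wd w else 0` fixes `len k`, kills
`len 0` and maps `IP` to itself. -/
theorem mem_IP_of_sup {G : Type} [Group G] [MulAction G X] {P : List X → Prop} {k : ℕ}
    (hk : k ≠ 0) {c : Ch A X} (hc : c ∈ len A X k) (h : c ∈ IP A G P ⊔ len A X 0) :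
    c ∈ IP A G P := by
  obtain ⟨a, ha, b, hb, rfl⟩ := Submodule.mem_sup.1 h
  let φ : Ch A X →ₗ[A] Ch A X := lin A fun w => if w.length = k then wd w else 0
  have h1 : φ (a + b) = a + b := sp_ext (ψ := LinearMap.id) (fun w hw => by simp [φ, hw]) hc
  have h2 : φ b = 0 := sp_ext (ψ := 0) (fun w hw => by simp [φ, hw, hk.symm]) hb
  rw [← h1, map_add, h2, add_zero]
  refine IP_map φ _ (fun g w hw => ?_) ha
  by_cases e : w.length = k
  · simpa [φ, e] using sub_mem_IP g hw
  · simp [φ, e]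

theorem bc_surjective_zmod (N : ℕ) {P : List X → Prop} {c : Ch (ZMod N) X}
    (hc : c ∈ sp (ZMod N) P) : ∃ c' ∈ sp ℤ P, bc (ZMod N) c' = c := by
  induction hc using Submodule.span_induction with
  | mem c h =>
    obtain ⟨w, hw, rfl⟩ := h
    exact ⟨wd w, wd_mem hw, bc_wd w⟩
  | zero => exact ⟨0, zero_mem _, map_zero _⟩
  | add x y _ _ hx hy =>
    obtain ⟨x', h1, rfl⟩ := hx
    obtain ⟨y', h2, rfl⟩ := hy
    exact ⟨x' + y', add_mem h1 h2, map_add _ _ _⟩
  | smul a x _ hx =>
    obtain ⟨x', h1, rfl⟩ := hx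
    obtain ⟨n, rfl⟩ := ZMod.intCast_surjective a
    exact ⟨n • x', Submodule.smul_mem _ _ h1, by rw [map_smul, Int.cast_smul_eq_zsmul]⟩

theorem bc_mem_sp {P : List X → Prop} {c : Ch ℤ X} (hc : c ∈ sp ℤ P) : bc A c ∈ sp A P := by
  exact sp_map (bc A) ((sp A P).restrictScalars ℤ) (fun w hw => by rw [bc_wd]; exact wd_mem hw) hc

/-- The increasing map `ℕ → ℕ` that misses `s`. -/
def sa (s i : ℕ) : ℕ := if i < s then i else i + 1

theorem sa_sa {s t : ℕ} (h : t ≤ s) (i : ℕ) : sa t (sa s i) = sa (s + 1) (sa t i) := by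
  unfold sa; split_ifs <;> omega

theorem sa_injective (s : ℕ) : Function.Injective (sa s) := fun i j h => by
  unfold sa at h; split_ifs at h <;> omega

/-- The alternating sum of the images under `δ 0, …, δ k`. -/
def alt (δ : ℕ → X → X) (k : ℕ) : Ch ℤ X →ₗ[ℤ] Ch ℤ X :=
  ∑ s ∈ Finset.range (k + 1), (-1 : ℤ) ^ s • mp (δ s)

theorem alt_apply (δ : ℕ → X → X) (k : ℕ) (c : Ch ℤ X) :
    alt δ k c = ∑ s ∈ Finset.range (k + 1), (-1 : ℤ) ^ s • mp (δ s) c := by
  simp only [alt, LinearMap.sum_apply, LinearMap.smul_apply]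

theorem bd_alt (δ : ℕ → X → X) (k : ℕ) (c : Ch ℤ X) : bd (alt δ k c) = alt δ k (bd c) := by
  simp only [alt_apply, map_sum, map_smul, bd_mp]

theorem w2_sum {M : Type} [AddCommGroup M] {F : ℕ → ℕ → M}
    (h : ∀ s t, t ≤ s → F t s + F (s + 1) t = 0) (n : ℕ) :
    ∑ t ∈ Finset.range (n + 1), ∑ s ∈ Finset.range n, F t s = 0 := by
  induction n with
  | zero => simp
  | succ n ih =>
    rw [Finset.sum_range_succ, Finset.sum_congr rfl fun t _ => Finset.sum_range_succ (F t) n,
      Finset.sum_add_distrib, ih, zero_add, ← Finset.sum_add_distrib]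
    exact Finset.sum_eq_zero fun t ht => h n t (Nat.lt_succ_iff.1 (Finset.mem_range.1 ht))

/-- Sketch: split the double sum over `(t, s)`, `t ≤ k + 1`, `s ≤ k`, into `t ≤ s` and `s < t`;
the bijection `(t, s) ↦ (s + 1, t)` reverses the sign (`Finset.sum_involution` or `sum_bij'`). -/
theorem alt_alt {δ : ℕ → X → X} (h : ∀ s t, t ≤ s → ∀ x, δ t (δ s x) = δ (s + 1) (δ t x))
    (k : ℕ) (c : Ch ℤ X) : alt δ (k + 1) (alt δ k c) = 0 := by
  simp only [alt_apply, map_sum, map_smul, mp_mp, Finset.smul_sum]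
  rw [Finset.sum_comm]
  refine w2_sum (fun s t h' => ?_) (k + 1)
  rw [show δ t ∘ δ s = δ (s + 1) ∘ δ t from funext (h s t h'), pow_succ, mul_neg_one, neg_smul,
    smul_neg, smul_comm, add_neg_cancel]

theorem alt_nil (δ : ℕ → X → X) : alt δ 0 (wd []) = wd [] := by
  simp [alt_apply]

/-- The boundary of the word `f 0, …, f k` when `δ s` acts on the letters as `sa s`. -/
theorem bd_range {δ : ℕ → X → X} {f : ℕ → X} (h : ∀ s i, δ s (f i) = f (sa s i)) (k : ℕ) :
    bd (wd ((List.range (k + 1)).map f)) = alt δ k (wd ((List.range k).map f)) := by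
  rw [bd_wd, dW_eq_sum, alt_apply, List.length_map, List.length_range]
  refine Finset.sum_congr rfl fun s hs => ?_
  have hs' := Finset.mem_range.1 hs
  rw [mp_wd]
  congr 2
  refine List.ext_getElem (by simp [List.length_eraseIdx, hs']) fun i _ _ => ?_
  simp only [List.getElem_eraseIdx, List.getElem_map, List.getElem_range, h, sa]
  split_ifs <;> rfl

end

end Pool.Agent.Lib.MP_446a91_nt.Sou
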