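import Pool.Agent.Lib.MP_446a91_nt.Sou.W1
import Pool.Agent.Lib.MP_446a91_nt.Sou.W2

/-!
Configurations of points on a circle with lifts to the line: `a i j` is the integer part of
`x j - x i`.
-/

namespace Pool.Agent.Lib.MP_446a91_nt.Sou

noncomputable section

/-- The axioms of a configuration on the set `V`. -/
structure ValOn {P : Type} (V : Set P) (a : P → P → ℤ) : Prop where
  diag : ∀ i ∈ V, a i i = 0
  anti : ∀ i ∈ V, ∀ j ∈ V, i ≠ j → a i j + a j i = -1
  tri : ∀ i ∈ V, ∀ j ∈ V, ∀ m ∈ V, a i j + a j m ≤ a i m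

/-- Configurations indexed by natural numbers. -/
abbrev Cf : Type := ℕ → ℕ → ℤ

/-- A configuration of `k` points. -/
def Val (k : ℕ) (a : Cf) : Prop := ValOn {i | i < k} a

/-- Equality up to moving each point by a multiple of `L`. -/
def Eqv (L k : ℕ) (a a' : Cf) : Prop :=
  ∃ s : ℕ → ℤ, ∀ i < k, ∀ j < k, a' i j = a i j + L * (s j - s i)

/-- A cochain on configurations of `k` points. -/
def Shift {M : Type} (L k : ℕ) (κ : Cf → M) : Prop :=
  ∀ a a', Val k a → Eqv L k a a' → κ a = κ a'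

/-- Delete the point `s`. -/
def face (s : ℕ) (a : Cf) : Cf := fun i j => a (sa s i) (sa s j)

/-- The coboundary of a cochain on `k` points. -/
def cob {M : Type} [AddCommGroup M] (k : ℕ) (κ : Cf → M) (a : Cf) : M :=
  ∑ s ∈ Finset.range (k + 1), (-1 : ℤ) ^ s • κ (face s a)

/-- The configuration of the points `x (i s) + α s`, ties broken by the position. -/
def pull (u : List (ℕ × ℤ)) (a : Cf) : Cf := fun s t =>
  if s ≤ t then a (u.getD s 0).1 (u.getD t 0).1 + (u.getD t 0).2 - (u.getD s 0).2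
  else -1 - (a (u.getD t 0).1 (u.getD s 0).1 + (u.getD s 0).2 - (u.getD t 0).2)

/-- The standard configuration of close increasing points. -/
def std : Cf := fun s t => if s ≤ t then 0 else -1

/-- The face maps on letters. -/
def dl (s : ℕ) (x : ℕ × ℤ) : ℕ × ℤ := (sa s x.1, x.2)

theorem a1_sa_lt (s : ℕ) {i k : ℕ} (h : i < k) : sa s i < k + 1 := by
  unfold sa
  split_ifs <;> omega

theorem a1_getD_lt {k i : ℕ} {u : List (ℕ × ℤ)} (hu : ∀ x ∈ u, x.1 < k) (hi : i < u.length) :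
    (u.getD i 0).1 < k := by
  rw [List.getD_eq_getElem _ _ hi]
  exact hu _ (List.getElem_mem hi)

theorem a1_tri {k i j m : ℕ} {a : Cf} (h : Val k a) (hi : i < k) (hj : j < k) (hm : m < k) :
    a i m ≤ a i j + a j m + 1 := by
  by_cases e : m = j
  · subst e
    have := h.diag m hm
    omega
  · have h1 := h.tri i hi m hm j hj
    have h2 := h.anti m hm j hj e
    omega

theorem val_std (k : ℕ) : Val k std := by
  refine ⟨fun i _ => ?_, fun i _ j _ h => ?_, fun i _ j _ m _ => ?_⟩ <;> unfold std <;>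
    split_ifs <;> omega

theorem Val.eqv {L k : ℕ} {a a' : Cf} (h : Val k a) (h' : Eqv L k a a') : Val k a' := by
  obtain ⟨s, hs⟩ := h'
  refine ⟨fun i hi => ?_, fun i hi j hj e => ?_, fun i hi j hj m hm => ?_⟩
  · rw [hs i hi i hi, h.diag i hi]
    ring
  · have := h.anti i hi j hj e
    rw [hs i hi j hj, hs j hj i hi]
    linarith
  · have := h.tri i hi j hj m hm
    rw [hs i hi j hj, hs j hj m hm, hs i hi m hm]
    linarith

theorem Val.face {k s : ℕ} {a : Cf} (h : Val (k + 1) a) : Val k (face s a) := by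
  exact ⟨fun i hi => h.diag _ (a1_sa_lt s hi),
    fun i hi j hj e => h.anti _ (a1_sa_lt s hi) _ (a1_sa_lt s hj) fun e' => e (sa_injective s e'),
    fun i hi j hj m hm => h.tri _ (a1_sa_lt s hi) _ (a1_sa_lt s hj) _ (a1_sa_lt s hm)⟩

theorem Eqv.face {L k s : ℕ} {a a' : Cf} (h : Eqv L (k + 1) a a') :
    Eqv L k (face s a) (face s a') := by
  obtain ⟨t, ht⟩ := h
  exact ⟨fun i => t (sa s i), fun i hi j hj => ht _ (a1_sa_lt s hi) _ (a1_sa_lt s hj)⟩

theorem Shift.congr {M : Type} {L k : ℕ} {κ : Cf → M} (h : Shift L k κ) {a a' : Cf}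
    (ha : Val k a) (e : ∀ i < k, ∀ j < k, a' i j = a i j) : κ a = κ a' := by
  exact h a a' ha ⟨fun _ => 0, fun i hi j hj => by rw [e i hi j hj]; simp⟩

/-- Sketch: case distinction on the order of the three positions and on equalities of indices; use
also `a i m ≤ a i j + a j m + 1` (from `anti`, `tri`, `diag`). -/
theorem Val.pull {k : ℕ} {a : Cf} (h : Val k a) {u : List (ℕ × ℤ)} (hu : ∀ x ∈ u, x.1 < k) :
    Val u.length (pull u a) := by
  refine ⟨fun i hi => ?_, fun i hi j hj e => ?_, fun i hi j hj m hm => ?_⟩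
  · have := h.diag _ (a1_getD_lt hu hi)
    unfold Sou.pull
    rw [if_pos le_rfl]
    omega
  · unfold Sou.pull
    split_ifs <;> omega
  · have hi' := a1_getD_lt hu hi
    have hj' := a1_getD_lt hu hj
    have hm' := a1_getD_lt hu hm
    have h1 := h.tri _ hi' _ hj' _ hm'
    have h2 := h.tri _ hm' _ hi' _ hj'
    have h3 := h.tri _ hj' _ hm' _ hi'
    have h4 := a1_tri h hi' hm' hj'
    have h5 := a1_tri h hj' hi' hm'
    have h6 := a1_tri h hm' hj' hi'
    unfold Sou.pull
    split_ifs <;> omega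

theorem Eqv.pull {L k : ℕ} {a a' : Cf} (h : Eqv L k a a') {u : List (ℕ × ℤ)}
    (hu : ∀ x ∈ u, x.1 < k) : Eqv L u.length (pull u a) (pull u a') := by
  obtain ⟨s, hs⟩ := h
  refine ⟨fun i => s (u.getD i 0).1, fun i hi j hj => ?_⟩
  have hi' := a1_getD_lt hu hi
  have hj' := a1_getD_lt hu hj
  unfold Sou.pull
  rw [hs _ hi' _ hj', hs _ hj' _ hi']
  split_ifs <;> ring

theorem pull_eraseIdx (u : List (ℕ × ℤ)) (a : Cf) (s : ℕ) :
    pull (u.eraseIdx s) a = face s (pull u a) := by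
  have h1 : ∀ i, (u.eraseIdx s).getD i 0 = u.getD (sa s i) 0 := fun i => by
    rw [List.getD_eq_getElem?_getD, List.getD_eq_getElem?_getD, List.getElem?_eraseIdx, sa]
    split_ifs <;> rfl
  funext i j
  have h2 : sa s i ≤ sa s j ↔ i ≤ j := by
    unfold sa
    split_ifs <;> omega
  simp only [face, pull, h1, h2]

theorem pull_dl (u : List (ℕ × ℤ)) (a : Cf) (s : ℕ) :
    ∀ i < u.length, ∀ j < u.length, pull (u.map (dl s)) a i j = pull u (face s a) i j := by
  have h1 : ∀ i < u.length, (u.map (dl s)).getD i 0 = dl s (u.getD i 0) := fun i hi => by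
    simp [List.getD_eq_getElem?_getD, hi]
  intro i hi j hj
  simp only [face, pull, h1 i hi, h1 j hj, dl]

theorem pull_range {k : ℕ} {a : Cf} (h : Val k a) :
    ∀ i < k, ∀ j < k, pull ((List.range k).map fun i => (i, (0 : ℤ))) a i j = a i j := by
  have h1 : ∀ i < k, ((List.range k).map fun i => (i, (0 : ℤ))).getD i 0 = (i, 0) := fun i hi => by
    simp [List.getD_eq_getElem?_getD, hi]
  intro i hi j hj
  simp only [pull, h1 i hi, h1 j hj]
  split_ifs with e
  · omega
  · have := h.anti i hi j hj (by omega)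
    omega

/-- For a valid `a`, a cocycle on configurations gives a cocycle on words. -/
theorem lin_pull_bd {M : Type} [AddCommGroup M] {k n : ℕ} (κ : Cf → M) (a : Cf)
    {c : Ch ℤ (ℕ × ℤ)} (hc : c ∈ sp ℤ fun u => u.length = n + 1 ∧ ∀ x ∈ u, x.1 < k) :
    lin ℤ (fun u => κ (pull u a)) (bd c) = lin ℤ (fun u => cob n κ (pull u a)) c := by
  refine sp_ext (φ := lin ℤ (fun u => κ (pull u a)) ∘ₗ bd) (fun u hu => ?_) hc
  rw [LinearMap.comp_apply, bd_wd, dW_eq_sum, map_sum, lin_wd, cob, hu.1]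
  refine Finset.sum_congr rfl fun s _ => ?_
  rw [map_smul, lin_wd, pull_eraseIdx]

theorem lin_pull_alt {M : Type} [AddCommGroup M] {L k n : ℕ} {κ : Cf → M} (hκ : Shift L n κ)
    {a : Cf} (ha : Val (k + 1) a) {c : Ch ℤ (ℕ × ℤ)}
    (hc : c ∈ sp ℤ fun u => u.length = n ∧ ∀ x ∈ u, x.1 < k) :
    lin ℤ (fun u => κ (pull u a)) (alt dl k c) =
      cob k (fun a' => lin ℤ (fun u => κ (pull u a')) c) a := by
  rw [alt_apply, map_sum, cob]
  refine Finset.sum_congr rfl fun s _ => ?_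
  rw [map_smul, lin_mp]
  refine congrArg _ (lin_congr (fun u hu => ?_) hc)
  obtain ⟨rfl, hu⟩ := hu
  exact (hκ.congr (ha.face.pull hu) (pull_dl u a s)).symm

theorem shift_lin_pull {M : Type} [AddCommGroup M] {L k n : ℕ} {κ : Cf → M} (hκ : Shift L n κ)
    {c : Ch ℤ (ℕ × ℤ)} (hc : c ∈ sp ℤ fun u => u.length = n ∧ ∀ x ∈ u, x.1 < k) :
    Shift L k fun a' => lin ℤ (fun u => κ (pull u a')) c := by
  refine fun a a' ha he => lin_congr (fun u hu => ?_) hc
  obtain ⟨rfl, hu⟩ := hu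
  exact hκ _ _ (ha.pull hu) (he.pull hu)

end

end Pool.Agent.Lib.MP_446a91_nt.Sou
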