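import Pool.Agent.Lib.MP_446a91_nt.Sou.A1

/-! The alternating average and its homotopy to the identity. -/

namespace Pool.Agent.Lib.MP_446a91_nt.Sou

noncomputable section

/-- The signed sum over all orders and all lifts modulo `L`. -/
def Alt (L k : ℕ) : Ch ℤ (ℕ × ℤ) :=
  ∑ π : Equiv.Perm (Fin k), ∑ α : Fin k → Fin L, ((Equiv.Perm.sign π : ℤˣ) : ℤ) •
    wd (List.ofFn fun s => (((π s : Fin k) : ℕ), ((α s : ℕ) : ℤ)))

theorem Alt_mem (L k : ℕ) : Alt L k ∈ sp ℤ fun u => u.length = k ∧ ∀ x ∈ u, x.1 < k := by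
  refine Submodule.sum_mem _ fun π _ => Submodule.sum_mem _ fun α _ =>
    Submodule.smul_mem _ _ (wd_mem ⟨List.length_ofFn, fun x hx => ?_⟩)
  obtain ⟨s, rfl⟩ := List.mem_ofFn.1 hx
  exact (π s).2

theorem Alt_zero (L : ℕ) : Alt L 0 = wd [] := by
  simp [Alt]

/-- The permutation with first value `s` and the other values in the order `π`. -/
def a2_perm {k : ℕ} (p : Fin (k + 1) × Equiv.Perm (Fin k)) : Equiv.Perm (Fin (k + 1)) :=
  p.1.cycleRange⁻¹ * Equiv.Perm.decomposeFin.symm (0, p.2)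

theorem a2_perm_zero {k : ℕ} (p : Fin (k + 1) × Equiv.Perm (Fin k)) : a2_perm p 0 = p.1 := by
  simp [a2_perm, Equiv.Perm.inv_def]

theorem a2_perm_succ {k : ℕ} (p : Fin (k + 1) × Equiv.Perm (Fin k)) (i : Fin k) :
    ((a2_perm p i.succ : Fin (k + 1)) : ℕ) = sa p.1 (p.2 i) := by
  have : a2_perm p i.succ = p.1.succAbove (p.2 i) := by simp [a2_perm, Equiv.Perm.inv_def]
  rw [this, Fin.succAbove, sa]
  simp only [Fin.lt_def, Fin.val_castSucc]
  split_ifs <;> rfl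

theorem a2_perm_sign {k : ℕ} (p : Fin (k + 1) × Equiv.Perm (Fin k)) :
    ((Equiv.Perm.sign (a2_perm p) : ℤˣ) : ℤ) = (-1) ^ (p.1 : ℕ) * (Equiv.Perm.sign p.2 : ℤˣ) := by
  simp [a2_perm]

theorem a2_perm_bij (k : ℕ) : Function.Bijective (a2_perm (k := k)) := by
  refine (Fintype.bijective_iff_injective_and_card _).2 ⟨fun p q h => ?_, ?_⟩
  · have h1 : p.1 = q.1 := by rw [← a2_perm_zero p, h, a2_perm_zero]
    rw [a2_perm, a2_perm, h1, mul_right_inj, Equiv.apply_eq_iff_eq] at h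
    exact Prod.ext h1 (Prod.ext_iff.1 h).2
  · simp [Fintype.card_perm, Nat.factorial_succ]

/-- The sum of the cones over the lifts of the point `s`. -/
def a2_cone (L s : ℕ) : Ch ℤ (ℕ × ℤ) →ₗ[ℤ] Ch ℤ (ℕ × ℤ) := ∑ a : Fin L, cons (s, ((a : ℕ) : ℤ))

theorem a2_cone_apply (L s : ℕ) (c : Ch ℤ (ℕ × ℤ)) :
    a2_cone L s c = ∑ a : Fin L, cons (s, ((a : ℕ) : ℤ)) c := LinearMap.sum_apply _ _ _

theorem a2_cone_mp (L s t : ℕ) (c : Ch ℤ (ℕ × ℤ)) :
    mp (dl t) (a2_cone L s c) = a2_cone L (sa t s) (mp (dl t) c) := by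
  simp only [a2_cone_apply, map_sum, mp_cons, dl]

theorem a2_cone_bd (L s : ℕ) (c : Ch ℤ (ℕ × ℤ)) :
    bd (a2_cone L s c) = (L : ℤ) • c - a2_cone L s (bd c) := by
  simp [a2_cone_apply, bd_cons]

theorem a2_succ (L k : ℕ) : Alt L (k + 1) =
    ∑ s ∈ Finset.range (k + 1), (-1 : ℤ) ^ s • a2_cone L s (mp (dl s) (Alt L k)) := by
  rw [Alt, ← (a2_perm_bij k).sum_comp, Fintype.sum_prod_type, Finset.sum_range]
  refine Finset.sum_congr rfl fun s _ => ?_
  simp only [Alt, map_sum, Finset.smul_sum]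
  refine Finset.sum_congr rfl fun π _ => ?_
  rw [← (Fin.consEquiv fun _ => Fin L).sum_comp, Fintype.sum_prod_type, Finset.sum_comm]
  refine Finset.sum_congr rfl fun α _ => ?_
  rw [map_smul, map_smul, a2_cone_apply, Finset.smul_sum, Finset.smul_sum]
  refine Finset.sum_congr rfl fun a _ => ?_
  rw [a2_perm_sign, mul_smul, mp_wd, cons_wd, List.ofFn_succ, List.map_ofFn]
  simp only [a2_perm_zero, a2_perm_succ]
  rfl

theorem a2_dl (s t : ℕ) (h : t ≤ s) (x : ℕ × ℤ) : dl t (dl s x) = dl (s + 1) (dl t x) :=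
  Prod.ext (sa_sa h _) rfl

theorem a2_swap (L j : ℕ) (c : Ch ℤ (ℕ × ℤ)) :
    alt dl (j + 1) (∑ s ∈ Finset.range (j + 1), (-1 : ℤ) ^ s • a2_cone L s (mp (dl s) c)) =
      -∑ s ∈ Finset.range (j + 2), (-1 : ℤ) ^ s • a2_cone L s (mp (dl s) (alt dl j c)) := by
  rw [alt_apply]
  simp only [alt_apply, map_sum, map_smul, Finset.smul_sum, a2_cone_mp, mp_mp, smul_smul,
    ← Finset.sum_neg_distrib, ← Finset.sum_product', ← pow_add]
  let φ : ℕ × ℕ → ℕ × ℕ := fun p => if p.2 < p.1 then (p.2, p.1 - 1) else (p.2 + 1, p.1)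
  refine Finset.sum_nbij' φ φ ?_ ?_ ?_ ?_ ?_
  iterate 2
    rintro ⟨t, s⟩
    simp only [φ, Finset.mem_product, Finset.mem_range]
    split_ifs <;> dsimp only <;> omega
  iterate 2
    rintro ⟨t, s⟩ -
    by_cases h : s < t
    · simp only [φ, if_pos h, if_neg (show ¬t - 1 < s by omega), show t - 1 + 1 = t by omega]
    · simp only [φ, if_neg h, if_pos (show t < s + 1 by omega), Nat.add_sub_cancel]
  rintro ⟨t, s⟩ -
  simp only [φ, sa]
  split_ifs with h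
  · obtain ⟨r, rfl⟩ : ∃ r, t = r + 1 := ⟨t - 1, by omega⟩
    have e : dl (r + 1) ∘ dl s = dl s ∘ dl r := funext fun x => (a2_dl r s (by omega) x).symm
    rw [e, ← neg_smul, Nat.add_sub_cancel]
    congr 1
    ring
  · have e : dl t ∘ dl s = dl (s + 1) ∘ dl t := funext fun x => a2_dl s t (by omega) x
    rw [e, ← neg_smul]
    congr 1
    ring

/-- Sketch: `dW_eq_sum`; for the deleted position `r` and the value `s = π r`, permutations of
`Fin (k + 1)` with `π r = s` correspond to `π'` with `π (r.succAbove i) = s.succAbove (π' i)` and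
`sign π = (-1) ^ (r + s) sign π'` (`Equiv.Perm.decomposeFin`, `Fin.cycleRange`,
`Fin.sign_cycleRange`, as in `Matrix.det_succ_row`).  The `L` values of `α r` and the `k + 1`
positions `r` give the factor.  An induction that avoids this is also welcome, for instance
`Alt L (k + 1) = ∑ s, ∑ α, (-1) ^ s • cons (s, α) (mp (dl s) (Alt L k))` and `alt_alt`. -/
theorem bd_Alt (L k : ℕ) : bd (Alt L (k + 1)) = ((L * (k + 1) : ℕ) : ℤ) • alt dl k (Alt L k) := by
  have key : ∀ k, bd (Alt L (k + 1)) = (L : ℤ) • alt dl k (Alt L k) -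
      ∑ s ∈ Finset.range (k + 1), (-1 : ℤ) ^ s • a2_cone L s (mp (dl s) (bd (Alt L k))) := by
    intro k
    rw [a2_succ, alt_apply, map_sum, Finset.smul_sum, ← Finset.sum_sub_distrib]
    refine Finset.sum_congr rfl fun s _ => ?_
    rw [map_smul, a2_cone_bd, bd_mp, smul_sub, smul_comm]
  induction k with
  | zero => simp [key, Alt_zero]
  | succ k ih =>
    have h := a2_swap L k (Alt L k)
    rw [← a2_succ] at h
    rw [key, ih]
    simp only [map_smul]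
    rw [Finset.sum_congr rfl fun _ _ => smul_comm _ _ _, ← Finset.smul_sum, sub_eq_add_neg,
      ← smul_neg, ← h, ← add_smul]
    congr 1
    push_cast
    ring

/-- The word `(0, 0), …, (k - 1, 0)`. -/
def iot (k : ℕ) : Ch ℤ (ℕ × ℤ) := wd ((List.range k).map fun i => (i, (0 : ℤ)))

theorem a2_bd_iot (k : ℕ) : bd (iot (k + 1)) = alt dl k (iot k) := bd_range (fun _ _ => rfl) k

theorem a2_iot_mem (k : ℕ) : iot k ∈ sp ℤ fun u => u.length = k ∧ ∀ x ∈ u, x.1 < k := by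
  refine wd_mem ⟨by simp, fun x hx => ?_⟩
  obtain ⟨s, hs, rfl⟩ := List.mem_map.1 hx
  exact List.mem_range.1 hs

theorem a2_alt_mem {k n : ℕ} {c : Ch ℤ (ℕ × ℤ)}
    (hc : c ∈ sp ℤ fun u => u.length = n ∧ ∀ x ∈ u, x.1 < k) :
    alt dl k c ∈ sp ℤ fun u => u.length = n ∧ ∀ x ∈ u, x.1 < k + 1 := by
  rw [alt_apply]
  refine Submodule.sum_mem _ fun s _ => Submodule.smul_mem _ _ (sp_map _ _ (fun w hw => ?_) hc)
  rw [mp_wd]
  refine wd_mem ⟨by simp [hw.1], fun x hx => ?_⟩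
  obtain ⟨y, hy, rfl⟩ := List.mem_map.1 hx
  have := hw.2 y hy
  simp only [dl, sa]
  split_ifs <;> omega

theorem a2_fill {k : ℕ} {c : Ch ℤ (ℕ × ℤ)}
    (hc : c ∈ sp ℤ fun u => u.length = k + 1 ∧ ∀ x ∈ u, x.1 < k + 1) (h : bd c = 0) :
    ∃ h' ∈ sp ℤ (fun u : List (ℕ × ℤ) => u.length = k + 2 ∧ ∀ x ∈ u, x.1 < k + 1), bd h' = c := by
  refine ⟨cons (0, 0) c, sp_map _ _ (fun w hw => ?_) hc, by simp [bd_cons, h]⟩
  rw [cons_wd]
  exact wd_mem ⟨by simp [hw.1], List.forall_mem_cons.2 ⟨k.succ_pos, hw.2⟩⟩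

/-- Sketch: induction on `k`.  `h 0 = 0`, `c 0 = 1`; `c (k + 1) = L (k + 1) c k`; with `h k` for
`c k` put `h (k + 1) = cons (0, 0) (c (k + 1) • iot (k + 1) - Alt (k + 1) - L (k + 1) • alt dl k (h k))`.
Carry the statement `bd (h (k + 1)) = c (k + 1) • iot (k + 1) - Alt (k + 1) - L (k + 1) • alt dl k (h k)`;
the right side is a cycle by `bd_range`, `bd_Alt`, `bd_alt`, `alt_alt`. -/
theorem exists_alt_homotopy (L k : ℕ) :
    ∃ h ∈ sp ℤ (fun u : List (ℕ × ℤ) => u.length = k + 1 ∧ ∀ x ∈ u, x.1 < k),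
    ∃ h' ∈ sp ℤ (fun u : List (ℕ × ℤ) => u.length = k + 2 ∧ ∀ x ∈ u, x.1 < k + 1),
      bd h' = ((L ^ (k + 1) * (k + 1).factorial : ℕ) : ℤ) • iot (k + 1) - Alt L (k + 1) -
        alt dl k h := by
  have mem : ∀ {k : ℕ} (c : ℤ) {h : Ch ℤ (ℕ × ℤ)},
      (h ∈ sp ℤ fun u => u.length = k + 1 ∧ ∀ x ∈ u, x.1 < k) →
      c • iot (k + 1) - Alt L (k + 1) - alt dl k h ∈
        sp ℤ fun u => u.length = k + 1 ∧ ∀ x ∈ u, x.1 < k + 1 := fun c _ hh =>
    sub_mem (sub_mem (Submodule.smul_mem _ _ (a2_iot_mem _)) (Alt_mem _ _)) (a2_alt_mem hh)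
  induction k with
  | zero =>
    refine ⟨0, zero_mem _, a2_fill (mem _ (zero_mem _)) ?_⟩
    rw [map_sub, map_sub, map_smul, a2_bd_iot, bd_Alt, Alt_zero]
    simp [iot]
  | succ k ih =>
    obtain ⟨h, -, h', hh', e⟩ := ih
    have hm := Submodule.smul_mem _ ((L * (k + 1 + 1) : ℕ) : ℤ) hh'
    refine ⟨_, hm, a2_fill (mem _ hm) ?_⟩
    rw [map_sub, map_sub, map_smul, a2_bd_iot, bd_Alt, bd_alt, map_smul, e, map_smul, map_sub,
      map_sub, alt_alt a2_dl, map_smul, Nat.factorial_succ (k + 1)]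
    push_cast
    module

end

end Pool.Agent.Lib.MP_446a91_nt.Sou
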