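import Pool.Agent.Lib.MP_446a91_nt.Sou.A2

/-! All configurations are equivalent to the standard one; the universal cycle. -/

namespace Pool.Agent.Lib.MP_446a91_nt.Sou

noncomputable section

theorem a3_sort {α : Type} [Fintype α] (r : α → α → Prop) (h1 : ∀ i, r i i)
    (h2 : ∀ i j m, r i j → r j m → r i m) (h3 : ∀ i j, r i j → r j i → i = j)
    (h4 : ∀ i j, r i j ∨ r j i) {k : ℕ} (h : Fintype.card α = k) :
    ∃ e : α ≃ Fin k, ∀ i j, e i ≤ e j ↔ r i j := by
  let _ : LinearOrder α :=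
    { le := r, le_refl := h1, le_trans := h2, le_antisymm := h3, le_total := h4,
      toDecidableLE := Classical.decRel _ }
  exact ⟨(monoEquivOfFin α h).symm.toEquiv, fun i j => (monoEquivOfFin α h).symm.le_iff_le⟩

theorem a3_mod {L : ℕ} [NeZero L] (b : ℤ) : ∃ c : Fin L, ∀ x : Fin L, ∃ t : ℤ,
    (((x + c : Fin L) : ℕ) : ℤ) = (x : ℕ) + b - L * t := by
  have hL : (L : ℤ) ≠ 0 := Nat.cast_ne_zero.2 (NeZero.ne L)
  have h1 := Int.emod_nonneg b hL
  have h2 := Int.emod_lt_of_pos b (Int.natCast_pos.2 (NeZero.pos L))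
  refine ⟨⟨(b % L).toNat, by omega⟩, fun x => ⟨b / L + ((x : ℕ) + b % L) / L, ?_⟩⟩
  rw [Fin.val_add, Int.natCast_mod, Nat.cast_add, Int.toNat_of_nonneg h1, Int.emod_def]
  linarith [Int.emod_def b L]

/-- Sketch: move each point `i` by `β i = - a 0 i`, so that `a' 0 i = 0`; then `a' i j ∈ {0, -1}`
and `i ≼ j ↔ a' i j = 0` is a linear order on `Fin k`; let `π i` be the number of `j ≠ i` with
`j ≼ i` (injective, hence a permutation), or use `Tuple.sort` / `Finset.orderIsoOfFin`. -/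
theorem exists_sort {k : ℕ} {a : Cf} (h : Val k a) :
    ∃ (π : Equiv.Perm (Fin k)) (β : Fin k → ℤ), ∀ i j : Fin k,
      a i j = std (π i) (π j) + β j - β i := by
  obtain _ | k := k
  · exact ⟨1, 0, fun i => i.elim0⟩
  have h0 : 0 ∈ {i | i < k + 1} := k.succ_pos
  have h1 : ∀ i j : Fin (k + 1), a 0 i + a i j ≤ a 0 j := fun i j => h.tri _ h0 _ i.2 _ j.2
  have h2 : ∀ i : Fin (k + 1), a i i = 0 := fun i => h.diag _ i.2
  have h3 : ∀ i j : Fin (k + 1), i = j ∨ a i j + a j i = -1 := fun i j =>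
    or_iff_not_imp_left.2 fun e => h.anti _ i.2 _ j.2 (Fin.val_ne_of_ne e)
  obtain ⟨π, hπ⟩ := a3_sort (fun i j : Fin (k + 1) => a 0 j ≤ a 0 i + a i j)
    (fun i => by rw [h2, add_zero]) (fun i j m _ _ => by linarith [h.tri _ i.2 _ j.2 _ m.2])
    (fun i j _ _ => (h3 i j).resolve_right (by omega))
    (fun i j => (h3 i j).elim (fun e => by simp [e, h2]) (by omega)) (Fintype.card_fin _)
  refine ⟨π, fun i => a 0 i, fun i j => ?_⟩
  have h4 := h1 i j
  have h5 := h1 j i
  have h6 := hπ i j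
  rw [Fin.le_def] at h6
  rcases h3 i j with rfl | e
  · simp [std, h2]
  · simp only [std, h6]
    split_ifs <;> omega

/-- The value of a cochain on the alternating average of the configuration `a`. -/
def avg {M : Type} [AddCommGroup M] (L k : ℕ) (κ : Cf → M) (a : Cf) : M :=
  lin ℤ (fun u => κ (pull u a)) (Alt L k)

/-- Sketch: reindex the sum by `(π', α) ↦ (π * π', α')` with `α' s ≡ α s + β (π' s)` modulo `L`;
the configurations agree up to `Eqv` (for `s > t` use `anti`, the indices being distinct). -/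
theorem avg_perm {M : Type} [AddCommGroup M] {L k : ℕ} (hL : L ≠ 0) {κ : Cf → M}
    (hκ : Shift L k κ) {a a' : Cf} (ha' : Val k a') (π : Equiv.Perm (Fin k)) (β : Fin k → ℤ)
    (h : ∀ i j : Fin k, a i j = a' (π i) (π j) + β j - β i) :
    avg L k κ a = ((Equiv.Perm.sign π : ℤˣ) : ℤ) • avg L k κ a' := by
  have : NeZero L := ⟨hL⟩
  simp only [avg, Alt, map_sum, map_smul, lin_wd]
  rw [← Equiv.sum_comp (Equiv.mulLeft π) fun π' : Equiv.Perm (Fin k) => ∑ α : Fin k → Fin L,
    ((Equiv.Perm.sign π' : ℤˣ) : ℤ) • κ (pull (List.ofFn fun s =>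
      (((π' s : Fin k) : ℕ), ((α s : ℕ) : ℤ))) a'), Finset.smul_sum]
  refine Finset.sum_congr rfl fun π' _ => ?_
  choose c t ht using fun s => a3_mod (L := L) (β (π' s))
  rw [Finset.smul_sum]
  refine Fintype.sum_equiv (Equiv.addRight c) _ _ fun α => ?_
  rw [Equiv.coe_mulLeft, smul_smul, Equiv.Perm.sign_mul, Units.val_mul, ← mul_assoc,
    ← Units.val_mul, Int.units_mul_self, Units.val_one, one_mul]
  refine congrArg _ (hκ _ _ ?_
    ⟨fun n => if h : n < k then t ⟨n, h⟩ (α ⟨n, h⟩) else 0, fun i hi j hj => ?_⟩).symm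
  · simpa using ha'.pull (u := List.ofFn fun s => ((((π * π') s : Fin k) : ℕ),
      ((Equiv.addRight c α s : ℕ) : ℤ))) (by simp)
  · simp only [pull, List.getD_eq_getElem?_getD, List.getElem?_ofFn, hi, hj, dif_pos,
      Option.getD_some, h, Equiv.coe_addRight, Pi.add_apply, ht, Equiv.Perm.mul_apply]
    split_ifs <;> ring

/-- Sketch: `std i j = std (π i) (π j) + β j - β i` for the rotation `π = finRotate` (sign
`(-1) ^ (k - 1)`, `sign_finRotate`) and `β = 1` at the last point, `0` elsewhere. -/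
theorem avg_even {M : Type} [AddCommGroup M] (hM : ∀ x : M, x + x = 0 → x = 0) {L k : ℕ}
    (hL : L ≠ 0) (hk : Even k) (hk0 : k ≠ 0) {κ : Cf → M} (hκ : Shift L k κ) {a : Cf}
    (ha : Val k a) : avg L k κ a = 0 := by
  obtain ⟨π, β, h⟩ := exists_sort ha
  obtain ⟨m, rfl⟩ := Nat.exists_eq_succ_of_ne_zero hk0
  have h1 := avg_perm hL hκ (a := std) (val_std _) (finRotate (m + 1))
    (fun i => if i = Fin.last m then 1 else 0) fun i j => by
      have h2 := i.is_le
      have h3 := j.is_le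
      simp only [std, coe_finRotate, Fin.ext_iff, Fin.val_last]
      split_ifs <;> omega
  rw [sign_finRotate, Nat.succ_sub_one,
    (Nat.not_even_iff_odd.1 (Nat.even_add_one.1 hk)).neg_one_pow, Units.val_neg, Units.val_one,
    neg_one_smul] at h1
  rw [avg_perm hL hκ (val_std _) π β h, hM _ (add_eq_zero_iff_eq_neg.2 h1), smul_zero]

/-- The alternating average of the standard configuration of `k + 1` points is a cycle. -/
theorem avg_cob {M : Type} [AddCommGroup M] (hM : ∀ x : M, x + x = 0 → x = 0) {L k : ℕ}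
    (hL : L ≠ 0) (hk : Even k) (hk0 : k ≠ 0) {μ : Cf → M} (hμ : Shift L k μ) :
    avg L (k + 1) (cob k μ) std = 0 := by
  rw [avg, ← lin_pull_bd μ std (Alt_mem L (k + 1)), bd_Alt, map_smul,
    lin_pull_alt hμ (val_std _) (Alt_mem L k), cob, Finset.sum_eq_zero, smul_zero]
  exact fun s _ => smul_eq_zero_of_right _ (avg_even hM hL hk hk0 hμ (val_std _).face)

/-- Every cocycle is, up to a constant and a coboundary, a multiple of the sign cocycle.
Sketch: evaluate `exists_alt_homotopy` with `lin fun u => κ (pull u a)`. -/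
theorem exists_sgn {L : ℕ} (hL : L ≠ 0) (k : ℕ) : ∃ sg : Cf → ℤ,
    ∀ (M : Type) [AddCommGroup M] (κ : Cf → M), Shift L (k + 1) κ →
      (∀ a, Val (k + 2) a → cob (k + 1) κ a = 0) →
      ∃ μ : Cf → M, Shift L k μ ∧ ∀ a, Val (k + 1) a →
        ((L ^ (k + 1) * (k + 1).factorial : ℕ) : ℤ) • κ a =
          sg a • avg L (k + 1) κ std + cob k μ a := by
  choose π β hπ using fun (a : Cf) (h : Val (k + 1) a) => exists_sort h
  obtain ⟨h, h1, h', h2, e⟩ := exists_alt_homotopy L k
  classical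
  refine ⟨fun a => if h : Val (k + 1) a then (Equiv.Perm.sign (π a h) : ℤˣ) else 0,
    fun M _ κ hκ h0 => ⟨_, shift_lin_pull hκ h1, fun a ha => ?_⟩⟩
  have e1 := congrArg (lin ℤ fun u => κ (pull u a)) e
  rw [lin_pull_bd κ a h2, lin_congr (fun u hu => h0 _ (hu.1 ▸ ha.pull hu.2)) h2, lin_zero, map_sub,
    map_sub, map_smul, iot, lin_wd, ← hκ.congr ha (pull_range ha), lin_pull_alt hκ ha h1,
    sub_sub] at e1
  simp only [dif_pos ha, ← avg_perm hL hκ (val_std _) _ _ (hπ a ha)]
  exact sub_eq_zero.1 e1.symm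

end

end Pool.Agent.Lib.MP_446a91_nt.Sou
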