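import Pool.Agent.Lib.MP_446a91_nt.Sou.A3

/-! The Euler cocycle and the configurations of points of a regular polygon. -/

namespace Pool.Agent.Lib.MP_446a91_nt.Sou

noncomputable section

/-- The Euler two-cocycle. -/
def eul (L : ℕ) (a : Cf) (s t v : ℕ) : ℤ := a s v / L - a s t / L - a t v / L

/-- Its `j`-th power. -/
def Eul (L j : ℕ) (a : Cf) : ℤ := pw (eul L a) j (List.range (2 * j + 1))

theorem shift_Eul {L : ℕ} (hL : L ≠ 0) (j : ℕ) : Shift L (2 * j + 1) (Eul L j) := by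
  rintro a a' - ⟨s, hs⟩
  have hL' : (L : ℤ) ≠ 0 := Int.natCast_ne_zero.2 hL
  refine pw_congr j _ fun x y z h => ?_
  have m : ∀ i ∈ [x, y, z], i < 2 * j + 1 := fun i hi => List.mem_range.1 (h.subset hi)
  have hx := m x (by simp)
  have hy := m y (by simp)
  have hz := m z (by simp)
  simp only [eul, hs x hx z hz, hs x hx y hy, hs y hy z hz, Int.add_mul_ediv_left _ _ hL']
  ring

/-- Sketch: `coc_pw`, `dW_eq_sum`, `pw_map` for `sa s`. -/
theorem cob_Eul (L j : ℕ) (a : Cf) : cob (2 * j + 1) (Eul L j) a = 0 := by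
  have h1 := coc_pw (u := eul L a) (fun x y z v => by simp only [eul]; ring) j
    ((List.range (2 * j + 1 + 1)).map id) (by simp)
  rw [← bd_wd, bd_range (δ := sa) (fun _ _ => rfl), alt_apply, map_sum] at h1
  rw [cob, ← h1]
  refine Finset.sum_congr rfl fun s _ => ?_
  rw [map_smul, mp_wd, lin_wd, List.map_id,
    pw_map (u := eul L (face s a)) (sa s) (fun _ _ _ => rfl), Eul]

/-- The configuration of the points `p s / N`, ties broken by the position. -/
def conf (N : ℕ) (p : List ℤ) : Cf := fun s t =>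
  if s ≤ t then (p.getD t 0 - p.getD s 0) / N else -1 - (p.getD s 0 - p.getD t 0) / N

theorem val_conf {N : ℕ} (hN : N ≠ 0) (p : List ℤ) (k : ℕ) : Val k (conf N p) := by
  have hN' : (0 : ℤ) < N := Int.natCast_pos.2 (Nat.pos_of_ne_zero hN)
  have key : ∀ x y z : ℤ, (y - x) / N + (z - y) / N ≤ (z - x) / N ∧
      (z - x) / N < (y - x) / N + (z - y) / N + 2 := fun x y z => by
    rw [Int.le_ediv_iff_mul_le hN', Int.ediv_lt_iff_lt_mul hN']
    constructor
    · linarith [Int.ediv_mul_le (y - x) hN'.ne', Int.ediv_mul_le (z - y) hN'.ne']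
    · linarith [Int.lt_ediv_add_one_mul_self (y - x) hN', Int.lt_ediv_add_one_mul_self (z - y) hN']
  refine ⟨fun i _ => by simp [conf], fun i _ j _ h => ?_, fun i _ j _ m _ => ?_⟩
  · simp only [conf]
    split_ifs <;> omega
  · simp only [conf]
    generalize p.getD i 0 = x
    generalize p.getD j 0 = y
    generalize p.getD m 0 = z
    have h1 := key x y z
    have h2 := key x z y
    have h3 := key y x z
    have h4 := key y z x
    have h5 := key z x y
    have h6 := key z y x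
    split_ifs <;> omega

theorem conf_eraseIdx (N : ℕ) (p : List ℤ) (s : ℕ) :
    conf N (p.eraseIdx s) = face s (conf N p) := by
  have h1 : ∀ t, (p.eraseIdx s).getD t 0 = p.getD (sa s t) 0 := fun t => by
    simp only [List.getD_eq_getElem?_getD, List.getElem?_eraseIdx, sa]
    split_ifs <;> rfl
  funext i j
  have h2 : sa s i ≤ sa s j ↔ i ≤ j := by unfold sa; split_ifs <;> omega
  simp only [conf, face, h1, h2]

/-- The cyclic group of order `M`. -/
abbrev Cy (M : ℕ) : Type := Multiplicative (ZMod M)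

/-- The representative in `[0, M)`. -/
def rep {M : ℕ} (x : Cy M) : ℤ := (x.toAdd.val : ℤ)

/-- The configuration of a word in the cyclic group. -/
def cyf (N : ℕ) {M : ℕ} (w : List (Cy M)) : Cf := conf N (w.map rep)

/-- The standard cycle. -/
def zM (M j : ℕ) : Ch ℤ (Cy M) := zc (Multiplicative.ofAdd 1) M j

theorem a4_rep {M : ℕ} [NeZero M] (g x : Cy M) : ∃ c : ℤ, rep (g * x) = rep g + rep x + M * c := by
  obtain ⟨c, hc⟩ := (ZMod.intCast_zmod_eq_zero_iff_dvd (rep (g * x) - (rep g + rep x)) M).1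
    (by simp [rep])
  exact ⟨c, by linarith⟩

theorem a4_getD {M : ℕ} (w : List (Cy M)) (i : ℕ) : (w.map rep).getD i 0 = rep (w.getD i 1) := by
  rw [← List.getD_map w 1 rep]
  simp [rep]

theorem cyf_eqv {L N : ℕ} (hL : L ≠ 0) (hN : N ≠ 0) (g : Cy (L * N)) (w : List (Cy (L * N))) :
    Eqv L w.length (cyf N w) (cyf N (w.map (g * ·))) := by
  have : NeZero (L * N) := ⟨mul_ne_zero hL hN⟩
  have hN' : (N : ℤ) ≠ 0 := Int.natCast_ne_zero.2 hN
  choose c hc using a4_rep g
  refine ⟨fun i => c (w.getD i 1), fun i hi j hj => ?_⟩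
  have e : ∀ x y, (rep (g * y) - rep (g * x)) / N = (rep y - rep x) / N + L * (c y - c x) :=
    fun x y => by
      rw [← Int.add_mul_ediv_left _ _ hN', hc, hc]
      congr 1
      push_cast
      ring
  have e1 : ∀ i < w.length, (w.map (g * ·)).getD i 1 = g * w.getD i 1 := fun i hi => by
    simp [List.getD_eq_getElem?_getD, List.getElem?_eq_getElem hi]
  simp only [cyf, conf, a4_getD, e1 i hi, e1 j hj, e]
  split_ifs <;> ring

/-- Sketch: on words of length `2 j + 1`, `Eul (cyf w) = pw u j w` for the invariant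
`u x y z = (rep z - rep x) / M - (rep y - rep x) / M - (rep z - rep y) / M` (`Int.ediv_ediv`,
`pw_congr`, `pw_map`); `lin_pw_zc`; `u 1 (g ^ a) (g ^ (a + 1))` is `1` for `a = M - 1` and `0` for
`a < M - 1`. -/
theorem Eul_zM {L N : ℕ} (hL : L ≠ 0) (hN : 2 ≤ N) (j : ℕ) :
    lin ℤ (fun w => Eul L j (cyf N w)) (zM (L * N) j) = 1 := by
  obtain ⟨M, hM⟩ : ∃ M, L * N = M + 2 :=
    ⟨L * N - 2, by have := Nat.le_mul_of_pos_left N (Nat.pos_of_ne_zero hL); omega⟩
  have : NeZero (L * N) := ⟨by omega⟩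
  have hM0 : (0 : ℤ) < (L * N : ℕ) := Int.natCast_pos.2 (by omega)
  obtain ⟨u, hu⟩ : ∃ u : Cy (L * N) → Cy (L * N) → Cy (L * N) → ℤ, ∀ x y z, u x y z =
      (rep z - rep x) / (L * N : ℕ) - (rep y - rep x) / (L * N : ℕ) -
        (rep z - rep y) / (L * N : ℕ) := ⟨_, fun _ _ _ => rfl⟩
  have h1 : ∀ w : List (Cy (L * N)), w.length = 2 * j + 1 → Eul L j (cyf N w) = pw u j w := by
    intro w hw
    have e : w = (List.range (2 * j + 1)).map fun i => w.getD i 1 :=
      List.ext_getElem (by simp [hw]) fun i h1 h2 => by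
        simp [List.getD_eq_getElem?_getD, List.getElem?_eq_getElem h1]
    conv_rhs => rw [e]
    rw [pw_map (u := fun a b c => u (w.getD a 1) (w.getD b 1) (w.getD c 1)) _ (fun _ _ _ => rfl)]
    refine pw_congr j _ fun x y z h => ?_
    have h2 := List.pairwise_lt_range.sublist h
    simp only [List.pairwise_cons, List.mem_cons, List.not_mem_nil, or_false, forall_eq_or_imp,
      forall_eq] at h2
    simp only [eul, cyf, conf, a4_getD, hu, if_pos h2.1.1.le, if_pos h2.1.2.le, if_pos h2.2.1.le,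
      Int.ediv_ediv_of_nonneg (Int.natCast_nonneg N), Nat.cast_mul, mul_comm]
  have h2 : ∀ g a b c, u (g * a) (g * b) (g * c) = u a b c := fun g a b d => by
    choose c hc using a4_rep g
    have e : ∀ x y, (rep (g * y) - rep (g * x)) / (L * N : ℕ) =
        (rep y - rep x) / (L * N : ℕ) + (c y - c x) := fun x y => by
      rw [← Int.add_mul_ediv_left _ _ hM0.ne', hc, hc]
      congr 1
      ring
    simp only [hu, e]
    ring
  have h3 : ∀ x : Cy (L * N), (rep x - rep (1 : Cy (L * N))) / (L * N : ℕ) = 0 := fun x => by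
    rw [show rep (1 : Cy (L * N)) = 0 by simp [rep], sub_zero]
    exact Int.ediv_eq_zero_of_lt (Int.natCast_nonneg _) (Int.ofNat_lt.2 (ZMod.val_lt _))
  have h4 : ∀ a : ℕ, rep (Multiplicative.ofAdd (1 : ZMod (L * N)) ^ a) = (a % (L * N) : ℕ) :=
    fun a => by rw [rep, toAdd_pow, toAdd_ofAdd, nsmul_eq_mul, mul_one, ZMod.val_natCast]
  rw [zM, lin_congr h1 (zc_len _ _ _), lin_pw_zc h2]
  refine pow_eq_one_iff_cases.2 (Or.inr (Or.inl ?_))
  rw [show Finset.range (L * N) = Finset.range (M + 1 + 1) by rw [hM], Finset.sum_range_succ,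
    Finset.sum_eq_zero, zero_add]
  · rw [hu, h3, h3, h4, h4, hM, Nat.mod_self, Nat.mod_eq_of_lt (Nat.lt_succ_self _),
      (Int.ediv_eq_iff_of_pos (y := -1) (by omega)).2 (by omega)]
    rfl
  · intro a ha
    have := Finset.mem_range.1 ha
    rw [hu, h3, h3, h4, h4, Nat.mod_eq_of_lt (by omega), Nat.mod_eq_of_lt (by omega),
      Int.ediv_eq_zero_of_lt (by omega) (by omega)]
    rfl

theorem cob_zM {L N : ℕ} (hL : L ≠ 0) (hN : N ≠ 0) {j : ℕ} (hj : 1 ≤ j) {μ : Cf → ZMod N}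
    (hμ : Shift L (2 * j) μ) : lin ℤ (fun w => cob (2 * j) μ (cyf N w)) (zM (L * N) j) = 0 := by
  have hg : (Multiplicative.ofAdd (1 : ZMod (L * N))) ^ (L * N) = 1 := by
    rw [← ofAdd_nsmul, nsmul_eq_mul, mul_one, ZMod.natCast_self, ofAdd_zero]
  have h1 := (zc_cyc hg hj).weak (dvd_mul_left N L)
    (fun w => if w.length = 2 * j then μ (cyf N w) else 0) fun g w => by
      simp only [List.length_map, smul_eq_mul]
      split_ifs with h
      · exact (hμ _ _ (val_conf hN _ _) (h ▸ cyf_eqv hL hN g w)).symm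
      · rfl
  rw [lin_congr (g := fun w => μ (cyf N w)) (fun w hw => if_pos hw) (bd_len (zc_len _ _ _))] at h1
  rw [← h1, zM]
  refine sp_ext (ψ := lin ℤ (fun w => μ (cyf N w)) ∘ₗ bd) (fun w hw => ?_) (zc_len _ _ _)
  rw [lin_wd, LinearMap.comp_apply, bd_wd, dW_eq_sum, hw, map_sum, cob]
  refine Finset.sum_congr rfl fun s _ => ?_
  rw [map_smul, lin_wd, cyf, cyf, ← List.eraseIdx_map, conf_eraseIdx]

/-- Sketch: `c = L ^ q q!`, `ε = avg Eul std`, `deg = lin (sg ∘ cyf) zM`.  `exists_sgn` for `κ` and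
for `Eul` modulo `N` give `c κ(z) = deg κ(Z)` and `c = deg ε` modulo `N`.  If `ε = 0` then `N ∣ c` for
all `N ≥ 2`. -/
theorem conf_main {L : ℕ} (hL : L ≠ 0) {j : ℕ} (hj : 1 ≤ j) : ∃ c ε : ℤ, c ≠ 0 ∧ ε ≠ 0 ∧
    ∀ N : ℕ, 2 ≤ N → ∀ κ : Cf → ZMod N, Shift L (2 * j + 1) κ →
      (∀ a, Val (2 * j + 2) a → cob (2 * j + 1) κ a = 0) →
      c • avg L (2 * j + 1) κ std = (c * ε) • lin ℤ (fun w => κ (cyf N w)) (zM (L * N) j) := by
  obtain ⟨sg, hsg⟩ := exists_sgn hL (2 * j)
  obtain ⟨c, hc⟩ : ∃ c, c = L ^ (2 * j + 1) * (2 * j + 1).factorial := ⟨_, rfl⟩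
  have hc0 : c ≠ 0 := hc ▸ mul_ne_zero (pow_ne_zero _ hL) (Nat.factorial_ne_zero _)
  rw [← hc] at hsg
  have key : ∀ N : ℕ, 2 ≤ N → ∀ κ : Cf → ZMod N, Shift L (2 * j + 1) κ →
      (∀ a, Val (2 * j + 2) a → cob (2 * j + 1) κ a = 0) →
      (c : ℤ) • lin ℤ (fun w => κ (cyf N w)) (zM (L * N) j) =
        lin ℤ (fun w => sg (cyf N w)) (zM (L * N) j) • avg L (2 * j + 1) κ std := by
    intro N hN κ h1 h2
    obtain ⟨μ, h3, h4⟩ := hsg _ κ h1 h2
    have e := map_lin (LinearMap.toSpanSingleton ℤ _ (avg L (2 * j + 1) κ std))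
      (fun w => sg (cyf N w)) (zM (L * N) j)
    simp only [LinearMap.toSpanSingleton_apply] at e
    rw [← lin_smul, e, ← add_zero (lin ℤ (fun w => sg _ • _) _), ← cob_zM hL (by omega) hj h3,
      ← lin_add]
    exact congrArg (fun f => lin ℤ f _) (funext fun w => h4 _ (val_conf (by omega) _ _))
  have key2 : ∀ N : ℕ, 2 ≤ N → ((c : ℤ) : ZMod N) =
      ((lin ℤ (fun w => sg (cyf N w)) (zM (L * N) j) * avg L (2 * j + 1) (Eul L j) std : ℤ) :
        ZMod N) := by
    intro N hN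
    have e := key N hN (fun a => (Int.castAddHom (ZMod N)).toIntLinearMap (Eul L j a))
      (fun a a' h h' => congrArg _ (shift_Eul hL j a a' h h')) fun a _ => by
        simpa only [cob, map_sum, map_smul, map_zero] using
          congrArg (Int.castAddHom (ZMod N)).toIntLinearMap (cob_Eul L j a)
    rw [avg, ← map_lin, ← map_lin, Eul_zM hL hN] at e
    simpa [avg] using e
  refine ⟨c, avg L (2 * j + 1) (Eul L j) std, Int.natCast_ne_zero.2 hc0, fun h => ?_,
    fun N hN κ h1 h2 => ?_⟩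
  · have e := key2 (c + 1) (by omega)
    rw [h, mul_zero, Int.cast_zero, Int.cast_natCast, ZMod.natCast_eq_zero_iff] at e
    exact absurd (Nat.le_of_dvd (by omega) e) (by omega)
  · rw [mul_comm (c : ℤ), mul_smul, key N hN κ h1 h2, smul_smul, zsmul_eq_mul, zsmul_eq_mul, key2 N hN,
      mul_comm (avg L (2 * j + 1) (Eul L j) std)]

end

end Pool.Agent.Lib.MP_446a91_nt.Sou
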