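import Mathlib

/-!
Multilinear forms on matrices that are invariant under the orthogonal group: values on
labelings and the vanishing form of the first fundamental theorem (MP_446a91_nt, part I).
-/

namespace Pool.Agent.Lib.MP_446a91_nt.Sou

open Matrix

noncomputable section

/-- Multilinear forms in `d` matrices. -/
abbrev MForm (d : ℕ) (I : Type) : Type :=
  MultilinearMap ℝ (fun _ : Fin d => Matrix I I ℝ) ℝ

variable {d : ℕ} {I : Type} [Fintype I] [DecidableEq I]

/-- Invariance under the orthogonal group. -/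
def MForm.Orth (ω : MForm d I) : Prop :=
  ∀ U : Matrix I I ℝ, U * Uᵀ = 1 → ∀ a : Fin d → Matrix I I ℝ,
    ω (fun i => U * a i * Uᵀ) = ω a

/-- Alternating, symmetric in each matrix and invariant under the orthogonal group. -/
structure MForm.InvT (ω : MForm d I) : Prop where
  swap : ∀ (a : Fin d → Matrix I I ℝ) (i j : Fin d), i ≠ j →
    ω (fun s => a (Equiv.swap i j s)) = - ω a
  tr : ∀ (a : Fin d → Matrix I I ℝ) (i : Fin d), ω (Function.update a i (a i)ᵀ) = ω a
  orth : ω.Orth

/-- The elementary matrices of a labeling. -/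
def elm (l : Fin d × Bool → I) : Fin d → Matrix I I ℝ :=
  fun i => single (l (i, false)) (l (i, true)) 1

/-- Labelings as families of pairs. -/
def labE (d : ℕ) (I : Type) : (Fin d → I × I) ≃ (Fin d × Bool → I) where
  toFun r x := if x.2 then (r x.1).2 else (r x.1).1
  invFun l i := (l (i, false), l (i, true))
  left_inv r := by funext i; simp
  right_inv l := by funext ⟨i, b⟩; cases b <;> simp

theorem MForm.eq_zero (ω : MForm d I) (h : ∀ l, ω (elm l) = 0) : ω = 0 := by
  refine Module.Basis.ext_multilinear (fun _ => Matrix.stdBasis ℝ I I) fun v => ?_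
  have := h (labE d I v)
  rw [_root_.zero_apply, ← this]
  congr 1
  funext i
  have e : v i = ((v i).1, (v i).2) := rfl
  rw [e, Matrix.stdBasis_eq_single]
  simp [elm, labE]

theorem conj_single (U : Matrix I I ℝ) (p q : I) :
    U * single p q (1 : ℝ) * Uᵀ = ∑ r : I × I, (U r.1 p * U r.2 q) • single r.1 r.2 (1 : ℝ) := by
  ext a b
  rw [Matrix.sum_apply, Finset.sum_eq_single (a, b)]
  · simp [mul_apply, single, ite_and]
  · rintro ⟨a', b'⟩ _ hne
    have : ¬ (a' = a ∧ b' = b) := by simpa using hne
    simp [single, this]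
  · simp

theorem MForm.Orth.expand {ω : MForm d I} (h : ω.Orth) {U : Matrix I I ℝ} (hU : U * Uᵀ = 1)
    (l : Fin d × Bool → I) :
    ω (elm l) = ∑ l' : Fin d × Bool → I, (∏ x, U (l' x) (l x)) * ω (elm l') := by
  rw [← h U hU]
  simp only [elm, conj_single]
  rw [MultilinearMap.map_sum, ← (labE d I).sum_comp]
  refine Finset.sum_congr rfl fun r _ => ?_
  rw [MultilinearMap.map_smul_univ, smul_eq_mul, Fintype.prod_prod_type]
  congr 1
  refine Finset.prod_congr rfl fun i _ => ?_
  simp [labE, mul_comm]

/-- Signed permutations. -/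
theorem MForm.Orth.mono {ω : MForm d I} (h : ω.Orth) (σ : Equiv.Perm I) (ε : I → ℝ)
    (hε : ∀ a, ε a * ε a = 1) (l : Fin d × Bool → I) :
    ω (elm l) = (∏ x, ε (l x)) * ω (elm (σ ∘ l)) := by
  have hU : (Matrix.of fun a b => if a = σ b then ε b else 0) *
      (Matrix.of fun a b => if a = σ b then ε b else 0)ᵀ = 1 := by
    ext a b
    rw [mul_apply, Finset.sum_eq_single (σ.symm a)]
    · by_cases e : a = b
      · subst e; simp [hε]
      · simp [e, Ne.symm e]
    · intro c _ hc
      have : a ≠ σ c := fun e => hc (by simp [e])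
      simp [this]
    · simp
  rw [h.expand hU l, Finset.sum_eq_single (σ ∘ l)]
  · simp
  · intro l' _ hl
    obtain ⟨x, hx⟩ := Function.ne_iff.1 hl
    rw [Finset.prod_eq_zero (Finset.mem_univ x) (by simpa using fun e => absurd e hx), zero_mul]
  · simp

theorem MForm.Orth.perm {ω : MForm d I} (h : ω.Orth) (σ : Equiv.Perm I)
    (l : Fin d × Bool → I) : ω (elm (σ ∘ l)) = ω (elm l) := by
  simpa using (h.mono σ (fun _ => 1) (by simp) l).symm

/-- A label of multiplicity one kills the value. -/
theorem MForm.Orth.single_zero {ω : MForm d I} (h : ω.Orth) (l : Fin d × Bool → I)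
    (x : Fin d × Bool) (hx : ∀ y, l y = l x → y = x) : ω (elm l) = 0 := by
  have := h.mono 1 (fun a => if a = l x then -1 else 1) (fun a => by split_ifs <;> simp) l
  rw [Finset.prod_eq_single x (fun y _ hy => if_neg fun e => hy (hx y e)) (by simp)] at this
  simp at this
  linarith

/-- Every used label is used exactly twice. -/
def Reg2 {X : Type} (l : X → I) : Prop := ∀ x, ∃ y, y ≠ x ∧ ∀ z, l z = l x ↔ z = x ∨ z = y

theorem pow_add_pow_ne {m : ℕ} (h1 : m ≠ 0) (h2 : m ≠ 2) :
    (3 / 5 : ℝ) ^ m + (4 / 5) ^ m ≠ 1 := by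
  rcases m with _ | _ | _ | m
  · simp at h1
  · norm_num
  · simp at h2
  · have a1 : (3 / 5 : ℝ) ^ m ≤ 1 := pow_le_one₀ (by norm_num) (by norm_num)
    have a2 : (4 / 5 : ℝ) ^ m ≤ 1 := pow_le_one₀ (by norm_num) (by norm_num)
    have : (3 / 5 : ℝ) ^ (m + 1 + 1 + 1) + (4 / 5) ^ (m + 1 + 1 + 1) < 1 := by
      simp only [pow_succ]
      nlinarith
    exact this.ne

theorem exists_rot {p q : I} (hpq : p ≠ q) : ∃ U : Matrix I I ℝ, U * Uᵀ = 1 ∧
    (∀ a, U a p = if a = p then 3 / 5 else if a = q then 4 / 5 else 0) ∧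
    ∀ a b, b ≠ p → b ≠ q → U a b = if a = b then 1 else 0 := by
  set w : I → ℝ := Pi.single p 1 - Pi.single q 2 with hw
  have hww : w ⬝ᵥ w = 5 := by
    simp [hw, dotProduct_sub, hpq, hpq.symm]
    norm_num
  refine ⟨1 - (2 / 5 : ℝ) • vecMulVec w w, ?_, ?_, ?_⟩
  · have e : vecMulVec w w * vecMulVec w w = (5 : ℝ) • vecMulVec w w := by
      rw [vecMulVec_mul_vecMulVec, hww]
      ext a b
      simp [vecMulVec_apply]
      ring
    simp only [transpose_sub, transpose_one, transpose_smul, transpose_vecMulVec, sub_mul,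
      mul_sub, Matrix.one_mul, Matrix.mul_one, Matrix.smul_mul, Matrix.mul_smul, e, smul_smul]
    ext a b
    simp
    ring
  · intro a
    by_cases h1 : a = p
    · subst h1; simp [hw, vecMulVec_apply, hpq]; norm_num
    · by_cases h2 : a = q
      · subst h2; simp [hw, vecMulVec_apply, h1, hpq]; norm_num
      · simp [hw, vecMulVec_apply, Pi.single_apply, h1, h2, one_apply]
  · intro a b h1 h2
    simp [hw, vecMulVec_apply, Pi.single_apply, h1, h2, one_apply]

/-- An invariant form that vanishes on the perfect matchings vanishes. -/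
theorem MForm.Orth.zero_of_reg {ω : MForm d I} (h : ω.Orth) (hI : 2 * d < Fintype.card I)
    (h0 : ∀ l, Reg2 l → ω (elm l) = 0) : ω = 0 := by
  refine ω.eq_zero fun l => ?_
  have hc : ∀ l : Fin d × Bool → I, (Finset.univ.image l).card ≤ 2 * d := fun l =>
    Finset.card_image_le.trans (by simp [mul_comm])
  induction' hn : 2 * d - (Finset.univ.image l).card using Nat.strong_induction_on with n ih
    generalizing l
  by_cases hr : Reg2 l
  · exact h0 l hr
  obtain ⟨x, hx⟩ : ∃ x, (Finset.univ.filter fun z => l z = l x).card ≠ 2 := by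
    by_contra hcon
    push Not at hcon
    refine hr fun x => ?_
    obtain ⟨a, b, hab, e⟩ := Finset.card_eq_two.1 (hcon x)
    have e' : ∀ z, l z = l x ↔ z = a ∨ z = b := fun z => by
      simpa using Finset.ext_iff.1 e z
    rcases (e' x).1 rfl with rfl | rfl
    · exact ⟨b, hab.symm, e'⟩
    · exact ⟨a, hab, fun z => (e' z).trans or_comm⟩
  obtain ⟨q, hq⟩ : ∃ q, q ∉ Finset.univ.image l := by
    by_contra hcon
    push Not at hcon
    have := Finset.card_le_card (fun a _ => hcon a : Finset.univ ⊆ Finset.univ.image l)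
    have := hc l
    simp only [Finset.card_univ] at *
    omega
  have hq' : ∀ z, l z ≠ q := fun z e => hq (Finset.mem_image.2 ⟨z, by simp, e⟩)
  obtain ⟨U, hU, h1, h2⟩ := exists_rot (hq' x)
  set p := l x with hp
  set m := (Finset.univ.filter fun z => l z = p).card with hm
  have hm0 : m ≠ 0 := (Finset.card_pos.2 ⟨x, by simp [hp]⟩).ne'
  have hne : l ≠ Equiv.swap p q ∘ l := fun e => by
    have := congrFun e x
    simp only [Function.comp, ← hp, Equiv.swap_apply_left] at this
    exact hq' x this
  have key := h.expand hU l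
  rw [Finset.sum_eq_add l (Equiv.swap p q ∘ l) hne ?_ (by simp) (by simp), h.perm] at key
  · have e1 : ∏ z, U (l z) (l z) = (3 / 5 : ℝ) ^ m := by
      rw [hm, ← Finset.prod_const, Finset.prod_filter]
      refine Finset.prod_congr rfl fun z _ => ?_
      split_ifs with e
      · rw [e, h1]; simp
      · rw [h2 _ _ e (hq' z)]; simp
    have e2 : ∏ z, U ((Equiv.swap p q ∘ l) z) (l z) = (4 / 5 : ℝ) ^ m := by
      rw [hm, ← Finset.prod_const, Finset.prod_filter]
      refine Finset.prod_congr rfl fun z _ => ?_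
      split_ifs with e
      · rw [Function.comp, e, h1, Equiv.swap_apply_left, if_neg (hq' x).symm]; simp
      · rw [h2 _ _ e (hq' z), Function.comp, Equiv.swap_apply_of_ne_of_ne e (hq' z)]; simp
    rw [e1, e2, ← add_mul] at key
    by_contra hcon
    exact pow_add_pow_ne hm0 hx (mul_right_cancel₀ hcon (by rw [← key, one_mul]))
  · rintro l' - ⟨n1, n2⟩
    by_cases hz : ∏ z, U (l' z) (l z) = 0
    · rw [hz, zero_mul]
    have hz' : ∀ z, U (l' z) (l z) ≠ 0 := fun z e =>
      hz (Finset.prod_eq_zero (Finset.mem_univ z) e)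
    have a1 : ∀ z, l z ≠ p → l' z = l z := fun z e => by
      have := hz' z
      rw [h2 _ _ e (hq' z)] at this
      simpa using this
    have a2 : ∀ z, l z = p → l' z = p ∨ l' z = q := fun z e => by
      have := hz' z
      rw [e, h1] at this
      by_contra hcon
      push Not at hcon
      simp [hcon.1, hcon.2] at this
    obtain ⟨y1, hy1⟩ := Function.ne_iff.1 n1
    obtain ⟨y2, hy2⟩ := Function.ne_iff.1 n2
    have b1 : l' y1 = q := by
      by_cases e : l y1 = p
      · exact (a2 y1 e).resolve_left (e ▸ hy1)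
      · exact absurd (a1 y1 e) hy1
    have b2 : l' y2 = p := by
      by_cases e : l y2 = p
      · refine (a2 y2 e).resolve_right fun e' => hy2 ?_
        simp [e, e']
      · refine absurd ?_ hy2
        rw [a1 y2 e, Function.comp, Equiv.swap_apply_of_ne_of_ne e (hq' y2)]
    have hlt : (Finset.univ.image l).card < (Finset.univ.image l').card := by
      refine Finset.card_lt_card ⟨fun a ha => ?_, fun hs => ?_⟩
      · obtain ⟨z, -, rfl⟩ := Finset.mem_image.1 ha
        by_cases e : l z = p
        · exact Finset.mem_image.2 ⟨y2, by simp, by rw [b2, e]⟩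
        · exact Finset.mem_image.2 ⟨z, by simp, a1 z e⟩
      · exact hq (hs (Finset.mem_image.2 ⟨y1, by simp, b1⟩))
    rw [ih _ ?_ l' rfl, mul_zero]
    have := hc l'
    omega

end

end Pool.Agent.Lib.MP_446a91_nt.Sou
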