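import Pool.Agent.Lib.MP_446a91_nt.Sou.BI1

/-!
Connected perfect matchings are equivalent to the standard cycle (MP_446a91_nt, part I).
-/

namespace Pool.Agent.Lib.MP_446a91_nt.Sou

open Matrix

noncomputable section

variable {d : ℕ} {I : Type} [Fintype I] [DecidableEq I]

/-- The slots are connected through common labels. -/
def Conn (l : Fin d × Bool → I) : Prop :=
  ∀ P : Fin d → Prop, (∀ x y, l x = l y → P x.1 → P y.1) → ∀ i j, P i → P j

/-- The standard cycle. -/
def cyc0 (ι : Fin d → I) : Fin d × Bool → I :=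
  fun x => ι (if x.2 then finRotate d x.1 else x.1)

/-- The first `n` slots form a path. -/
def Path (n : ℕ) (l : Fin d × Bool → I) : Prop :=
  ∀ i j : Fin d, i.val + 1 = j.val → j.val < n → l (i, true) = l (j, false)

omit [Fintype I] [DecidableEq I] in
theorem Reg2.eq_or {X : Type} {l : X → I} (h : Reg2 l) {a b c : X} (hab : a ≠ b)
    (e1 : l b = l a) (e2 : l c = l a) : c = a ∨ c = b := by
  obtain ⟨y, -, hy⟩ := h a
  rcases (hy b).1 e1 with e | e
  · exact absurd e.symm hab
  · rw [e]; exact (hy c).1 e2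

omit [Fintype I] [DecidableEq I] in
theorem Reg2.comp {X : Type} {l : X → I} (h : Reg2 l) (e : Equiv.Perm X) : Reg2 (l ∘ e) := by
  intro x
  obtain ⟨y, hy, hz⟩ := h (e x)
  refine ⟨e.symm y, fun e' => hy (by rw [← e']; simp), fun z => ?_⟩
  simp only [Function.comp, hz, e.apply_eq_iff_eq, Equiv.eq_symm_apply]

omit [Fintype I] [DecidableEq I] in
theorem Conn.comp {l : Fin d × Bool → I} (h : Conn l) (e : Equiv.Perm (Fin d × Bool))
    (σ : Equiv.Perm (Fin d)) (he : ∀ x, (e x).1 = σ x.1) : Conn (l ∘ e) := by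
  intro P hP i j hi
  have := h (fun s => P (σ.symm s)) (fun x y hxy hx => by
    have e1 : ∀ x, (e.symm x).1 = σ.symm x.1 := fun x => by
      rw [Equiv.eq_symm_apply, ← he, Equiv.apply_symm_apply]
    have := hP (e.symm x) (e.symm y) (by simpa using hxy)
    rw [e1, e1] at this
    exact this hx) (σ i) (σ j) (by simpa using hi)
  simpa using this

omit [Fintype I] [DecidableEq I] in
theorem path_close {n : ℕ} {l : Fin d × Bool → I} (hr : Reg2 l) (hp : Path n l) {i : Fin d}
    (hi : i.val + 1 = n) {y : Fin d × Bool} (hy : y ≠ (i, true)) (e : l y = l (i, true))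
    (hn : y.1.val < n) : y.1.val = 0 ∧ y.2 = false := by
  obtain ⟨j, c⟩ := y
  have hi' := i.2
  cases c
  · refine ⟨?_, rfl⟩
    by_contra h0
    simp only at h0 hn
    have hj := j.2
    have e2 := hp ⟨j.val - 1, by omega⟩ j (by simp only; omega) hn
    rcases hr.eq_or hy.symm e (e2.trans e) with h | h
    · have := congrArg (fun x : Fin d × Bool => x.1.val) h
      simp only at this
      omega
    · simp at h
  · exfalso
    have hji : j.val ≠ i.val := fun h => hy (by rw [Fin.ext h])
    simp only at hn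
    have e2 := hp j ⟨j.val + 1, by omega⟩ rfl (by simp only; omega)
    rcases hr.eq_or hy.symm e (e2.symm.trans e) with h | h <;> simp at h

/-- Flip the two ends of slot `j`. -/
def flp (j : Fin d) : Equiv.Perm (Fin d × Bool) :=
  Function.Involutive.toPerm (fun x => (x.1, if x.1 = j then !x.2 else x.2))
    (fun ⟨i, b⟩ => by by_cases h : i = j <;> simp [h])

theorem flp_apply (j i : Fin d) (b : Bool) : flp j (i, b) = (i, if i = j then !b else b) := rfl

omit [Fintype I] in
theorem elm_flp (l : Fin d × Bool → I) (j : Fin d) :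
    elm (l ∘ flp j) = Function.update (elm l) j (elm l j)ᵀ := by
  funext i
  by_cases h : i = j
  · subst h; simp [elm, flp_apply]
  · simp [elm, flp_apply, h]

theorem path_step {ω : MForm d I} (h : ω.InvT) {n : ℕ} (h1 : 1 ≤ n) (h2 : n < d)
    {l : Fin d × Bool → I} (hr : Reg2 l) (hc : Conn l) (hp : Path n l) :
    ∃ l' : Fin d × Bool → I, Reg2 l' ∧ Conn l' ∧ Path (n + 1) l' ∧
      (ω (elm l') = 0 → ω (elm l) = 0) := by
  set i : Fin d := ⟨n - 1, by omega⟩ with hi
  have hi1 : i.val + 1 = n := by simp only [hi]; omega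
  obtain ⟨y, hy, hz⟩ := hr (i, true)
  have e : l y = l (i, true) := (hz y).2 (Or.inr rfl)
  have hn : n ≤ y.1.val := by
    by_contra hn
    push Not at hn
    obtain ⟨y0, y1⟩ := path_close hr hp hi1 hy e hn
    have key : ∀ x : Fin d × Bool, x.1.val < n → ∃ z, x ≠ z ∧ z.1.val < n ∧ l z = l x := by
      rintro ⟨j, c⟩ hj
      simp only at hj
      cases c
      · by_cases j0 : j.val = 0
        · have : y = (j, false) := Prod.ext (Fin.ext (by rw [y0, j0])) y1
          exact ⟨(i, true), by simp, by simp only; omega, by rw [← this, e]⟩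
        · exact ⟨(⟨j.val - 1, by omega⟩, true), by simp, by simp only; omega,
            hp _ j (by simp only; omega) hj⟩
      · by_cases j0 : j = i
        · subst j0; exact ⟨y, hy.symm, hn, e⟩
        · have : j.val ≠ i.val := fun h => j0 (Fin.ext h)
          exact ⟨(⟨j.val + 1, by omega⟩, false), by simp, by simp only; omega,
            (hp j _ rfl (by simp only; omega)).symm⟩
    have := hc (fun s => s.val < n) (fun x x' hx hx' => by
      obtain ⟨z, z1, z2, z3⟩ := key x hx'
      rcases hr.eq_or z1 z3 hx.symm with e' | e' <;> rw [e'] <;> assumption)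
      i ⟨n, h2⟩ (by omega)
    simp at this
  set k : Fin d := ⟨n, h2⟩ with hk
  set l1 := l ∘ (Equiv.prodCongr (Equiv.swap k y.1) (Equiv.refl Bool)) with hl1
  have r1 : Reg2 l1 := hr.comp _
  have c1 : Conn l1 := hc.comp _ (Equiv.swap k y.1) fun x => rfl
  have v1 : ω (elm l1) = 0 → ω (elm l) = 0 := fun h0 => by
    by_cases e' : k = y.1
    · rw [← h0, hl1, ← e', Equiv.swap_self]; rfl
    · have := h.swap (elm l) k y.1 e'
      have e2 : (fun s => elm l (Equiv.swap k y.1 s)) = elm l1 := rfl
      rw [e2, h0] at this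
      linarith
  have f1 : ∀ (j : Fin d) c, j.val < n → l1 (j, c) = l (j, c) := fun j c hj => by
    have a1 : j ≠ k := fun e => by rw [e] at hj; simp [hk] at hj
    have a2 : j ≠ y.1 := fun e => by rw [e] at hj; omega
    simp [hl1, Equiv.swap_apply_of_ne_of_ne a1 a2]
  have f2 : l1 (k, y.2) = l (i, true) := by rw [← e]; simp [hl1]
  have fin : ∀ l' : Fin d × Bool → I, (∀ (j : Fin d) c, j.val < n → l' (j, c) = l (j, c)) →
      l' (k, false) = l (i, true) → Path (n + 1) l' := fun l' g1 g2 a b hab hb => by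
    by_cases hb' : b.val < n
    · rw [g1 a _ (by omega), g1 b _ hb', hp a b hab hb']
    · have : b = k := Fin.ext (by simp only [hk]; omega)
      have ha : a = i := Fin.ext (by omega)
      rw [this, g2, g1 a _ (by omega), ha]
  cases hb : y.2
  · exact ⟨l1, r1, c1, fin l1 f1 (hb ▸ f2), v1⟩
  · refine ⟨l1 ∘ flp k, r1.comp _, c1.comp _ 1 fun x => rfl, fin _ (fun j c hj => ?_) ?_,
      fun h0 => v1 (by rwa [elm_flp, h.tr] at h0)⟩
    · have a1 : j ≠ k := fun e => by rw [e] at hj; simp [hk] at hj
      rw [← f1 j c hj]; simp [flp_apply, a1]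
    · rw [← f2, hb]; simp [flp_apply]

theorem path_end {ω : MForm d I} (h : ω.InvT) (hd : 1 ≤ d) {ι : Fin d → I}
    (hι : Function.Injective ι) (h0 : ω (elm (cyc0 ι)) = 0)
    {l : Fin d × Bool → I} (hr : Reg2 l) (hp : Path d l) : ω (elm l) = 0 := by
  obtain ⟨d, rfl⟩ : ∃ d', d = d' + 1 := ⟨d - 1, by omega⟩
  have e1 : ∀ i, l (i, true) = l (finRotate _ i, false) := fun i => by
    by_cases hi : i = Fin.last d
    · obtain ⟨y, hy, hz⟩ := hr (i, true)
      have e : l y = l (i, true) := (hz y).2 (Or.inr rfl)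
      obtain ⟨y0, y1⟩ := path_close hr hp (by simp [hi]) hy e y.1.2
      have : y = (0, false) := Prod.ext (Fin.ext y0) y1
      rw [← e, this, hi, finRotate_last]
    · exact hp i _ (coe_finRotate_of_ne_last hi).symm (Fin.is_lt _)
  have e2 : Function.Injective fun i => l (i, false) := fun i j hij => by
    by_contra hne
    have := e1 ((finRotate _).symm i)
    rw [Equiv.apply_symm_apply] at this
    rcases hr.eq_or (a := (i, false)) (b := (j, false)) (by simpa using hne) hij.symm this
      with e | e <;> simp at e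
  obtain ⟨σ, hσ⟩ := Equiv.Perm.exists_extending_pair _ _ e2 hι
  have : σ ∘ l = cyc0 ι := by
    funext ⟨i, c⟩
    cases c
    · simpa [cyc0] using hσ i
    · rw [Function.comp, e1]; simpa [cyc0] using hσ _
  rw [← h.orth.perm σ, this, h0]

/-- All connected perfect matchings have value zero if the standard cycle has. -/
theorem MForm.InvT.conn_zero {ω : MForm d I} (h : ω.InvT) (hd : 1 ≤ d) {ι : Fin d → I}
    (hι : Function.Injective ι) (h0 : ω (elm (cyc0 ι)) = 0)
    {l : Fin d × Bool → I} (hr : Reg2 l) (hc : Conn l) : ω (elm l) = 0 := by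
  have key : ∀ m n, n + m = d → 1 ≤ n → ∀ l : Fin d × Bool → I, Reg2 l → Conn l → Path n l →
      ω (elm l) = 0 := by
    intro m
    induction m with
    | zero => intro n hn _ l hr _ hp; exact path_end h hd hι h0 hr fun i j a _ => hp i j a (by omega)
    | succ m ih =>
      intro n hn h1 l hr hc hp
      obtain ⟨l', a1, a2, a3, a4⟩ := path_step h h1 (by omega) hr hc hp
      exact a4 (ih (n + 1) (by omega) (by omega) l' a1 a2 a3)
  exact key (d - 1) 1 (by omega) le_rfl l hr hc fun i j hij hj => by omega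

end

end Pool.Agent.Lib.MP_446a91_nt.Sou
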