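import Pool.Agent.Lib.MP_446a91_nt.Sou.BI2

/-!
The primitive part of an invariant form is determined by one number (MP_446a91_nt, part I).
-/

namespace Pool.Agent.Lib.MP_446a91_nt.Sou

open Matrix

noncomputable section

/-- The coefficients of the projection to the primitive part. -/
def be (d k : ℕ) : ℤ := (-1) ^ k * (d.choose k : ℤ) * ((d.factorial / k : ℕ) : ℤ)

theorem be_mul {d k : ℕ} (h1 : 1 ≤ k) (hk : k ≤ d) :
    be d k * k = (-1) ^ k * (d.choose k : ℤ) * d.factorial := by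
  rw [be, mul_assoc, ← Nat.cast_mul, Nat.div_mul_cancel (Nat.dvd_factorial h1 hk)]

theorem sum_sign_choose_pow {d j : ℕ} (h : j < d) :
    ∑ k ∈ Finset.range (d + 1), (-1) ^ k * (d.choose k : ℤ) * (k : ℤ) ^ j = 0 := by
  have := congrFun (fwdDiff_iter_pow_eq_zero_of_lt (R := ℤ) h) 0
  rw [fwdDiff_iter_eq_sum_shift] at this
  have e : (-1 : ℤ) ^ d * ∑ k ∈ Finset.range (d + 1), (-1) ^ k * (d.choose k : ℤ) * (k : ℤ) ^ j
      = 0 := by
    rw [Finset.mul_sum]
    refine Eq.trans (Finset.sum_congr rfl fun k hk => ?_) this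
    obtain ⟨m, rfl⟩ := Nat.exists_eq_add_of_le (Nat.lt_succ_iff.1 (Finset.mem_range.1 hk))
    have : ((-1 : ℤ) ^ k) * (-1) ^ k = 1 := by rw [← mul_pow]; simp
    simp only [Nat.add_sub_cancel_left, pow_add, zero_add, smul_eq_mul, nsmul_eq_mul, mul_one]
    linear_combination ((-1) ^ m * ((k + m).choose k : ℤ) * (k : ℤ) ^ j) * this
  exact (mul_eq_zero.1 e).resolve_left (by simp)

theorem sum_be_pow {d j : ℕ} (h2 : 2 ≤ j) (hj : j ≤ d) :
    ∑ k ∈ Finset.range (d + 1), be d k * (k : ℤ) ^ j = 0 := by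
  obtain ⟨j, rfl⟩ : ∃ i, j = i + 2 := ⟨j - 2, by omega⟩
  have := sum_sign_choose_pow (d := d) (j := j + 1) (by omega)
  rw [← mul_zero (d.factorial : ℤ), ← this, Finset.mul_sum]
  refine Finset.sum_congr rfl fun k hk => ?_
  rcases Nat.eq_zero_or_pos k with rfl | h0
  · simp
  · have := be_mul h0 (Nat.lt_succ_iff.1 (Finset.mem_range.1 hk))
    linear_combination (k : ℤ) ^ (j + 1) * this

theorem sum_be_one {d : ℕ} (hd : 1 ≤ d) :
    ∑ k ∈ Finset.range (d + 1), be d k * (k : ℤ) = - d.factorial := by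
  have := sum_sign_choose_pow (d := d) (j := 0) (by omega)
  rw [Finset.sum_range_succ'] at this ⊢
  have e : ∑ k ∈ Finset.range d, be d (k + 1) * ((k + 1 : ℕ) : ℤ) = d.factorial *
      ∑ k ∈ Finset.range d, (-1) ^ (k + 1) * (d.choose (k + 1) : ℤ) * ((k + 1 : ℕ) : ℤ) ^ 0 := by
    rw [Finset.mul_sum]
    refine Finset.sum_congr rfl fun k hk => ?_
    rw [be_mul (k := k + 1) (by omega) (Finset.mem_range.1 hk)]
    ring
  rw [e]
  simp only [pow_zero, Nat.choose_zero_right, Nat.cast_one, mul_one] at this ⊢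
  linear_combination (d.factorial : ℤ) * this

variable {d : ℕ} {I : Type}

/-- The matrix `a` in the first `k` of `d` diagonal blocks, zero elsewhere. -/
def Del {R : Type} [Zero R] (d k : ℕ) (a : Matrix I I R) : Matrix (Fin d × I) (Fin d × I) R :=
  Matrix.of fun x y => if x.1 = y.1 ∧ x.1.val < k then a x.2 y.2 else 0

section ring
variable {R : Type} [CommRing R]

theorem Del_apply (k : ℕ) (a : Matrix I I R) (x y : Fin d × I) :
    Del d k a x y = if x.1 = y.1 ∧ x.1.val < k then a x.2 y.2 else 0 := rfl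

theorem Del_transpose (k : ℕ) (a : Matrix I I R) : (Del d k a)ᵀ = Del d k aᵀ := by
  ext ⟨s, p⟩ ⟨t, q⟩
  by_cases h : s = t
  · subst h; simp [Del_apply]
  · simp [Del_apply, h, Ne.symm h]

variable (R I) in
/-- `Del` as a linear map. -/
def DelL (d k : ℕ) : Matrix I I R →ₗ[R] Matrix (Fin d × I) (Fin d × I) R where
  toFun := Del d k
  map_add' a b := by ext x y; simp only [Del_apply, Matrix.add_apply]; split_ifs <;> simp
  map_smul' c a := by ext x y; simp only [Del_apply, Matrix.smul_apply]; split_ifs <;> simp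

theorem DelL_apply (k : ℕ) (a : Matrix I I R) : DelL I R d k a = Del d k a := rfl

theorem Del_mul [Fintype I] (k k' : ℕ) (a b : Matrix I I R) :
    Del d k a * Del d k' b = Del d (min k k') (a * b) := by
  ext ⟨s, p⟩ ⟨t, q⟩
  rw [mul_apply, Fintype.sum_prod_type, Finset.sum_eq_single s]
  · by_cases h1 : s.val < k <;> by_cases h2 : s.val < k' <;> by_cases h : s = t <;>
      simp [Del_apply, h1, h2, h, mul_apply]
    all_goals subst h; simp [h1, h2]
  · intro u _ hu
    simp [Del_apply, Ne.symm hu]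
  · simp

theorem Del_one [DecidableEq I] : Del d d (1 : Matrix I I R) = 1 := by
  ext ⟨s, p⟩ ⟨t, q⟩
  by_cases h : s = t <;> simp [Del_apply, one_apply, h]

theorem Del_single [DecidableEq I] (k : ℕ) (p q : I) : Del d k (single p q (1 : R)) =
    ∑ s ∈ Finset.univ.filter fun s : Fin d => s.val < k, single (s, p) (s, q) 1 := by
  ext ⟨s, p'⟩ ⟨t, q'⟩
  rw [Matrix.sum_apply, Finset.sum_filter, Finset.sum_eq_single s]
  · by_cases h1 : s.val < k <;> by_cases h : s = t <;> simp [Del_apply, single, h1, h, Ne.symm]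
  · intro u _ hu
    simp [single, hu]
  · simp

end ring

variable [Fintype I] [DecidableEq I]

theorem MForm.Orth.del {ω : MForm d (Fin d × I)} (h : ω.Orth) {l : Fin d × Bool → I}
    (hr : Reg2 l) (z : Fin d) : ∃ j, 1 ≤ j ∧ j ≤ d ∧ (j = 1 → Conn l) ∧ ∀ k ≤ d,
      ω (fun i => Del d k (elm l i)) = (k : ℝ) ^ j * ω (elm fun x => (z, l x)) := by
  classical
  let r : Fin d → Fin d → Prop := fun i i' => ∃ b b', l (i, b) = l (i', b')
  let _ : Fintype (Quot r) := Fintype.ofFinite _
  refine ⟨Fintype.card (Quot r), Fintype.card_pos_iff.2 ⟨Quot.mk r z⟩,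
    (Fintype.card_le_of_surjective _ Quot.mk_surjective).trans (by simp), fun h1 => ?_,
    fun k hk => ?_⟩
  · intro P hP i j hi
    have : Quot.mk r i = Quot.mk r j := (Fintype.card_le_one_iff.1 h1.le) _ _
    have e := congrArg (Quot.lift P fun a b ⟨c, c', e⟩ =>
      propext ⟨hP (a, c) (b, c') e, hP (b, c') (a, c) e.symm⟩) this
    exact (show P i = P j from e) ▸ hi
  set S := Finset.univ.filter fun s : Fin d => s.val < k with hS
  have hSk : S.card = k := by rw [hS, Fin.card_filter_val_lt]; omega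
  let good : (Fin d → Fin d) → Prop := fun t => ∀ x y, l x = l y → t x.1 = t y.1
  have e1 : ∀ t : Fin d → Fin d, ω (elm fun x => (t x.1, l x)) =
      if good t then ω (elm fun x => (z, l x)) else 0 := fun t => by
    split_ifs with g
    · let τ : I → Fin d := fun p => if e : ∃ x, l x = p then t e.choose.1 else z
      have hτ : ∀ x, τ (l x) = t x.1 := fun x => by
        have e : ∃ y, l y = l x := ⟨x, rfl⟩
        simp only [τ, dif_pos e]
        exact g _ _ e.choose_spec
      rw [← h.perm (Equiv.prodCongrLeft fun p : I => Equiv.swap z (τ p)) fun x => (z, l x)]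
      congr 2
      funext x
      simp [hτ]
    · simp only [good, not_forall] at g
      obtain ⟨x, y, e, g⟩ := g
      refine h.single_zero _ x fun w hw => ?_
      rw [Prod.mk.injEq] at hw
      rcases hr.eq_or (fun e' => g (by rw [e'])) e.symm hw.2 with e' | e'
      · exact e'
      · exact absurd (e' ▸ hw.1).symm g
  have e2 : ((Fintype.piFinset fun _ : Fin d => S).filter good).card =
      k ^ Fintype.card (Quot r) := by
    rw [← hSk, ← Finset.card_univ, ← Finset.prod_const, ← Fintype.card_piFinset]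
    refine (Finset.card_bij (fun f _ => f ∘ Quot.mk r) (fun f hf => ?_) (fun f _ g _ e => ?_)
      fun t ht => ?_).symm
    · refine Finset.mem_filter.2 ⟨Fintype.mem_piFinset.2 fun i => Fintype.mem_piFinset.1 hf _,
        fun x y e => congrArg f (Quot.sound ⟨x.2, y.2, e⟩)⟩
    · exact Quot.mk_surjective.injective_comp_right e
    · obtain ⟨a1, a2⟩ := Finset.mem_filter.1 ht
      refine ⟨Quot.lift t fun a b ⟨c, c', e⟩ => a2 (a, c) (b, c') e,
        Fintype.mem_piFinset.2 ?_, rfl⟩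
      rintro ⟨i⟩
      exact Fintype.mem_piFinset.1 a1 i
  simp only [elm, Del_single]
  rw [MultilinearMap.map_sum_finset, ← hS]
  refine (Finset.sum_congr rfl fun t _ => e1 t).trans ?_
  rw [← Finset.sum_filter, Finset.sum_const, e2, nsmul_eq_mul, Nat.cast_pow]

/-- The primitive part of an invariant form vanishes if one value vanishes. -/
theorem exists_inv_zero (hd : 1 ≤ d) (hI : 2 * d < Fintype.card I) :
    ∃ a0 : Fin d → Matrix (Fin d × I) (Fin d × I) ℝ, ∀ ω : MForm d (Fin d × I), ω.InvT →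
      ω a0 = 0 → ∀ a : Fin d → Matrix I I ℝ,
        ∑ k ∈ Finset.range (d + 1), (be d k : ℝ) * ω (fun i => Del d k (a i)) = 0 := by
  obtain ⟨ι⟩ : Nonempty (Fin d ↪ I) :=
    Function.Embedding.nonempty_of_card_le (by simp; omega)
  let z : Fin d := ⟨0, hd⟩
  refine ⟨elm (cyc0 fun i => (z, ι i)), fun ω h h0 a => ?_⟩
  let ω' : MForm d I := ∑ k ∈ Finset.range (d + 1),
    (be d k : ℝ) • ω.compLinearMap fun _ => DelL I ℝ d k
  have e : ∀ a, ω' a =
      ∑ k ∈ Finset.range (d + 1), (be d k : ℝ) * ω (fun i => Del d k (a i)) := fun a => by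
    simp [ω', DelL_apply]
  have ho : ω'.Orth := fun U hU a => by
    rw [e, e]
    refine Finset.sum_congr rfl fun k hk => ?_
    have hk' : k ≤ d := Nat.lt_succ_iff.1 (Finset.mem_range.1 hk)
    rw [← h.orth (Del d d U) (by rw [Del_transpose, Del_mul, hU, min_self, Del_one])
      fun i => Del d k (a i)]
    simp only [Del_transpose, Del_mul, min_eq_left hk', min_eq_right hk']
  rw [← e, ho.zero_of_reg hI fun l hr => ?_, _root_.zero_apply]
  obtain ⟨j, j1, j2, j3, j4⟩ := h.orth.del hr z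
  rw [e, Finset.sum_congr rfl fun k hk => by
    rw [j4 k (Nat.lt_succ_iff.1 (Finset.mem_range.1 hk)), ← mul_assoc], ← Finset.sum_mul]
  rcases j1.eq_or_lt with j1 | j1
  · rw [h.conn_zero hd (fun i j e => ι.injective (Prod.mk.inj e).2) h0 (fun x => ?_)
      fun P hP => j3 j1.symm P fun x y e => hP x y (by rw [e]), mul_zero]
    obtain ⟨y, hy, hz⟩ := hr x
    exact ⟨y, hy, fun w => by simpa using hz w⟩
  · have := congrArg (Int.cast : ℤ → ℝ) (sum_be_pow j1 j2)
    push_cast at this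
    rw [this, zero_mul]

/-- The primitive parts of two invariant forms are linearly dependent. -/
theorem inv_dep (hd : 1 ≤ d) (hI : 2 * d < Fintype.card I) {ω₁ ω₂ : MForm d (Fin d × I)}
    (h₁ : ω₁.InvT) (h₂ : ω₂.InvT) : ∃ c₁ c₂ : ℝ, (c₁ ≠ 0 ∨ c₂ ≠ 0) ∧
      ∀ a : Fin d → Matrix I I ℝ,
        c₁ * ∑ k ∈ Finset.range (d + 1), (be d k : ℝ) * ω₁ (fun i => Del d k (a i)) +
        c₂ * ∑ k ∈ Finset.range (d + 1), (be d k : ℝ) * ω₂ (fun i => Del d k (a i)) = 0 := by
  obtain ⟨a0, h⟩ := exists_inv_zero hd hI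
  by_cases e : ω₁ a0 = 0
  · exact ⟨1, 0, Or.inl one_ne_zero, fun a => by rw [h ω₁ h₁ e a]; simp⟩
  refine ⟨-ω₂ a0, ω₁ a0, Or.inr e, fun a => ?_⟩
  have := h ((-ω₂ a0) • ω₁ + ω₁ a0 • ω₂) ⟨fun a i j hij => ?_, fun a i => ?_, fun U hU a => ?_⟩
    (by simp; ring) a
  · rw [Finset.mul_sum, Finset.mul_sum, ← Finset.sum_add_distrib, ← this]
    refine Finset.sum_congr rfl fun k _ => ?_
    simp
    ring
  · simp [h₁.swap a i j hij, h₂.swap a i j hij]
    ring
  · simp [h₁.tr a i, h₂.tr a i]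
  · simp [h₁.orth U hU a, h₂.orth U hU a]

end

end Pool.Agent.Lib.MP_446a91_nt.Sou
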