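import Pool.Agent.Lib.MP_446a91_nt.Sou.W0

/-!
The cross effect lemma: a product of `r` operators `1 - p_i` kills the homology of lengths `≤ r`.
-/

namespace Pool.Agent.Lib.MP_446a91_nt.Sou

noncomputable section

variable {G G' : Type} [Group G] [Group G']

/-- The product `(1 - p (r-1)) ⋯ (1 - p 0)` on chains. -/
def crossQ (p : ℕ → G →* G) : ℕ → Ch ℤ G →ₗ[ℤ] Ch ℤ G
  | 0 => LinearMap.id
  | r + 1 => (LinearMap.id - mp (p r)) ∘ₗ crossQ p r

theorem crossQ_succ (p : ℕ → G →* G) (r : ℕ) (c : Ch ℤ G) :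
    crossQ p (r + 1) c = crossQ p r c - mp (p r) (crossQ p r c) := rfl

theorem bd_crossQ (p : ℕ → G →* G) (r : ℕ) (c : Ch ℤ G) :
    bd (crossQ p r c) = crossQ p r (bd c) := by
  induction r with
  | zero => rfl
  | succ r ih => rw [crossQ_succ, crossQ_succ, map_sub, bd_mp, ih]

theorem crossQ_len (p : ℕ → G →* G) (r : ℕ) {k : ℕ} {c : Ch ℤ G} (hc : c ∈ len ℤ G k) :
    crossQ p r c ∈ len ℤ G k := by
  induction r with
  | zero => exact hc
  | succ r ih => exact sub_mem ih (mp_len _ ih)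

theorem IG_sub_mono {K K' : Subgroup G} (h : K ≤ K') : IG ℤ G K ≤ IG ℤ G K' :=
  Submodule.span_mono (by
    rintro _ ⟨g, w, -, rfl⟩
    exact ⟨⟨g.1, h g.2⟩, w, trivial, rfl⟩)

theorem IG_sub_le (K : Subgroup G) : IG ℤ G K ≤ IG ℤ G G :=
  Submodule.span_mono (by
    rintro _ ⟨g, w, -, rfl⟩
    exact ⟨g.1, w, trivial, rfl⟩)

theorem mp_mul_IG {K : Subgroup G} [hK : K.Normal] (h : G) {c : Ch ℤ G} (hc : c ∈ IG ℤ G K) :
    mp (h * ·) c ∈ IG ℤ G K :=
  mp_IG _ (fun g => ⟨⟨h * g * h⁻¹, hK.conj_mem _ g.2 h⟩, fun x => by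
    simp [Subgroup.smul_def, mul_assoc]⟩) hc

theorem mp_mul_sub {K : Subgroup G} {a b : G} (h : a * b⁻¹ ∈ K) (c : Ch ℤ G) :
    mp (a * ·) c - mp (b * ·) c ∈ IG ℤ G K := by
  have := mp_smul_sub_IG (⟨_, h⟩ : K) (mp (b * ·) c)
  rw [mp_mp] at this
  have e : ((fun x => (⟨a * b⁻¹, h⟩ : K) • x) ∘ fun x => b * x) = fun x => a * x := by
    funext x
    simp [Subgroup.smul_def, mul_assoc]
  rwa [e] at this

/-- `φ` commutes with left translations modulo the coinvariants of `K`. -/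
def EqvK (K : Subgroup G) (φ : Ch ℤ G →ₗ[ℤ] Ch ℤ G) : Prop :=
  ∀ (h : G) (c : Ch ℤ G), φ (mp (h * ·) c) - mp (h * ·) (φ c) ∈ IG ℤ G K

theorem EqvK.of_wd {K : Subgroup G} {φ : Ch ℤ G →ₗ[ℤ] Ch ℤ G}
    (H : ∀ (h : G) (w : List G), φ (wd (w.map (h * ·))) - mp (h * ·) (φ (wd w)) ∈ IG ℤ G K) :
    EqvK K φ := fun h c =>
  sp_map (φ ∘ₗ mp (h * ·) - mp (h * ·) ∘ₗ φ) _ (fun w _ => by simpa using H h w) (mem_sp_top c)

theorem EqvK.map_IG {K : Subgroup G} {φ : Ch ℤ G →ₗ[ℤ] Ch ℤ G} (H : EqvK K φ) {c : Ch ℤ G}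
    (hc : c ∈ IG ℤ G G) : φ c ∈ IG ℤ G G :=
  IP_map φ _ (fun g w _ => by
    have h1 := IG_sub_le K (H g (wd w))
    have h2 := mp_smul_sub_IG (G := G) g (φ (wd w))
    simpa using add_mem h1 h2) hc

section step
variable {K K' : Subgroup G} {p : G →* G} (hle : K ≤ K') (ha : ∀ h, p h * h⁻¹ ∈ K')
  (hb : ∀ g ∈ K, p g = g)
include hb

theorem mp_fix_IG {c : Ch ℤ G} (hc : c ∈ IG ℤ G K) : mp p c ∈ IG ℤ G K :=
  mp_IG _ (fun g => ⟨g, fun x => by simp [Subgroup.smul_def, hb g g.2]⟩) hc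

theorem pr_fix_IG {c : Ch ℤ G} (hc : c ∈ IG ℤ G K) : pr p id c ∈ IG ℤ G K :=
  pr_IG _ _ (fun g => ⟨g, fun x => by simp [Subgroup.smul_def, hb g g.2]⟩) hc

include hle ha

theorem EqvK.step {φ : Ch ℤ G →ₗ[ℤ] Ch ℤ G} (H : EqvK K φ) :
    EqvK K' ((LinearMap.id - mp p) ∘ₗ φ) := fun h c => by
  have h1 := H h c
  have h2 := IG_sub_mono hle (sub_mem h1 (mp_fix_IG hb h1))
  have h3 := mp_mul_sub (ha h) (mp p (φ c))
  have e : mp p (mp (h * ·) (φ c)) = mp (p h * ·) (mp p (φ c)) := by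
    rw [mp_mp, mp_mp]
    congr 2
    funext x
    simp
  have := sub_mem h2 h3
  rw [map_sub, e] at this
  simp only [LinearMap.comp_apply, LinearMap.sub_apply, LinearMap.id_apply, map_sub]
  refine (congrArg (· ∈ IG ℤ G K') ?_).mp this
  abel

end step

theorem cross_aux (p : ℕ → G →* G) (K : ℕ → Subgroup G) (hn : ∀ i, (K i).Normal)
    (hle : ∀ i, K i ≤ K (i + 1)) (ha : ∀ i h, p i h * h⁻¹ ∈ K (i + 1))
    (hb : ∀ i, ∀ g ∈ K i, p i g = g) (r : ℕ) :
    EqvK (K r) (crossQ p r) ∧ ∃ D : List G → Ch ℤ G, (∀ w, D w ∈ len ℤ G (w.length + 1)) ∧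
      EqvK (K r) (lin ℤ D) ∧ D [] = 0 ∧ ∀ w : List G, w ≠ [] → w.length ≤ r →
        bd (D w) + lin ℤ D (dW w) - crossQ p r (wd w) ∈ IG ℤ G (K r) := by
  induction r with
  | zero =>
    refine ⟨fun h c => by simp [crossQ], fun _ => 0, fun _ => zero_mem _,
      fun h c => by simp [lin_zero], rfl, fun w h1 h2 => ?_⟩
    exact absurd (List.length_eq_zero_iff.1 (by omega)) h1
  | succ r ih =>
    obtain ⟨hQ, D, hl, hD, h0, hid⟩ := ih
    have := hn r
    have := hn (r + 1)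
    have hQ' := hQ.step (hle r) (ha r) (hb r)
    have hD' := hD.step (hle r) (ha r) (hb r)
    let ξ : List G → Ch ℤ G := fun w => crossQ p r (wd w) - lin ℤ D (dW w)
    let E : List G → Ch ℤ G := fun w => match w with
      | [] => 0
      | a :: w => mp (a * ·) (pr (p r) id (ξ ((a :: w).map (a⁻¹ * ·))))
    let D' : List G → Ch ℤ G := fun w => if w.length = r + 1 then E w else D w - mp (p r) (D w)
    have hξl : ∀ w : List G, w ≠ [] → ξ w ∈ len ℤ G w.length := by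
      intro w hw
      refine sub_mem (crossQ_len p r (wd_mem rfl)) (sp_map (lin ℤ D) _ ?_ (dW_mem_sublist w))
      intro u hu
      rw [lin_wd, ← hu.2]
      exact hl u
    have hD'e : EqvK (K (r + 1)) (lin ℤ D') := by
      refine EqvK.of_wd fun h w => ?_
      simp only [lin_wd, D', List.length_map]
      split_ifs with h1
      · cases w with
        | nil => simp [E]
        | cons a w =>
          have e : ((h * a) :: w.map (h * ·)).map ((h * a)⁻¹ * ·) = (a :: w).map (a⁻¹ * ·) := by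
            simp [mul_assoc]
          simp only [E, List.map_cons] at e ⊢
          rw [e, mp_mp]
          have e2 : ((fun x => h * x) ∘ fun x => a * x) = fun x => h * a * x := by
            funext x
            simp [mul_assoc]
          rw [e2, sub_self]
          exact zero_mem _
      · simpa using hD' h (wd w)
    have hlow : ∀ w : List G, w.length ≤ r + 1 →
        lin ℤ D' (dW w) = lin ℤ D (dW w) - mp (p r) (lin ℤ D (dW w)) := by
      intro w hw
      rw [map_lin, ← lin_sub]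
      refine lin_congr (fun u hu => ?_) (dW_mem_sublist w)
      have : u.length ≠ r + 1 := by omega
      simp [D', this]
    refine ⟨hQ', D', fun w => ?_, hD'e, by simp [D', h0], fun w hw hr => ?_⟩
    · simp only [D']
      split_ifs with h1
      · cases w with
        | nil => exact zero_mem _
        | cons a w =>
          refine mp_len _ (pr_len _ _ ?_)
          simpa using hξl ((a :: w).map (a⁻¹ * ·)) (by simp)
      · exact sub_mem (hl w) (mp_len _ (hl w))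
    by_cases h1 : w.length = r + 1
    · -- the top length
      have key : ∀ u : List G, u.length = r + 1 → u.head? = some 1 →
          bd (pr (p r) id (ξ u)) + lin ℤ D' (dW u) - crossQ p (r + 1) (wd u) ∈
            IG ℤ G (K (r + 1)) := by
        intro u hu h1
        have hz : pr (p r) id (bd (ξ u)) ∈ IG ℤ G (K r) := by
          rcases Nat.eq_zero_or_pos r with rfl | hr
          · obtain ⟨a, rfl⟩ := List.length_eq_one_iff.1 hu
            simp [ξ, dW_cons, h0, crossQ, prW]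
          refine pr_fix_IG (hb r) ?_
          have h2 : bd (lin ℤ D (dW u)) + lin ℤ D (bd (dW u)) - crossQ p r (dW u) ∈
              IG ℤ G (K r) :=
            sp_map (bd ∘ₗ lin ℤ D + lin ℤ D ∘ₗ bd - crossQ p r) _ (fun v hv => by
              simpa using hid v (by rintro rfl; simp at hv; omega) (by omega)) (dW_mem_sublist u)
          rw [bd_dW, map_zero, add_zero] at h2
          simp only [ξ, map_sub, bd_crossQ, bd_wd]
          simpa using neg_mem h2
        have h3 := bd_pr (p r) id (ξ u)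
        rw [hlow u hu.le, crossQ_succ, eq_sub_of_add_eq h3]
        refine (congrArg (· ∈ IG ℤ G (K (r + 1))) ?_).mp (IG_sub_mono (hle r) (neg_mem hz))
        simp only [ξ, map_sub, mp_id]
        abel
      obtain ⟨a, w, rfl⟩ := List.exists_cons_of_ne_nil hw
      have h2 := mp_mul_IG a (key ((a :: w).map (a⁻¹ * ·)) (by simpa using h1) (by simp))
      have e1 : mp (a * ·) (wd ((a :: w).map (a⁻¹ * ·)) : Ch ℤ G) = wd (a :: w) := by
        simp [Function.comp_def]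
      have e2 : mp (a * ·) (dW ((a :: w).map (a⁻¹ * ·)) : Ch ℤ G) = dW (a :: w) := by
        rw [← bd_wd, ← bd_mp, e1, bd_wd]
      have h3 := hD'e a (dW ((a :: w).map (a⁻¹ * ·)))
      have h4 := hQ' a (wd ((a :: w).map (a⁻¹ * ·)))
      rw [e2] at h3
      rw [e1] at h4
      have h5 := sub_mem (add_mem h2 h3) h4
      refine (congrArg (· ∈ IG ℤ G (K (r + 1))) ?_).mp h5
      simp only [D', h1, if_true, E, bd_mp, map_sub, map_add, crossQ]
      abel
    · have h2 := hid w hw (by omega)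
      have h3 := IG_sub_mono (hle r) (sub_mem h2 (mp_fix_IG (hb r) h2))
      rw [hlow w hr, crossQ_succ]
      refine (congrArg (· ∈ IG ℤ G (K (r + 1))) ?_).mp h3
      simp only [D', h1, if_false, bd_mp, map_sub, map_add]
      abel

theorem cross (p : ℕ → G →* G) (K : ℕ → Subgroup G) (hn : ∀ i, (K i).Normal)
    (hle : ∀ i, K i ≤ K (i + 1)) (ha : ∀ i h, p i h * h⁻¹ ∈ K (i + 1))
    (hb : ∀ i, ∀ g ∈ K i, p i g = g) {r : ℕ} {z : Ch ℤ G} (hl : z ∈ len ℤ G (r + 1))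
    (hz : bd z ∈ IG ℤ G G) :
    ∃ y ∈ len ℤ G (r + 2), crossQ p (r + 1) z - bd y ∈ IG ℤ G G := by
  obtain ⟨-, D, h1, h2, -, h3⟩ := cross_aux p K hn hle ha hb (r + 1)
  refine ⟨lin ℤ D z, sp_map _ _ (fun w hw => ?_) hl, ?_⟩
  · rw [lin_wd, show r + 2 = w.length + 1 by omega]
    exact h1 w
  have h4 : bd (lin ℤ D z) + lin ℤ D (bd z) - crossQ p (r + 1) z ∈ IG ℤ G (K (r + 1)) :=
    sp_map (bd ∘ₗ lin ℤ D + lin ℤ D ∘ₗ bd - crossQ p (r + 1)) _ (fun v hv => by
      simpa using h3 v (by rintro rfl; simp at hv) hv.le) hl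
  refine (congrArg (· ∈ IG ℤ G G) ?_).mp (sub_mem (h2.map_IG hz) (IG_sub_le _ h4))
  abel

/-- Chains on a subgroup. -/
def cs (T : Subgroup G) : Submodule ℤ (Ch ℤ G) := sp ℤ fun w => ∀ g ∈ w, g ∈ T

/-- The kernel of the map to the coinvariants, for chains on a subgroup. -/
def ci (T : Subgroup G) : Submodule ℤ (Ch ℤ G) := IP ℤ T fun w => ∀ g ∈ w, g ∈ T

/-- Boundaries of length `n` of a subgroup. -/
def Bs (T : Subgroup G) (n : ℕ) : Submodule ℤ (Ch ℤ G) :=
  (len ℤ G (n + 1) ⊓ cs T).map bd ⊔ ci T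

theorem mem_Bs {T : Subgroup G} {n : ℕ} {c : Ch ℤ G} :
    c ∈ Bs T n ↔ ∃ y ∈ len ℤ G (n + 1), y ∈ cs T ∧ c - bd y ∈ ci T := by
  rw [Bs, Submodule.mem_sup]
  constructor
  · rintro ⟨_, ⟨y, ⟨h1, h2⟩, rfl⟩, z, hz, rfl⟩
    exact ⟨y, h1, h2, by simpa using hz⟩
  · rintro ⟨y, h1, h2, h3⟩
    exact ⟨_, ⟨y, ⟨h1, h2⟩, rfl⟩, _, h3, by abel⟩

theorem ci_le_Bs (T : Subgroup G) (n : ℕ) : ci T ≤ Bs T n := le_sup_right

theorem mp_cs {X : Type} {T : Subgroup G} {P : List X → Prop} (f : X → G)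
    (h : ∀ w, P w → ∀ x ∈ w, f x ∈ T) {c : Ch ℤ X} (hc : c ∈ sp ℤ P) : mp f c ∈ cs T :=
  sp_map (mp f) _ (fun w hw => by
    rw [mp_wd]
    exact wd_mem (by simpa using h w hw)) hc

theorem mp_ci {T : Subgroup G} {T' : Subgroup G'} (φ : G →* G') (h : ∀ g ∈ T, φ g ∈ T')
    {c : Ch ℤ G} (hc : c ∈ ci T) : mp φ c ∈ ci T' :=
  IP_map (mp φ) _ (fun g w hw => by
    have := sub_mem_IP (A := ℤ) (P := fun w => ∀ g ∈ w, g ∈ T') (⟨φ g, h g g.2⟩ : T')
      (w := w.map φ) (by simpa using fun a ha => h a (hw a ha))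
    simpa [Function.comp_def, Subgroup.smul_def, ci] using this) hc

theorem mp_IG_ci {T' : Subgroup G'} (φ : G →* G') (h : ∀ g, φ g ∈ T') {c : Ch ℤ G}
    (hc : c ∈ IG ℤ G G) : mp φ c ∈ ci T' :=
  IP_map (mp φ) _ (fun g w _ => by
    have := sub_mem_IP (A := ℤ) (P := fun w => ∀ g ∈ w, g ∈ T') (⟨φ g, h g⟩ : T')
      (w := w.map φ) (by simpa using fun a _ => h a)
    simpa [Function.comp_def, Subgroup.smul_def, ci] using this) hc

theorem ci_mono {T T' : Subgroup G} (h : T ≤ T') : ci T ≤ ci T' := fun c hc => by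
  simpa using mp_ci (MonoidHom.id G) h hc

theorem cs_mono {T T' : Subgroup G} (h : T ≤ T') : cs T ≤ cs T' :=
  sp_mono fun _ hw g hg => h (hw g hg)

theorem ci_le_IG (T : Subgroup G) : ci T ≤ IG ℤ G G :=
  (IP_mono fun _ _ => trivial).trans (IG_sub_le T)

theorem bd_ci {T : Subgroup G} {c : Ch ℤ G} (hc : c ∈ ci T) : bd c ∈ ci T :=
  bd_IP (fun _ _ h hw g hg => hw g (h.subset hg)) hc

theorem mp_one_IG {X Y : Type} [MulAction G X] (a : Y) {c : Ch ℤ X} (hc : c ∈ IG ℤ X G) :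
    mp (fun _ => a) c = 0 :=
  (Submodule.mem_bot ℤ).1 (IP_map (mp fun _ => a) ⊥ (fun g w _ => by
    simp [Function.comp_def]) hc)

/-- A chain on a subgroup that is a cycle comes from a cycle of the subgroup. -/
theorem exists_sub_cycle {T : Subgroup G} {n : ℕ} {c : Ch ℤ G} (hl : c ∈ len ℤ G n)
    (hs : c ∈ cs T) (hz : bd c ∈ ci T) :
    ∃ z ∈ len ℤ T n, bd z ∈ IG ℤ T T ∧ mp T.subtype z = c := by
  classical
  let ρ : G → T := fun g => if h : g ∈ T then ⟨g, h⟩ else 1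
  refine ⟨mp ρ c, mp_len _ hl, ?_, ?_⟩
  · rw [bd_mp]
    refine IP_map (mp ρ) _ (fun g w hw => ?_) hz
    have e : (w.map (g • ·)).map ρ = (w.map ρ).map (g • ·) := by
      rw [List.map_map, List.map_map]
      refine List.map_congr_left fun a ha => Subtype.ext ?_
      simp [ρ, hw a ha, Subgroup.smul_def, mul_mem g.2 (hw a ha)]
    rw [mp_wd, mp_wd, e]
    exact sub_mem_IP g trivial
  · rw [mp_mp]
    refine sp_ext (ψ := LinearMap.id) (fun w hw => ?_) hs
    rw [mp_wd, LinearMap.id_apply]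
    congr 1
    conv_rhs => rw [← List.map_id w]
    exact List.map_congr_left fun a ha => by simp [ρ, hw a ha]

/-- Conjugate homomorphisms agree on homology. -/
theorem conj_Bs {T : Subgroup G'} (φ φ' : G →* G') (h : ∀ g, φ g ∈ T) {u : G'} (hu : u ∈ T)
    (e : ∀ g, u * φ g = φ' g * u) {n : ℕ} {z : Ch ℤ G} (hl : z ∈ len ℤ G n)
    (hz : bd z ∈ IG ℤ G G) : mp φ' z - mp φ z ∈ Bs T n := by
  let f : G → G' := fun g => φ g * u⁻¹
  have hf : ∀ g, f g ∈ T := fun g => mul_mem (h g) (inv_mem hu)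
  have hp : ∀ w : List G, (prW φ f w : Ch ℤ G') ∈ cs T := fun w =>
    sp_mono (by
      rintro _ ⟨w₁, a, w₂, -, rfl⟩
      simp only [List.mem_append, List.mem_cons, List.mem_map]
      rintro g (⟨b, -, rfl⟩ | rfl | rfl | ⟨b, -, rfl⟩)
      exacts [h _, h _, hf _, hf _]) (prW_mem φ f w)
  refine mem_Bs.2 ⟨pr φ f z, pr_len _ _ hl,
    sp_map (pr φ f) _ (fun w _ => by simpa using hp w) (mem_sp_top z), ?_⟩
  have h1 : pr φ f (bd z) ∈ ci T := by
    refine IP_map (pr φ f) _ (fun g w _ => ?_) hz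
    have e1 : (prW φ f (w.map (g • ·)) : Ch ℤ G') =
        mp ((⟨φ g, h g⟩ : T) • ·) (prW φ f w) := by
      rw [prW_map, mp_prW]
      congr 1 <;> funext x <;> simp [f, Subgroup.smul_def, mul_assoc]
    rw [pr_wd, pr_wd, e1]
    exact mp_smul_sub _ (hp w)
  have h2 : mp ((⟨u, hu⟩ : T) • ·) (mp f z) - mp f z ∈ ci T :=
    mp_smul_sub _ (mp_cs f (fun _ _ x _ => hf x) (mem_sp_top z))
  have e2 : mp ((⟨u, hu⟩ : T) • ·) (mp f z) = mp φ' z := by
    rw [mp_mp]
    congr 2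
    funext x
    simp [f, Subgroup.smul_def, ← mul_assoc, e]
  rw [e2] at h2
  rw [eq_sub_of_add_eq (bd_pr φ f z)]
  refine (congrArg (· ∈ ci T) ?_).mp (add_mem h1 h2)
  abel

end

end Pool.Agent.Lib.MP_446a91_nt.Sou
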