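import Pool.Agent.Lib.MP_446a91_nt.Sou.W1

/-! The basic cocycle on the multiplicative group of a finite field. -/

namespace Pool.Agent.Lib.MP_446a91_nt.Sou

noncomputable section

/-- A discrete logarithm on a finite field. -/
structure Lg (F : Type) [Field F] [Fintype F] where
  g : Fˣ
  lg : Fˣ → ℕ
  lt : ∀ x, lg x < Fintype.card F - 1
  pow : ∀ x, g ^ lg x = x

variable {F : Type} [Field F] [Fintype F]

theorem exists_Lg (F : Type) [Field F] [Fintype F] : Nonempty (Lg F) := by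
  obtain ⟨g, hg⟩ := IsCyclic.exists_monoid_generator (α := Fˣ)
  choose n hn using hg
  have h : orderOf g = Fintype.card F - 1 := by
    rw [orderOf_eq_card_of_forall_mem_powers fun x => ⟨n x, hn x⟩, Nat.card_units,
      Nat.card_eq_fintype_card]
  exact ⟨⟨g, fun x => n x % orderOf g, fun x => h ▸ Nat.mod_lt _ (orderOf_pos g),
    fun x => (pow_mod_orderOf g _).trans (hn x)⟩⟩

theorem Lg.e1_ord (L : Lg F) : orderOf L.g = Fintype.card F - 1 := by
  rw [orderOf_eq_card_of_forall_mem_powers fun x => ⟨L.lg x, L.pow x⟩, Nat.card_units,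
    Nat.card_eq_fintype_card]

theorem Lg.e1_eq (L : Lg F) {x : Fˣ} {n : ℕ} (h : L.g ^ n = x) :
    L.lg x = n % (Fintype.card F - 1) := by
  have := pow_eq_pow_iff_modEq.1 ((L.pow x).trans h.symm)
  rwa [L.e1_ord, Nat.ModEq, Nat.mod_eq_of_lt (L.lt x)] at this

theorem Lg.e1_one (L : Lg F) : L.lg 1 = 0 := (L.e1_eq (pow_zero _)).trans (Nat.zero_mod _)

theorem Lg.e1_pos (L : Lg F) : 0 < Fintype.card F - 1 := (Nat.zero_le _).trans_lt (L.lt 1)

theorem e1_c {G : Type} [Group G] (g a b : G) : (g * a)⁻¹ * (g * b) = a⁻¹ * b := by group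

theorem e1_d {G : Type} [Group G] (a b c : G) : a⁻¹ * b * (b⁻¹ * c) = a⁻¹ * c := by group

/-- The carry of the addition of logarithms. -/
def Lg.car (L : Lg F) (x y : Fˣ) : ℕ := (L.lg x + L.lg y) / (Fintype.card F - 1)

/-- The logarithm modulo `N`, zero at zero. -/
def Lg.y (L : Lg F) (N : ℕ) (x : F) : ZMod N :=
  open Classical in if h : x = 0 then 0 else (L.lg (Units.mk0 x h) : ZMod N)

theorem Lg.y_unit (L : Lg F) (N : ℕ) (x : Fˣ) : L.y N (x : F) = (L.lg x : ZMod N) := by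
  rw [Lg.y, dif_neg x.ne_zero, Units.mk0_val]

/-- Sketch: `g` has order `card F - 1` (it generates), so `lg (x y) ≡ lg x + lg y`, and
`lg x + lg y = lg (x y) + (card F - 1) * car x y`. -/
theorem Lg.lg_mul (L : Lg F) (x y : Fˣ) :
    L.lg x + L.lg y = L.lg (x * y) + (Fintype.card F - 1) * L.car x y := by
  rw [L.e1_eq (x := x * y) (n := L.lg x + L.lg y) (by rw [pow_add, L.pow, L.pow]), Lg.car,
    Nat.mod_add_div]

theorem Lg.e1_mul (L : Lg F) {N : ℕ} (hN : N ∣ Fintype.card F - 1) (x y : Fˣ) :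
    (L.lg (x * y) : ZMod N) = L.lg x + L.lg y := by
  rw [← Nat.cast_add, L.lg_mul, Nat.cast_add, Nat.cast_mul, (ZMod.natCast_eq_zero_iff _ _).2 hN,
    zero_mul, add_zero]

theorem Lg.e1_y_one (L : Lg F) (N : ℕ) : L.y N 1 = 0 := by
  rw [← Units.val_one, L.y_unit, L.e1_one, Nat.cast_zero]

theorem Lg.y_mul (L : Lg F) {N : ℕ} (hN : N ∣ Fintype.card F - 1) {x y : F} (hx : x ≠ 0)
    (hy : y ≠ 0) : L.y N (x * y) = L.y N x + L.y N y := by
  lift x to Fˣ using hx.isUnit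
  lift y to Fˣ using hy.isUnit
  rw [← Units.val_mul, L.y_unit, L.y_unit, L.y_unit, L.e1_mul hN]

theorem Lg.y_pow (L : Lg F) {N : ℕ} (hN : N ∣ Fintype.card F - 1) {x : F} (hx : x ≠ 0) (n : ℕ) :
    L.y N (x ^ n) = n * L.y N x := by
  induction n with
  | zero => rw [pow_zero, L.e1_y_one, Nat.cast_zero, zero_mul]
  | succ n ih => rw [pow_succ, L.y_mul hN (pow_ne_zero n hx) hx, ih, Nat.cast_succ, add_one_mul]

theorem Lg.y_prod (L : Lg F) {N : ℕ} (hN : N ∣ Fintype.card F - 1) {ι : Type} (s : Finset ι)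
    {x : ι → F} (hx : ∀ i ∈ s, x i ≠ 0) : L.y N (∏ i ∈ s, x i) = ∑ i ∈ s, L.y N (x i) := by
  classical
  induction s using Finset.induction_on with
  | empty => exact L.e1_y_one N
  | insert a s ha ih =>
    have h := fun i hi => hx i (Finset.mem_insert_of_mem hi)
    rw [Finset.prod_insert ha, Finset.sum_insert ha,
      L.y_mul hN (hx a (Finset.mem_insert_self _ _)) (Finset.prod_ne_zero_iff.2 h), ih h]

/-- A non `p`-th power has unit logarithm modulo `p ^ n`. -/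
theorem Lg.isUnit_y (L : Lg F) {p n : ℕ} (hp : p.Prime) {x : F} (hx : x ≠ 0)
    (h : ¬ ∃ r : F, r ^ p = x) : IsUnit (L.y (p ^ n) x) := by
  lift x to Fˣ using hx.isUnit
  rw [L.y_unit, ZMod.isUnit_iff_coprime]
  refine (hp.coprime_iff_not_dvd.2 fun ⟨k, hk⟩ => h ⟨(L.g ^ k : Fˣ), ?_⟩).symm.pow_right n
  rw [← Units.val_pow_eq_pow_val, ← pow_mul', ← hk, L.pow]

/-- The cocycle `y ∪ β ^ j`. -/
def phi (L : Lg F) (N j : ℕ) : List Fˣ → ZMod N :=
  cup1 (fun a b => (L.lg (a⁻¹ * b) : ZMod N))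
    (pw (fun a b c => (L.car (a⁻¹ * b) (b⁻¹ * c) : ZMod N)) j)

theorem phi_inv (L : Lg F) (N j : ℕ) : Inv Fˣ (phi L N j) := by
  exact inv_cup1_pw (fun g a b => by simp only [smul_eq_mul, e1_c])
    (fun g a b c => by simp only [smul_eq_mul, e1_c]) j

/-- Sketch: `coc_cup1`, `coc_pw`; the carry is a cocycle over `ℤ` because
`(card F - 1) * car` is the coboundary of `lg` (`lg_mul`) and `card F - 1 ≠ 0`. -/
theorem phi_coc (L : Lg F) {N : ℕ} (hN : N ∣ Fintype.card F - 1) (j : ℕ) :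
    Coc (2 * j + 1 + 1) (phi L N j) := by
  refine coc_cup1 (fun a b c => ?_) (by omega) (coc_pw (fun a b c d => ?_) j)
  · rw [← e1_d a b c, L.e1_mul hN (a⁻¹ * b)]
    ring
  · have h1 := L.lg_mul (a⁻¹ * b) (b⁻¹ * c)
    have h2 := L.lg_mul (a⁻¹ * c) (c⁻¹ * d)
    have h3 := L.lg_mul (b⁻¹ * c) (c⁻¹ * d)
    have h4 := L.lg_mul (a⁻¹ * b) (b⁻¹ * d)
    rw [e1_d] at h1 h2 h3 h4
    have h5 : L.car (b⁻¹ * c) (c⁻¹ * d) + L.car (a⁻¹ * b) (b⁻¹ * d) =
        L.car (a⁻¹ * c) (c⁻¹ * d) + L.car (a⁻¹ * b) (b⁻¹ * c) :=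
      Nat.eq_of_mul_eq_mul_left L.e1_pos (by rw [mul_add, mul_add]; omega)
    have h6 := congrArg (Nat.cast : ℕ → ZMod N) h5
    push_cast at h6
    linear_combination h6

theorem phi_nrm (L : Lg F) (N j : ℕ) : Nrm (phi L N j) := by
  refine nrm_cup1_pw (fun a => ?_) (fun a b => ?_) (fun a b => ?_) j
  · rw [inv_mul_cancel, L.e1_one, Nat.cast_zero]
  · rw [inv_mul_cancel, Lg.car, L.e1_one, zero_add, Nat.div_eq_of_lt (L.lt _), Nat.cast_zero]
  · rw [inv_mul_cancel, Lg.car, L.e1_one, add_zero, Nat.div_eq_of_lt (L.lt _), Nat.cast_zero]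

theorem Lg.e1_sum (L : Lg F) (τ : Fˣ) (n : ℕ) : n * L.lg τ =
    L.lg (τ ^ n) + (Fintype.card F - 1) * ∑ a ∈ Finset.range n, L.car (τ ^ a) τ := by
  induction n with
  | zero => simp [L.e1_one]
  | succ n ih =>
    have := L.lg_mul (τ ^ n) τ
    rw [Finset.sum_range_succ, mul_add, add_one_mul, pow_succ]
    omega

/-- Sketch: `lin_cup1_crs`, `lin_pw_zc`.  For `τ ^ M = 1`, summing `lg_mul (τ ^ a) τ` over `a < M`
gives `M * lg τ = (card F - 1) * ∑ car`.  For `ξ` primitive, `M ∣ card F - 1 =: Q`,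
`lg ξ = c₀ (Q / M)` with `c₀` coprime to `M`, and `lg (ξ ^ a) = c (Q / M)` with `c ≡ c₀ a` modulo `M`;
so `∑ car = c`. -/
theorem phi_eval (L : Lg F) {N M : ℕ} (hNM : N ∣ M) {ξ : Fˣ} (hξ : IsPrimitiveRoot ξ M)
    (hM : M ≠ 0) : ∃ c₀ : ZMod N, IsUnit c₀ ∧ ∀ (j a : ℕ) (v : Fˣ),
      lin ℤ (phi L N j) (crs v (zc (ξ ^ a) M j)) = L.y N (v : F) * (c₀ * a) ^ j := by
  have h1 := L.e1_sum ξ M
  rw [hξ.pow_eq_one, L.e1_one, zero_add] at h1
  generalize ∑ a ∈ Finset.range M, L.car (ξ ^ a) ξ = S at h1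
  refine ⟨S, (ZMod.isUnit_iff_coprime _ _).2 (Nat.Coprime.coprime_dvd_right hNM ?_),
    fun j a v => ?_⟩
  · obtain ⟨M', g1⟩ := Nat.gcd_dvd_right S M
    obtain ⟨S', g2⟩ := Nat.gcd_dvd_left S M
    have g0 := Nat.gcd_pos_of_pos_right S (Nat.pos_of_ne_zero hM)
    rw [Nat.Coprime]
    generalize S.gcd M = d at *
    subst g1 g2
    rw [mul_assoc, mul_left_comm _ d] at h1
    have g3 : ξ ^ M' = 1 := by
      rw [← L.pow ξ, ← pow_mul', Nat.eq_of_mul_eq_mul_left g0 h1, pow_mul, ← L.e1_ord,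
        pow_orderOf_eq_one, one_pow]
    exact Nat.dvd_one.1 (Nat.dvd_of_mul_dvd_mul_right (Nat.pos_of_ne_zero (right_ne_zero_of_mul hM))
      ((hξ.dvd_of_pow_eq_one _ g3).trans (one_mul _).symm.dvd))
  · have h2 := L.e1_sum (ξ ^ a) M
    rw [← pow_mul, pow_mul', hξ.pow_eq_one, one_pow, L.e1_one, zero_add] at h2
    have h3 := L.e1_sum ξ a
    have h4 : S * a = ∑ b ∈ Finset.range M, L.car ((ξ ^ a) ^ b) (ξ ^ a) +
        M * ∑ b ∈ Finset.range a, L.car (ξ ^ b) ξ :=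
      Nat.eq_of_mul_eq_mul_left L.e1_pos (by
        rw [mul_add, ← h2, ← mul_assoc, ← h1, mul_assoc, mul_comm _ a, h3]
        ring)
    rw [phi, lin_cup1_crs (fun g a b => by simp only [e1_c]) (fun g a b c => by simp only [e1_c])
      (fun a b => by simp [Lg.car, add_comm, mul_left_comm b⁻¹ a]) v (zc_len _ _ _),
      lin_pw_zc fun g a b c => by simp only [e1_c], ← Nat.cast_mul, h4, Nat.cast_add, Nat.cast_mul,
      (ZMod.natCast_eq_zero_iff _ _).2 hNM, zero_mul, add_zero, L.y_unit, Nat.cast_sum]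
    simp only [inv_one, one_mul, pow_succ, inv_mul_cancel_left]

end

end Pool.Agent.Lib.MP_446a91_nt.Sou
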