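import Pool.Agent.Lib.MP_446a91_nt.Sou.If

/-! The transfer of a cocycle on `Fˣ` to `GL I F` (sum over the lines). -/

namespace Pool.Agent.Lib.MP_446a91_nt.Sou

open Matrix

noncomputable section

variable {F : Type} [Field F] [Fintype F] [DecidableEq F] {I : Type} [Fintype I] [DecidableEq I]
  {N : ℕ}

/-- A gauge: a function on nonzero vectors, homogeneous of degree one. -/
def IsGauge (lam : (I → F) → Fˣ) : Prop :=
  ∀ (c : Fˣ) (v : I → F), v ≠ 0 → lam ((c : F) • v) = c * lam v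

/-- Sketch: the first nonzero coordinate for a linear order on `I` (`Fintype.equivFin`), or choose
orbit representatives. -/
theorem exists_gauge (F I : Type) [Field F] [Fintype I] : ∃ lam : (I → F) → Fˣ,
    ∀ (c : Fˣ) (v : I → F), v ≠ 0 → lam ((c : F) • v) = c * lam v := by
  classical
  let ix : ∀ S : Set I, S.Nonempty → I := fun _ hS => hS.choose
  have hix : ∀ (S : Set I) (hS : S.Nonempty), ix S hS ∈ S := fun _ hS => hS.choose_spec
  have hne : ∀ v : I → F, v ≠ 0 → (Function.support v).Nonempty := fun v hv =>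
    Function.support_nonempty_iff.2 hv
  refine ⟨fun v => if hv : v = 0 then 1 else
    Units.mk0 (v (ix _ (hne v hv))) (hix _ (hne v hv)), fun c v hv => ?_⟩
  have hcv : (c : F) • v ≠ 0 := smul_ne_zero c.ne_zero hv
  have hS : Function.support ((c : F) • v) = Function.support v := by
    ext i
    simp [Function.mem_support]
  have hi : ix _ (hne _ hcv) = ix _ (hne _ hv) := by
    have : ∀ (S T : Set I) (hS : S.Nonempty) (hT : T.Nonempty), S = T → ix S hS = ix T hT := by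
      rintro S T hS hT rfl
      rfl
    exact this _ _ _ _ hS
  simp only [dif_neg hcv, dif_neg hv]
  ext
  change ((c : F) • v) (ix _ (hne _ hcv)) = (c : F) * v (ix _ (hne _ hv))
  rw [hi]
  rfl

/-- The sum of `ψ` over the vectors of gauge one (one on each line). -/
def osum (lam : (I → F) → Fˣ) (ψ : (I → F) → ZMod N) : ZMod N :=
  ∑ v ∈ Finset.univ.filter (fun v => v ≠ 0 ∧ lam v = 1), ψ v

/-- Sketch: the bijection `v ↦ (lam' v)⁻¹ • v` (`Finset.sum_bij'`). -/
theorem osum_congr {lam lam' : (I → F) → Fˣ} (h : IsGauge lam) (h' : IsGauge lam')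
    {ψ : (I → F) → ZMod N} (hψ : ∀ (c : Fˣ) v, v ≠ 0 → ψ ((c : F) • v) = ψ v) :
    osum lam ψ = osum lam' ψ := by
  have key : ∀ {l l' : (I → F) → Fˣ}, IsGauge l → IsGauge l' → ∀ v, v ≠ 0 → l v = 1 →
      (((l ((((l' v)⁻¹ : Fˣ) : F) • v))⁻¹ : Fˣ) : F) • ((((l' v)⁻¹ : Fˣ) : F) • v) = v := by
    intro l l' hl _ v hv h1
    rw [hl _ v hv, h1, mul_one, inv_inv, smul_smul, Units.mul_inv, one_smul]
  have mem : ∀ {l' : (I → F) → Fˣ}, IsGauge l' → ∀ v, v ≠ 0 →
      (((l' v)⁻¹ : Fˣ) : F) • v ≠ 0 ∧ l' ((((l' v)⁻¹ : Fˣ) : F) • v) = 1 := by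
    intro l' hl' v hv
    exact ⟨smul_ne_zero (Units.ne_zero _) hv, by rw [hl' _ v hv, inv_mul_cancel]⟩
  unfold osum
  refine Finset.sum_nbij' (fun v => (((lam' v)⁻¹ : Fˣ) : F) • v)
    (fun v => (((lam v)⁻¹ : Fˣ) : F) • v) ?_ ?_ ?_ ?_ ?_
  · intro v hv
    simp only [Finset.mem_filter, Finset.mem_univ, true_and] at hv ⊢
    exact mem h' v hv.1
  · intro v hv
    simp only [Finset.mem_filter, Finset.mem_univ, true_and] at hv ⊢
    exact mem h v hv.1
  · intro v hv
    simp only [Finset.mem_filter, Finset.mem_univ, true_and] at hv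
    exact key h h' v hv.1 hv.2
  · intro v hv
    simp only [Finset.mem_filter, Finset.mem_univ, true_and] at hv
    exact key h' h v hv.1 hv.2
  · intro v hv
    simp only [Finset.mem_filter, Finset.mem_univ, true_and] at hv
    exact (hψ _ v hv.1).symm

/-- The word of scalars seen by the vector `v`. -/
def sca (lam : (I → F) → Fˣ) (v : I → F) (g : GL I F) : Fˣ :=
  (lam (((g⁻¹ : GL I F) : Matrix I I F) *ᵥ v))⁻¹

/-- The transferred cochain. -/
def eg (φ : List Fˣ → ZMod N) (lam : (I → F) → Fˣ) (w : List (GL I F)) : ZMod N :=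
  osum lam fun v => φ (w.map (sca lam v))

variable {φ : List Fˣ → ZMod N} {lam lam' : (I → F) → Fˣ}

omit [Fintype F] [DecidableEq F] in
theorem e2_mulVec_ne (g : GL I F) {v : I → F} (hv : v ≠ 0) : (g : Matrix I I F) *ᵥ v ≠ 0 := by
  intro h0
  apply hv
  have : ((g⁻¹ : GL I F) : Matrix I I F) *ᵥ ((g : Matrix I I F) *ᵥ v) = v := by
    rw [mulVec_mulVec, ← Units.val_mul, inv_mul_cancel, Units.val_one, one_mulVec]
  rw [← this, h0, mulVec_zero]

omit [Fintype F] [DecidableEq F] in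
theorem e2_sca_smul (h : IsGauge lam) (c : Fˣ) {v : I → F} (hv : v ≠ 0) (g : GL I F) :
    sca lam ((c : F) • v) g = c⁻¹ • sca lam v g := by
  unfold sca
  rw [mulVec_smul, h c _ (e2_mulVec_ne _ hv), _root_.mul_inv_rev, smul_eq_mul, mul_comm]

omit [Fintype F] [DecidableEq F] in
theorem e2_sca_mul (lam : (I → F) → Fˣ) (a g : GL I F) (v : I → F) :
    sca lam v (a * g) = sca lam (((a⁻¹ : GL I F) : Matrix I I F) *ᵥ v) g := by
  unfold sca
  rw [_root_.mul_inv_rev, Units.val_mul, mulVec_mulVec]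

omit [Fintype F] [DecidableEq F] in
theorem e2_gauge_comp (h : IsGauge lam) (a : GL I F) :
    IsGauge fun v => lam ((a : Matrix I I F) *ᵥ v) := fun c v hv => by
  simp only [mulVec_smul]
  exact h c _ (e2_mulVec_ne a hv)

theorem e2_osum_reindex (h : IsGauge lam) (a : GL I F) {ψ : (I → F) → ZMod N}
    (hψ : ∀ (c : Fˣ) v, v ≠ 0 → ψ ((c : F) • v) = ψ v) :
    osum lam (fun v => ψ (((a⁻¹ : GL I F) : Matrix I I F) *ᵥ v)) = osum lam ψ := by
  rw [osum_congr h (e2_gauge_comp h a) hψ]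
  have e1 : ∀ v : I → F,
      ((a⁻¹ : GL I F) : Matrix I I F) *ᵥ ((a : Matrix I I F) *ᵥ v) = v := fun v => by
    rw [mulVec_mulVec, ← Units.val_mul, inv_mul_cancel, Units.val_one, one_mulVec]
  have e2 : ∀ v : I → F,
      (a : Matrix I I F) *ᵥ (((a⁻¹ : GL I F) : Matrix I I F) *ᵥ v) = v := fun v => by
    rw [mulVec_mulVec, ← Units.val_mul, mul_inv_cancel, Units.val_one, one_mulVec]
  unfold osum
  refine Finset.sum_nbij' (fun v => ((a⁻¹ : GL I F) : Matrix I I F) *ᵥ v)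
    (fun v => (a : Matrix I I F) *ᵥ v) ?_ ?_ ?_ ?_ ?_
  · intro v hv
    simp only [Finset.mem_filter, Finset.mem_univ, true_and] at hv ⊢
    exact ⟨e2_mulVec_ne _ hv.1, by rw [e2, hv.2]⟩
  · intro v hv
    simp only [Finset.mem_filter, Finset.mem_univ, true_and] at hv ⊢
    exact ⟨e2_mulVec_ne _ hv.1, hv.2⟩
  · intro v _
    exact e2 v
  · intro v _
    exact e1 v
  · intro v _
    rfl

theorem e2_lin_osum {X : Type} (lam : (I → F) → Fˣ) (f : (I → F) → List X → ZMod N)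
    (c : Ch ℤ X) :
    lin ℤ (fun w => osum lam fun v => f v w) c = osum lam fun v => lin ℤ (f v) c :=
  lin_sum _ f c

theorem e2_lin_eg {X : Type} (φ : List Fˣ → ZMod N) (lam : (I → F) → Fˣ) (ρ : X → GL I F)
    (c : Ch ℤ X) :
    lin ℤ (eg φ lam) (mp ρ c) = osum lam fun v => lin ℤ φ (mp (sca lam v ∘ ρ) c) := by
  have : eg φ lam = fun w => osum lam fun v => φ (w.map (sca lam v)) := rfl
  rw [this, e2_lin_osum]
  congr 1
  funext v
  rw [← mp_mp, lin_mp φ]

omit [Fintype F] [DecidableEq F] in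
theorem e2_lin_inv (hφ : Inv Fˣ φ) (c : Fˣ) (x : Ch ℤ Fˣ) :
    lin ℤ φ (mp (c • ·) x) = lin ℤ φ x := by
  rw [lin_mp]
  exact congrArg (fun κ => lin ℤ κ x) (funext (hφ c))

/-- Sketch: `sca lam (c • v) g = c⁻¹ * sca lam v g`; `sca lam (h v) (h g) = sca lam v g`;
reindex the sum by `v ↦ h v` and use `osum_congr` for the gauge `lam ∘ h`. -/
theorem eg_inv (hφ : Inv Fˣ φ) (h : IsGauge lam) : Inv (GL I F) (eg φ lam) := by
  intro a w
  unfold eg
  rw [← e2_osum_reindex h a (ψ := fun v => φ (w.map (sca lam v)))]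
  · congr 1
    funext v
    rw [List.map_map]
    congr 2
    funext g
    exact e2_sca_mul lam a g v
  · intro c v hv
    rw [← hφ c⁻¹ (w.map (sca lam v)), List.map_map]
    congr 2
    funext g
    exact e2_sca_smul h c hv g

theorem eg_coc {k : ℕ} (hφ : Coc k φ) : Coc k (eg φ lam) := by
  intro w hw
  have : eg φ lam = fun w => osum lam fun v => φ (w.map (sca lam v)) := rfl
  rw [this, e2_lin_osum]
  refine Finset.sum_eq_zero fun v _ => ?_
  rw [← lin_mp, mp_dW]
  exact hφ _ (by simpa using hw)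

theorem eg_nrm (hφ : Nrm φ) : Nrm (eg φ lam) := by
  intro w₁ a w₂
  refine Finset.sum_eq_zero fun v _ => ?_
  simp only [List.map_append, List.map_cons]
  exact hφ _ _ _

/-- Sketch: `μ w = osum lam fun v => lin φ (prW (sca lam v ∘ ρ) (sca lam' v ∘ ρ) w)` is an invariant
cochain on `Γ` (as in `eg_inv`, with `mp_prW`, `prW_map`), and by `bd_pr` and `osum_congr` the
difference of the two sides is `lin μ (bd z)`. -/
theorem eg_gauge {k : ℕ} (hφ : Inv Fˣ φ) (hφ' : Coc k φ) (h : IsGauge lam) (h' : IsGauge lam')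
    {Γ : Type} [Group Γ] (ρ : Γ →* GL I F) {z : Ch ℤ Γ} (hz : z ∈ len ℤ Γ k) (hc : WCyc Γ N z) :
    lin ℤ (eg φ lam) (mp ρ z) = lin ℤ (eg φ lam') (mp ρ z) := by
  have sc : ∀ {l : (I → F) → Fˣ}, IsGauge l → ∀ (c : Fˣ) (v : I → F), v ≠ 0 →
      sca l ((c : F) • v) ∘ ρ = (c⁻¹ • ·) ∘ (sca l v ∘ ρ) := fun hl c v hv =>
    funext fun g => e2_sca_smul hl c hv (ρ g)
  have hinv : Inv Γ (fun w => osum lam fun v =>
      lin ℤ φ (prW (sca lam v ∘ ρ) (sca lam' v ∘ ρ) w)) := by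
    intro a w
    beta_reduce
    rw [← e2_osum_reindex h (ρ a)
      (ψ := fun v => lin ℤ φ (prW (sca lam v ∘ ρ) (sca lam' v ∘ ρ) w))]
    · congr 1
      funext v
      rw [prW_map]
      congr 2 <;> funext g <;>
        simp only [Function.comp_apply, smul_eq_mul, map_mul, e2_sca_mul]
    · intro c v hv
      rw [sc h c v hv, sc h' c v hv, ← mp_prW, e2_lin_inv hφ]
  have h0 := hc _ hinv
  rw [e2_lin_osum] at h0
  have h1 : ∀ v, lin ℤ (fun w => lin ℤ φ (prW (sca lam v ∘ ρ) (sca lam' v ∘ ρ) w)) (bd z) =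
      lin ℤ φ (mp (sca lam' v ∘ ρ) z) - lin ℤ φ (mp (sca lam v ∘ ρ) z) := fun v => by
    rw [← map_sub, ← bd_pr, map_add, hφ'.lin_bd (pr_len _ _ hz), zero_add, pr, map_lin]
  simp only [h1] at h0
  rw [e2_lin_eg, e2_lin_eg, osum_congr h' h (ψ := fun v => lin ℤ φ (mp (sca lam' v ∘ ρ) z))]
  · unfold osum at h0 ⊢
    rw [Finset.sum_sub_distrib, sub_eq_zero] at h0
    exact h0.symm
  · intro c v hv
    rw [sc h' c v hv, ← mp_mp, e2_lin_inv hφ]

end

end Pool.Agent.Lib.MP_446a91_nt.Sou
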