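import Pool.Agent.Lib.MP_446a91_nt.Sou.E1
import Pool.Agent.Lib.MP_446a91_nt.Sou.E2

/-! Additivity of the transferred cocycle; the additive system of a finite field. -/

namespace Pool.Agent.Lib.MP_446a91_nt.Sou

open Matrix

noncomputable section

variable {F : Type} [Field F] [Fintype F] [DecidableEq F] {N : ℕ}

/-- Counting: the coordinates of larger rank are free. -/
theorem e3_count {κ : Type} [Fintype κ] [DecidableEq κ] {V : κ → Type} [∀ k, Fintype (V k)]
    [∀ k, DecidableEq (V k)] [∀ k, Zero (V k)] (hV : ∀ k, (Fintype.card (V k) : ZMod N) = 1)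
    (r : κ → ℕ) (f : ∀ k, V k → ZMod N) (k : κ) :
    ∑ u : ∀ k, V k, (if ∀ k', r k' < r k → u k' = 0 then f k (u k) else 0) = ∑ y, f k y := by
  have h := Finset.prod_univ_sum (fun k' => (Finset.univ : Finset (V k')))
    fun k' y => if r k' < r k then (if y = 0 then 1 else 0) else if k' = k then f k' y else 1
  have h1 : ∀ k', (∑ y : V k', if r k' < r k then (if y = 0 then 1 else 0) else
      if k' = k then f k' y else 1) = if k' = k then ∑ y, f k' y else 1 := by
    intro k'
    by_cases h2 : r k' < r k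
    · have h3 : k' ≠ k := fun e => absurd h2 (e ▸ lt_irrefl _)
      simp [h2, h3]
    · by_cases h3 : k' = k
      · simp only [if_neg h2, if_pos h3]
      · simp [h2, h3, hV]
  simp only [h1, Finset.prod_ite_eq', Finset.mem_univ, if_true, Fintype.piFinset_univ] at h
  rw [h]
  refine Finset.sum_congr rfl fun u _ => ?_
  split_ifs with h2
  · have h3 : f k (u k) = ∏ k', if k' = k then f k' (u k') else 1 := by
      rw [Finset.prod_ite_eq', if_pos (Finset.mem_univ k)]
    rw [h3]
    refine Finset.prod_congr rfl fun k' _ => ?_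
    by_cases h4 : r k' < r k
    · rw [if_pos h4, if_pos (h2 k' h4), if_neg fun e : k' = k => absurd h4 (e ▸ lt_irrefl _)]
    · rw [if_neg h4]
  · push Not at h2
    obtain ⟨k', h3, h4⟩ := h2
    exact (Finset.prod_eq_zero (Finset.mem_univ k') (by rw [if_pos h3, if_neg h4])).symm

/-- `k` is the first nonzero block of `u`. -/
def e3Lead {κ : Type} {V : κ → Type} [∀ k, Zero (V k)] (r : κ → ℕ) (u : ∀ k, V k) (k : κ) : Prop :=
  u k ≠ 0 ∧ ∀ k', r k' < r k → u k' = 0

theorem e3_exists {κ : Type} {V : κ → Type} [∀ k, Zero (V k)] (r : κ → ℕ) {u : ∀ k, V k}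
    (hu : u ≠ 0) : ∃ k, e3Lead r u k := by
  obtain ⟨k, hk, h⟩ := (measure r).wf.has_min {k | u k ≠ 0} (Function.ne_iff.1 hu)
  exact ⟨k, hk, fun k' h' => by_contra fun h0 => h k' h0 h'⟩

theorem e3_unique {κ : Type} {V : κ → Type} [∀ k, Zero (V k)] {r : κ → ℕ}
    (hr : Function.Injective r) {u : ∀ k, V k} {k k' : κ} (h : e3Lead r u k) (h' : e3Lead r u k') :
    k' = k :=
  hr (le_antisymm (not_lt.1 fun e => h.1 (h'.2 k e)) (not_lt.1 fun e => h'.1 (h.2 k' e)))

theorem e3_congr {κ : Type} {V : κ → Type} [∀ k, Zero (V k)] {r : κ → ℕ} {u u' : ∀ k, V k} {k : κ}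
    (h : e3Lead r u k) (e : ∀ k, u' k = 0 ↔ u k = 0) : e3Lead r u' k :=
  ⟨fun h0 => h.1 ((e k).1 h0), fun k' h' => (e k').2 (h.2 k' h')⟩

omit [Fintype F] [DecidableEq F] in
theorem e3_zero {I : Type} [Fintype I] [DecidableEq I] (g : GL I F) (x : I → F) :
    (g : Matrix I I F) *ᵥ x = 0 ↔ x = 0 := by
  refine ⟨fun h => ?_, fun h => by rw [h, mulVec_zero]⟩
  rw [← one_mulVec x, ← g.inv_mul, ← mulVec_mulVec, h, mulVec_zero]

/-- Sketch: order `κ` linearly (`Fintype.equivFin`).  For `v ≠ 0` let `k v` be the least `k` with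
`(P v)_k := fun i => (P *ᵥ v) ⟨k, i⟩` nonzero, and `lam' v = lam (k v) ((P v)_(k v))`: a gauge.  From
`h` for `γ⁻¹`: `(P (ρ' γ⁻¹ v))_k = ρ k γ⁻¹ (P v)_k`, so `k v` is preserved and
`sca lam' v (ρ' γ) = sca (lam k) (P v)_k (ρ k γ)`.  Substitute `u = P v`, group the sum by `k` and
by `u_k`: each fibre has `∏_{k' > k} card (I k' → F) ≡ 1` elements. -/
theorem eg_add (hN : N ∣ Fintype.card F - 1) (φ : List Fˣ → ZMod N) {Γ : Type} [Group Γ]
    {κ : Type} [Fintype κ] [DecidableEq κ] {I : κ → Type} [∀ k, Fintype (I k)]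
    [∀ k, DecidableEq (I k)] {J : Type} [Fintype J] [DecidableEq J]
    (ρ : ∀ k, Γ →* GL (I k) F) (ρ' : Γ →* GL J F) (P : Matrix (Σ k, I k) J F)
    (Q : Matrix J (Σ k, I k) F) (hP : P * Q = 1) (hQ : Q * P = 1)
    (h : ∀ γ, P * (ρ' γ : Matrix J J F) =
      blockDiagonal' (fun k => (ρ k γ : Matrix (I k) (I k) F)) * P)
    (lam : ∀ k, (I k → F) → Fˣ) (hl : ∀ k, IsGauge (lam k)) :
    ∃ lam' : (J → F) → Fˣ, IsGauge lam' ∧
      ∀ w : List Γ, eg φ lam' (w.map ρ') = ∑ k, eg φ (lam k) (w.map (ρ k)) := by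
  classical
  obtain ⟨r, hr⟩ : ∃ r : κ → ℕ, Function.Injective r := Countable.exists_injective_nat κ
  let U : (J → F) ≃ ∀ k, I k → F :=
    { toFun := fun v k i => (P *ᵥ v) ⟨k, i⟩
      invFun := fun u => Q *ᵥ fun p => u p.1 p.2
      left_inv := fun v => by
        change Q *ᵥ (P *ᵥ v) = v
        rw [mulVec_mulVec, hQ, one_mulVec]
      right_inv := fun u => by
        funext k i
        change (P *ᵥ (Q *ᵥ fun p => u p.1 p.2)) ⟨k, i⟩ = u k i
        rw [mulVec_mulVec, hP, one_mulVec] }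
  have hU0 : U 0 = 0 := by
    funext k i
    change (P *ᵥ 0) ⟨k, i⟩ = 0
    rw [mulVec_zero, Pi.zero_apply]
  have hUne : ∀ v, v ≠ 0 → ∃ k, e3Lead r (U v) k := fun v hv =>
    e3_exists r fun h0 => hv (U.injective (h0.trans hU0.symm))
  have hUs : ∀ (c : F) v k, U (c • v) k = c • U v k := fun c v k => by
    funext i
    change (P *ᵥ (c • v)) ⟨k, i⟩ = c • (P *ᵥ v) ⟨k, i⟩
    rw [mulVec_smul, Pi.smul_apply]
  have hUρ : ∀ γ v k, U ((ρ' γ : Matrix J J F) *ᵥ v) k =
      (ρ k γ : Matrix (I k) (I k) F) *ᵥ U v k := fun γ v k => by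
    funext i
    change (P *ᵥ ((ρ' γ : Matrix J J F) *ᵥ v)) ⟨k, i⟩ =
      ∑ j, (ρ k γ : Matrix (I k) (I k) F) i j * (P *ᵥ v) ⟨k, j⟩
    rw [mulVec_mulVec, h, ← mulVec_mulVec, mulVec, dotProduct, Fintype.sum_sigma,
      Fintype.sum_eq_single k fun k' hk => Finset.sum_eq_zero fun j _ => by
        rw [blockDiagonal'_apply_ne _ _ _ hk.symm, zero_mul]]
    simp only [blockDiagonal'_apply_eq]
  obtain ⟨lam', hlam⟩ : ∃ lam' : (J → F) → Fˣ, ∀ v k, e3Lead r (U v) k → lam' v = lam k (U v k) :=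
    ⟨fun v => ∏ k, if e3Lead r (U v) k then lam k (U v k) else 1, fun v k hk =>
      (Fintype.prod_eq_single k fun k' hk' => if_neg fun h' => hk' (e3_unique hr hk h')).trans
        (if_pos hk)⟩
  refine ⟨lam', fun c v hv => ?_, fun w => ?_⟩
  · obtain ⟨k, hk⟩ := hUne v hv
    rw [hlam v k hk, hlam _ k (e3_congr hk fun k' => by rw [hUs, smul_eq_zero_iff_right c.ne_zero]),
      hUs, hl k c _ hk.1]
  · have hV : ∀ k, (Fintype.card (I k → F) : ZMod N) = 1 := fun k => by
      have h1 := (ZMod.natCast_eq_zero_iff _ N).2 hN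
      rw [Nat.cast_sub Fintype.card_pos, Nat.cast_one, sub_eq_zero] at h1
      rw [Fintype.card_fun, Nat.cast_pow, h1, one_pow]
    have h2 := fun k => e3_count hV r (fun k x => if x ≠ 0 ∧ lam k x = 1 then
      φ ((w.map (ρ k)).map (sca (lam k) x)) else 0) k
    simp only [eg, osum, Finset.sum_filter]
    rw [← Finset.sum_congr rfl fun k _ => h2 k, Finset.sum_comm, ← U.sum_comp]
    refine Finset.sum_congr rfl fun v _ => ?_
    by_cases hv : v = 0
    · simp [hv, hU0]
    · obtain ⟨k, hk⟩ := hUne v hv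
      have h3 : (w.map ρ').map (sca lam' v) = (w.map (ρ k)).map (sca (lam k) (U v k)) := by
        rw [List.map_map, List.map_map]
        refine List.map_congr_left fun γ _ => ?_
        rw [Function.comp_apply, Function.comp_apply, sca, sca, ← map_inv, ← map_inv,
          hlam _ k (e3_congr hk fun k' => by rw [hUρ, e3_zero]), hUρ]
      rw [Fintype.sum_eq_single k fun k' hk' => ?_, if_pos hk.2, h3, hlam v k hk]
      · simp only [ne_eq, hv, hk.1, not_false_eq_true, true_and]
      · split_ifs with h4 h5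
        · exact absurd (e3_unique hr hk ⟨h5.1, h4⟩) hk'
        · rfl
        · rfl

/-- A fixed gauge. -/
def gauge (F I : Type) [Field F] [Fintype I] : (I → F) → Fˣ := (exists_gauge F I).choose

omit [Fintype F] [DecidableEq F] in
theorem gauge_spec (I : Type) [Fintype I] : IsGauge (gauge F I) := (exists_gauge F I).choose_spec

/-- The additive system of a finite field. -/
def sysF (L : Lg F) (hN : N ∣ Fintype.card F - 1) (j : ℕ) : AddSys F (2 * j + 1) N where
  e I := eg (phi L N j) (gauge F I)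
  inv I := eg_inv (phi_inv L N j) (gauge_spec I)
  coc _ := eg_coc (phi_coc L hN j)
  nrm _ := eg_nrm (phi_nrm L N j)
  add := by
    intro Γ _ κ _ _ I _ _ J _ _ ρ ρ' P Q hP hQ h z hz hc
    obtain ⟨lam', hl, e⟩ := eg_add hN (phi L N j) ρ ρ' P Q hP hQ h (fun k => gauge F (I k))
      fun k => gauge_spec (I k)
    rw [eg_gauge (phi_inv L N j) (phi_coc L hN j) (gauge_spec J) hl ρ' hz hc]
    simp only [lin_mp, e, lin_sum]

/-- A unit as a one by one matrix. -/
def one1 (R : Type) [CommRing R] : Rˣ →* GL Unit R :=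
  Units.map (Matrix.scalar Unit : R →+* Matrix Unit Unit R).toMonoidHom

/-- Sketch: `eg_gauge` with the gauge `v ↦ v ()`; the only vector of gauge one is `1`. -/
theorem sysF_one (L : Lg F) (hN : N ∣ Fintype.card F - 1) (j : ℕ) {Γ : Type} [Group Γ]
    (ρ : Γ →* Fˣ) {z : Ch ℤ Γ} (hz : z ∈ len ℤ Γ (2 * j + 1 + 1)) (hc : WCyc Γ N z) :
    lin ℤ ((sysF L hN j).e Unit) (mp ((one1 F).comp ρ) z) = lin ℤ (phi L N j) (mp ρ z) := by
  have hl : IsGauge fun v : Unit → F => if h : v () = 0 then 1 else Units.mk0 (v ()) h := by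
    intro c v hv
    have h1 : v () ≠ 0 := fun h => hv (funext fun _ => h)
    have h2 : ((c : F) • v) () ≠ 0 := mul_ne_zero c.ne_zero h1
    simp only [dif_neg h1, dif_neg h2]
    exact Units.ext rfl
  refine (eg_gauge (phi_inv L N j) (phi_coc L hN j) (gauge_spec Unit) hl _ hz hc).trans ?_
  rw [lin_mp, lin_mp]
  congr 2
  funext w
  rw [eg, osum, Finset.sum_eq_single_of_mem (fun _ => 1) (by simp [funext_iff]), List.map_map]
  · congr 1
    refine List.map_congr_left fun γ _ => Units.ext ?_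
    rw [Function.comp_apply, sca, ← map_inv]
    simp [one1]
  · intro v hv hne
    obtain ⟨h1, h2⟩ := (Finset.mem_filter.1 hv).2
    have h3 : v () ≠ 0 := fun h => h1 (funext fun _ => h)
    rw [dif_neg h3] at h2
    exact absurd (funext fun _ => congrArg Units.val h2) hne

/-- Pull an additive system back along a ring homomorphism. -/
def AddSys.comap {R S : Type} [CommRing R] [CommRing S] {q : ℕ} (e : AddSys S q N)
    (χ : R →+* S) : AddSys R q N where
  e I _ _ w := e.e I (w.map (glMap I χ))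
  inv := by
    intro I _ _ g w
    beta_reduce
    rw [← e.inv I (glMap I χ g) (w.map (glMap I χ)), List.map_map, List.map_map]
    congr 2
    exact funext fun a => map_mul (glMap I χ) g a
  coc := by
    intro I _ _ w hw
    rw [← lin_mp, mp_dW]
    exact e.coc I _ (by rwa [List.length_map])
  nrm := by
    intro I _ _ w₁ a w₂
    beta_reduce
    rw [List.map_append, List.map_cons, List.map_cons]
    exact e.nrm I _ _ _
  add := by
    intro Γ _ κ _ _ I _ _ J _ _ ρ ρ' P Q hP hQ h z hz hc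
    have h1 := e.add (fun k => (glMap (I k) χ).comp (ρ k)) ((glMap J χ).comp ρ') (P.map χ) (Q.map χ)
      (by rw [← Matrix.map_mul, hP, Matrix.map_one _ χ.map_zero χ.map_one])
      (by rw [← Matrix.map_mul, hQ, Matrix.map_one _ χ.map_zero χ.map_one])
      (fun γ => by
        have h2 := congrArg (fun M => M.map χ) (h γ)
        simp only [Matrix.map_mul, blockDiagonal'_map _ _ χ.map_zero] at h2
        exact h2) z hz hc
    simpa only [lin_mp, List.map_map, MonoidHom.coe_comp] using h1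

theorem AddSys.val_comap {R S : Type} [CommRing R] [CommRing S] {q : ℕ} (e : AddSys S q N)
    (χ : R →+* S) {I : Type} [Fintype I] [DecidableEq I] (x : Ch ℤ (GL I ℤ)) :
    (e.comap χ).val x = e.val x := by
  have h : glMap I χ ∘ glMap I (Int.castRingHom R) = glMap I (Int.castRingHom S) := by
    funext g
    ext i j
    exact map_intCast χ _
  rw [AddSys.val, AddSys.val, ← h, ← mp_mp, lin_mp (e.e I)]
  rfl

end

end Pool.Agent.Lib.MP_446a91_nt.Sou
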