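import Pool.Agent.Lib.MP_446a91_nt.Sou.W0

/-!
Unitriangular groups of a strict order, Volodin words, extension by the identity.
-/

namespace Pool.Agent.Lib.MP_446a91_nt.Sou

open Matrix

noncomputable section

variable {R : Type} [CommRing R] {I J K : Type} [Fintype I] [DecidableEq I] [Fintype J]
  [DecidableEq J] [Fintype K] [DecidableEq K]

/-- A strict order relation. -/
def SOrd {I : Type} (σ : I → I → Prop) : Prop :=
  (∀ x, ¬ σ x x) ∧ ∀ x y z, σ x y → σ y z → σ x z

/-- The entries outside `σ` vanish. -/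
def Nil {I : Type} (σ : I → I → Prop) (n : Matrix I I R) : Prop := ∀ x y, ¬ σ x y → n x y = 0

/-- The entries outside `σ` are those of the identity matrix. -/
def Tri (σ : I → I → Prop) (g : Matrix I I R) : Prop := Nil σ (g - 1)

omit [Fintype I] [DecidableEq I] in
theorem Nil.mono {σ τ : I → I → Prop} (h : ∀ x y, σ x y → τ x y) {n : Matrix I I R}
    (hn : Nil σ n) : Nil τ n := fun x y hxy => hn x y fun h' => hxy (h x y h')

omit [Fintype I] [DecidableEq I] in
theorem Nil.add {σ : I → I → Prop} {n n' : Matrix I I R} (h : Nil σ n) (h' : Nil σ n') :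
    Nil σ (n + n') := fun x y hxy => by simp [h x y hxy, h' x y hxy]

omit [Fintype I] [DecidableEq I] in
theorem Nil.neg {σ : I → I → Prop} {n : Matrix I I R} (h : Nil σ n) : Nil σ (-n) :=
  fun x y hxy => by simp [h x y hxy]

omit [DecidableEq I] in
theorem Nil.mul {σ τ ρ : I → I → Prop} (ht : ∀ x y z, σ x y → τ y z → ρ x z)
    {n n' : Matrix I I R} (h : Nil σ n) (h' : Nil τ n') : Nil ρ (n * n') := fun x z hxz => by
  rw [mul_apply]
  refine Finset.sum_eq_zero fun y _ => ?_
  by_cases h1 : σ x y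
  · rw [h' y z fun h2 => hxz (ht x y z h1 h2), mul_zero]
  · rw [h x y h1, zero_mul]

omit [Fintype I] in
theorem Tri.mono {σ τ : I → I → Prop} (h : ∀ x y, σ x y → τ x y) {g : Matrix I I R}
    (hg : Tri σ g) : Tri τ g := Nil.mono h hg

omit [Fintype I] in
theorem tri_iff {σ : I → I → Prop} {g : Matrix I I R} :
    Tri σ g ↔ ∀ x y, ¬ σ x y → g x y = (1 : Matrix I I R) x y := by
  simp [Tri, Nil, sub_eq_zero]

omit [Fintype I] in
theorem tri_one (σ : I → I → Prop) : Tri σ (1 : Matrix I I R) := fun x y _ => by simp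

theorem Tri.mul {σ : I → I → Prop} (ht : ∀ x y z, σ x y → σ y z → σ x z) {g h : Matrix I I R}
    (hg : Tri σ g) (hh : Tri σ h) : Tri σ (g * h) := by
  have : g * h - 1 = (g - 1) + (h - 1) + (g - 1) * (h - 1) := by noncomm_ring
  unfold Tri
  rw [this]
  exact (Nil.add hg hh).add (Nil.mul ht hg hh)

theorem Nil.pow_eq_zero {σ : I → I → Prop} (hσ : SOrd σ) {n : Matrix I I R} (h : Nil σ n) :
    n ^ (Fintype.card I + 1) = 0 := by
  classical
  have key : ∀ k, Nil (fun x y => (Finset.univ.filter (σ y)).card + k ≤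
      (Finset.univ.filter (σ x)).card) (n ^ k) := by
    intro k
    induction k with
    | zero =>
      intro x y hxy
      rw [pow_zero, one_apply_ne]
      rintro rfl
      exact hxy le_rfl
    | succ k ih =>
      rw [pow_succ]
      refine Nil.mul (fun x y z h1 h2 => ?_) ih h
      have : (Finset.univ.filter (σ z)).card < (Finset.univ.filter (σ y)).card := by
        refine Finset.card_lt_card ⟨fun u hu => ?_, fun hs => ?_⟩
        · simp only [Finset.mem_filter, Finset.mem_univ, true_and] at hu ⊢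
          exact hσ.2 _ _ _ h2 hu
        · have := hs (show z ∈ Finset.univ.filter (σ y) by simpa using h2)
          simp only [Finset.mem_filter, Finset.mem_univ, true_and] at this
          exact hσ.1 _ this
      omega
  ext x y
  refine key _ x y fun hc => ?_
  have := Finset.card_le_univ (Finset.univ.filter (σ x))
  omega

theorem Tri.exists_inv {σ : I → I → Prop} (hσ : SOrd σ) {g : Matrix I I R} (hg : Tri σ g) :
    ∃ h, Tri σ h ∧ g * h = 1 := by
  have hn : Nil σ (1 - g) := by simpa using Nil.neg hg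
  have h1 : ∀ k, Nil σ ((1 - g) ^ (k + 1)) := by
    intro k
    induction k with
    | zero => simpa using hn
    | succ k ih => rw [pow_succ]; exact Nil.mul hσ.2 ih hn
  refine ⟨∑ i ∈ Finset.range (Fintype.card I + 1), (1 - g) ^ i, ?_, ?_⟩
  · unfold Tri
    rw [Finset.sum_range_succ', pow_zero, add_sub_cancel_right]
    intro x y hxy
    rw [Matrix.sum_apply]
    exact Finset.sum_eq_zero fun i _ => h1 i x y hxy
  · have := mul_neg_geom_sum (1 - g) (Fintype.card I + 1)
    rwa [sub_sub_cancel, hn.pow_eq_zero hσ, sub_zero] at this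

variable (R) in
/-- The unitriangular group of the relation `σ`. -/
def Tg (σ : I → I → Prop) : Subgroup (GL I R) where
  carrier := {g | Tri (Relation.TransGen σ) (g : Matrix I I R) ∧
    Tri (Relation.TransGen σ) ((g⁻¹ : GL I R) : Matrix I I R)}
  one_mem' := ⟨tri_one _, by rw [inv_one]; exact tri_one _⟩
  mul_mem' := fun {a b} ha hb => ⟨Tri.mul (fun _ _ _ => Relation.TransGen.trans) ha.1 hb.1, by
    rw [_root_.mul_inv_rev]
    exact Tri.mul (fun _ _ _ => Relation.TransGen.trans) hb.2 ha.2⟩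
  inv_mem' := fun {a} ha => ⟨ha.2, by rw [inv_inv]; exact ha.1⟩

theorem tg_lift {I J : Type} {σ : I → I → Prop} {τ : J → J → Prop} (f : I → J)
    (h : ∀ a b, σ a b → τ (f a) (f b)) {a b : I} (hab : Relation.TransGen σ a b) :
    Relation.TransGen τ (f a) (f b) := by
  induction hab with
  | single h1 => exact .single (h _ _ h1)
  | tail _ h1 ih => exact .tail ih (h _ _ h1)

theorem tg_mono {I : Type} {σ τ : I → I → Prop} (h : ∀ a b, σ a b → τ a b) {a b : I}
    (hab : Relation.TransGen σ a b) : Relation.TransGen τ a b := tg_lift id h hab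

omit [Fintype I] [DecidableEq I] in
theorem SOrd.transGen {σ : I → I → Prop} (hσ : SOrd σ) {x y : I} :
    Relation.TransGen σ x y ↔ σ x y := by
  refine ⟨fun h => ?_, Relation.TransGen.single⟩
  induction h with
  | single h => exact h
  | tail _ h ih => exact hσ.2 _ _ _ ih h

theorem mem_Tg {σ : I → I → Prop} (hσ : SOrd σ) {g : GL I R} :
    g ∈ Tg R σ ↔ Tri σ (g : Matrix I I R) := by
  refine ⟨fun h => h.1.mono fun _ _ => hσ.transGen.1, fun h => ?_⟩
  obtain ⟨g', h1, h2⟩ := h.exists_inv hσ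
  have : ((g⁻¹ : GL I R) : Matrix I I R) = g' := Units.inv_eq_of_mul_eq_one_right h2
  exact ⟨h.mono fun _ _ => .single, by rw [this]; exact h1.mono fun _ _ => .single⟩

theorem Tg_mono {σ τ : I → I → Prop} (h : ∀ x y, σ x y → τ x y) : Tg R σ ≤ Tg R τ :=
  fun _ hg => ⟨hg.1.mono fun _ _ => tg_mono h, hg.2.mono fun _ _ => tg_mono h⟩

/-- A unitriangular matrix as an element of the general linear group. -/
def Tri.unit {σ : I → I → Prop} (hσ : SOrd σ) {g : Matrix I I R} (hg : Tri σ g) : GL I R :=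
  ⟨g, (hg.exists_inv hσ).choose, (hg.exists_inv hσ).choose_spec.2,
    mul_eq_one_comm.1 (hg.exists_inv hσ).choose_spec.2⟩

@[simp] theorem Tri.unit_val {σ : I → I → Prop} (hσ : SOrd σ) {g : Matrix I I R} (hg : Tri σ g) :
    (hg.unit hσ : Matrix I I R) = g := rfl

theorem card_Tg {F : Type} [Field F] [Finite F] {σ : I → I → Prop} (hσ : SOrd σ) :
    ∃ k, Nat.card (Tg F σ) = Nat.card F ^ k := by
  classical
  let e : Tg F σ ≃ ({p : I × I // σ p.1 p.2} → F) :=
    { toFun := fun g p => (g.1 : Matrix I I F) p.1.1 p.1.2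
      invFun := fun v => ⟨Tri.unit hσ (g := fun x y =>
          if h : σ x y then v ⟨(x, y), h⟩ else (1 : Matrix I I F) x y)
          (tri_iff.2 fun x y h => by simp [h]),
        (mem_Tg hσ).2 (tri_iff.2 fun x y h => by simp [h])⟩
      left_inv := fun g => by
        ext x y
        by_cases h : σ x y
        · simp [h]
        · simp [h, tri_iff.1 ((mem_Tg hσ).1 g.2) x y h]
      right_inv := fun v => by
        funext p
        simp [p.2] }
  exact ⟨_, by rw [Nat.card_congr e, Nat.card_fun]⟩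

/-- A Volodin word: all quotients are unitriangular for one strict order. -/
def VW (w : List (GL I R)) : Prop :=
  ∃ σ, SOrd σ ∧ ∀ g ∈ w, ∀ h ∈ w, Tri σ ((g⁻¹ * h : GL I R) : Matrix I I R)

/-- The least order of a word. -/
def ordOf (w : List (GL I R)) : I → I → Prop := Relation.TransGen fun x y =>
  ∃ g ∈ w, ∃ h ∈ w, ((g⁻¹ * h : GL I R) : Matrix I I R) x y ≠ (1 : Matrix I I R) x y

theorem ordOf_le {w : List (GL I R)} {σ : I → I → Prop} (hσ : SOrd σ)
    (h : ∀ g ∈ w, ∀ h ∈ w, Tri σ ((g⁻¹ * h : GL I R) : Matrix I I R)) {x y : I}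
    (hxy : ordOf w x y) : σ x y :=
  hσ.transGen.1 (tg_mono (fun x y ⟨g, hg, g', hg', h1⟩ => by
    by_contra h2
    exact h1 (tri_iff.1 (h g hg g' hg') x y h2)) hxy)

theorem VW.sord {w : List (GL I R)} (h : VW w) : SOrd (ordOf w) := by
  obtain ⟨σ, hσ, h⟩ := h
  exact ⟨fun x hx => hσ.1 x (ordOf_le hσ h hx), fun _ _ _ => Relation.TransGen.trans⟩

theorem tri_ordOf {w : List (GL I R)} {g h : GL I R} (hg : g ∈ w) (hh : h ∈ w) :
    Tri (ordOf w) ((g⁻¹ * h : GL I R) : Matrix I I R) := tri_iff.2 fun x y hxy => by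
  by_contra h1
  exact hxy (.single ⟨g, hg, h, hh, h1⟩)

theorem mem_Tg_ordOf {w : List (GL I R)} {g h : GL I R} (hg : g ∈ w) (hh : h ∈ w) :
    g⁻¹ * h ∈ Tg R (ordOf w) :=
  ⟨(tri_ordOf hg hh).mono fun _ _ => .single, by
    rw [_root_.mul_inv_rev, inv_inv]
    exact (tri_ordOf hh hg).mono fun _ _ => .single⟩

theorem ordOf_mono {w w' : List (GL I R)} (h : w' ⊆ w) {x y : I} (hxy : ordOf w' x y) :
    ordOf w x y :=
  tg_mono (fun _ _ ⟨g, hg, g', hg', h1⟩ => ⟨g, h hg, g', h hg', h1⟩) hxy

theorem VW.subset {w w' : List (GL I R)} (hw : VW w) (h : w' ⊆ w) : VW w' := by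
  obtain ⟨σ, hσ, h1⟩ := hw
  exact ⟨σ, hσ, fun g hg g' hg' => h1 g (h hg) g' (h hg')⟩

theorem her_VW : Her (VW : List (GL I R) → Prop) := fun _ _ h hw => hw.subset h.subset

theorem vw_of_mem {σ : I → I → Prop} (hσ : SOrd σ) {w : List (GL I R)} {b : GL I R}
    (h : ∀ g ∈ w, b⁻¹ * g ∈ Tg R σ) : VW w :=
  ⟨σ, hσ, fun g hg g' hg' => (mem_Tg hσ).1 (by
    have := mul_mem (inv_mem (h g hg)) (h g' hg')
    simpa [mul_assoc] using this)⟩

theorem inv_smul_mul {G : Type} [Group G] (a g h : G) : (a • g)⁻¹ * (a • h) = g⁻¹ * h := by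
  simp [mul_assoc]

theorem ordOf_smul (a : GL I R) (w : List (GL I R)) : ordOf (w.map (a • ·)) = ordOf w := by
  unfold ordOf
  congr 1
  funext x y
  simp only [List.mem_map, exists_exists_and_eq_and, inv_smul_mul]

theorem vw_smul (a : GL I R) (w : List (GL I R)) : VW (w.map (a • ·)) ↔ VW w := by
  unfold VW
  simp only [List.forall_mem_map, inv_smul_mul]

/-- The matrix of an injection of index sets. -/
def emb (R : Type) [CommRing R] {I J : Type} [DecidableEq J] (f : I ↪ J) : Matrix J I R :=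
  fun y x => if y = f x then 1 else 0

omit [Fintype I] in
theorem emb_mul (f : I ↪ J) : (emb R f)ᵀ * emb R f = 1 := by
  ext x x'
  simp [emb, mul_apply, one_apply, eq_comm]

/-- Extension by the identity along an injection of index sets. -/
def extM (f : I ↪ J) : Matrix I I R →* Matrix J J R where
  toFun g := 1 + emb R f * (g - 1) * (emb R f)ᵀ
  map_one' := by simp
  map_mul' g h := by
    have e : emb R f * (g - 1) * (emb R f)ᵀ * (emb R f * (h - 1) * (emb R f)ᵀ) =
        emb R f * ((g - 1) * (h - 1)) * (emb R f)ᵀ := by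
      simp only [Matrix.mul_assoc]
      rw [← Matrix.mul_assoc (emb R f)ᵀ, emb_mul, Matrix.one_mul]
    have e2 : g * h - 1 = (g - 1) + (h - 1) + (g - 1) * (h - 1) := by noncomm_ring
    rw [mul_add, add_mul, add_mul, e, e2]
    simp only [Matrix.mul_add, Matrix.add_mul, mul_one, one_mul]
    abel

theorem extM_sub (f : I ↪ J) (g : Matrix I I R) :
    extM f g - 1 = emb R f * (g - 1) * (emb R f)ᵀ := by
  simp [extM]

omit [DecidableEq I] [Fintype J] in
theorem emb_conj_apply (f : I ↪ J) (n : Matrix I I R) (a b : I) :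
    (emb R f * n * (emb R f)ᵀ) (f a) (f b) = n a b := by
  classical
  simp [emb, mul_apply]

omit [DecidableEq I] [Fintype J] in
theorem emb_conj_left (f : I ↪ J) (n : Matrix I I R) {x : J} (hx : ∀ a, x ≠ f a) (y : J) :
    (emb R f * n * (emb R f)ᵀ) x y = 0 := by
  simp [emb, mul_apply, hx]

omit [DecidableEq I] [Fintype J] in
theorem emb_conj_right (f : I ↪ J) (n : Matrix I I R) (x : J) {y : J} (hy : ∀ a, y ≠ f a) :
    (emb R f * n * (emb R f)ᵀ) x y = 0 := by
  simp [emb, mul_apply, hy]

theorem extM_apply (f : I ↪ J) (g : Matrix I I R) (a b : I) : extM f g (f a) (f b) = g a b := by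
  have := congrFun (congrFun (extM_sub f g) (f a)) (f b)
  rw [emb_conj_apply] at this
  simpa [one_apply] using this

theorem extM_left (f : I ↪ J) (g : Matrix I I R) {x : J} (hx : ∀ a, x ≠ f a) (y : J) :
    extM f g x y = (1 : Matrix J J R) x y := by
  have := congrFun (congrFun (extM_sub f g) x) y
  rw [emb_conj_left f _ hx] at this
  simpa [sub_eq_zero] using this

theorem extM_right (f : I ↪ J) (g : Matrix I I R) (x : J) {y : J} (hy : ∀ a, y ≠ f a) :
    extM f g x y = (1 : Matrix J J R) x y := by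
  have := congrFun (congrFun (extM_sub f g) x) y
  rw [emb_conj_right f _ x hy] at this
  simpa [sub_eq_zero] using this

/-- Extension by the identity, on invertible matrices. -/
def ext (f : I ↪ J) : GL I R →* GL J R := Units.map (extM f)

@[simp] theorem ext_val (f : I ↪ J) (g : GL I R) :
    (ext f g : Matrix J J R) = extM f (g : Matrix I I R) := rfl

theorem ext_ext (f : I ↪ J) (f' : J ↪ K) (g : GL I R) :
    ext f' (ext f g) = ext (f.trans f') g := by
  have e : emb R (f.trans f') = emb R f' * emb R f := by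
    ext y x
    simp [emb, mul_apply]
  refine Units.ext ?_
  rw [ext_val, ext_val, ext_val, ← sub_left_inj (a := 1), extM_sub, extM_sub, extM_sub, e,
    transpose_mul]
  simp only [Matrix.mul_assoc]

theorem Tri.extM {σ : I → I → Prop} {τ : J → J → Prop} (f : I ↪ J)
    (h : ∀ a b, σ a b → τ (f a) (f b)) {g : Matrix I I R} (hg : Tri σ g) : Tri τ (extM f g) := by
  refine tri_iff.2 fun x y hxy => ?_
  by_cases hx : ∀ a, x ≠ f a
  · exact extM_left f g hx y
  by_cases hy : ∀ a, y ≠ f a
  · exact extM_right f g x hy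
  push Not at hx hy
  obtain ⟨a, rfl⟩ := hx
  obtain ⟨b, rfl⟩ := hy
  rw [extM_apply, tri_iff.1 hg a b fun h' => hxy (h a b h')]
  simp [one_apply]

theorem ext_mem_Tg {σ : I → I → Prop} {τ : J → J → Prop} (f : I ↪ J)
    (h : ∀ a b, σ a b → τ (f a) (f b)) {g : GL I R} (hg : g ∈ Tg R σ) : ext f g ∈ Tg R τ := by
  have h' : ∀ a b, Relation.TransGen σ a b → Relation.TransGen τ (f a) (f b) :=
    fun a b => tg_lift f h
  exact ⟨hg.1.extM f h', by rw [← map_inv]; exact hg.2.extM f h'⟩

end

end Pool.Agent.Lib.MP_446a91_nt.Sou
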