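import Pool.Agent.Lib.MP_446a91_nt.Sou.If
import Pool.Agent.Lib.MP_446a91_nt.Sou.Vw

/-! Consequences of additivity: block sums, diagonal matrices, restriction of scalars. -/

namespace Pool.Agent.Lib.MP_446a91_nt.Sou

open Matrix

noncomputable section

variable {R : Type} [CommRing R] {q N : ℕ}

/-- The block sum. -/
def bsum (I J : Type) [Fintype I] [DecidableEq I] [Fintype J] [DecidableEq J] (R : Type)
    [CommRing R] : GL I R × GL J R →* GL (I ⊕ J) R where
  toFun g := ⟨fromBlocks g.1 0 0 g.2, fromBlocks (g.1⁻¹ : GL I R) 0 0 (g.2⁻¹ : GL J R),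
    by simp [fromBlocks_multiply], by simp [fromBlocks_multiply]⟩
  map_one' := by ext1; simp
  map_mul' g h := by ext1; simp [fromBlocks_multiply]

variable {I J : Type} [Fintype I] [DecidableEq I] [Fintype J] [DecidableEq J]

theorem bsum_val (g : GL I R × GL J R) :
    (bsum I J R g : Matrix (I ⊕ J) (I ⊕ J) R) = fromBlocks g.1 0 0 g.2 := rfl

theorem bsum_injective : Function.Injective (bsum I J R) := by
  intro g h e
  obtain ⟨h1, -, -, h2⟩ := fromBlocks_inj.1 (congrArg Units.val e)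
  exact Prod.ext (Units.ext h1) (Units.ext h2)

/-- Additivity for a block decomposition given by a bijection of index sets. -/
theorem e4_perm (e : AddSys R q N) {Γ : Type} [Group Γ] {κ : Type} [Fintype κ] [DecidableEq κ]
    {I : κ → Type} [∀ k, Fintype (I k)] [∀ k, DecidableEq (I k)] (ρ : ∀ k, Γ →* GL (I k) R)
    (ρ' : Γ →* GL J R) (τ : (Σ k, I k) ≃ J) (h : ∀ γ, (ρ' γ : Matrix J J R).submatrix τ τ =
      blockDiagonal' fun k => (ρ k γ : Matrix (I k) (I k) R))
    {z : Ch ℤ Γ} (hz : z ∈ len ℤ Γ (q + 1)) (hc : WCyc Γ N z) :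
    lin ℤ (e.e J) (mp ρ' z) = ∑ k, lin ℤ (e.e (I k)) (mp (ρ k) z) :=
  e.add ρ ρ' ((1 : Matrix J J R).submatrix τ (Equiv.refl J))
    ((1 : Matrix J J R).submatrix (Equiv.refl J) τ) (by rw [submatrix_mul_equiv]; simp)
    (by rw [submatrix_mul_equiv]; simp) (fun γ => by
      rw [← h, submatrix_mul_equiv, one_submatrix_mul]
      simp) z hz hc

/-- Additivity for two blocks. -/
theorem e4_two (e : AddSys R q N) {Γ : Type} [Group Γ] {K : Type} [Fintype K] [DecidableEq K]
    (ρ₁ : Γ →* GL I R) (ρ₂ : Γ →* GL J R) (ρ' : Γ →* GL K R) (σ : I ⊕ J ≃ K)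
    (h : ∀ γ, (ρ' γ : Matrix K K R).submatrix σ σ = fromBlocks (ρ₁ γ) 0 0 (ρ₂ γ))
    {z : Ch ℤ Γ} (hz : z ∈ len ℤ Γ (q + 1)) (hc : WCyc Γ N z) :
    lin ℤ (e.e K) (mp ρ' z) = lin ℤ (e.e I) (mp ρ₁ z) + lin ℤ (e.e J) (mp ρ₂ z) := by
  let _ : ∀ b : Bool, Fintype (bif b then J else I) := fun b => b.casesOn ‹_› ‹_›
  let _ : ∀ b : Bool, DecidableEq (bif b then J else I) := fun b => b.casesOn ‹_› ‹_›
  have := e4_perm e (fun b => b.casesOn ρ₁ ρ₂) ρ' ((Equiv.sumEquivSigmaBool I J).symm.trans σ)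
    (fun γ => ?_) hz hc
  · rw [Fintype.sum_bool] at this
    exact this.trans (add_comm _ _)
  · ext ⟨_ | _, i⟩ ⟨_ | _, j⟩
    exacts [congrFun₂ (h γ) (.inl i) (.inl j), congrFun₂ (h γ) (.inl i) (.inr j),
      congrFun₂ (h γ) (.inr i) (.inl j), congrFun₂ (h γ) (.inr i) (.inr j)]

/-- Sketch: `AddSys.add` with `κ = Bool`, `I true = I`, `I false = J` (instances by cases), `P` the
permutation matrix of `Equiv.sumEquivSigmaBool` or a hand made equivalence. -/
theorem AddSys.add_bsum (e : AddSys R q N) {z : Ch ℤ (GL I R × GL J R)}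
    (hz : z ∈ len ℤ _ (q + 1)) (hc : WCyc (GL I R × GL J R) N z) :
    lin ℤ (e.e (I ⊕ J)) (mp (bsum I J R) z) =
      lin ℤ (e.e I) (mp Prod.fst z) + lin ℤ (e.e J) (mp Prod.snd z) := by
  have := e4_two e (MonoidHom.fst _ _) (MonoidHom.snd _ _) (bsum I J R) (Equiv.refl _)
    (fun g => by simp [bsum_val]) hz hc
  rwa [MonoidHom.coe_fst, MonoidHom.coe_snd] at this

/-- Sketch: `AddSys.add` with `κ = Bool`, `I true = I`, `I false` the complement of the range of
`f`, `ρ false = 1`; the constant word `(1, …, 1)` of length `q + 1 ≥ 2` is killed by `nrm`. -/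
theorem AddSys.add_ext (e : AddSys R q N) (hq : 1 ≤ q) (f : I ↪ J) {z : Ch ℤ (GL I R)}
    (hz : z ∈ len ℤ _ (q + 1)) (hc : WCyc (GL I R) N z) :
    lin ℤ (e.e J) (mp (ext f) z) = lin ℤ (e.e I) z := by
  classical
  have h1 : ∀ (y : ↥(Set.range f)ᶜ) a, y.1 ≠ f a := fun y a h => y.2 ⟨a, h.symm⟩
  have := e4_two e (MonoidHom.id _) (1 : GL I R →* GL ↥(Set.range f)ᶜ R) (ext f)
    ((f.toEquivRange.sumCongr (Equiv.refl _)).trans (Equiv.Set.sumCompl _)) (fun γ => ?_) hz hc
  · rw [this, MonoidHom.coe_id, mp_id, add_eq_left, lin_mp, lin_congr (g := fun _ => 0) _ hz,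
      lin_zero]
    rintro (_ | ⟨a, _ | ⟨b, w⟩⟩) hw
    · simp at hw
    · simp at hw
      omega
    · exact e.nrm _ [] 1 _
  · ext (x | x) (y | y)
    · exact extM_apply f _ x y
    · exact (extM_right f _ _ (h1 y)).trans (one_apply_ne (h1 y x).symm)
    · exact (extM_left f _ (h1 x) _).trans (one_apply_ne (h1 x y))
    · exact (extM_left f _ (h1 x) _).trans (by simp [one_apply, Subtype.ext_iff])

/-- Simultaneous block diagonalisation with equal block type. -/
theorem AddSys.add_const (e : AddSys R q N) {Γ : Type} [Group Γ] {κ : Type} [Fintype κ]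
    [DecidableEq κ] (ρ : κ → Γ →* GL I R) (ρ' : Γ →* GL J R) (P : Matrix (κ × I) J R)
    (Q : Matrix J (κ × I) R) (hP : P * Q = 1) (hQ : Q * P = 1)
    (h : ∀ γ k i x, (P * (ρ' γ : Matrix J J R)) (k, i) x =
      ∑ i', (ρ k γ : Matrix I I R) i i' * P (k, i') x)
    {z : Ch ℤ Γ} (hz : z ∈ len ℤ Γ (q + 1)) (hc : WCyc Γ N z) :
    lin ℤ (e.e J) (mp ρ' z) = ∑ k, lin ℤ (e.e I) (mp (ρ k) z) := by
  refine e.add (I := fun _ => I) ρ ρ' (P.submatrix (Equiv.sigmaEquivProd κ I) (Equiv.refl J))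
    (Q.submatrix (Equiv.refl J) (Equiv.sigmaEquivProd κ I))
    (by rw [submatrix_mul_equiv, hP]; simp) (by rw [submatrix_mul_equiv, hQ]; simp) (fun γ => ?_) z hz hc
  ext ⟨k, i⟩ x
  refine (h γ k i x).trans ?_
  simp [mul_apply, Fintype.sum_sigma, blockDiagonal'_apply]

/-- Restriction of scalars along a basis. -/
def res {ι : Type} [Fintype ι] [DecidableEq ι] (b : Module.Basis ι ℤ R) (I : Type) [Fintype I]
    [DecidableEq I] : GL I R →* GL (I × ι) ℤ :=
  Units.map ((Matrix.compRingEquiv I ι ℤ).toRingHom.comp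
    (Algebra.leftMulMatrix b).toRingHom.mapMatrix).toMonoidHom

/-- Sketch: `add_const` with `P (k, i) (i', t) = if i = i' then χ k (b t) else 0`.  The matrix
`χ k (b t)` is invertible: its rows are independent by Dedekind (`linearIndependent_monoidHom`; a
relation on the basis is a relation of functions), and it is square up to `hcard`
(`Fintype.equivOfCardEq`).  The intertwining relation is `r * b t = ∑ s, (leftMulMatrix b r) s t • b s`
mapped by `χ k`. -/
theorem AddSys.add_res {F : Type} [Field F] (e : AddSys F q N) {ι κ : Type} [Fintype ι]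
    [DecidableEq ι] [Fintype κ] [DecidableEq κ] (b : Module.Basis ι ℤ R) (χ : κ → R →+* F)
    (hχ : Function.Injective χ) (hcard : Fintype.card κ = Fintype.card ι)
    {z : Ch ℤ (GL I R)} (hz : z ∈ len ℤ _ (q + 1)) (hc : WCyc (GL I R) N z) :
    lin ℤ (e.e (I × ι)) (mp (glMap (I × ι) (Int.castRingHom F)) (mp (res b I) z)) =
      ∑ k, lin ℤ (e.e I) (mp (glMap I (χ k)) z) := by
  let σ := Fintype.equivOfCardEq hcard
  let M : Matrix κ ι F := of fun k t => χ k (b t)
  have h1 : LinearIndependent F M.row := Fintype.linearIndependent_iff.2 fun c hc' =>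
    Fintype.linearIndependent_iff.1 ((linearIndependent_monoidHom R F).comp
      (fun k => (χ k : R →* F)) (RingHom.coe_monoidHom_injective.comp hχ)) c (funext fun x => by
      have := b.ext (f₁ := ∑ k, c k • (χ k).toAddMonoidHom.toIntLinearMap) (f₂ := 0) fun t => by
        simpa [M] using congrFun hc' t
      simpa using DFunLike.congr_fun this x)
  obtain ⟨B, hB⟩ := (linearIndependent_rows_iff_isUnit (A := M.submatrix σ.symm id)).1
    (h1.comp _ σ.symm.injective) |>.exists_right_inv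
  have h2 : M * B.submatrix id σ = 1 := by
    simpa [← submatrix_mul_equiv _ _ _ (Equiv.refl ι)] using congrArg (submatrix · σ σ) hB
  have h3 := (mul_eq_one_comm_of_equiv σ).1 h2
  rw [mp_mp]
  refine e.add_const (fun k => glMap I (χ k)) ((glMap _ _).comp (res b I))
    ((kronecker M 1).submatrix id (Equiv.prodComm I ι))
    ((kronecker (B.submatrix id σ) 1).submatrix (Equiv.prodComm I ι) id) ?_ ?_ ?_ hz hc
  · rw [submatrix_mul_equiv, kronecker, kronecker, ← mul_kronecker_mul, h2]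
    simp
  · rw [← submatrix_mul _ _ _ _ _ Function.bijective_id, kronecker, kronecker,
      ← mul_kronecker_mul, h3, Matrix.mul_one, one_kronecker_one, submatrix_one_equiv]
  · rintro γ k i ⟨j, t⟩
    have := congrArg (χ k) (b.sum_repr (γ i j * b t))
    simpa [mul_apply, Fintype.sum_prod_type, one_apply, M, res, Algebra.leftMulMatrix_eq_repr_mul,
      mul_comm] using this

end

end Pool.Agent.Lib.MP_446a91_nt.Sou
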