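import Pool.Agent.Lib.MP_446a91_nt.Sou.KL

/-!
A closed chain of Volodin words bounds in Volodin words of a larger index set.
-/

namespace Pool.Agent.Lib.MP_446a91_nt.Sou

open Matrix

noncomputable section

variable {R : Type} [CommRing R] {I : Type} [Fintype I] [DecidableEq I]

/-- Translate a word so that it starts at the identity. -/
def nfW {G : Type} [Group G] (w : List G) : List G := w.map ((w.headD 1)⁻¹ * ·)

theorem headD_mem {X : Type} {w : List X} (a : X) {g : X} (hg : g ∈ w) : w.headD a ∈ w := by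
  cases w with
  | nil => simp at hg
  | cons b w => simp

theorem fill_aux (k : ℕ) : ∃ (J : Type) (_ : Fintype J) (_ : DecidableEq J) (f : I ↪ J)
    (hat : (I → I → Prop) → J → J → Prop) (S : List (GL I R) → Ch ℤ (GL J R)),
    (∀ σ τ : I → I → Prop, (∀ x y, σ x y → τ x y) → ∀ x y, hat σ x y → hat τ x y) ∧
    (∀ σ, SOrd σ → SOrd (hat σ)) ∧ (∀ σ a b, σ a b → hat σ (f a) (f b)) ∧
    ∀ w, VW w → w.length ≤ k → S w ∈ len ℤ _ (w.length + 1) ∧
      S w ∈ cs (Tg R (hat (ordOf w))) ∧ mp (fun _ => ()) (S w) = 0 ∧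
      bd (S w) + lin ℤ S (dW w) - (mp (ext f) (wd (nfW w)) - mp (fun _ => 1) (wd w)) ∈
        ci (Tg R (hat (ordOf w))) := by
  induction k with
  | zero =>
    refine ⟨I, inferInstance, inferInstance, .refl I, id, fun _ => 0, fun _ _ h => h,
      fun _ h => h, fun _ _ _ h => h, fun w _ hw => ?_⟩
    obtain rfl : w = [] := List.length_eq_zero_iff.1 (by omega)
    simp [nfW]
  | succ k ih =>
    obtain ⟨J, _, _, f, hat, S, h1, h2, h3, h4⟩ := ih
    let ξ : List (GL I R) → Ch ℤ (GL J R) := fun w =>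
      mp (ext f) (wd (nfW w)) - mp (fun _ => 1) (wd w) - lin ℤ S (dW w)
    have one : ∀ {X Y : Type} (a : Y) (c : Ch ℤ X), mp (fun _ => ()) c = 0 →
        mp (fun _ => a) c = 0 := fun a c h => by
      have := congrArg (mp fun _ => a) h
      rwa [mp_mp, map_zero] at this
    have key : ∀ w : List (GL I R), VW w ∧ w.length = k + 1 →
        ∃ y ∈ len ℤ (GL (J × Fin (k + 1)) R) (k + 2),
          y ∈ cs (Tg R (lexO (hat (ordOf w)) (k + 1))) ∧ mp (fun _ => ()) y = 0 ∧
          mp (ext (cp0 J k)) (ξ w) - bd y ∈ ci (Tg R (lexO (hat (ordOf w)) (k + 1))) := by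
      rintro w ⟨hw, hk⟩
      have hf : ∀ u, List.Sublist u w ∧ u.length + 1 = w.length → _ := fun u hu =>
        h4 u (hw.subset hu.1.subset) (by omega)
      have hT : ∀ u, List.Sublist u w → Tg R (hat (ordOf u)) ≤ Tg R (hat (ordOf w)) :=
        fun u hu => Tg_mono (h1 _ _ fun _ _ => ordOf_mono hu.subset)
      have hm : ∀ g ∈ w, ∀ h ∈ w, ext f (g⁻¹ * h) ∈ Tg R (hat (ordOf w)) := fun g hg h hh =>
        ext_mem_Tg f (h3 _) (mem_Tg_ordOf hg hh)
      have hl : ξ w ∈ len ℤ _ (k + 1) := by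
        refine sub_mem (sub_mem (mp_len _ (wd_mem (by simp [nfW, hk]))) (mp_len _ (wd_mem hk)))
          (sp_map (lin ℤ S) _ (fun u hu => ?_) (dW_mem_sublist w))
        rw [lin_wd, ← hk, ← hu.2]
        exact (hf u hu).1
      have hs : ξ w ∈ cs (Tg R (hat (ordOf w))) := by
        refine sub_mem (sub_mem ?_ (mp_cs _ (fun _ _ _ _ => one_mem _) (mem_sp_top _)))
          (sp_map (lin ℤ S) _ (fun u hu => ?_) (dW_mem_sublist w))
        · rw [mp_wd]
          refine wd_mem ?_
          simp only [nfW, List.forall_mem_map]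
          exact fun g hg => hm _ (headD_mem 1 hg) g hg
        · rw [lin_wd]
          exact cs_mono (hT u hu.1) (hf u hu).2.1
      have h0 : mp (fun _ => ()) (ξ w) = 0 := by
        have : mp (fun _ => ()) (lin ℤ S (dW w)) = 0 :=
          sp_ext (φ := mp (fun _ => ()) ∘ₗ lin ℤ S) (ψ := 0)
            (fun u hu => by simpa using (hf u hu).2.2.1) (dW_mem_sublist w)
        simp [ξ, this, nfW, Function.comp_def]
      have hz : bd (ξ w) ∈ ci (Tg R (hat (ordOf w))) := by
        let b := (w.headD 1)⁻¹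
        have h5 : bd (lin ℤ S (dW w)) + lin ℤ S (bd (dW w)) -
            (mp (ext f) (mp (b * ·) (dW w)) - mp (fun _ => 1) (dW w)) ∈
            ci (Tg R (hat (ordOf w))) := by
          refine sp_map (bd ∘ₗ lin ℤ S + lin ℤ S ∘ₗ bd - (mp (ext f) ∘ₗ mp (b * ·) -
            mp fun _ => 1)) _ (fun u hu => ?_) (dW_mem_sublist w)
          have h6 := ci_mono (hT u hu.1) (hf u hu).2.2.2
          have h7 : mp (ext f) (wd (nfW u)) - mp (ext f) (mp (b * ·) (wd u)) ∈
              ci (Tg R (hat (ordOf w))) := by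
            rcases u with _ | ⟨a, u⟩
            · simp [nfW]
            have ha : a ∈ w := hu.1.subset (by simp)
            have := sub_mem_IP (A := ℤ) (P := fun u => ∀ g ∈ u, g ∈ Tg R (hat (ordOf w)))
              (⟨_, hm a ha _ (headD_mem 1 ha)⟩ : Tg R (hat (ordOf w)))
              (w := ((a :: u).map (b * ·)).map (ext f)) (by
                simp only [List.forall_mem_map]
                exact fun g hg => hm _ (headD_mem 1 ha) g (hu.1.subset hg))
            simpa [nfW, ci, b, Function.comp_def, Subgroup.smul_def, ← map_mul, mul_assoc]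
              using this
          simp only [LinearMap.sub_apply, LinearMap.add_apply, LinearMap.comp_apply, lin_wd, bd_wd]
          refine (congrArg (· ∈ ci (Tg R (hat (ordOf w)))) ?_).mp (add_mem h6 h7)
          abel
        rw [bd_dW, map_zero, add_zero] at h5
        refine (congrArg (· ∈ ci (Tg R (hat (ordOf w)))) ?_).mp (neg_mem h5)
        simp only [ξ, map_sub, bd_mp, bd_wd, nfW, ← mp_dW, b]
        abel
      have h8 := kl (h2 _ hw.sord) hl hs hz
      rw [one _ _ h0, sub_zero] at h8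
      obtain ⟨y, y1, y2, y3⟩ := mem_Bs.1 h8
      refine ⟨y - mp (fun _ => 1) y, sub_mem y1 (mp_len _ y1),
        sub_mem y2 (mp_cs _ (fun _ _ _ _ => one_mem _) (mem_sp_top _)), by simp [mp_mp,
          Function.comp_def], ?_⟩
      have h9 := mp_one_IG (1 : GL (J × Fin (k + 1)) R) (ci_le_IG _ y3)
      rw [map_sub, mp_mp, ← bd_mp, Function.comp_def, one _ _ h0, zero_sub, neg_eq_zero] at h9
      rwa [map_sub _ y, h9, sub_zero]
    classical
    choose! y y1 y2 y3 y4 using key
    let S' : List (GL I R) → Ch ℤ (GL (J × Fin (k + 1)) R) := fun w =>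
      if w.length = k + 1 then y w else mp (ext (cp0 J k)) (S w)
    have hlow : ∀ w : List (GL I R), w.length ≤ k + 1 →
        lin ℤ S' (dW w) = mp (ext (cp0 J k)) (lin ℤ S (dW w)) := by
      intro w hw
      rw [map_lin]
      refine lin_congr (fun u hu => ?_) (dW_mem_sublist w)
      have : u.length ≠ k + 1 := by omega
      simp [S', this]
    have he : ∀ c : Ch ℤ (GL I R),
        mp (ext (f.trans (cp0 J k))) c = mp (ext (cp0 J k)) (mp (ext f) c) := fun c => by
      rw [mp_mp]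
      congr 2
      funext g
      exact (ext_ext f _ g).symm
    have he1 : ∀ c : Ch ℤ (GL I R),
        mp (fun _ => 1) c = mp (ext (R := R) (cp0 J k)) (mp (fun _ => 1) c) := fun c => by
      simp [mp_mp, Function.comp_def]
    refine ⟨J × Fin (k + 1), inferInstance, inferInstance, f.trans (cp0 J k),
      fun σ => lexO (hat σ) (k + 1), S', fun σ τ h x y hxy => hxy.imp_left (h1 σ τ h _ _),
      fun σ hσ => (h2 σ hσ).lexO _, fun σ a b h => .inl (h3 σ a b h), fun w hw hk => ?_⟩
    rw [hlow w hk, he, he1]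
    by_cases h : w.length = k + 1
    · simp only [S', h, if_true]
      refine ⟨y1 w ⟨hw, h⟩, y2 w ⟨hw, h⟩, y3 w ⟨hw, h⟩, ?_⟩
      refine (congrArg (· ∈ ci _) ?_).mp (neg_mem (y4 w ⟨hw, h⟩))
      simp only [ξ, map_sub]
      abel
    · obtain ⟨s1, s2, s3, s4⟩ := h4 w hw (by omega)
      have hm : ∀ g ∈ Tg R (hat (ordOf w)), ext (cp0 J k) g ∈
          Tg R (lexO (hat (ordOf w)) (k + 1)) := fun g hg =>
        ext_mem_Tg _ (fun _ _ h => .inl h) hg
      simp only [S', h, if_false]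
      refine ⟨mp_len _ s1, mp_cs _ (fun u hu g hg => hm g (hu g hg)) s2, ?_, ?_⟩
      · rw [mp_mp]
        exact s3
      · simpa only [map_sub, map_add, ← bd_mp] using mp_ci _ hm s4

theorem fill (q : ℕ) (c : Ch ℤ (GL I R)) (hl : c ∈ len ℤ _ q) (hV : c ∈ sp ℤ VW)
    (hd : bd c = 0) : ∃ (J : Type) (_ : Fintype J) (_ : DecidableEq J) (f : I ↪ J)
      (u : Ch ℤ (GL J R)), u ∈ len ℤ _ (q + 1) ∧ u ∈ sp ℤ VW ∧
      bd u - (mp (ext f) c - mp (fun _ => 1) c) ∈ IG ℤ _ (GL J R) := by
  obtain ⟨J, _, _, f, hat, S, -, h2, -, h4⟩ := fill_aux (R := R) (I := I) q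
  have hc := mem_sp_and hl hV
  refine ⟨J, inferInstance, inferInstance, f, lin ℤ S c, sp_map _ _ (fun w hw => ?_) hc,
    sp_map _ _ (fun w hw => ?_) hc, ?_⟩
  · rw [lin_wd, ← hw.1]
    exact (h4 w hw.2 hw.1.le).1
  · rw [lin_wd]
    exact sp_mono (fun u hu => vw_of_mem (h2 _ hw.2.sord) (b := 1) (by simpa using hu))
      (h4 w hw.2 hw.1.le).2.1
  have h5 : bd (lin ℤ S c) + lin ℤ S (bd c) - (mp (ext f) c - mp (fun _ => 1) c) ∈
      IG ℤ _ (GL J R) := by
    refine sp_map (bd ∘ₗ lin ℤ S + lin ℤ S ∘ₗ bd - (mp (ext f) - mp fun _ => 1)) _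
      (fun w hw => ?_) hc
    have h6 := ci_le_IG _ (h4 w hw.2 hw.1.le).2.2.2
    have h7 : mp (ext f) (wd (nfW w)) - mp (ext f) (wd w) ∈ IG ℤ _ (GL J R) := by
      have := mp_smul_sub_IG (A := ℤ) (ext f (w.headD 1)⁻¹) (mp (ext f) (wd w))
      simpa [nfW, Function.comp_def] using this
    simp only [LinearMap.sub_apply, LinearMap.add_apply, LinearMap.comp_apply, lin_wd, bd_wd]
    refine (congrArg (· ∈ IG ℤ _ (GL J R)) ?_).mp (add_mem h6 h7)
    abel
  rwa [hd, map_zero, add_zero] at h5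

end

end Pool.Agent.Lib.MP_446a91_nt.Sou
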