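import Pool.Agent.Lib.MP_446a91_nt.Sou.A1
import Pool.Agent.Lib.MP_446a91_nt.Sou.E4

/-! The matrices attached to a configuration and two sets of points. -/

namespace Pool.Agent.Lib.MP_446a91_nt.Sou

open Matrix

noncomputable section

variable {I J : Type} [Fintype I] [DecidableEq I] [Fintype J] [DecidableEq J]
  {R R' : Type} [CommRing R] [CommRing R']

/-- The configuration with `-1` on the diagonal: the lift `x s - apr a v s` of `s` is the first one
after `x v`. -/
def apr (a : I → I → ℤ) (v s : I) : ℤ := if v = s then -1 else a v s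

/-- `s` is the first point of `S` after `v`. -/
def IsNxt (a : I → I → ℤ) (S : Set I) (v s : I) : Prop :=
  s ∈ S ∧ ∀ s' ∈ S, s' ≠ s → apr a v s' = apr a v s + a s s'

/-- Sketch: for `s ≠ s'` in `V` put `D s s' = apr v s' - apr v s - a s s'`.  Then `0 ≤ D s s'` (`tri`;
cases `v = s`, `v = s'`), `D s s' + D s' s = 1` (`anti`), and `D s s' = 0`, `D s' s'' = 0`, `s ≠ s''`
give `D s s'' = 0` (`tri`).  Induction on the finite set `S` (`Set.Finite.induction_on` or an
element with the most `s'` such that `D s s' = 0`). -/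
theorem existsUnique_nxt {a : I → I → ℤ} {S V : Set I} (ha : ValOn V a) (hS : S.Nonempty)
    (hSV : S ⊆ V) {v : I} (hv : v ∈ V) : ∃! s, IsNxt a S v s := by
  have h0 : ∀ s ∈ V, ∀ s' ∈ V, s ≠ s' → apr a v s + a s s' ≤ apr a v s' := fun s hs s' hs' h => by
    have h1 := ha.anti s hs s' hs' h
    have h2 := ha.tri v hv s hs s' hs'
    unfold apr
    split_ifs with h3 h4 h4
    · exact absurd (h3.symm.trans h4) h
    · rw [h3]
      omega
    · rw [h4]
      omega
    · exact h2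
  refine existsUnique_of_exists_of_unique ?_ fun s t hs ht => by_contra fun h => ?_
  · induction S, Set.toFinite S using Set.Finite.induction_on with
    | empty => exact absurd hS Set.not_nonempty_empty
    | @insert x T hx _ ih =>
      have hxV := hSV (Set.mem_insert x T)
      have hT : T ⊆ V := (Set.subset_insert x T).trans hSV
      rcases T.eq_empty_or_nonempty with rfl | hne
      · exact ⟨x, Set.mem_insert _ _, fun s' h1 h2 => absurd (by simpa using h1) h2⟩
      obtain ⟨s, hs, hs'⟩ := ih hne hT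
      have hsx : s ≠ x := fun h => hx (h ▸ hs)
      by_cases h1 : apr a v x = apr a v s + a s x
      · refine ⟨s, Set.mem_insert_of_mem _ hs, fun s' h2 h3 => ?_⟩
        rcases h2 with rfl | h2
        exacts [h1, hs' s' h2 h3]
      · have h2 := h0 s (hT hs) x hxV hsx
        have h3 := h0 x hxV s (hT hs) hsx.symm
        have h4 := ha.anti s (hT hs) x hxV hsx
        refine ⟨x, Set.mem_insert _ _, fun s' h5 h6 => ?_⟩
        have h7 : s' ∈ T := h5.resolve_left h6
        by_cases h8 : s' = s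
        · rw [h8]
          omega
        · have h9 := hs' s' h7 h8
          have h10 := h0 x hxV s' (hT h7) (Ne.symm h6)
          have h11 := ha.tri x hxV s (hT hs) s' (hT h7)
          omega
  · have h1 := hs.2 t ht.1 (Ne.symm h)
    have h2 := ht.2 s hs.1 h
    have h3 := ha.anti s (hSV hs.1) t (hSV ht.1) h
    omega

open Classical in
/-- The basis vector `v ∈ V` goes to a multiple of the next point of `S`. -/
def nM (ζ : Rˣ) (a : I → I → ℤ) (S V : Set I) : Matrix I I R := fun s v =>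
  if v ∈ V ∧ IsNxt a S v s then ((ζ ^ (-apr a v s) : Rˣ) : R) else 0

/-- The matrix of the pair `(S, V)`. -/
def GM (ζ : Rˣ) (a : I → I → ℤ) (S V : Set I) : Matrix I I R := 1 - nM ζ a S V

open Classical in
/-- The same as an invertible matrix. -/
def GG (ζ : Rˣ) (a : I → I → ℤ) (S V : Set I) : GL I R :=
  if h : IsUnit (GM ζ a S V) then h.unit else 1

variable {ζ : Rˣ} {a a' : I → I → ℤ} {S V : Set I}

theorem GG_val (h : IsUnit (GM ζ a S V)) : (GG ζ a S V : Matrix I I R) = GM ζ a S V := by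
  simp [GG, h]

/-- The monomial matrix `e x ↦ u x • e (ρ x)`. -/
def mnm (ρ : Equiv.Perm I) (u : I → Rˣ) : GL I R where
  val := fun y x => if y = ρ x then (u x : R) else 0
  inv := fun x y => if y = ρ x then (((u x)⁻¹ : Rˣ) : R) else 0
  val_inv := by
    ext y y'
    rw [mul_apply, Finset.sum_eq_single (ρ.symm y)]
    · by_cases h : y = y' <;> simp [one_apply, h, eq_comm]
    · intro x _ hx
      rw [if_neg, zero_mul]
      rintro rfl
      simp at hx
    · simp
  inv_val := by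
    ext x x'
    rw [mul_apply, Finset.sum_eq_single (ρ x)]
    · by_cases h : x = x' <;> simp [one_apply, h]
    · intro y _ hy
      rw [if_neg hy, zero_mul]
    · simp

theorem mnm_apply (ρ : Equiv.Perm I) (u : I → Rˣ) (y x : I) :
    (mnm ρ u : Matrix I I R) y x = if y = ρ x then (u x : R) else 0 := rfl

omit [Fintype I] in
theorem g1_apr (ρ : Equiv.Perm I) (k : I → ℤ)
    (h : ∀ x ∈ V, ∀ y ∈ V, a' (ρ x) (ρ y) = a x y + k y - k x) {v s : I} (hv : v ∈ V)
    (hs : s ∈ V) : apr a' (ρ v) (ρ s) = apr a v s + k s - k v := by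
  unfold apr
  by_cases h1 : v = s
  · simp [h1]
  · rw [if_neg h1, if_neg (ρ.injective.ne h1), h v hv s hs]

omit [Fintype I] in
theorem g1_nxt (ρ : Equiv.Perm I) (k : I → ℤ) (hSV : S ⊆ V)
    (h : ∀ x ∈ V, ∀ y ∈ V, a' (ρ x) (ρ y) = a x y + k y - k x) {v : I} (hv : v ∈ V) (s : I) :
    IsNxt a' (ρ '' S) (ρ v) (ρ s) ↔ IsNxt a S v s := by
  unfold IsNxt
  rw [ρ.injective.mem_set_image, Set.forall_mem_image]
  refine and_congr_right fun hs => forall₂_congr fun s' hs' => ?_
  rw [ρ.injective.ne_iff, g1_apr ρ k h hv (hSV hs), g1_apr ρ k h hv (hSV hs'),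
    h s (hSV hs) s' (hSV hs')]
  exact imp_congr_right fun _ => by omega

omit [Fintype I] in
theorem g1_nM (ρ : Equiv.Perm I) (k : I → ℤ) (hSV : S ⊆ V)
    (h : ∀ x ∈ V, ∀ y ∈ V, a' (ρ x) (ρ y) = a x y + k y - k x) (s v : I) :
    nM ζ a' (ρ '' S) (ρ '' V) (ρ s) (ρ v) * ((ζ ^ (-k v) : Rˣ) : R) =
      ((ζ ^ (-k s) : Rˣ) : R) * nM ζ a S V s v := by
  unfold nM
  rw [ρ.injective.mem_set_image]
  by_cases h1 : v ∈ V ∧ IsNxt a S v s
  · rw [if_pos h1, if_pos ⟨h1.1, (g1_nxt ρ k hSV h h1.1 s).2 h1.2⟩,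
      g1_apr ρ k h h1.1 (hSV h1.2.1), ← Units.val_mul, ← Units.val_mul, ← _root_.zpow_add,
      ← _root_.zpow_add]
    congr 2
    ring
  · rw [if_neg h1, if_neg fun h2 => h1 ⟨h2.1, (g1_nxt ρ k hSV h h2.1 s).1 h2.2⟩, zero_mul,
      mul_zero]

theorem g1_conj {M M' : Matrix I I R} (m : GL I R) (h : M' * m = m * M) :
    (open Classical in if h : IsUnit M' then h.unit else 1 : GL I R) =
      m * (open Classical in if h : IsUnit M then h.unit else 1) * m⁻¹ := by
  have e : M' = m * M * (m⁻¹ : GL I R) := by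
    rw [← h, Matrix.mul_assoc, ← Units.val_mul, mul_inv_cancel, Units.val_one, Matrix.mul_one]
  by_cases h1 : IsUnit M
  · have h2 : IsUnit M' := e ▸ (m.isUnit.mul h1).mul (m⁻¹).isUnit
    rw [dif_pos h1, dif_pos h2]
    exact Units.ext (by simpa using e)
  · have h2 : ¬ IsUnit M' := fun h2 => h1 (by
      rw [e, Units.isUnit_mul_units, Units.isUnit_units_mul] at h2
      exact h2)
    rw [dif_neg h1, dif_neg h2, mul_one, mul_inv_cancel]

/-- Sketch: `IsNxt a' (ρ '' S) (ρ v) (ρ s) ↔ IsNxt a S v s` for `v ∈ V`; so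
`nM a' * m = m * nM a` entrywise and `GM a' = m * GM a * m⁻¹`; one is a unit iff the other is. -/
theorem GG_nat (ρ : Equiv.Perm I) (k : I → ℤ) (hSV : S ⊆ V)
    (h : ∀ x ∈ V, ∀ y ∈ V, a' (ρ x) (ρ y) = a x y + k y - k x) :
    GG ζ a' (ρ '' S) (ρ '' V) =
      mnm ρ (fun x => ζ ^ (-k x)) * GG ζ a S V * (mnm ρ fun x => ζ ^ (-k x))⁻¹ := by
  refine g1_conj _ ?_
  rw [GM, GM, Matrix.sub_mul, Matrix.mul_sub, Matrix.one_mul, Matrix.mul_one]
  congr 1
  ext y v
  obtain ⟨s, rfl⟩ := ρ.surjective y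
  simp only [mul_apply, mnm_apply, mul_ite, mul_zero, Finset.sum_ite_eq', Finset.mem_univ, if_true,
    ρ.injective.eq_iff, ite_mul, zero_mul, Finset.sum_ite_eq]
  exact g1_nM ρ k hSV h s v

theorem GG_shift (k : I → ℤ) (hSV : S ⊆ V)
    (h : ∀ x ∈ V, ∀ y ∈ V, a' x y = a x y + k y - k x) (hk : ∀ x ∈ V, ζ ^ k x = 1) :
    GG ζ a' S V = GG ζ a S V := by
  have e : nM ζ a' S V = nM ζ a S V := by
    ext s v
    have h1 := g1_nM (ζ := ζ) (Equiv.refl I) k hSV h s v
    simp only [Equiv.coe_refl, id, Set.image_id'] at h1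
    by_cases h2 : v ∈ V
    · by_cases h3 : s ∈ S
      · rwa [_root_.zpow_neg, _root_.zpow_neg, hk v h2, hk s (hSV h3), inv_one, Units.val_one,
          mul_one, one_mul] at h1
      · simp only [nM]
        rw [if_neg fun h4 => h3 h4.2.1, if_neg fun h4 => h3 h4.2.1]
    · simp only [nM]
      rw [if_neg fun h4 => h2 h4.1, if_neg fun h4 => h2 h4.1]
  have e' : GM ζ a' S V = GM ζ a S V := by rw [GM, GM, e]
  unfold GG
  rw [e']

theorem GG_congr (hSV : S ⊆ V) (h : ∀ x ∈ V, ∀ y ∈ V, a' x y = a x y) :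
    GG ζ a' S V = GG ζ a S V :=
  GG_shift (fun _ => 0) hSV (fun x hx y hy => by simp [h x hx y hy]) fun _ _ => zpow_zero _

theorem GG_map (χ : R →+* R') (h : IsUnit (GM ζ a S V)) :
    glMap I χ (GG ζ a S V) = GG (Units.map χ.toMonoidHom ζ) a S V := by
  have e : (GM ζ a S V).map χ = GM (Units.map χ.toMonoidHom ζ) a S V := by
    ext s v
    simp only [GM, nM, map_apply, Matrix.sub_apply, map_sub, one_apply]
    congr 1
    · split_ifs <;> simp
    · split_ifs
      · rw [← map_zpow]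
        rfl
      · exact map_zero χ
  have h1 : IsUnit (GM (Units.map χ.toMonoidHom ζ) a S V) := e ▸ h.map χ.mapMatrix
  refine Units.ext ?_
  rw [GG_val h1, ← e, ← GG_val h]
  rfl

omit [Fintype I] in
theorem g1_emb {K : Type} [DecidableEq K] {f : I → K} (hf : Function.Injective f)
    (b : K → K → ℤ) (S V : Set I) (s v : I) :
    nM ζ b (f '' S) (f '' V) (f s) (f v) = nM ζ (fun x y => b (f x) (f y)) S V s v := by
  have e : ∀ x y, apr b (f x) (f y) = apr (fun x y => b (f x) (f y)) x y := fun x y => by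
    simp only [apr, hf.eq_iff]
  have e' : IsNxt b (f '' S) (f v) (f s) ↔ IsNxt (fun x y => b (f x) (f y)) S v s := by
    unfold IsNxt
    rw [hf.mem_set_image, Set.forall_mem_image]
    simp only [e, hf.ne_iff]
  unfold nM
  rw [e]
  by_cases h : v ∈ V ∧ IsNxt (fun x y => b (f x) (f y)) S v s
  · rw [if_pos h, if_pos ((and_congr hf.mem_set_image e').2 h)]
  · rw [if_neg h, if_neg fun h1 => h ((and_congr hf.mem_set_image e').1 h1)]

theorem g1_out {K : Type} [DecidableEq K] (b : K → K → ℤ) {S V : Set K} {s v : K}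
    (h : s ∉ S ∨ v ∉ V) : nM ζ b S V s v = 0 :=
  if_neg fun h1 => h.elim (fun h2 => h2 h1.2.1) fun h2 => h2 h1.1

/-- Sketch: `GM` is `fromBlocks (GM ..) 0 0 1`; use `Matrix.isUnit_iff_isUnit_det` and
`det_fromBlocks_zero₂₁`. -/
theorem GG_inl (b : I ⊕ J → I ⊕ J → ℤ) (S V : Set I) :
    GG ζ b (Sum.inl '' S) (Sum.inl '' V) =
      bsum I J R (GG ζ (fun x y => b (Sum.inl x) (Sum.inl y)) S V, 1) := by
  have e : GM ζ b (Sum.inl '' S) (Sum.inl '' V) =
      fromBlocks (GM ζ (fun x y => b (Sum.inl x) (Sum.inl y)) S V) 0 0 1 := by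
    ext (s | s) (v | v) <;>
      simp [GM, one_apply, g1_emb Sum.inl_injective, g1_out]
  by_cases h : IsUnit (GM ζ (fun x y => b (Sum.inl x) (Sum.inl y)) S V)
  · have h1 : IsUnit (GM ζ b (Sum.inl '' S) (Sum.inl '' V)) := by
      rw [e, Matrix.isUnit_iff_isUnit_det, det_fromBlocks_zero₂₁, det_one, mul_one]
      exact (Matrix.isUnit_iff_isUnit_det _).1 h
    exact Units.ext (by rw [GG_val h1, e, bsum_val, GG_val h]; rfl)
  · have h1 : ¬ IsUnit (GM ζ b (Sum.inl '' S) (Sum.inl '' V)) := by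
      rw [e, Matrix.isUnit_iff_isUnit_det, det_fromBlocks_zero₂₁, det_one, mul_one]
      exact fun h1 => h ((Matrix.isUnit_iff_isUnit_det _).2 h1)
    rw [GG, GG, dif_neg h, dif_neg h1]
    exact (map_one (bsum I J R)).symm

theorem GG_inr (b : I ⊕ J → I ⊕ J → ℤ) (S V : Set J) :
    GG ζ b (Sum.inr '' S) (Sum.inr '' V) =
      bsum I J R (1, GG ζ (fun x y => b (Sum.inr x) (Sum.inr y)) S V) := by
  have e : GM ζ b (Sum.inr '' S) (Sum.inr '' V) =
      fromBlocks 1 0 0 (GM ζ (fun x y => b (Sum.inr x) (Sum.inr y)) S V) := by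
    ext (s | s) (v | v) <;>
      simp [GM, one_apply, g1_emb Sum.inr_injective, g1_out]
  by_cases h : IsUnit (GM ζ (fun x y => b (Sum.inr x) (Sum.inr y)) S V)
  · have h1 : IsUnit (GM ζ b (Sum.inr '' S) (Sum.inr '' V)) := by
      rw [e, Matrix.isUnit_iff_isUnit_det, det_fromBlocks_zero₂₁, det_one, one_mul]
      exact (Matrix.isUnit_iff_isUnit_det _).1 h
    exact Units.ext (by rw [GG_val h1, e, bsum_val, GG_val h]; rfl)
  · have h1 : ¬ IsUnit (GM ζ b (Sum.inr '' S) (Sum.inr '' V)) := by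
      rw [e, Matrix.isUnit_iff_isUnit_det, det_fromBlocks_zero₂₁, det_one, one_mul]
      exact fun h1 => h ((Matrix.isUnit_iff_isUnit_det _).2 h1)
    rw [GG, GG, dif_neg h, dif_neg h1]
    exact (map_one (bsum I J R)).symm

theorem mnm_inr (ρ : Equiv.Perm J) (u : I ⊕ J → Rˣ) (hu : ∀ i, u (Sum.inl i) = 1) :
    mnm (Equiv.sumCongr (Equiv.refl I) ρ) u = bsum I J R (1, mnm ρ fun x => u (Sum.inr x)) := by
  refine Units.ext ?_
  rw [bsum_val]
  ext (s | s) (v | v) <;> simp [mnm_apply, one_apply, hu]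

end

end Pool.Agent.Lib.MP_446a91_nt.Sou
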