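import Pool.Agent.Lib.MP_446a91_nt.Sou.G1

/-! The matrices of compatible pairs differ by unitriangular matrices. -/

namespace Pool.Agent.Lib.MP_446a91_nt.Sou

open Matrix

noncomputable section

variable {I : Type} [Fintype I] [DecidableEq I] {R : Type} [CommRing R]

/-- Cut the circle at `s₀`: `x` comes after `v` in `V`, or `v` is outside `V`. -/
def cut (a : I → I → ℤ) (s₀ : I) (V : Set I) (x v : I) : Prop :=
  x ∈ V ∧ (v ∉ V ∨ (x ≠ v ∧ a s₀ x = a s₀ v + a v x))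

variable {ζ : Rˣ} {a : I → I → ℤ} {S V V' W : Set I} {s₀ : I}

omit [Fintype I] [DecidableEq I] in
/-- Sketch: `a s₀ z + a z x ≤ a s₀ x = a s₀ z + a z y + a y x ≤ a s₀ z + a z x`; `x = z` contradicts
`anti`. -/
theorem sord_cut (ha : ValOn V a) (hs : s₀ ∈ V) : SOrd (cut a s₀ V) := by
  refine ⟨fun x hx => hx.2.elim (fun h => h hx.1) fun h => h.1 rfl, fun x y z hxy hyz => ?_⟩
  obtain ⟨hx, h1⟩ := hxy
  obtain ⟨hy, h2⟩ := hyz
  obtain ⟨h1, e1⟩ := h1.resolve_left fun h => h hy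
  refine ⟨hx, ?_⟩
  by_cases hz : z ∈ V
  · obtain ⟨h2, e2⟩ := h2.resolve_left fun h => h hz
    refine Or.inr ⟨?_, ?_⟩
    · rintro rfl
      have := ha.anti x hx y hy h1
      omega
    · have := ha.tri s₀ hs z hz x hx
      have := ha.tri z hz y hy x hx
      omega
  · exact Or.inl hz

omit [Fintype I] [DecidableEq I] in
theorem g2_mono (ha : ValOn W a) (h : V ⊆ W) : ValOn V a :=
  ⟨fun i hi => ha.diag i (h hi), fun i hi j hj => ha.anti i (h hi) j (h hj),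
    fun i hi j hj m hm => ha.tri i (h hi) j (h hj) m (h hm)⟩

omit [Fintype I] [DecidableEq I] in
theorem g2_sord (V : Set I) : SOrd fun x v => x ∈ V ∧ v ∉ V :=
  ⟨fun _ h => h.2 h.1, fun _ _ _ h h' => ⟨h.1, h'.2⟩⟩

omit [Fintype I] in
theorem g2_single {v s : I} : IsNxt a {s₀} v s ↔ s = s₀ :=
  ⟨fun h => h.1, fun h => ⟨h, fun _ h1 h2 => absurd (h1.trans h.symm) h2⟩⟩

omit [Fintype I] in
theorem g2_pos {s v : I} (hv : v ∈ V) (h : IsNxt a S v s) :
    nM ζ a S V s v = ((ζ ^ (-apr a v s) : Rˣ) : R) := if_pos ⟨hv, h⟩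

omit [Fintype I] in
theorem g2_neg {s v : I} (h : ¬ (v ∈ V ∧ IsNxt a S v s)) : nM ζ a S V s v = 0 := if_neg h

omit [Fintype I] in
theorem g2_row (hSV : S ⊆ W) : Nil (fun x _ => x ∈ W) (nM ζ a S V) :=
  fun _ _ h => g2_neg fun h' => h (hSV h'.2.1)

/-- Sketch: `T x v = 1 x v - (if x = s₀ then 0 else nM ζ a S V x v)`.  If `s ≠ s₀` is the next point
of `S` after `v ∈ V` then `apr v s₀ = apr v s + a s s₀`, hence `s ≠ v` and `cut a s₀ V s v`; and
`IsNxt a {s₀} v s' ↔ s' = s₀`, so column `v` of `nM {s₀}` is `ζ ^ (-apr v s)` times column `s`. -/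
theorem GM_eq_mul_T (ha : ValOn V a) (hs : s₀ ∈ S) (hSV : S ⊆ V) :
    ∃ T, Tri (cut a s₀ V) T ∧ GM ζ a S V = GM ζ a {s₀} V * T := by
  let N : Matrix I I R := fun x v => if x = s₀ then 0 else nM ζ a S V x v
  have hs' := hSV hs
  refine ⟨1 - N, fun x v hc => ?_, ?_⟩
  · rw [sub_sub_cancel_left, neg_apply, neg_eq_zero]
    by_cases hx : x = s₀
    · exact if_pos hx
    refine (if_neg hx).trans (g2_neg fun ⟨hv, hn⟩ => hc ?_)
    have hxV := hSV hn.1
    have e := hn.2 s₀ hs (Ne.symm hx)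
    have hxv : x ≠ v := by
      rintro rfl
      simp only [apr, if_neg hx, if_true] at e
      omega
    refine ⟨hxV, Or.inr ⟨hxv, ?_⟩⟩
    by_cases hv0 : v = s₀
    · rw [hv0, ha.diag s₀ hs', zero_add]
    · simp only [apr, if_neg hv0, if_neg hxv.symm] at e
      have := ha.anti x hxV s₀ hs' hx
      have := ha.anti v hv s₀ hs' hv0
      omega
  · have key : nM ζ a S V = nM ζ a {s₀} V + N - nM ζ a {s₀} V * N := by
      ext x v
      rw [Matrix.sub_apply, Matrix.add_apply, Matrix.mul_apply]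
      by_cases hx : x = s₀
      swap
      · have h0 : ∀ y, nM ζ a {s₀} V x y = 0 := fun y => g2_neg fun h => hx (g2_single.1 h.2)
        simp [h0, N, hx]
      subst hx
      by_cases hv : v ∈ V
      swap
      · have h0 : ∀ S y, nM ζ a S V y v = 0 := fun S y => g2_neg fun h => hv h.1
        simp [h0, N]
      obtain ⟨s, h1, h2⟩ := existsUnique_nxt ha ⟨x, hs⟩ hSV hv
      have h0 : ∀ y, y ≠ s → nM ζ a S V y v = 0 := fun y hy => g2_neg fun h => hy (h2 y h.2)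
      rw [Finset.sum_eq_single s (fun y _ hy => by simp [N, h0 y hy]) (by simp),
        g2_pos hv (g2_single.2 rfl)]
      by_cases hsx : s = x
      · subst hsx
        simp [N, g2_pos hv h1]
      · have e := h1.2 x hs (Ne.symm hsx)
        rw [h0 x (Ne.symm hsx), g2_pos (hSV h1.1) (g2_single.2 rfl)]
        simp only [N, if_true, if_neg hsx]
        rw [g2_pos hv h1, ← Units.val_mul, ← _root_.zpow_add, e, add_zero]
        simp only [apr, if_neg hsx]
        rw [neg_add_rev, sub_self]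
    unfold GM
    rw [key]
    noncomm_ring

/-- Sketch: `U x v = 1 x v - (if v ∈ V then 0 else nM ζ a S V' x v)`; the rows of `nM` outside `S`
vanish. -/
theorem GM_eq_U_mul (hSV : S ⊆ V) (hV : V ⊆ V') :
    ∃ U, Tri (fun x v => x ∈ V ∧ v ∉ V) U ∧ GM ζ a S V' = U * GM ζ a S V := by
  classical
  let N : Matrix I I R := fun x v => if v ∈ V then 0 else nM ζ a S V' x v
  have hN : Nil (fun x v => x ∈ V ∧ v ∉ V) N := fun x v hc => by
    by_cases hv : v ∈ V
    · exact if_pos hv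
    · exact (if_neg hv).trans (g2_row hSV x v fun hx => hc ⟨hx, hv⟩)
  refine ⟨1 - N, by simpa [Tri] using hN.neg, ?_⟩
  have h0 : N * nM ζ a S V = 0 := by
    ext x v
    exact Nil.mul (ρ := fun _ _ => False) (fun _ _ _ h h' => h.2 h') hN (g2_row hSV) x v id
  have key : nM ζ a S V' = N + nM ζ a S V := by
    ext x v
    by_cases hv : v ∈ V
    · simp [N, nM, hv, hV hv]
    · simp [N, hv, g2_neg (ζ := ζ) (a := a) (S := S) (s := x) fun h => hv h.1]
  unfold GM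
  rw [key, sub_mul, mul_sub, mul_sub, h0]
  noncomm_ring

/-- Sketch: `GM_eq_mul_T`, `GM_eq_U_mul` with `{s₀} ⊆ {s₀} ⊆ V`, `Tri.unit`; `GM {s₀} {s₀}` is diagonal
with `1 - ζ` at `s₀` and `1` elsewhere. -/
theorem GM_isUnit (h1 : IsUnit (1 - (ζ : R))) (ha : ValOn V a) (hS : S.Nonempty) (hSV : S ⊆ V) :
    IsUnit (GM ζ a S V) := by
  obtain ⟨s, hs⟩ := hS
  obtain ⟨T, hT, e1⟩ := GM_eq_mul_T (ζ := ζ) ha hs hSV
  obtain ⟨U, hU, e2⟩ := GM_eq_U_mul (ζ := ζ) (a := a) (S := {s}) (V := {s}) (V' := V) subset_rfl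
    (Set.singleton_subset_iff.2 (hSV hs))
  have e3 : GM ζ a {s} {s} = diagonal fun x => if x = s then 1 - (ζ : R) else 1 := by
    ext x v
    by_cases hx : x = s
    · subst hx
      by_cases hv : v = x
      · subst hv
        simp [GM, g2_pos (ζ := ζ) (a := a) (Set.mem_singleton v) (g2_single.2 rfl), apr]
      · simp [GM, g2_neg (ζ := ζ) (a := a) (S := {x}) (V := {x}) (s := x) fun h => hv h.1,
          Ne.symm hv]
    · simp [GM, g2_neg (ζ := ζ) (a := a) (S := {s}) (V := {s}) (v := v)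
        fun h => hx (g2_single.1 h.2), diagonal_apply, one_apply, hx]
  rw [e1, e2, e3]
  refine ((hU.unit (g2_sord _)).isUnit.mul ?_).mul (hT.unit (sord_cut ha (hSV hs))).isUnit
  refine isUnit_diagonal.2 (Pi.isUnit_iff.2 fun x => ?_)
  split_ifs
  exacts [h1, isUnit_one]

/-- Sketch: `G = GM S V`, `U' = G⁻¹ U G`.  `(U - 1) G = U - 1` has columns outside `V` only, and the
rows of `G` outside `V` are those of `1`, so the rows of `G⁻¹ (U - 1)` outside `V` are those of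
`G G⁻¹ (U - 1) = U - 1`, that is zero. -/
theorem GM_eq_mul_U (hu : IsUnit (GM ζ a S V)) (hSV : S ⊆ V) (hV : V ⊆ V') :
    ∃ U, Tri (fun x v => x ∈ V ∧ v ∉ V) U ∧ GM ζ a S V' = GM ζ a S V * U := by
  obtain ⟨U, hU, e⟩ := GM_eq_U_mul (ζ := ζ) (a := a) hSV hV
  obtain ⟨g, hg⟩ := hu
  have h0 : (U - 1) * nM ζ a S V = 0 := by
    ext x v
    exact Nil.mul (ρ := fun _ _ => False) (fun _ _ _ h h' => h.2 h') hU (g2_row hSV) x v id
  have h1 : GM ζ a S V * ((g⁻¹ : (Matrix I I R)ˣ) * (U - 1)) = U - 1 := by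
    rw [← hg, ← mul_assoc, Units.mul_inv, one_mul]
  refine ⟨1 + (g⁻¹ : (Matrix I I R)ˣ) * (U - 1), fun x v hc => ?_, ?_⟩
  · rw [add_sub_cancel_left]
    by_cases hx : x ∈ V
    · exact Nil.mul (σ := fun _ _ => True) (ρ := fun _ v => v ∉ V) (fun _ _ _ _ h => h.2)
        (fun _ _ h => absurd trivial h) hU x v fun hv => hc ⟨hx, hv⟩
    · have h2 := congrFun (congrFun h1 x) v
      rw [hU x v hc, GM, sub_mul, one_mul, Matrix.sub_apply,
        Nil.mul (τ := fun _ _ => True) (ρ := fun x _ => x ∈ V) (fun _ _ _ h _ => h) (g2_row hSV)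
          (fun _ _ h => absurd trivial h) x v hx, sub_zero] at h2
      exact h2
  · rw [mul_add, h1, e, mul_one]
    have : U * GM ζ a S V = GM ζ a S V + (U - 1) - (U - 1) * nM ζ a S V := by
      unfold GM
      noncomm_ring
    rw [this, h0, sub_zero]

/-- Sketch: `vw_of_mem` with `σ = cut a s₀ V₀` and `b = GG {s₀} V₀`:
`GM S V = GM S V₀ * U = GM {s₀} V₀ * T * U`.  If the word is empty there is nothing to prove. -/
theorem vw_GG (h1 : IsUnit (1 - (ζ : R))) (ha : ValOn W a) (s₀ : I) (V₀ : Set I)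
    {w : List (Set I × Set I)} (hw : ∀ x ∈ w, s₀ ∈ x.1 ∧ x.1 ⊆ V₀ ∧ V₀ ⊆ x.2 ∧ x.2 ⊆ W) :
    VW (w.map fun x => GG ζ a x.1 x.2) := by
  rcases w.eq_nil_or_concat with rfl | ⟨w', x0, hw'⟩
  · exact ⟨fun _ _ => False, ⟨fun _ => id, fun _ _ _ h _ => h⟩, fun g hg => by simp at hg⟩
  obtain ⟨a1, a2, a3, a4⟩ := hw x0 (by simp [hw'])
  have hs := a2 a1
  have ha0 := g2_mono ha (a3.trans a4)
  have hσ := sord_cut ha0 hs
  refine vw_of_mem hσ (b := GG ζ a {s₀} V₀) fun g hg => ?_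
  obtain ⟨x, hx, rfl⟩ := List.mem_map.1 hg
  obtain ⟨b1, b2, b3, b4⟩ := hw x hx
  have u0 := GM_isUnit h1 ha0 (Set.singleton_nonempty s₀) (Set.singleton_subset_iff.2 hs)
  have u1 := GM_isUnit h1 ha0 ⟨s₀, b1⟩ b2
  have u2 := GM_isUnit h1 (g2_mono ha b4) ⟨s₀, b1⟩ (b2.trans b3)
  obtain ⟨T, hT, e1⟩ := GM_eq_mul_T (ζ := ζ) ha0 b1 b2
  obtain ⟨U, hU, e2⟩ := GM_eq_mul_U u1 b2 b3
  refine (mem_Tg hσ).2 ?_
  rw [Units.val_mul, GG_val u2, e2, e1, ← GG_val u0, ← mul_assoc, ← mul_assoc, Units.inv_mul,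
    one_mul]
  exact hT.mul hσ.2 (hU.mono fun _ _ h => ⟨h.1, Or.inl h.2⟩)

end

end Pool.Agent.Lib.MP_446a91_nt.Sou
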