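import Pool.Agent.Lib.MP_446a91_nt.Sou.W2

/-! The model complex of pairs of sets of points, its contraction and the universal chains. -/

namespace Pool.Agent.Lib.MP_446a91_nt.Sou

noncomputable section

/-- Letters of the model: two sets of points and an index. -/
abbrev Ltr (P : Type) : Type := Set P × Set P × ℕ

variable {P P' : Type}

/-- Good words over `W` with indices below `k`. -/
def Gd (W : Set P) (k : ℕ) (w : List (Ltr P)) : Prop :=
  (∀ x ∈ w, x.2.1 ⊆ W ∧ x.2.2 < k ∧ ∀ y ∈ w, x.1 ⊆ y.2.1) ∧ ∃ s, ∀ x ∈ w, s ∈ x.1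

/-- Chains of good words of length `n`. -/
def gd (W : Set P) (k n : ℕ) : Submodule ℤ (Ch ℤ (Ltr P)) := sp ℤ fun w => w.length = n ∧ Gd W k w

/-- The contraction. -/
def KK (W : Set P) : Ch ℤ (Ltr P) →ₗ[ℤ] Ch ℤ (Ltr P) :=
  cons (W, W, 0) ∘ₗ mp (fun x => (x.1, W, x.2.2)) - pr id fun x => (x.1, W, x.2.2)

/-- Functoriality of letters. -/
def lm (f : P → P') (g : ℕ → ℕ) (x : Ltr P) : Ltr P' := (f '' x.1, f '' x.2.1, g x.2.2)

theorem g3_KK (W : Set P) (c : Ch ℤ (Ltr P)) : KK W c =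
    cons (W, W, 0) (mp (fun x => (x.1, W, x.2.2)) c) - pr id (fun x => (x.1, W, x.2.2)) c := rfl

theorem g3_Gd {W : Set P} {k : ℕ} {w u : List (Ltr P)} (h : Gd W k w)
    (hu : ∀ z ∈ u, ∃ x ∈ w, z = x ∨ z = (x.1, W, x.2.2)) : Gd W k u := by
  obtain ⟨h1, s, hs⟩ := h
  refine ⟨fun z hz => ?_, s, fun z hz => ?_⟩
  · obtain ⟨x, hx, e⟩ := hu z hz
    have h2 : ∀ y ∈ u, x.1 ⊆ y.2.1 := fun y hy => by
      obtain ⟨x', hx', rfl | rfl⟩ := hu y hy
      · exact (h1 x hx).2.2 _ hx'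
      · exact ((h1 x hx).2.2 x hx).trans (h1 x hx).1
    rcases e with rfl | rfl
    · exact ⟨(h1 z hx).1, (h1 z hx).2.1, h2⟩
    · exact ⟨subset_rfl, (h1 x hx).2.1, h2⟩
  · obtain ⟨x, hx, rfl | rfl⟩ := hu z hz
    exacts [hs _ hx, hs x hx]

theorem g3_lm1 {P'' : Type} (f : P' → P'') (g : ℕ → ℕ) (f' : P → P') (g' : ℕ → ℕ) (x : Ltr P) :
    lm f g (lm f' g' x) = lm (f ∘ f') (g ∘ g') x := by
  simp only [lm, Set.image_image, Function.comp_apply]

theorem g3_lm {P'' Q : Type} {f₁ : P' → P''} {f₂ : P → P'} {f₃ : Q → P''} {f₄ : P → Q}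
    {g₁ g₂ g₃ g₄ : ℕ → ℕ} (hf : ∀ y, f₁ (f₂ y) = f₃ (f₄ y)) (hg : ∀ i, g₁ (g₂ i) = g₃ (g₄ i))
    (x : Ltr P) : lm f₁ g₁ (lm f₂ g₂ x) = lm f₃ g₃ (lm f₄ g₄ x) := by
  rw [g3_lm1, g3_lm1, show f₁ ∘ f₂ = f₃ ∘ f₄ from funext hf, show g₁ ∘ g₂ = g₃ ∘ g₄ from funext hg]

theorem g3_sa (s k : ℕ) : ∀ i < k, sa s i < k + 1 := fun i hi => by
  unfold sa; split_ifs <;> omega

theorem g3_mp_alt {X Y : Type} {δ : ℕ → X → X} {δ' : ℕ → Y → Y} {φ : X → Y}
    (h : ∀ s x, φ (δ s x) = δ' s (φ x)) (k : ℕ) (c : Ch ℤ X) :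
    mp φ (alt δ k c) = alt δ' k (mp φ c) := by
  simp only [alt_apply, map_sum, map_smul, mp_mp]
  exact Finset.sum_congr rfl fun s _ => by rw [show φ ∘ δ s = δ' s ∘ φ from funext (h s)]

theorem bd_KK (W : Set P) (c : Ch ℤ (Ltr P)) : bd (KK W c) + KK W (bd c) = c := by
  have h := bd_pr id (fun x : Ltr P => ((x.1, W, x.2.2) : Ltr P)) c
  rw [mp_id] at h
  rw [g3_KK, g3_KK, map_sub, bd_cons, bd_mp, eq_sub_of_add_eq h]
  abel

theorem g3_bd_KK (W : Set P) {c : Ch ℤ (Ltr P)} (h : bd c = 0) : bd (KK W c) = c := by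
  have := bd_KK W c
  rwa [h, map_zero, add_zero] at this

/-- Sketch: `sp_map`, `prW_mem`.  For the empty word take a point of `W` as the common point. -/
theorem KK_mem {W : Set P} (hW : W.Nonempty) {k n : ℕ} (hk : 0 < k) {c : Ch ℤ (Ltr P)}
    (hc : c ∈ gd W k n) : KK W c ∈ gd W k (n + 1) := by
  refine sp_map (KK W) _ ?_ hc
  rintro w ⟨hl, h1, s, hs⟩
  rw [g3_KK, mp_wd, cons_wd, pr_wd]
  refine sub_mem (wd_mem ⟨by simp [hl], ?_, ?_⟩) (sp_mono ?_ (prW_mem _ _ w))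
  · have h2 : ∀ y ∈ ((W, W, 0) : Ltr P) :: w.map fun x => ((x.1, W, x.2.2) : Ltr P),
        y.1 ⊆ W ∧ y.2.1 = W ∧ y.2.2 < k := by
      intro y hy
      rcases List.mem_cons.1 hy with rfl | hy
      · exact ⟨subset_rfl, rfl, hk⟩
      · obtain ⟨x, hx, rfl⟩ := List.mem_map.1 hy
        exact ⟨((h1 x hx).2.2 x hx).trans (h1 x hx).1, rfl, (h1 x hx).2.1⟩
    exact fun x hx => ⟨(h2 x hx).2.1.le, (h2 x hx).2.2,
      fun y hy => (h2 x hx).1.trans (h2 y hy).2.1.ge⟩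
  · have h3 : ∃ t ∈ W, ∀ x ∈ w, t ∈ x.1 := by
      cases w with
      | nil => exact hW.imp fun t ht => ⟨ht, by simp⟩
      | cons a w =>
        have ha : a ∈ a :: w := List.mem_cons_self
        exact ⟨s, (h1 a ha).1 ((h1 a ha).2.2 a ha (hs a ha)), hs⟩
    obtain ⟨t, ht, ht'⟩ := h3
    refine ⟨t, fun y hy => ?_⟩
    rcases List.mem_cons.1 hy with rfl | hy
    · exact ht
    · obtain ⟨x, hx, rfl⟩ := List.mem_map.1 hy
      exact ht' x hx
  · rintro u ⟨w₁, a, w₂, rfl, rfl⟩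
    refine ⟨by simp at hl ⊢; omega, g3_Gd ⟨h1, s, hs⟩ fun z hz => ?_⟩
    simp only [List.map_id, id, List.mem_append, List.mem_cons, List.mem_map] at hz ⊢
    rcases hz with hz | rfl | rfl | ⟨x, hx, rfl⟩
    · exact ⟨z, Or.inl hz, Or.inl rfl⟩
    · exact ⟨z, Or.inr (Or.inl rfl), Or.inl rfl⟩
    · exact ⟨a, Or.inr (Or.inl rfl), Or.inr rfl⟩
    · exact ⟨x, Or.inr (Or.inr hx), Or.inr rfl⟩

theorem mp_KK (f : P → P') (W : Set P) (c : Ch ℤ (Ltr P)) :
    mp (lm f id) (KK W c) = KK (f '' W) (mp (lm f id) c) := by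
  rw [g3_KK, g3_KK, map_sub, mp_cons, mp_mp, mp_mp, mp_pr, pr_mp]
  rfl

theorem lm_mem {W : Set P} {W' : Set P'} {k k' n : ℕ} {f : P → P'} {g : ℕ → ℕ}
    (hf : f '' W ⊆ W') (hg : ∀ i < k, g i < k') {c : Ch ℤ (Ltr P)} (hc : c ∈ gd W k n) :
    mp (lm f g) c ∈ gd W' k' n := by
  refine sp_map (mp (lm f g)) _ ?_ hc
  rintro w ⟨hl, h1, s, hs⟩
  rw [mp_wd]
  refine wd_mem ⟨by simp [hl], fun y hy => ?_, f s, fun y hy => ?_⟩
  · obtain ⟨x, hx, rfl⟩ := List.mem_map.1 hy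
    refine ⟨(Set.image_mono (h1 x hx).1).trans hf, hg _ (h1 x hx).2.1, fun z hz => ?_⟩
    obtain ⟨x', hx', rfl⟩ := List.mem_map.1 hz
    exact Set.image_mono ((h1 x hx).2.2 x' hx')
  · obtain ⟨x, hx, rfl⟩ := List.mem_map.1 hy
    exact Set.mem_image_of_mem f (hs x hx)

/-- The first `k` points. -/
def rg (k : ℕ) : Set ℕ := {i | i < k}

/-- The face maps. -/
def dN (s : ℕ) : Ltr ℕ → Ltr ℕ := lm (sa s) (sa s)

/-- The subdivided simplex. -/
def sd : ℕ → Ch ℤ (Ltr ℕ)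
  | 0 => wd []
  | k + 1 => KK (rg (k + 1)) (alt dN k (sd k))

theorem sd_mem (k : ℕ) : sd k ∈ gd (rg k) k k := by
  induction k with
  | zero => exact wd_mem ⟨rfl, by simp, 0, by simp⟩
  | succ k ih =>
    refine KK_mem ⟨0, Nat.succ_pos k⟩ (Nat.succ_pos k) ?_
    rw [alt_apply]
    refine Submodule.sum_mem _ fun s _ => Submodule.smul_mem _ _ (lm_mem ?_ (g3_sa s k) ih)
    rintro _ ⟨i, hi, rfl⟩
    exact g3_sa s k i hi

/-- Sketch: `bd_KK`, `bd_alt`, `alt_alt` (with `sa_sa`), induction. -/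
theorem bd_sd (k : ℕ) : bd (sd (k + 1)) = alt dN k (sd k) := by
  have h : bd (alt dN k (sd k)) = 0 := by
    induction k with
    | zero => rw [bd_alt, sd, bd_wd, dW_nil, map_zero]
    | succ k ih =>
      rw [bd_alt, sd, g3_bd_KK _ ih]
      refine alt_alt (fun s t h x => ?_) k _
      unfold dN
      exact g3_lm (sa_sa h) (sa_sa h) x
  exact g3_bd_KK _ h

variable (B : Type)

/-- The first `k` points and all of `B`. -/
def WB (k : ℕ) : Set (ℕ ⊕ B) := {x | ∀ i, x = Sum.inl i → i < k}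

/-- The face maps with the points of `B` fixed. -/
def dB (s : ℕ) : Ltr (ℕ ⊕ B) → Ltr (ℕ ⊕ B) := lm (Sum.map (sa s) id) (sa s)

/-- The subdivided simplex in the larger model. -/
def sdB (k : ℕ) : Ch ℤ (Ltr (ℕ ⊕ B)) := mp (lm Sum.inl id) (sd k)

/-- The word with constant sets. -/
def csB (k : ℕ) : Ch ℤ (Ltr (ℕ ⊕ B)) :=
  wd ((List.range k).map fun i => (Set.range Sum.inr, Set.range Sum.inr, i))

/-- The homotopy between the two. -/
def HB : ℕ → Ch ℤ (Ltr (ℕ ⊕ B))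
  | 0 => 0
  | k + 1 => KK (WB B (k + 1)) (sdB B (k + 1) - csB B (k + 1) - alt (dB B) k (HB k))

theorem HB_mem [Nonempty B] (k : ℕ) : HB B k ∈ gd (WB B k) k (k + 1) := by
  obtain ⟨b⟩ := ‹Nonempty B›
  induction k with
  | zero => exact zero_mem _
  | succ k ih =>
    refine KK_mem ⟨Sum.inr b, fun i h => nomatch h⟩ (Nat.succ_pos k)
      (sub_mem (sub_mem (lm_mem ?_ (fun i hi => hi) (sd_mem (k + 1))) (wd_mem ?_)) ?_)
    · rintro _ ⟨i, hi, rfl⟩ j hj
      obtain rfl := Sum.inl_injective hj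
      exact hi
    · refine ⟨by simp, fun y hy => ?_, Sum.inr b, fun y hy => ?_⟩
      · obtain ⟨i, hi, rfl⟩ := List.mem_map.1 hy
        refine ⟨?_, List.mem_range.1 hi, fun z hz => ?_⟩
        · rintro _ ⟨b, rfl⟩ j hj
          exact nomatch hj
        · obtain ⟨j, _, rfl⟩ := List.mem_map.1 hz
          exact subset_rfl
      · obtain ⟨i, _, rfl⟩ := List.mem_map.1 hy
        exact ⟨b, rfl⟩
    · rw [alt_apply]
      refine Submodule.sum_mem _ fun s _ => Submodule.smul_mem _ _ (lm_mem ?_ (g3_sa s k) ih)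
      rintro _ ⟨x, hx, rfl⟩ j hj
      cases x with
      | inl i =>
        obtain rfl := Sum.inl_injective hj
        exact g3_sa s k i (hx i rfl)
      | inr b => exact nomatch hj

theorem g3_bd_HB (k : ℕ) (c : Ch ℤ (Ltr (ℕ ⊕ B))) :
    bd (sdB B (k + 1) - csB B (k + 1) - alt (dB B) k c) =
      alt (dB B) k (sdB B k - csB B k - bd c) := by
  have hr : ∀ s, Sum.map (sa s) (id : B → B) '' Set.range Sum.inr = Set.range Sum.inr := fun s => by
    rw [← Set.range_comp]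
    rfl
  have h1 : bd (sdB B (k + 1)) = alt (dB B) k (sdB B k) := by
    rw [sdB, bd_mp, bd_sd, sdB]
    refine g3_mp_alt (fun s x => ?_) k _
    unfold dN dB
    refine g3_lm (fun _ => ?_) (fun _ => ?_) x <;> rfl
  have h2 : bd (csB B (k + 1)) = alt (dB B) k (csB B k) :=
    bd_range (fun s i => by simp only [dB, lm, hr]) k
  rw [map_sub, map_sub, h1, h2, bd_alt, map_sub, map_sub]

/-- Sketch: as `bd_sd`, with `bd_range` for `csB`; `dB s ∘ lm inl id = lm inl id ∘ dN s`. -/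
theorem bd_HB (k : ℕ) :
    bd (HB B (k + 1)) = sdB B (k + 1) - csB B (k + 1) - alt (dB B) k (HB B k) := by
  have h : bd (sdB B (k + 1) - csB B (k + 1) - alt (dB B) k (HB B k)) = 0 := by
    induction k with
    | zero =>
      rw [g3_bd_HB, HB, map_zero, sub_zero, sdB, sd, mp_wd, csB]
      simp
    | succ k ih =>
      rw [g3_bd_HB, HB, g3_bd_KK _ ih, sub_sub_cancel]
      refine alt_alt (fun s t h x => ?_) k _
      unfold dB
      refine g3_lm (fun y => ?_) (sa_sa h) x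
      cases y with
      | inl i => exact congrArg Sum.inl (sa_sa h i)
      | inr b => rfl
  exact g3_bd_KK _ h

theorem HB_perm (σ : Equiv.Perm B) (k : ℕ) : mp (lm (Sum.map id σ) id) (HB B k) = HB B k := by
  have hW : ∀ k, Sum.map id σ '' WB B k = WB B k := by
    intro k
    refine Set.Subset.antisymm ?_ fun x hx => ?_
    · rintro _ ⟨x, hx, rfl⟩ j hj
      cases x with
      | inl i => exact hx j hj
      | inr b => exact nomatch hj
    · cases x with
      | inl i => exact ⟨Sum.inl i, hx, rfl⟩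
      | inr b => exact ⟨Sum.inr (σ.symm b), fun j hj => (nomatch hj), by simp⟩
  have hr : Sum.map (id : ℕ → ℕ) σ '' Set.range Sum.inr = Set.range Sum.inr := by
    rw [← Set.range_comp]
    exact σ.surjective.range_comp Sum.inr
  induction k with
  | zero => exact map_zero _
  | succ k ih =>
    have h1 : mp (lm (Sum.map id σ) id) (sdB B (k + 1)) = sdB B (k + 1) := by
      rw [sdB, mp_mp, show lm (Sum.map id σ) id ∘ lm Sum.inl id = lm Sum.inl id from
        funext fun x => g3_lm1 _ _ _ _ x]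
    have h2 : mp (lm (Sum.map id σ) id) (csB B (k + 1)) = csB B (k + 1) := by
      rw [csB, mp_wd, List.map_map]
      exact congrArg (fun φ => wd ((List.range (k + 1)).map φ)) (funext fun i => by
        simp only [Function.comp_apply, lm, hr, id])
    have h3 : mp (lm (Sum.map id σ) id) (alt (dB B) k (HB B k)) = alt (dB B) k (HB B k) := by
      refine (g3_mp_alt (δ' := dB B) (fun s x => ?_) k _).trans (by rw [ih])
      unfold dB
      refine g3_lm (fun y => ?_) (fun _ => ?_) x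
      · cases y <;> rfl
      · rfl
    rw [HB, mp_KK, hW]
    exact congrArg (KK _) (by rw [map_sub, map_sub, h1, h2, h3])

end

end Pool.Agent.Lib.MP_446a91_nt.Sou
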