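import Pool.Agent.Lib.MP_446a91_nt.Sou.If
import Pool.Agent.Lib.MP_446a91_nt.Sou.Vw

/-! Words whose quotients generate a group of invertible order. -/

namespace Pool.Agent.Lib.MP_446a91_nt.Sou

open Matrix

noncomputable section

variable {I : Type} [Fintype I] [DecidableEq I] {R S : Type} [CommRing R] [CommRing S]

/-- The subgroup generated by the quotients of the letters. -/
def Car {Γ : Type} [Group Γ] (w : List Γ) : Subgroup Γ :=
  Subgroup.closure {x | ∃ g ∈ w, ∃ h ∈ w, x = g⁻¹ * h}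

/-- The order of `Car w` is invertible modulo `N`. -/
def Small {Γ : Type} [Group Γ] (N : ℕ) (w : List Γ) : Prop :=
  IsUnit ((Nat.card (Car w) : ℕ) : ZMod N)

theorem small_of_vw {F : Type} [Field F] [Fintype F] {N : ℕ} (hN : N ∣ Fintype.card F - 1)
    {w : List (GL I F)} (hw : VW w) : Small N w := by
  obtain ⟨σ, hσ, h⟩ := hw
  have hle : Car w ≤ Tg F σ := by
    refine (Subgroup.closure_le _).2 ?_
    rintro _ ⟨g, hg, g', hg', rfl⟩
    exact (mem_Tg hσ).2 (h g hg g' hg')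
  obtain ⟨k, hk⟩ := card_Tg (F := F) hσ
  have hd := Subgroup.card_dvd_of_le hle
  rw [hk] at hd
  have h1 : ((Nat.card F : ℕ) : ZMod N) = 1 := by
    have h2 : ((Fintype.card F - 1 : ℕ) : ZMod N) = 0 := (ZMod.natCast_eq_zero_iff _ _).2 hN
    rw [Nat.cast_sub Fintype.card_pos, sub_eq_zero] at h2
    rw [Nat.card_eq_fintype_card, h2, Nat.cast_one]
  obtain ⟨m, hm⟩ := hd
  have h3 : ((Nat.card (Car w) : ℕ) : ZMod N) * m = 1 := by
    rw [← Nat.cast_mul, ← hm, Nat.cast_pow, h1, one_pow]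
  exact IsUnit.of_mul_eq_one _ h3

theorem VW.map (χ : R →+* S) {w : List (GL I R)} (hw : VW w) : VW (w.map (glMap I χ)) := by
  obtain ⟨σ, hσ, h⟩ := hw
  refine ⟨σ, hσ, ?_⟩
  simp only [List.forall_mem_map]
  intro g hg g' hg'
  rw [← map_inv, ← map_mul]
  refine tri_iff.2 fun x y hxy => ?_
  have := tri_iff.1 (h g hg g' hg') x y hxy
  change χ (((g⁻¹ * g' : GL I R) : Matrix I I R) x y) = _
  rw [this]
  simp [one_apply, apply_ite χ]

end

end Pool.Agent.Lib.MP_446a91_nt.Sou
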