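import Pool.Agent.Lib.MP_446a91_nt.Sou.G2
import Pool.Agent.Lib.MP_446a91_nt.Sou.G3
import Pool.Agent.Lib.MP_446a91_nt.Sou.A3
import Pool.Agent.Lib.MP_446a91_nt.Sou.R1

/-! The chain map from configurations to Volodin words, and the universal cycle. -/

namespace Pool.Agent.Lib.MP_446a91_nt.Sou

open Matrix

noncomputable section

variable {I P P' : Type} [Fintype I] [DecidableEq I] {R R' : Type} [CommRing R] [CommRing R']

/-- The matrix of a letter; the index set `I` is placed among the points by `ι`. -/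
def evG (ζ : Rˣ) (A : P → P → ℤ) (ι : I → P) (x : Ltr P) : GL I R :=
  GG ζ (fun u v => A (ι u) (ι v)) (ι ⁻¹' x.1) (ι ⁻¹' x.2.1)

variable {ζ : Rˣ}

omit [Fintype I] [DecidableEq I] in
theorem g4_val {A : P → P → ℤ} {W V : Set P} (hA : ValOn W A) {ι : I → P}
    (hι : Function.Injective ι) (hV : V ⊆ W) : ValOn (ι ⁻¹' V) fun u v => A (ι u) (ι v) :=
  ⟨fun _ hi => hA.diag _ (hV hi), fun _ hi _ hj e => hA.anti _ (hV hi) _ (hV hj) (hι.ne e),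
    fun _ hi _ hj _ hm => hA.tri _ (hV hi) _ (hV hj) _ (hV hm)⟩

/-- Sketch: `vw_GG` with `V₀` the union of the sets `ι ⁻¹' x.1`, `x ∈ w`. -/
theorem vw_evG (h1 : IsUnit (1 - (ζ : R))) {A : P → P → ℤ} {W : Set P} (hA : ValOn W A)
    {ι : I → P} (hι : Function.Injective ι) (hW : W ⊆ Set.range ι) {k : ℕ} {w : List (Ltr P)}
    (hw : Gd W k w) : VW (w.map (evG ζ A ι)) := by
  obtain ⟨h2, s, h3⟩ := hw
  cases w with
  | nil => exact ⟨fun _ _ => False, ⟨fun _ h => h, fun _ _ _ h _ => h⟩, by simp⟩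
  | cons x0 w =>
    have h0 : x0 ∈ x0 :: w := List.mem_cons_self
    obtain ⟨s₀, rfl⟩ := hW ((h2 x0 h0).1 ((h2 x0 h0).2.2 x0 h0 (h3 x0 h0)))
    have h4 := vw_GG h1 (g4_val hA hι subset_rfl) s₀ {u | ∃ x ∈ x0 :: w, ι u ∈ x.1}
      (w := (x0 :: w).map fun x : Ltr P => (ι ⁻¹' x.1, ι ⁻¹' x.2.1))
      (List.forall_mem_map.2 fun x hx =>
        ⟨h3 x hx, fun u hu => ⟨x, hx, hu⟩, fun u ⟨y, hy, hu⟩ => (h2 y hy).2.2 x hx hu,
          fun u hu => (h2 x hx).1 hu⟩)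
    rw [List.map_map] at h4
    exact h4

/-- Sketch: the two preimages agree; `GG_congr`. -/
theorem evG_lm {f : P → P'} (hf : Function.Injective f) (g : ℕ → ℕ) {A : P → P → ℤ}
    {A' : P' → P' → ℤ} {ι : I → P} {ι' : I → P'} {W : Set P}
    (h1 : ∀ u, ι u ∈ W → ι' u = f (ι u)) (h2 : ∀ u, ι' u ∈ f '' W → ι u ∈ W)
    (hA : ∀ x ∈ W, ∀ y ∈ W, A' (f x) (f y) = A x y) {x : Ltr P} (hx : x.1 ⊆ x.2.1)
    (hx' : x.2.1 ⊆ W) : evG ζ A' ι' (lm f g x) = evG ζ A ι x := by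
  have e : ∀ S ⊆ W, ι' ⁻¹' (f '' S) = ι ⁻¹' S := fun S hS => Set.ext fun u =>
    ⟨fun hu => hf.mem_set_image.1 (h1 u (h2 u (Set.image_mono hS hu)) ▸ hu),
      fun hu => ⟨ι u, hu, (h1 u (hS hu)).symm⟩⟩
  rw [evG, evG, lm, e _ (hx.trans hx'), e _ hx']
  exact GG_congr (Set.preimage_mono hx) fun u hu v hv => by
    rw [h1 u (hx' hu), h1 v (hx' hv), hA _ (hx' hu) _ (hx' hv)]

/-- Sketch: `Equiv.Perm.exists_extending_pair` for the two injections of `Fin k`.  The second part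
follows from the first by injectivity. -/
theorem exists_rho {K k : ℕ} (hk : k + 1 ≤ K) (s : ℕ) : ∃ ρ : Equiv.Perm (Fin K),
    (∀ u : Fin K, (u : ℕ) < k → (ρ u : ℕ) = sa s u) ∧
      ∀ (u : Fin K) (i : ℕ), i < k → (ρ u : ℕ) = sa s i → (u : ℕ) < k := by
  obtain ⟨ρ, hρ⟩ := Equiv.Perm.exists_extending_pair
    (f := fun i : Fin k => (⟨i, by omega⟩ : Fin K))
    (g := fun i : Fin k => (⟨sa s i, (a1_sa_lt s i.2).trans_le hk⟩ : Fin K))
    (fun i j h => Fin.ext (Fin.mk.inj h)) fun i j h => Fin.ext (sa_injective s (Fin.mk.inj h))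
  refine ⟨ρ, fun u hu => congrArg Fin.val (hρ ⟨u, hu⟩), fun u i hi h => ?_⟩
  have h1 : ρ u = ρ ⟨i, by omega⟩ := Fin.ext (h.trans (congrArg Fin.val (hρ ⟨i, hi⟩)).symm)
  rw [ρ.injective h1]
  exact hi

/-- The chain of a configuration. -/
def Phi (ζ : Rˣ) (K k : ℕ) (a : Cf) : Ch ℤ (GL (Fin K) R) :=
  ∑ π : Equiv.Perm (Fin K), mp (evG ζ a fun u => ((π u : Fin K) : ℕ)) (sd k)

theorem g4_inj {K : ℕ} (π : Equiv.Perm (Fin K)) :
    Function.Injective fun u => ((π u : Fin K) : ℕ) := Fin.val_injective.comp π.injective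

theorem g4_rg {K k : ℕ} (hk : k ≤ K) (π : Equiv.Perm (Fin K)) :
    rg k ⊆ Set.range fun u => ((π u : Fin K) : ℕ) := fun i hi =>
  ⟨π.symm ⟨i, lt_of_lt_of_le hi hk⟩, by simp⟩

theorem g4_ext {Y : Type} {F G : Ltr ℕ → Y} {k : ℕ}
    (h : ∀ x : Ltr ℕ, x.1.Nonempty → x.1 ⊆ x.2.1 → x.2.1 ⊆ rg k → F x = G x) :
    mp F (sd k) = mp G (sd k) := by
  refine sp_ext (fun w hw => ?_) (sd_mem k)
  obtain ⟨-, h1, s, h2⟩ := hw
  rw [mp_wd, mp_wd,
    List.map_congr_left fun x hx => h x ⟨s, h2 x hx⟩ ((h1 x hx).2.2 x hx) (h1 x hx).1]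

theorem Phi_mem (h1 : IsUnit (1 - (ζ : R))) {K k : ℕ} (hk : k ≤ K) {a : Cf} (ha : Val k a) :
    Phi ζ K k a ∈ sp ℤ fun w => VW w ∧ w.length = k := by
  refine Submodule.sum_mem _ fun π _ => sp_map (mp _) _ (fun w hw => ?_) (sd_mem k)
  rw [mp_wd]
  exact wd_mem ⟨vw_evG h1 ha (g4_inj π) (g4_rg hk π) hw.2, by rw [List.length_map, hw.1]⟩

/-- Sketch: `GG_shift` on the letters of the words of `sd k` (`sd_mem`, `sp_ext`,
`List.map_congr_left`). -/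
theorem Phi_shift {L : ℕ} (hζ : ζ ^ L = 1) (K k : ℕ) : Shift L k (Phi ζ K k) := by
  rintro a a' - ⟨s, hs⟩
  refine Finset.sum_congr rfl fun π _ => g4_ext fun x _ h2 h3 => ?_
  refine (GG_shift (fun u => L * s (π u)) (Set.preimage_mono h2) (fun u hu v hv => ?_)
    fun u _ => ?_).symm
  · rw [hs _ (h3 hu) _ (h3 hv)]
    ring
  · rw [_root_.zpow_mul, _root_.zpow_natCast, hζ, _root_.one_zpow]

/-- Sketch: `bd_sd`; for each `s` reindex the sum by `π ↦ ρ * π` (`exists_rho`) and use `evG_lm`. -/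
theorem bd_Phi (ζ : Rˣ) {K k : ℕ} (hk : k + 1 ≤ K) (a : Cf) :
    bd (Phi ζ K (k + 1) a) = cob k (Phi ζ K k) a := by
  simp only [Phi, cob, map_sum, bd_mp, bd_sd, alt_apply, map_smul, mp_mp]
  rw [Finset.sum_comm]
  refine Finset.sum_congr rfl fun s _ => ?_
  rw [← Finset.smul_sum]
  obtain ⟨ρ, h1, h2⟩ := exists_rho hk s
  refine congrArg _ ((Equiv.sum_comp (Equiv.mulLeft ρ) _).symm.trans
    (Finset.sum_congr rfl fun π _ => g4_ext fun x _ h3 h4 => ?_))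
  exact evG_lm (sa_injective s) (sa s) (W := rg k) (fun u hu => h1 _ hu)
    (fun u ⟨i, hi, e⟩ => h2 _ i hi e.symm) (fun _ _ _ _ => rfl) h3 h4

theorem mp_Phi (h1 : IsUnit (1 - (ζ : R))) (χ : R →+* R') {K k : ℕ} (hk : k ≤ K) {a : Cf}
    (ha : Val k a) :
    mp (glMap (Fin K) χ) (Phi ζ K k a) = Phi (Units.map χ.toMonoidHom ζ) K k a := by
  simp only [Phi, map_sum, mp_mp]
  refine Finset.sum_congr rfl fun π _ => g4_ext fun x ⟨s, hs⟩ h2 h3 => ?_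
  obtain ⟨u, rfl⟩ := g4_rg hk π (h3 (h2 hs))
  exact GG_map χ (GM_isUnit h1 (g4_val ha (g4_inj π) h3) ⟨u, hs⟩ (Set.preimage_mono h2))

/-- The universal cycle. -/
def cZ (ζ : Rˣ) (L j : ℕ) : Ch ℤ (GL (Fin (2 * j + 2)) R) :=
  avg L (2 * j + 1) (Phi ζ (2 * j + 2) (2 * j + 1)) std

theorem cZ_mem (h1 : IsUnit (1 - (ζ : R))) (L j : ℕ) :
    cZ ζ L j ∈ sp ℤ fun w => VW w ∧ w.length = 2 * j + 1 := by
  refine sp_map (lin ℤ _) _ (fun u hu => ?_) (Alt_mem L _)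
  rw [lin_wd]
  exact Phi_mem h1 (by omega) (hu.1 ▸ (val_std _).pull hu.2)

/-- Sketch: `map_lin`, `bd_Phi`, `avg_cob`. -/
theorem bd_cZ {L : ℕ} (hL : L ≠ 0) (hζ : ζ ^ L = 1) {j : ℕ} (hj : 1 ≤ j) : bd (cZ ζ L j) = 0 := by
  rw [cZ, avg, map_lin]
  simp only [bd_Phi ζ (show 2 * j + 1 ≤ 2 * j + 2 by omega)]
  refine avg_cob (fun x h => Finsupp.ext fun w => ?_) hL (even_two_mul j) (by omega)
    (Phi_shift hζ _ _)
  have h1 : x w + x w = 0 := DFunLike.congr_fun h w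
  show x w = 0
  omega

theorem mp_cZ (h1 : IsUnit (1 - (ζ : R))) (χ : R →+* R') (L j : ℕ) :
    mp (glMap _ χ) (cZ ζ L j) = cZ (Units.map χ.toMonoidHom ζ) L j := by
  rw [cZ, avg, map_lin]
  exact lin_congr (fun u hu => mp_Phi h1 χ (by omega) (hu.1 ▸ (val_std _).pull hu.2)) (Alt_mem L _)

end

end Pool.Agent.Lib.MP_446a91_nt.Sou
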