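import Pool.Agent.Lib.MP_446a91_nt.Sou.E3
import Pool.Agent.Lib.MP_446a91_nt.Sou.E4

/-! The two formulas used by the arithmetic part. -/

namespace Pool.Agent.Lib.MP_446a91_nt.Sou

noncomputable section

/-- The cycle attached to a unit `u` and a root of unity `ζ` of `R`. -/
def unitCyc {R ι : Type} [CommRing R] [Fintype ι] [DecidableEq ι] (b : Module.Basis ι ℤ R)
    (ζ u : Rˣ) (M j : ℕ) : Ch ℤ (GL (Unit × ι) ℤ) :=
  mp (res b Unit) (mp (one1 R) (crs u (zc ζ M j)))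

/-- The statement about the torsion class. -/
def Torsion (L j : ℕ) : Prop :=
  ∃ (I : Type) (_ : Fintype I) (_ : DecidableEq I) (X : Ch ℤ (GL I ℤ)) (c₁ c₂ : ℤ),
    X ∈ len ℤ _ (2 * j + 1 + 1) ∧ Cyc (GL I ℤ) 0 X ∧ c₁ ≠ 0 ∧ c₂ ≠ 0 ∧
    ∀ (F : Type) [Field F] [Fintype F] [DecidableEq F] (Λ : Lg F) (N : ℕ)
      (hN : N ∣ Fintype.card F - 1), 2 ≤ N → ∀ ξ : Fˣ, IsPrimitiveRoot ξ (L * N) →
      ∃ c₀ : ZMod N, IsUnit c₀ ∧ c₁ • (sysF Λ hN j).val X =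
        c₂ • ∑ c ∈ (Finset.range (L * N)).filter (fun c => c.Coprime L),
          Λ.y N (1 - (ξ : F) ^ c) * (c₀ * c) ^ j

section unit
variable {R ι : Type} [CommRing R] [Fintype ι] [DecidableEq ι] (b : Module.Basis ι ℤ R)
  {ζ : Rˣ} (u : Rˣ) {M j : ℕ}

theorem unitCyc_len (ζ : Rˣ) (M j : ℕ) : unitCyc b ζ u M j ∈ len ℤ _ (2 * j + 1 + 1) :=
  mp_len _ (mp_len _ (pr_len _ _ (zc_len ζ M j)))

theorem goal_aux {G G' : Type} [Group G] [Group G'] {c : Ch ℤ G} (hc : Cyc G M c) (f : G →* G') :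
    Cyc G' M (mp f c) := hc.mp f fun g => ⟨f g, map_mul f g⟩

theorem unitCyc_cyc (hζ : ζ ^ M = 1) (hj : 1 ≤ j) :
    Cyc (GL (Unit × ι) ℤ) M (unitCyc b ζ u M j) :=
  goal_aux (goal_aux (crs_cyc (zc_cyc hζ hj) u) _) _

/-- Sketch: `add_res`, `sysF_one` (with `ρ = Units.map (χ k)`), `mp_crs`, `mp_zc`, `phi_eval`. -/
theorem unitCyc_val (hζ : ζ ^ M = 1) (hj : 1 ≤ j) (hM : M ≠ 0) {F : Type} [Field F] [Fintype F]
    [DecidableEq F] (Λ : Lg F) {N : ℕ} (hN : N ∣ Fintype.card F - 1) (hNM : N ∣ M) {ξ : Fˣ}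
    (hξ : IsPrimitiveRoot ξ M) {κ : Type} [Fintype κ] [DecidableEq κ] (χ : κ → R →+* F)
    (hχ : Function.Injective χ) (hcard : Fintype.card κ = Fintype.card ι) (a : κ → ℕ)
    (ha : ∀ k, χ k ζ = (ξ : F) ^ a k) : ∃ c₀ : ZMod N, IsUnit c₀ ∧
      (sysF Λ hN j).val (unitCyc b ζ u M j) = ∑ k, Λ.y N (χ k u) * (c₀ * a k) ^ j := by
  obtain ⟨c₀, h1, h2⟩ := phi_eval Λ hNM hξ hM
  have hl : crs u (zc ζ M j) ∈ len ℤ _ (2 * j + 1 + 1) := pr_len _ _ (zc_len ζ M j)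
  have hc := crs_cyc (zc_cyc hζ hj) u
  refine ⟨c₀, h1, ((sysF Λ hN j).add_res b χ hχ hcard (mp_len _ hl)
    ((goal_aux hc (one1 R)).weak hNM)).trans (Finset.sum_congr rfl fun k _ => ?_)⟩
  have e : glMap Unit (χ k) ∘ one1 R = (one1 F).comp (Units.map (χ k : R →* F)) := by
    funext x
    ext i i'
    simp [one1]
  have e' : Units.map (χ k : R →* F) ζ = ξ ^ a k := Units.ext (by simpa using ha k)
  rw [mp_mp, e, sysF_one Λ hN j _ hl (hc.weak hNM), mp_crs, mp_zc, e', h2]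
  rfl

end unit

end

end Pool.Agent.Lib.MP_446a91_nt.Sou
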