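import Pool.Agent.Lib.MP_446a91_nt.Sou.W0

/-!
Interface between the homology of `GL_n(ℤ)` (rank one bound) and the torsion class.
-/

namespace Pool.Agent.Lib.MP_446a91_nt.Sou

open Matrix

noncomputable section

/-- The ring `ℤ[1/r]`. -/
abbrev Zr (r : ℕ) : Type := Localization.Away (r : ℤ)

/-- Apply a ring homomorphism to the entries. -/
abbrev glMap {R S : Type} [CommRing R] [CommRing S] (I : Type) [Fintype I] [DecidableEq I]
    (χ : R →+* S) : GL I R →* GL I S := Matrix.GeneralLinearGroup.map χ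

/-- An additive system of cocycles of degree `q` modulo `N` on the groups `GL I R`. -/
structure AddSys (R : Type) [CommRing R] (q N : ℕ) where
  e : ∀ (I : Type) [Fintype I] [DecidableEq I], List (GL I R) → ZMod N
  inv : ∀ (I : Type) [Fintype I] [DecidableEq I], Inv (GL I R) (e I)
  coc : ∀ (I : Type) [Fintype I] [DecidableEq I], Coc (q + 1) (e I)
  nrm : ∀ (I : Type) [Fintype I] [DecidableEq I], Nrm (e I)
  add : ∀ {Γ : Type} [Group Γ] {κ : Type} [Fintype κ] [DecidableEq κ] {I : κ → Type}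
    [∀ k, Fintype (I k)] [∀ k, DecidableEq (I k)] {J : Type} [Fintype J] [DecidableEq J]
    (ρ : ∀ k, Γ →* GL (I k) R) (ρ' : Γ →* GL J R) (P : Matrix (Σ k, I k) J R)
    (Q : Matrix J (Σ k, I k) R), P * Q = 1 → Q * P = 1 →
    (∀ γ, P * (ρ' γ : Matrix J J R) =
      blockDiagonal' (fun k => (ρ k γ : Matrix (I k) (I k) R)) * P) →
    ∀ z ∈ len ℤ Γ (q + 1), WCyc Γ N z →
      lin ℤ (e J) (mp ρ' z) = ∑ k, lin ℤ (e (I k)) (mp (ρ k) z)

/-- The value of an additive system on a chain of integral matrices. -/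
def AddSys.val {R : Type} [CommRing R] {q N : ℕ} (e : AddSys R q N) {I : Type} [Fintype I]
    [DecidableEq I] (x : Ch ℤ (GL I ℤ)) : ZMod N :=
  lin ℤ (e.e I) (mp (glMap I (Int.castRingHom R)) x)

/-- The rank one statement in degree `q`. -/
def RankOne (q : ℕ) : Prop :=
  ∃ r : ℕ, r ≠ 0 ∧
  ∀ (I : Type) [Fintype I] [DecidableEq I] (x : Ch ℤ (GL I ℤ)), x ∈ len ℤ _ (q + 1) →
    Cyc (GL I ℤ) 0 x →
    (∃ c : ℤ, c ≠ 0 ∧ ∀ (N : ℕ) (e : AddSys (Zr r) q N), c • e.val x = 0) ∨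
    (∃ c : ℤ, c ≠ 0 ∧ ∀ (N : ℕ), N ≠ 0 → ∀ (J : Type) [Fintype J] [DecidableEq J]
      (y : Ch ℤ (GL J ℤ)), y ∈ len ℤ _ (q + 1) → Cyc (GL J ℤ) N y →
      ∃ a : ℤ, ∀ e : AddSys (Zr r) q N, c • e.val y = a • e.val x)

end

end Pool.Agent.Lib.MP_446a91_nt.Sou
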