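import Pool.Agent.Lib.MP_446a91_nt.Sou.Vw
import Pool.Agent.Lib.MP_446a91_nt.Sou.Cross

/-!
The homology of a unitriangular group dies in the unitriangular group of a larger order.
-/

namespace Pool.Agent.Lib.MP_446a91_nt.Sou

open Matrix

noncomputable section

variable {R : Type} [CommRing R] {J : Type} [Fintype J] [DecidableEq J]

open Classical in
/-- Replace the rows in `B` by those of the identity. -/
def killM (B : J → Prop) (g : Matrix J J R) : Matrix J J R :=
  fun x y => if B x then (1 : Matrix J J R) x y else g x y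

omit [Fintype J] in
theorem Tri.killM {σ : J → J → Prop} (B : J → Prop) {g : Matrix J J R} (hg : Tri σ g) :
    Tri σ (killM B g) := tri_iff.2 fun x y h => by
  simp [Sou.killM, tri_iff.1 hg x y h]

theorem killM_mul {σ : J → J → Prop} {B : J → Prop} (hB : ∀ x b, B b → ¬ σ x b)
    {g : Matrix J J R} (hg : Tri σ g) (h : Matrix J J R) :
    killM B (g * h) = killM B g * killM B h := by
  ext x y
  by_cases hx : B x
  · rw [mul_apply, Finset.sum_eq_single x] <;> simp +contextual [killM, hx, one_apply, eq_comm]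
  · simp only [killM, hx, if_false, mul_apply]
    refine Finset.sum_congr rfl fun z _ => ?_
    by_cases hz : B z
    · rw [tri_iff.1 hg x z (hB x z hz), one_apply_ne (by rintro rfl; exact hx hz)]
      simp
    · simp [hz]

/-- Killing rows whose columns are trivial is an endomorphism of the unitriangular group. -/
def kill {σ : J → J → Prop} (hσ : SOrd σ) (B : J → Prop) (hB : ∀ x b, B b → ¬ σ x b) :
    Tg R σ →* Tg R σ :=
  MonoidHom.mk' (fun g => ⟨(((mem_Tg hσ).1 g.2).killM B).unit hσ,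
    (mem_Tg hσ).2 (((mem_Tg hσ).1 g.2).killM B)⟩) fun g _ =>
      Subtype.ext (Units.ext (killM_mul hB ((mem_Tg hσ).1 g.2) _))

theorem kill_val {σ : J → J → Prop} (hσ : SOrd σ) (B : J → Prop) (hB : ∀ x b, B b → ¬ σ x b)
    (g : Tg R σ) : ((kill hσ B hB g : GL J R) : Matrix J J R) = killM B (g : GL J R) := rfl

/-- The lexicographic order on copies. -/
def lexO (σ : J → J → Prop) (n : ℕ) : J × Fin n → J × Fin n → Prop :=
  fun p q => σ p.1 q.1 ∨ (p.1 = q.1 ∧ p.2 < q.2)

omit [Fintype J] [DecidableEq J] in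
theorem SOrd.lexO {σ : J → J → Prop} (hσ : SOrd σ) (n : ℕ) : SOrd (lexO σ n) := by
  refine ⟨fun x hx => hx.elim (hσ.1 _) fun h => lt_irrefl _ h.2, ?_⟩
  rintro x y z (h | ⟨h, h'⟩) (k | ⟨k, k'⟩)
  · exact .inl (hσ.2 _ _ _ h k)
  · exact .inl (k ▸ h)
  · exact .inl (h ▸ k)
  · exact .inr ⟨h.trans k, h'.trans k'⟩

/-- The first copy. -/
def cp0 (J : Type) (n : ℕ) : J ↪ J × Fin (n + 1) :=
  ⟨fun x => (x, 0), fun _ _ h => congrArg Prod.fst h⟩

/-- Repeat the row `a` in all its copies. -/
def spread (a : J) (n : ℕ) (m : Matrix J J R) : Matrix (J × Fin (n + 1)) (J × Fin (n + 1)) R :=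
  fun p q => if q.2 = 0 ∧ (p.2 = 0 ∨ p.1 = a) then m p.1 q.1 else 0

theorem spread_mul (a : J) (n : ℕ) (m m' : Matrix J J R) :
    spread a n m * spread a n m' = spread a n (m * m') := by
  ext p q
  simp only [mul_apply, Fintype.sum_prod_type, spread]
  by_cases h1 : q.2 = 0
  · by_cases h2 : p.2 = 0 ∨ p.1 = a
    · simp only [h1, h2, and_true, true_and, if_true]
      refine Finset.sum_congr rfl fun x _ => ?_
      rw [Finset.sum_eq_single 0] <;> simp +contextual
    · simp [h2]
  · simp [h1]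

omit [Fintype J] in
theorem spread_add (a : J) (n : ℕ) (m m' : Matrix J J R) :
    spread a n (m + m') = spread a n m + spread a n m' := by
  ext p q
  simp only [spread, Matrix.add_apply]
  split_ifs <;> simp

/-- The order of the group with repeated rows. -/
def tauO (σ : J → J → Prop) (a : J) (n : ℕ) : J × Fin (n + 1) → J × Fin (n + 1) → Prop :=
  fun p q => q.2 = 0 ∧ (p.2 = 0 ∨ p.1 = a) ∧ σ p.1 q.1

omit [Fintype J] [DecidableEq J] in
theorem SOrd.tauO {σ : J → J → Prop} (hσ : SOrd σ) (a : J) (n : ℕ) : SOrd (tauO σ a n) :=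
  ⟨fun _ h => hσ.1 _ h.2.2, fun _ _ _ h k => ⟨k.1, h.2.1, hσ.2 _ _ _ h.2.2 k.2.2⟩⟩

omit [Fintype J] in
theorem Tri.spread {σ : J → J → Prop} (a : J) (n : ℕ) {g : Matrix J J R} (hg : Tri σ g) :
    Tri (tauO σ a n) (1 + spread a n (g - 1)) := by
  intro p q h
  simp only [add_sub_cancel_left, Sou.spread]
  split_ifs with h1
  · exact hg _ _ fun h2 => h ⟨h1.1, h1.2, h2⟩
  · rfl

/-- The homomorphism that repeats the row `a`. -/
def spr {σ : J → J → Prop} (hσ : SOrd σ) (a : J) (n : ℕ) : Tg R σ →* Tg R (tauO σ a n) :=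
  MonoidHom.mk' (fun g => ⟨(((mem_Tg hσ).1 g.2).spread a n).unit (hσ.tauO a n),
    (mem_Tg (hσ.tauO a n)).2 (((mem_Tg hσ).1 g.2).spread a n)⟩) fun g h =>
      Subtype.ext (Units.ext (by
        have e2 : ∀ g h : Matrix J J R, g * h - 1 = (g - 1) + (h - 1) + (g - 1) * (h - 1) := by
          intro g h
          noncomm_ring
        simp only [Subgroup.coe_mul, Units.val_mul, Tri.unit_val]
        rw [e2, spread_add, spread_add, ← spread_mul]
        noncomm_ring))

theorem spr_val {σ : J → J → Prop} (hσ : SOrd σ) (a : J) (n : ℕ) (g : Tg R σ) :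
    (spr hσ a n g).1.val =
      1 + spread a n (((g : GL J R) : Matrix J J R) - 1) := rfl

theorem one_row {σ σ' : J → J → Prop} (hσ : SOrd σ) (hσ' : SOrd σ') (hle : ∀ x y, σ x y → σ' x y)
    (a : J) (ha : ∀ x b, b = a → ¬ σ x b) {n : ℕ} {z : Ch ℤ (Tg R σ)} (hl : z ∈ len ℤ _ (n + 1))
    (hz : bd z ∈ IG ℤ _ (Tg R σ)) :
    mp (fun g => ext (cp0 J n) g.1) z - mp (fun g => ext (cp0 J n) (kill hσ (· = a) ha g).1) z ∈
      Bs (Tg R (lexO σ' (n + 1))) (n + 1) := by
  classical
  have hτ := hσ.tauO a n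
  let k : Set ℕ → Tg R (tauO σ a n) →* Tg R (tauO σ a n) := fun S =>
    kill hτ (fun p => p.1 = a ∧ p.2.val ∈ S) fun x b hb h => ha _ _ hb.1 h.2.2
  have kk : ∀ S S' g, k S (k S' g) = k (S ∪ S') g := by
    intro S S' g
    ext x y
    simp only [k, kill_val, killM, Set.mem_union]
    by_cases h1 : x.1 = a <;> by_cases h2 : x.2.val ∈ S <;> by_cases h3 : x.2.val ∈ S' <;>
      simp [h1, h2, h3]
  have hT : Tg R (tauO σ a n) ≤ Tg R (lexO σ' (n + 1)) :=
    Tg_mono fun x y h => .inl (hle _ _ h.2.2)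
  let φ : Set ℕ → Tg R σ →* GL (J × Fin (n + 1)) R := fun S =>
    (Subgroup.subtype _).comp ((k S).comp (spr hσ a n))
  have hφ : ∀ S g, (φ S g).val = killM (fun p => p.1 = a ∧ p.2.val ∈ S)
      (1 + spread a n (((g : GL J R) : Matrix J J R) - 1)) := fun _ _ => rfl
  have hcol : ∀ (g : Tg R σ) x, (((g : GL J R) : Matrix J J R) - 1) x a = 0 := fun g x =>
    (mem_Tg hσ).1 g.2 x a (ha x a rfl)
  have hδ : ∀ S : Set ℕ, 0 ∉ S → ∀ i, 0 < i → i ≤ n → i ∉ S →
      mp (φ S) z - mp (φ (S ∪ {0})) z ∈ Bs (Tg R (lexO σ' (n + 1))) (n + 1) := by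
    intro S h0 i hi hin hS
    let i' : Fin (n + 1) := ⟨i, by omega⟩
    have hi' : i' ≠ 0 := fun h => hi.ne' (congrArg Fin.val h)
    have hu : Tri (lexO σ' (n + 1)) (1 + single (a, (0 : Fin (n + 1))) (a, i') (1 : R)) := by
      intro p q h
      rw [add_sub_cancel_left, single_apply_of_ne]
      rintro ⟨rfl, rfl⟩
      exact h (.inr ⟨rfl, Fin.pos_iff_ne_zero.2 hi'⟩)
    refine conj_Bs _ _ (fun g => hT (k _ _).2) (u := hu.unit (hσ'.lexO _))
      ((mem_Tg (hσ'.lexO _)).2 hu) (fun g => ?_) hl hz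
    ext x y
    simp only [Units.val_mul, Tri.unit_val, hφ, add_mul, mul_add, one_mul, mul_one,
      Matrix.add_apply]
    by_cases hx : x = (a, 0)
    · subst hx
      rw [single_mul_apply_same]
      by_cases hy : y = (a, i')
      · subst hy
        rw [mul_single_apply_same]
        have := hcol g a
        simp only [Matrix.sub_apply, one_apply_eq, sub_eq_zero] at this
        simp [killM, spread, h0, hS, i', hi.ne', hi', hi'.symm, one_apply, this]
      · rw [mul_single_apply_of_ne _ _ _ _ _ hy]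
        simp [killM, spread, h0, hS, i', hi.ne', one_apply_ne (Ne.symm hy)]
    · rw [single_mul_apply_of_ne _ _ _ _ _ hx]
      have e : killM (fun p => p.1 = a ∧ p.2.val ∈ S ∪ {0})
          (1 + spread a n (((g : GL J R) : Matrix J J R) - 1)) x y =
          killM (fun p => p.1 = a ∧ p.2.val ∈ S)
          (1 + spread a n (((g : GL J R) : Matrix J J R) - 1)) x y := by
        have : (x.1 = a ∧ x.2.val ∈ S ∪ {0}) ↔ (x.1 = a ∧ x.2.val ∈ S) := by
          refine and_congr_right fun h1 => ⟨fun h => h.resolve_right fun h2 => hx ?_, .inl⟩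
          exact Prod.ext h1 (Fin.ext h2)
        by_cases h : x.1 = a ∧ x.2.val ∈ S
        · simp only [killM]
          rw [if_pos h, if_pos (this.2 h)]
        · simp only [killM]
          rw [if_neg h, if_neg (fun h' => h (this.1 h'))]
      rw [e]
      by_cases hy : y = (a, i')
      · subst hy
        rw [mul_single_apply_same]
        simp [killM, spread, one_apply_ne hx, -Matrix.sub_apply, hcol]
      · rw [mul_single_apply_of_ne _ _ _ _ _ hy]
  let p : ℕ → Tg R (tauO σ a n) →* Tg R (tauO σ a n) := fun i => k {i}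
  have hexp : ∀ r, r ≤ n → ∀ S : Set ℕ, (∀ i ∈ S, r < i) →
      mp (Subgroup.subtype _) (mp (k S) (crossQ p (r + 1) (mp (spr hσ a n) z))) -
        (-1 : ℤ) ^ r • (mp (φ (S ∪ Set.Icc 1 r)) z - mp (φ (S ∪ Set.Icc 1 r ∪ {0})) z) ∈
        Bs (Tg R (lexO σ' (n + 1))) (n + 1) := by
    intro r
    induction r with
    | zero =>
      intro _ S _
      have : mp (Subgroup.subtype _) (mp (k S) (crossQ p (0 + 1) (mp (spr hσ a n) z))) =
          mp (φ S) z - mp (φ (S ∪ {0})) z := by
        rw [crossQ_succ]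
        simp only [crossQ, LinearMap.id_apply, map_sub, mp_mp]
        congr 3
        funext g
        simp [φ, p, kk]
      rw [this]
      simp
    | succ r ih =>
      intro hr S hS
      have h1 := ih (by omega) S fun i hi => by have := hS i hi; omega
      have h2 := ih (by omega) (S ∪ {r + 1}) (by
        rintro i (hi | rfl)
        · have := hS i hi; omega
        · omega)
      have h3 := hδ (S ∪ Set.Icc 1 r) (by
        rintro (h | h)
        · have := hS 0 h; omega
        · simp at h) (r + 1) (by omega) hr (by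
        rintro (h | h)
        · have := hS _ h; omega
        · simp at h)
      have e : S ∪ {r + 1} ∪ Set.Icc 1 r = S ∪ Set.Icc 1 (r + 1) := by
        ext i
        simp only [Set.mem_union, Set.mem_singleton_iff, Set.mem_Icc, or_assoc]
        refine or_congr_right ?_
        omega
      rw [e] at h2
      have e2 : ∀ c, mp (k S) (mp (p (r + 1)) c) = (mp (k (S ∪ {r + 1})) c : Ch ℤ _) := by
        intro c
        rw [mp_mp]
        congr 2
        funext g
        simp only [Function.comp, p, kk]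
      rw [crossQ_succ p (r + 1), map_sub, map_sub, e2]
      refine (congrArg (· ∈ Bs (Tg R (lexO σ' (n + 1))) (n + 1)) ?_).mp
        (add_mem (sub_mem h1 h2) (Submodule.smul_mem _ ((-1 : ℤ) ^ r) h3))
      rw [pow_succ]
      module
  obtain ⟨y, hy, hy'⟩ := cross p (fun r => (k (Set.Iio r)).ker) (fun _ => inferInstance)
    (fun i g hg => by
      rw [MonoidHom.mem_ker] at hg ⊢
      rw [← Set.union_eq_left.2 (Set.Iio_subset_Iio (Nat.le_succ i)), ← kk, hg, map_one])
    (fun i g => by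
      rw [MonoidHom.mem_ker, map_mul, kk, Set.union_eq_left.2 (by simp), ← map_mul,
        mul_inv_cancel, map_one])
    (fun i g hg => by
      ext x y
      have := congrArg (fun g : Tg R (tauO σ a n) => g.1.val x y)
        (MonoidHom.mem_ker.1 hg)
      simp only [k, p, kill_val, killM] at this ⊢
      split_ifs with h
      · rw [if_neg (fun h' => by simp [show x.2.val = i from h.2] at h')] at this
        exact this.symm
      · rfl)
    (mp_len (spr hσ a n) hl) (by rw [bd_mp]; exact mp_IG _ (fun g => ⟨_, map_mul _ g⟩) hz)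
  have h4 : mp (Subgroup.subtype _) (mp (k ∅) (crossQ p (n + 1) (mp (spr hσ a n) z))) ∈
      Bs (Tg R (lexO σ' (n + 1))) (n + 1) := by
    rw [mp_mp]
    refine mem_Bs.2 ⟨mp _ y, mp_len _ hy, mp_cs _ (fun _ _ x _ => hT (k ∅ x).2) (mem_sp_top y), ?_⟩
    have := mp_IG_ci ((Subgroup.subtype _).comp (k ∅)) (fun g => hT (k ∅ g).2) hy'
    rw [map_sub, ← bd_mp] at this
    exact this
  have h5 := Submodule.smul_mem _ ((-1 : ℤ) ^ n) (sub_mem h4 (hexp n le_rfl ∅ (by simp)))
  rw [sub_sub_cancel, smul_smul, ← mul_pow, neg_mul_neg, one_mul, one_pow, one_smul,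
    Set.empty_union] at h5
  have gen : ∀ (S : Set ℕ) (g : Tg R σ) (g' : GL J R), (∀ i, 0 < i → i ≤ n → i ∈ S) →
      (∀ x y, (g' : Matrix J J R) x y = if x = a ∧ 0 ∈ S then (1 : Matrix J J R) x y
        else ((g : GL J R) : Matrix J J R) x y) → φ S g = ext (cp0 J n) g' := by
    intro S g g' hS hg'
    ext ⟨x, i⟩ ⟨y, j⟩
    rw [hφ, ext_val]
    by_cases hi : i = 0
    · subst hi
      by_cases hj : j = 0
      · subst hj
        rw [show extM (cp0 J n) (g' : Matrix J J R) (x, 0) (y, 0) = _ from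
          extM_apply (cp0 J n) _ x y, hg']
        simp only [killM, spread, one_apply, Matrix.add_apply, Matrix.sub_apply]
        split_ifs <;> simp_all
      · rw [extM_right _ _ _ (fun b h => hj (congrArg Prod.snd h))]
        simp [killM, spread, hj]
    · rw [extM_left _ _ (fun b h => hi (congrArg Prod.snd h))]
      have := hS i (Fin.pos_iff_ne_zero.2 hi) (by omega)
      by_cases hx : x = a <;> simp [killM, spread, hi, this, hx]
  have e1 : (φ (Set.Icc 1 n) : _ → _) = fun g => ext (cp0 J n) g.1 := funext fun g =>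
    gen _ g _ (fun i h1 h2 => ⟨h1, h2⟩) (by simp)
  have e2 : (φ (Set.Icc 1 n ∪ {0}) : _ → _) =
      fun g => ext (cp0 J n) (kill hσ (· = a) ha g).1 := funext fun g =>
    gen _ g _ (fun i h1 h2 => .inl ⟨h1, h2⟩) (by simp [kill_val, killM])
  rwa [e1, e2] at h5

theorem kl {σ : J → J → Prop} (hσ : SOrd σ) {n : ℕ} {c : Ch ℤ (GL J R)}
    (hl : c ∈ len ℤ _ (n + 1)) (hs : c ∈ cs (Tg R σ)) (hz : bd c ∈ ci (Tg R σ)) :
    mp (ext (cp0 J n)) c - mp (fun _ => 1) c ∈ Bs (Tg R (lexO σ (n + 1))) (n + 1) := by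
  classical
  have key : ∀ A : Finset J, ∀ c : Ch ℤ (GL J R), c ∈ len ℤ _ (n + 1) →
      c ∈ cs (Tg R fun x y => x ∈ A ∧ σ x y) → bd c ∈ ci (Tg R fun x y => x ∈ A ∧ σ x y) →
      mp (ext (cp0 J n)) c - mp (fun _ => 1) c ∈ Bs (Tg R (lexO σ (n + 1))) (n + 1) := by
    have hA : ∀ A : Finset J, SOrd fun x y => x ∈ A ∧ σ x y := fun A =>
      ⟨fun x h => hσ.1 x h.2, fun x y z h k => ⟨h.1, hσ.2 _ _ _ h.2 k.2⟩⟩
    intro A
    induction A using Finset.strongInduction with
    | H A ih =>
    intro c hl hs hz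
    rcases A.eq_empty_or_nonempty with rfl | hne
    · rw [sp_ext (φ := mp (ext (cp0 J n))) (ψ := mp fun _ => 1) (fun w hw => ?_) hs, sub_self]
      · exact zero_mem _
      · rw [mp_wd, mp_wd]
        congr 1
        refine List.map_congr_left fun g hg => ?_
        have : g = 1 := by
          ext x y
          exact tri_iff.1 ((mem_Tg (hA ∅)).1 (hw g hg)) x y (by simp)
        rw [this, map_one]
    have : IsTrans J σ := ⟨hσ.2⟩
    have : Std.Irrefl σ := ⟨hσ.1⟩
    obtain ⟨a, haA, hmin⟩ := (Finite.wellFounded_of_trans_of_irrefl σ).has_min (A : Set J) hne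
    obtain ⟨z, hz1, hz2, rfl⟩ := exists_sub_cycle hl hs hz
    have ha : ∀ x b, b = a → ¬ (x ∈ A ∧ σ x b) := by
      rintro x _ rfl h
      exact hmin x h.1 h.2
    have h1 := one_row (hA A) hσ (fun _ _ h => h.2) a ha hz1 hz2
    let ψ := (Subgroup.subtype _).comp (kill (R := R) (hA A) (· = a) ha)
    have hψ : ∀ g, ψ g ∈ Tg R fun x y => x ∈ A.erase a ∧ σ x y := fun g =>
      (mem_Tg (hA _)).2 (tri_iff.2 fun x y h => by
        change killM (· = a) _ x y = _
        unfold killM
        split_ifs with hx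
        · rfl
        · exact tri_iff.1 ((mem_Tg (hA A)).1 g.2) x y fun h' =>
            h ⟨Finset.mem_erase.2 ⟨hx, h'.1⟩, h'.2⟩)
    have h2 := ih (A.erase a) (Finset.erase_ssubset haA) (mp ψ z) (mp_len _ hz1)
      (mp_cs _ (fun _ _ x _ => hψ x) (mem_sp_top z)) (by rw [bd_mp]; exact mp_IG_ci ψ hψ hz2)
    simp only [mp_mp] at h2 ⊢
    exact (congrArg (· ∈ Bs (Tg R (lexO σ (n + 1))) (n + 1)) (sub_add_sub_cancel _ _ _)).mp
      (add_mem h1 h2)
  have e : (fun x y => x ∈ (Finset.univ : Finset J) ∧ σ x y) = σ := by simp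
  exact key Finset.univ c hl (by rwa [e]) (by rwa [e])

end

end Pool.Agent.Lib.MP_446a91_nt.Sou
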