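import Pool.Agent.Lib.MP_446a91_nt.Sou.G4
import Pool.Agent.Lib.MP_446a91_nt.Sou.A4

/-! Configurations that contain a regular polygon; the rotation matrix. -/

namespace Pool.Agent.Lib.MP_446a91_nt.Sou

open Matrix

noncomputable section

variable {R : Type} [CommRing R]

/-- The configuration of the points `pos x / N`, ties broken by `rk`. -/
def cfg {P : Type} (N : ℕ) (pos : P → ℤ) (rk : P → ℕ) (x y : P) : ℤ :=
  if rk x ≤ rk y then (pos y - pos x) / N else -1 - (pos x - pos y) / N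

/-- Sketch: for `rk y < rk x` the value is the integer part of `(pos y - pos x - 1) / N`.  So in
general it is `(d - ε) / N` with `ε ∈ {0, 1}`; use `Int.le_ediv_iff_mul_le` and `Int.ediv_mul_le`,
`Int.lt_ediv_add_one_mul_self`. -/
theorem valOn_cfg {P : Type} {N : ℕ} (hN : N ≠ 0) (pos : P → ℤ) {rk : P → ℕ}
    (hrk : Function.Injective rk) : ValOn Set.univ (cfg N pos rk) := by
  have hN' : (0 : ℤ) < N := Int.natCast_pos.2 (Nat.pos_of_ne_zero hN)
  have key : ∀ x y z : ℤ, (y - x) / N + (z - y) / N ≤ (z - x) / N ∧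
      (z - x) / N < (y - x) / N + (z - y) / N + 2 := fun x y z => by
    rw [Int.le_ediv_iff_mul_le hN', Int.ediv_lt_iff_lt_mul hN']
    constructor
    · linarith [Int.ediv_mul_le (y - x) hN'.ne', Int.ediv_mul_le (z - y) hN'.ne']
    · linarith [Int.lt_ediv_add_one_mul_self (y - x) hN', Int.lt_ediv_add_one_mul_self (z - y) hN']
  refine ⟨fun i _ => by simp [cfg], fun i _ j _ h => ?_, fun i _ j _ m _ => ?_⟩
  · have := hrk.ne h
    simp only [cfg]
    split_ifs <;> omega
  · simp only [cfg]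
    generalize pos i = x
    generalize pos j = y
    generalize pos m = z
    have h1 := key x y z
    have h2 := key x z y
    have h3 := key y x z
    have h4 := key y z x
    have h5 := key z x y
    have h6 := key z y x
    split_ifs <;> omega

/-- The points of the word `w` together with the vertices of the regular `N`-gon. -/
def AP (N : ℕ) {M : ℕ} (w : List (Cy M)) : ℕ ⊕ ZMod N → ℕ ⊕ ZMod N → ℤ :=
  cfg N (Sum.elim (fun i => (w.map rep).getD i 0) fun r => (r.val : ℤ))
    (Sum.elim (fun i => N + i) fun r => r.val)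

theorem valOn_AP (N : ℕ) [NeZero N] {M : ℕ} (w : List (Cy M)) : ValOn Set.univ (AP N w) := by
  refine valOn_cfg (NeZero.ne N) _ ?_
  rintro (i | r) (j | s) h <;> simp only [Sum.elim_inl, Sum.elim_inr] at h
  · rw [Nat.add_left_cancel h]
  · have := ZMod.val_lt s
    omega
  · have := ZMod.val_lt r
    omega
  · rw [ZMod.val_injective N h]

theorem AP_inl (N : ℕ) {M : ℕ} (w : List (Cy M)) (s t : ℕ) :
    AP N w (Sum.inl s) (Sum.inl t) = cyf N w s t := by
  simp only [AP, cfg, cyf, conf, Sum.elim_inl, Nat.add_le_add_iff_left]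

/-- The rotation `e r ↦ ζ ^ carry • e (r + 1)`. -/
def rot (ζ : Rˣ) (N : ℕ) [NeZero N] : GL (ZMod N) R :=
  mnm (Equiv.addRight 1) fun r => ζ ^ ((r.val + 1) / N)

theorem m1_mnm_mul {I : Type} [Fintype I] [DecidableEq I] (ρ ρ' : Equiv.Perm I) (u u' : I → Rˣ) :
    mnm ρ u * mnm ρ' u' = mnm (ρ * ρ') fun x => u (ρ' x) * u' x := by
  ext y x
  rw [Units.val_mul, mul_apply, Finset.sum_eq_single (ρ' x)]
  · simp [mnm_apply]
  · intro z _ hz
    rw [mnm_apply ρ', if_neg hz, mul_zero]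
  · simp

theorem m1_succ {N : ℕ} [NeZero N] (r : ZMod N) :
    (r.val + 1 < N ∧ (r + 1).val = r.val + 1 ∧ (r.val + 1) / N = 0) ∨
      (r.val + 1 = N ∧ (r + 1).val = 0 ∧ (r.val + 1) / N = 1) := by
  have h1 : (r + 1).val = (r.val + 1) % N := by
    rw [ZMod.val_add, ZMod.val_one_eq_one_mod, Nat.add_mod_mod]
  rcases (Nat.succ_le_of_lt (ZMod.val_lt r)).lt_or_eq with h | h
  · exact Or.inl ⟨h, by rw [h1, Nat.mod_eq_of_lt h], Nat.div_eq_of_lt h⟩
  · have h2 : r.val + 1 = N := h
    exact Or.inr ⟨h2, by rw [h1, h2, Nat.mod_self], by rw [h2, Nat.div_self (NeZero.pos N)]⟩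

theorem m1_rot_pow (ζ : Rˣ) (N : ℕ) [NeZero N] (n : ℕ) :
    rot ζ N ^ n = mnm (Equiv.addRight (n : ZMod N)) fun r => ζ ^ ((r.val + n) / N) := by
  induction n with
  | zero =>
    ext y r
    simp [mnm_apply, Nat.div_eq_of_lt (ZMod.val_lt r), one_apply]
  | succ n ih =>
    rw [pow_succ', ih, rot, m1_mnm_mul]
    congr 1
    · ext r
      simp [add_assoc]
    · funext r
      have h1 : (r + n).val = (r.val + n) % N := by
        rw [ZMod.val_add, ZMod.val_natCast, Nat.add_mod_mod]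
      rw [← pow_add, Equiv.coe_addRight, h1, ← add_assoc]
      congr 1
      conv_rhs => rw [← Nat.mod_add_div (r.val + n) N, add_right_comm,
        Nat.add_mul_div_left _ _ (NeZero.pos N)]

/-- Sketch: `(rot ^ n) y r = if y = r + n then ζ ^ ((r.val + n) / N) else 0` by induction on `n`. -/
theorem rot_pow {ζ : Rˣ} {L : ℕ} (hζ : ζ ^ L = 1) (N : ℕ) [NeZero N] :
    rot ζ N ^ (L * N) = 1 := by
  rw [m1_rot_pow]
  ext y r
  have h1 : (r.val + L * N) / N = L := by
    rw [Nat.add_mul_div_right _ _ (NeZero.pos N), Nat.div_eq_of_lt (ZMod.val_lt r), zero_add]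
  simp [mnm_apply, h1, hζ, one_apply]

/-- The homomorphism from the cyclic group defined by an element of order dividing `M`. -/
def powH {G : Type} [Group G] {M : ℕ} [NeZero M] (t : G) (h : t ^ M = 1) : Cy M →* G :=
  MonoidHom.mk' (fun x => t ^ x.toAdd.val) fun x y => by
    rw [toAdd_mul, ZMod.val_add, ← pow_add]
    conv_rhs => rw [← Nat.mod_add_div (x.toAdd.val + y.toAdd.val) M, pow_add, pow_mul, h, one_pow,
      mul_one]

theorem powH_one {G : Type} [Group G] {M : ℕ} [NeZero M] (t : G) (h : t ^ M = 1) :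
    powH t h (Multiplicative.ofAdd 1) = t := by
  change t ^ (1 : ZMod M).val = t
  rw [ZMod.val_one_eq_one_mod, ← pow_eq_pow_mod 1 h, pow_one]

/-- The matrix of the full polygon. -/
def uW (ζ : Rˣ) (N : ℕ) [NeZero N] : GL (ZMod N) R :=
  GG ζ (cfg N (fun r : ZMod N => (r.val : ℤ)) fun r => r.val) Set.univ Set.univ

theorem m1_poly {N : ℕ} [NeZero N] (r s : ZMod N) :
    cfg N (fun r : ZMod N => (r.val : ℤ)) (fun r => r.val) r s =
      if r.val ≤ s.val then 0 else -1 := by
  have h1 := ZMod.val_lt r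
  have h2 := ZMod.val_lt s
  simp only [cfg]
  split_ifs with h
  · exact Int.ediv_eq_zero_of_lt (by omega) (by omega)
  · rw [Int.ediv_eq_zero_of_lt (by omega) (by omega), sub_zero]

/-- Sketch: `GM_isUnit`, `GG_val`; the next point after `v` is `v + 1` (`existsUnique_nxt`, or
directly), and `apr v (v + 1) = - (v.val + 1) / N`. -/
theorem uW_val {ζ : Rˣ} (h1 : IsUnit (1 - (ζ : R))) {N : ℕ} [NeZero N] (hN : 2 ≤ N) :
    (uW ζ N : Matrix (ZMod N) (ZMod N) R) = 1 - (rot ζ N : Matrix (ZMod N) (ZMod N) R) := by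
  have hv := valOn_cfg (NeZero.ne N) (fun r : ZMod N => (r.val : ℤ)) (ZMod.val_injective N)
  rw [uW, GG_val (GM_isUnit h1 hv Set.univ_nonempty subset_rfl), GM]
  congr 1
  ext s v
  have hs := m1_succ v
  have hne : v ≠ v + 1 := fun h => by
    have := congrArg ZMod.val h
    omega
  have h2 : IsNxt (cfg N (fun r : ZMod N => (r.val : ℤ)) fun r => r.val) Set.univ v (v + 1) := by
    refine ⟨trivial, fun s' _ h => ?_⟩
    have h3 : s'.val ≠ (v + 1).val := fun h' => h (ZMod.val_injective N h')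
    have h4 := ZMod.val_lt s'
    simp only [apr, m1_poly, ← (ZMod.val_injective N).eq_iff]
    split_ifs <;> omega
  rw [nM, rot, mnm_apply, Equiv.coe_addRight]
  by_cases h : s = v + 1
  · subst h
    rw [if_pos ⟨trivial, h2⟩, if_pos rfl, ← zpow_natCast]
    congr 2
    simp only [apr, m1_poly, if_neg hne]
    split_ifs <;> omega
  · rw [if_neg h, if_neg]
    exact fun h' => h ((existsUnique_nxt hv Set.univ_nonempty subset_rfl trivial).unique h'.2 h2)

/-- The index set placed among the points. -/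
def iop {K : ℕ} (B : Type) (π : Equiv.Perm (Fin K)) : Fin K ⊕ B → ℕ ⊕ B :=
  Sum.map (fun u => ((π u : Fin K) : ℕ)) id

variable {K N M : ℕ} [NeZero N]

/-- The value of a letter: a matrix and a power of the rotation. -/
def ev (ζ : Rˣ) (T : Cy M →* GL (ZMod N) R) (w : List (Cy M)) (π : Equiv.Perm (Fin K))
    (x : Ltr (ℕ ⊕ ZMod N)) : GL (Fin K ⊕ ZMod N) R × GL (Fin K ⊕ ZMod N) R :=
  (evG ζ (AP N w) (iop (ZMod N) π) x, bsum (Fin K) (ZMod N) R (1, T (w.getD x.2.2 1)))

variable {ζ : Rˣ} (T : Cy M →* GL (ZMod N) R) (w : List (Cy M)) (π : Equiv.Perm (Fin K))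

theorem vw_ev (h1 : IsUnit (1 - (ζ : R))) {k i : ℕ} (hk : k ≤ K) {u : List (Ltr (ℕ ⊕ ZMod N))}
    (hu : Gd (WB (ZMod N) k) i u) : VW ((u.map (ev ζ T w π)).map Prod.fst) := by
  have hA := valOn_AP N w
  rw [List.map_map]
  refine vw_evG h1 (W := WB (ZMod N) k) ⟨fun i _ => hA.diag i trivial,
    fun i _ j _ => hA.anti i trivial j trivial,
    fun i _ j _ m _ => hA.tri i trivial j trivial m trivial⟩ ?_ ?_ hu
  · exact Function.Injective.sumMap (Fin.val_injective.comp π.injective) Function.injective_id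
  · rintro (i | r) h
    · exact ⟨Sum.inl (π.symm ⟨i, (h i rfl).trans_le hk⟩), by simp [iop]⟩
    · exact ⟨Sum.inr r, rfl⟩

/-- Sketch: `GG_inl`, `AP_inl`. -/
theorem ev_up (x : Ltr ℕ) : ev ζ T w π (lm Sum.inl id x) =
    (bsum (Fin K) (ZMod N) R (evG ζ (cyf N w) (fun u => ((π u : Fin K) : ℕ)) x, 1),
      bsum (Fin K) (ZMod N) R (1, T (w.getD x.2.2 1))) := by
  have h : ∀ S : Set ℕ, iop (ZMod N) π ⁻¹' (Sum.inl '' S) =
      Sum.inl '' ((fun u => ((π u : Fin K) : ℕ)) ⁻¹' S) := by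
    intro S
    ext (u | r) <;> simp [iop]
  refine Prod.ext ?_ rfl
  simp only [ev, evG, lm, h, GG_inl]
  simp only [iop, Sum.map_inl, AP_inl]

/-- Sketch: `GG_inr`. -/
theorem ev_cs (i : ℕ) : ev ζ T w π (Set.range Sum.inr, Set.range Sum.inr, i) =
    (bsum (Fin K) (ZMod N) R (1, uW ζ N), bsum (Fin K) (ZMod N) R (1, T (w.getD i 1))) := by
  have h : iop (ZMod N) π ⁻¹' (Set.range Sum.inr) = Sum.inr '' Set.univ := by
    ext (u | r) <;> simp [iop]
  refine Prod.ext ?_ rfl
  simp only [ev, evG, h, GG_inr]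
  rfl

omit [NeZero N] in
theorem getD_eraseIdx {X : Type} (w : List X) (s i : ℕ) (d : X) :
    (w.eraseIdx s).getD i d = w.getD (sa s i) d := by
  simp only [List.getD_eq_getElem?_getD, List.getElem?_eraseIdx, sa]
  split_ifs <;> rfl

/-- Sketch: `evG_lm`. -/
theorem ev_face {k s : ℕ} {ρ : Equiv.Perm (Fin K)}
    (hρ : ∀ u : Fin K, (u : ℕ) < k → (ρ u : ℕ) = sa s u)
    (hρ' : ∀ (u : Fin K) (i : ℕ), i < k → (ρ u : ℕ) = sa s i → (u : ℕ) < k)
    {x : Ltr (ℕ ⊕ ZMod N)} (hx : x.1 ⊆ x.2.1) (hx' : x.2.1 ⊆ WB (ZMod N) k) :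
    ev ζ T w (ρ * π) (dB (ZMod N) s x) = ev ζ T (w.eraseIdx s) π x := by
  refine Prod.ext ?_ ?_
  · refine evG_lm (W := WB (ZMod N) k) ((sa_injective s).sumMap Function.injective_id) _ ?_ ?_ ?_
      hx hx'
    · rintro (u | r) h
      · exact congrArg Sum.inl (hρ _ (h _ rfl))
      · rfl
    · rintro (u | r) h i hi
      · obtain ⟨y | y, hy, e⟩ := h
        · rw [← Sum.inl_injective hi]
          exact hρ' _ y (hy y rfl) (Sum.inl_injective e).symm
        · cases e
      · cases hi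
    · have h1 : ∀ i j, sa s i ≤ sa s j ↔ i ≤ j := fun i j => by
        unfold sa
        split_ifs <;> omega
      have h2 : ∀ (i : ℕ) (r : ZMod N), ¬N + i ≤ r.val := fun i r => by
        have := ZMod.val_lt r
        omega
      have h3 : ∀ (i : ℕ) (r : ZMod N), r.val ≤ N + i := fun i r => by
        have := ZMod.val_lt r
        omega
      rintro (i | r) - (j | r') - <;>
        simp only [AP, cfg, Sum.map_inl, Sum.map_inr, Sum.elim_inl, Sum.elim_inr, id, a4_getD,
          getD_eraseIdx, Nat.add_le_add_iff_left, h1, h2, h3]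
  · simp only [ev, dB, lm, getD_eraseIdx]

/-- Sketch: `GG_nat` with `ρ = sumCongr refl (addRight 1)` and `k = - κ`, where
`κ (inr r) = (r.val + 1) / N` and `κ (inl u) = L * ε`, `rep (g * p) = rep p + 1 - L N ε` for the letter
`p` number `π u` of `w` (`κ = 0` if `π u ≥ w.length`).  All positions move by `1 - N κ`.  The order of
the ranks changes only between two points of the polygon, where both branches of `cfg` are equal
to `(pos y - pos x) / N`.  Then `mnm_inr`. -/
theorem ev_rot {L : ℕ} (hL : L ≠ 0) (hζ : ζ ^ L = 1) (T : Cy (L * N) →* GL (ZMod N) R)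
    (hT : T (Multiplicative.ofAdd 1) = rot ζ N) (w : List (Cy (L * N)))
    {x : Ltr (ℕ ⊕ ZMod N)} (hx : x.1 ⊆ x.2.1) (hx' : x.2.1 ⊆ WB (ZMod N) w.length)
    (hi : x.2.2 < w.length) :
    ev ζ T (w.map (Multiplicative.ofAdd 1 * ·)) π (lm (Sum.map id (Equiv.addRight 1)) id x) =
      (bsum (Fin K) (ZMod N) R (1, rot ζ N) * (ev ζ T w π x).1 *
          (bsum (Fin K) (ZMod N) R (1, rot ζ N))⁻¹,
        bsum (Fin K) (ZMod N) R (1, rot ζ N) * (ev ζ T w π x).2) := by
  have : NeZero (L * N) := ⟨mul_ne_zero hL (NeZero.ne N)⟩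
  have hN' : (N : ℤ) ≠ 0 := Int.natCast_ne_zero.2 (NeZero.ne N)
  have hc : ∀ p : Cy (L * N), ∃ c : ℤ,
      rep (Multiplicative.ofAdd 1 * p) = rep p + 1 + N * (L * c) := by
    intro p
    obtain ⟨c, hc⟩ := (ZMod.intCast_zmod_eq_zero_iff_dvd
      (rep (Multiplicative.ofAdd 1 * p) - (rep p + 1)) (L * N)).1 (by simp [rep, add_comm])
    refine ⟨c, ?_⟩
    push_cast at hc
    linear_combination hc
  choose c hc using hc
  have e1 : ∀ i < w.length, (w.map (Multiplicative.ofAdd 1 * ·)).getD i 1 =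
      Multiplicative.ofAdd 1 * w.getD i 1 := fun i hi => by
    simp [List.getD_eq_getElem?_getD, List.getElem?_eq_getElem hi]
  refine Prod.ext ?_ ?_
  · have h : ∀ S : Set (ℕ ⊕ ZMod N),
        iop (ZMod N) π ⁻¹' (Sum.map id (Equiv.addRight (1 : ZMod N)) '' S) =
          Equiv.sumCongr (Equiv.refl (Fin K)) (Equiv.addRight (1 : ZMod N)) ''
            (iop (ZMod N) π ⁻¹' S) := by
      intro S
      rw [Equiv.image_eq_preimage_symm]
      have := (Equiv.sumCongr (Equiv.refl ℕ) (Equiv.addRight (1 : ZMod N))).image_eq_preimage_symm S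
      simp only [Equiv.sumCongr_apply, Equiv.coe_refl] at this
      rw [this]
      ext (u | r) <;> simp [iop]
    let k : Fin K ⊕ ZMod N → ℤ :=
      Sum.elim (fun u => L * c (w.getD (π u) 1)) fun r => -(((r.val + 1) / N : ℕ) : ℤ)
    have h2 : mnm (Equiv.sumCongr (Equiv.refl (Fin K)) (Equiv.addRight (1 : ZMod N)))
        (fun x => ζ ^ (-k x)) = bsum (Fin K) (ZMod N) R (1, rot ζ N) := by
      rw [mnm_inr _ _ fun i => by
        simp only [k, Sum.elim_inl, _root_.zpow_neg, _root_.zpow_mul, zpow_natCast, hζ,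
          _root_.one_zpow, inv_one]]
      simp only [k, Sum.elim_inr, neg_neg, zpow_natCast, rot]
    simp only [ev, evG, lm, h]
    rw [← h2]
    refine GG_nat _ k (Set.preimage_mono hx) ?_
    have h3 : ∀ (i : ℕ) (r : ZMod N), ¬N + i ≤ r.val := fun i r => by
      have := ZMod.val_lt r
      omega
    have h4 : ∀ (i : ℕ) (r : ZMod N), r.val ≤ N + i := fun i r => by
      have := ZMod.val_lt r
      omega
    have h5 : ∀ r : ZMod N, (((r + 1).val : ℕ) : ℤ) =
        r.val + 1 + N * -(((r.val + 1) / N : ℕ) : ℤ) := fun r => by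
      rcases m1_succ r with ⟨-, h, h'⟩ | ⟨h0, h, h'⟩ <;> rw [h, h'] <;> omega
    have h6 : ∀ a b p q : ℤ, (a + 1 + N * p - (b + 1 + N * q)) / N = (a - b) / N + p - q :=
      fun a b p q => by
        rw [add_sub_assoc ((a - b) / N), ← Int.add_mul_ediv_left _ _ hN']
        congr 1
        ring
    rintro (u | r) hu (v | r') hv
    · simp only [Equiv.sumCongr_apply, Equiv.coe_refl, iop, AP, cfg, Sum.map_inl, Sum.elim_inl, id,
        a4_getD, e1 _ (hx' hu _ rfl), e1 _ (hx' hv _ rfl), hc, h6, k]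
      split_ifs <;> ring
    · simp only [Equiv.sumCongr_apply, Equiv.coe_refl, iop, AP, cfg, Sum.map_inl, Sum.elim_inl, id,
        Sum.map_inr, Sum.elim_inr, Equiv.coe_addRight, a4_getD, e1 _ (hx' hu _ rfl), hc, h3,
        if_false, k]
      rw [h5, h6]
      ring
    · simp only [Equiv.sumCongr_apply, Equiv.coe_refl, iop, AP, cfg, Sum.map_inl, Sum.elim_inl, id,
        Sum.map_inr, Sum.elim_inr, Equiv.coe_addRight, a4_getD, e1 _ (hx' hv _ rfl), hc, h4,
        if_true, k]
      rw [h5, h6]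
    · change cfg N (fun r : ZMod N => (r.val : ℤ)) (fun r => r.val) (r + 1) (r' + 1) =
        cfg N (fun r : ZMod N => (r.val : ℤ)) (fun r => r.val) r r' +
          -(((r'.val + 1) / N : ℕ) : ℤ) - -(((r.val + 1) / N : ℕ) : ℤ)
      rw [m1_poly, m1_poly]
      rcases m1_succ r with ⟨h0, h, h'⟩ | ⟨h0, h, h'⟩ <;>
        rcases m1_succ r' with ⟨g0, g, g'⟩ | ⟨g0, g, g'⟩ <;> rw [h, h', g, g'] <;>
        split_ifs <;> omega
  · simp only [ev, lm, id, e1 _ hi, map_mul T, hT]
    rw [← map_mul, Prod.mk_mul_mk, one_mul]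

end

end Pool.Agent.Lib.MP_446a91_nt.Sou
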