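import Pool.Agent.Lib.MP_446a91_nt.Sou.M1
import Pool.Agent.Lib.MP_446a91_nt.Sou.E3

/-! Diagonalisation of the rotation. -/

namespace Pool.Agent.Lib.MP_446a91_nt.Sou

open Matrix

noncomputable section

variable {F : Type} [Field F] {N : ℕ} [NeZero N]

/-- Sketch: `P k x = τ k ^ x.val` is a Vandermonde matrix (`Matrix.det_vandermonde_ne_zero_iff`
after reindexing `ZMod N ≃ Fin N` compatibly with `val`, or: a polynomial of degree `< N` with `N`
roots vanishes), `Q = P⁻¹`, `ρ γ = Q * diagonal γ * P`; `P * rot = diagonal τ * P` since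
`τ ^ (x + 1).val * ζ ^ ((x.val + 1) / N) = τ ^ (x.val + 1)`. -/
theorem exists_diag (τ : Fin N → Fˣ) (hτ : Function.Injective τ) {ζ : Fˣ} (hζ : ∀ k, τ k ^ N = ζ) :
    ∃ (ρ : (Fin N → Fˣ) →* GL (ZMod N) F) (P : Matrix (Fin N × Unit) (ZMod N) F)
      (Q : Matrix (ZMod N) (Fin N × Unit) F), P * Q = 1 ∧ Q * P = 1 ∧
      (∀ γ k x, (P * (ρ γ : Matrix (ZMod N) (ZMod N) F)) (k, ()) x = (γ k : F) * P (k, ()) x) ∧
      ρ τ = rot ζ N ∧ ∀ (v : Fin N → Fˣ) (u : GL (ZMod N) F), (∀ k, (v k : F) = 1 - τ k) →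
        (u : Matrix (ZMod N) (ZMod N) F) = 1 - (rot ζ N : Matrix (ZMod N) (ZMod N) F) →
        ρ v = u := by
  let e : ZMod N ≃ Fin N :=
    { toFun := fun x => ⟨x.val, ZMod.val_lt x⟩
      invFun := fun i => ((i : ℕ) : ZMod N)
      left_inv := fun x => ZMod.natCast_zmod_val x
      right_inv := fun i => Fin.ext (ZMod.val_cast_of_lt i.2) }
  let e' : Fin N × Unit ≃ Fin N := Equiv.prodUnique _ _
  have hV : IsUnit (vandermonde fun k => (τ k : F)).det :=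
    (det_vandermonde_ne_zero_iff.2 fun k k' h => hτ (Units.ext h)).isUnit
  obtain ⟨P, hP⟩ : ∃ P : Matrix (Fin N × Unit) (ZMod N) F,
      P = (vandermonde fun k => (τ k : F)).submatrix e' e := ⟨_, rfl⟩
  obtain ⟨Q, h1, h2⟩ : ∃ Q : Matrix (ZMod N) (Fin N × Unit) F, P * Q = 1 ∧ Q * P = 1 :=
    ⟨(vandermonde fun k => (τ k : F))⁻¹.submatrix e e',
      by rw [hP, submatrix_mul_equiv, mul_nonsing_inv _ hV, submatrix_one_equiv],
      by rw [hP, submatrix_mul_equiv, nonsing_inv_mul _ hV, submatrix_one_equiv]⟩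
  have hP' : ∀ k x, P k x = (τ k.1 : F) ^ x.val := fun k x => by rw [hP]; rfl
  let D : (Fin N → Fˣ) → Matrix (Fin N × Unit) (Fin N × Unit) F :=
    fun γ => diagonal fun k => (γ k.1 : F)
  have h3 : ∀ γ, P * (Q * D γ * P) = D γ * P := fun γ => by
    rw [← Matrix.mul_assoc, ← Matrix.mul_assoc, h1, Matrix.one_mul]
  let φ : (Fin N → Fˣ) →* Matrix (ZMod N) (ZMod N) F :=
    { toFun := fun γ => Q * D γ * P
      map_one' := by
        rw [show D 1 = 1 from diagonal_one, Matrix.mul_one, h2]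
      map_mul' := fun γ γ' => by
        rw [Matrix.mul_assoc (Q * D γ), h3, ← Matrix.mul_assoc, Matrix.mul_assoc Q (D γ),
          show D γ * D γ' = D (γ * γ') from diagonal_mul_diagonal _ _] }
  have h4 : ∀ (γ : Fin N → Fˣ) (u : GL (ZMod N) F),
      P * (u : Matrix (ZMod N) (ZMod N) F) = D γ * P → φ.toHomUnits γ = u := fun γ u h =>
    Units.ext (show Q * D γ * P = u by
      rw [Matrix.mul_assoc, ← h, ← Matrix.mul_assoc, h2, Matrix.one_mul])
  have h5 : P * (rot ζ N : Matrix (ZMod N) (ZMod N) F) = D τ * P := by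
    ext k x
    rw [diagonal_mul, mul_apply, Finset.sum_eq_single (x + 1), rot, mnm_apply,
      if_pos (show x + 1 = Equiv.addRight 1 x from rfl), hP', hP', ← hζ k.1, ← pow_mul,
      Units.val_pow_eq_pow_val, ← pow_add, ← pow_succ']
    · congr 1
      conv_lhs => rw [← ZMod.natCast_zmod_val x, ← Nat.cast_succ, ZMod.val_natCast,
        ZMod.natCast_zmod_val x]
      exact Nat.mod_add_div _ _
    · intro y _ hy
      rw [rot, mnm_apply, if_neg (show ¬ y = Equiv.addRight 1 x from hy), mul_zero]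
    · exact fun h => absurd (Finset.mem_univ _) h
  refine ⟨φ.toHomUnits, P, Q, h1, h2, fun γ k x => ?_, h4 _ _ h5, fun v u hv hu => h4 _ _ ?_⟩
  · exact (congrFun₂ (h3 γ) (k, ()) x).trans (diagonal_mul _ _ _ _)
  · rw [hu, Matrix.mul_sub, Matrix.mul_one, h5]
    ext k x
    rw [Matrix.sub_apply, diagonal_mul, diagonal_mul, hv, sub_mul, one_mul]

variable [Fintype F] [DecidableEq F]

/-- Sketch: `τ k = ξ ^ (c + L k)`, `v k = 1 - τ k` (nonzero since `τ k ^ N = ξ ^ (N c) ≠ 1`).  The chain is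
`mp ρ (crs v (zc τ (L N) j))` (`mp_pr`, `pr_mp`, `mp_zc`), a cycle by `crs_cyc`, `zc_cyc`, `Cyc.mp`,
`Cyc.weak`.  `add_const` with `I = Unit` and `ρ k = (one1 F).comp (Pi.evalMonoidHom _ k)`, then
`sysF_one`, `mp_crs`, `mp_zc`, `phi_eval`. -/
theorem rot_val (Λ : Lg F) (hN : N ∣ Fintype.card F - 1) (h2 : 2 ≤ N) {L : ℕ} (hL : L ≠ 0) {j : ℕ}
    (hj : 1 ≤ j) {ξ : Fˣ} (hξ : IsPrimitiveRoot ξ (L * N)) : ∃ c₀ : ZMod N, IsUnit c₀ ∧
      ∀ c : ℕ, ξ ^ (N * c) ≠ 1 →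
        WCyc (GL (ZMod N) F) N
          (pr id (uW (ξ ^ (N * c)) N * ·) (zc (rot (ξ ^ (N * c)) N) (L * N) j)) ∧
        lin ℤ ((sysF Λ hN j).e (ZMod N))
          (pr id (uW (ξ ^ (N * c)) N * ·) (zc (rot (ξ ^ (N * c)) N) (L * N) j)) =
          ∑ r ∈ Finset.range N,
            Λ.y N (1 - (ξ : F) ^ (c + L * r)) * (c₀ * ((c + L * r : ℕ) : ZMod N)) ^ j := by
  obtain ⟨c₀, hc₀, h⟩ := phi_eval Λ (dvd_mul_left N L) hξ (mul_ne_zero hL (NeZero.ne N))
  refine ⟨c₀, hc₀, fun c hc => ?_⟩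
  let τ : Fin N → Fˣ := fun k => ξ ^ (c + L * k)
  have hτ : Function.Injective τ := fun k k' hk => by
    have h1 : ξ ^ c * ξ ^ (L * k) = ξ ^ c * ξ ^ (L * k') := by
      rw [← pow_add, ← pow_add]
      exact hk
    have h0 := Nat.pos_of_ne_zero hL
    exact Fin.ext (Nat.eq_of_mul_eq_mul_left h0 (hξ.pow_inj (Nat.mul_lt_mul_of_pos_left k.2 h0)
      (Nat.mul_lt_mul_of_pos_left k'.2 h0) (mul_left_cancel h1)))
  have hζ : ∀ k, τ k ^ N = ξ ^ (N * c) := fun k => by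
    rw [← pow_mul, show (c + L * k) * N = N * c + L * N * k by ring, pow_add, pow_mul ξ (L * N),
      hξ.pow_eq_one, one_pow, mul_one]
  have hv : ∀ k, (1 : F) - τ k ≠ 0 := fun k h0 => hc (by
    rw [← hζ k, show τ k = 1 from Units.ext (sub_eq_zero.1 h0).symm, one_pow])
  have h1 : IsUnit (1 - ((ξ ^ (N * c) : Fˣ) : F)) :=
    Ne.isUnit fun h0 => hc (Units.ext (sub_eq_zero.1 h0).symm)
  obtain ⟨ρ, P, Q, hP, hQ, h3, h4, h5⟩ := exists_diag τ hτ hζ
  let v : Fin N → Fˣ := fun k => Units.mk0 _ (hv k)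
  have h6 : pr id (uW (ξ ^ (N * c)) N * ·) (zc (rot (ξ ^ (N * c)) N) (L * N) j) =
      mp ρ (crs v (zc τ (L * N) j)) := by
    rw [← h4, ← h5 v _ (fun _ => rfl) (uW_val h1 h2), ← mp_zc, pr_mp, crs, mp_pr]
    congr 2
    exact funext fun x => (map_mul ρ v x).symm
  have h7 : τ ^ (L * N) = 1 := funext fun k => by
    rw [Pi.pow_apply, ← pow_mul, pow_mul', hξ.pow_eq_one, one_pow, Pi.one_apply]
  have h8 := (crs_cyc (zc_cyc h7 hj) v).weak (dvd_mul_left N L)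
  have h9 : crs v (zc τ (L * N) j) ∈ len ℤ _ (2 * j + 1 + 1) := pr_len _ _ (zc_len _ _ _)
  rw [h6]
  refine ⟨h8.mp ρ fun g => ⟨ρ g, map_mul ρ g⟩, ?_⟩
  rw [(sysF Λ hN j).add_const (fun k => (one1 F).comp (Pi.evalMonoidHom (fun _ => Fˣ) k)) ρ P Q
    hP hQ (fun γ k i x => (h3 γ k x).trans (by simp [one1])) h9 h8, Finset.sum_range]
  refine Finset.sum_congr rfl fun k _ => ?_
  rw [sysF_one Λ hN j _ h9 h8, mp_crs, mp_zc]
  exact h j (c + L * k) (v k)

end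

end Pool.Agent.Lib.MP_446a91_nt.Sou
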