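import Pool.Agent.Lib.MP_446a91_nt.Sou.U1
import Pool.Agent.Lib.MP_446a91_nt.Sou.W2
import Pool.Agent.Lib.MP_446a91_nt.Sou.E4

/-! The torsion cocycle. -/

namespace Pool.Agent.Lib.MP_446a91_nt.Sou

noncomputable section

variable {Γ : Type} [Group Γ] [Finite Γ] {N q : ℕ}

/-- The product of the two components. -/
def mu2 (x : Γ × Γ) : Γ := x.1 * x.2

/-- A primitive of `e ∘ mu2 - e ∘ snd`. -/
def eta (e : List Γ → ZMod N) (w : List (Γ × Γ)) : ZMod N := lin (ZMod N) e (mp mu2 (SW N w))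

/-- The torsion cocycle. -/
def tau (e : List Γ → ZMod N) (w : List (Γ × Γ)) : ZMod N :=
  lin ℤ e (prW Prod.snd mu2 w) - eta e w

variable {e : List Γ → ZMod N}

omit [Finite Γ] in
theorem u2_lin_smul {A : Type} [CommRing A] [Module A (ZMod N)] (he : Inv Γ e) (h : Γ)
    (c : Ch A Γ) : lin A e (mp (h • ·) c) = lin A e c := by
  rw [lin_mp]
  exact congrArg (fun κ => lin A κ c) (funext (he h))

theorem u2_SW_len {D : Type} (w : List (Γ × D)) :
    SW N w ∈ len (ZMod N) (Γ × D) (w.length + 1) :=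
  sp_mono (fun _ hu => hu.1) (SW_mem N w)

theorem u2_lin_int {X : Type} (κ : List X → ZMod N) (w : List X) :
    lin (ZMod N) κ (dW w) = lin ℤ κ (dW w) := by
  rw [← bc_dW, lin_bc]

/-- The contraction identity, evaluated on an invariant cochain. -/
theorem u2_bd_SW {μ : List Γ → ZMod N} (hμ : Inv Γ μ) {w : List (Γ × Γ)}
    (hw : Small N (w.map Prod.fst)) :
    lin (ZMod N) μ (bd (mp mu2 (SW N w))) + lin ℤ (eta μ) (dW w) =
      μ (w.map mu2) - μ (w.map Prod.snd) := by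
  have hν : @Inv (Γ × Γ) Γ _ (actL Γ Γ) _ fun u => μ (u.map mu2) := by
    intro g u
    refine Eq.trans ?_ (hμ g (u.map mu2))
    beta_reduce
    rw [List.map_map, List.map_map]
    congr 2
    funext x
    exact mul_assoc g x.1 x.2
  have h1 := @Inv.lin_IP (ZMod N) _ (Γ × Γ) Γ _ (actL Γ Γ) _ _ _ _ hν _ _ (bd_SW N hw)
  rw [map_sub, map_add, map_sub, lin_wd, lin_wd, sub_eq_zero, map_lin] at h1
  have h2 : μ ((cst w).map mu2) = μ (w.map Prod.snd) := by
    refine Eq.trans ?_ (hμ ((w.map Prod.fst).headD 1) (w.map Prod.snd))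
    rw [cst, List.map_map, List.map_map]
    rfl
  have h3 : (fun u => lin (ZMod N) (fun u => μ (u.map mu2)) (SW N u)) = eta μ := by
    funext u
    rw [eta, lin_mp]
  rw [h2, h3, u2_lin_int] at h1
  rw [bd_mp, lin_mp, h1]

theorem eta_inv (he : Inv Γ e) (h m : Γ) (w : List (Γ × Γ)) :
    eta e (w.map fun x => (h * x.1 * m⁻¹, m * x.2)) = eta e w := by
  have h1 := SW_map N (MonoidHom.id Γ) Function.injective_id h m⁻¹ (fun d : Γ => m * d) w
  simp only [MonoidHom.id_apply] at h1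
  rw [eta, eta, h1, mp_mp]
  have h2 : (mu2 ∘ fun x : Γ × Γ => (h * x.1 * m⁻¹, m * x.2)) = (h • ·) ∘ mu2 := by
    funext x
    simp [mu2, mul_assoc]
  rw [h2, ← mp_mp, u2_lin_smul he]

/-- Sketch: apply `lin e ∘ mp mu2` to `bd_SW`; `mu2 (cst w)` is a translate of `snd w`. -/
theorem eta_bd (he : Inv Γ e) (hc : Coc (q + 1) e) {w : List (Γ × Γ)}
    (hw : Small N (w.map Prod.fst)) (hl : w.length = q + 1) :
    lin ℤ (eta e) (dW w) = e (w.map mu2) - e (w.map Prod.snd) := by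
  have h1 := u2_bd_SW he hw
  rwa [hc.lin_bd (mp_len mu2 (by rw [← hl]; exact u2_SW_len w)), zero_add] at h1

theorem tau_inv (he : Inv Γ e) (m : Γ) (w : List (Γ × Γ)) :
    tau e (w.map fun x => (m * x.1 * m⁻¹, m * x.2)) = tau e w := by
  rw [tau, tau, eta_inv he, prW_map]
  have h1 : (Prod.snd ∘ fun x : Γ × Γ => (m * x.1 * m⁻¹, m * x.2)) = (m • ·) ∘ Prod.snd := rfl
  have h2 : (mu2 ∘ fun x : Γ × Γ => (m * x.1 * m⁻¹, m * x.2)) = (m • ·) ∘ mu2 := by
    funext x
    simp [mu2, mul_assoc]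
  rw [h1, h2, ← mp_prW, u2_lin_smul he]

omit [Finite Γ] in
theorem u2_lin_tau (e : List Γ → ZMod N) (c : Ch ℤ (Γ × Γ)) :
    lin ℤ (tau e) c = lin ℤ e (pr Prod.snd mu2 c) - lin ℤ (eta e) c := by
  rw [pr, map_lin, ← lin_sub]
  rfl

theorem tau_coc (he : Inv Γ e) (hc : Coc (q + 1) e) {w : List (Γ × Γ)}
    (hw : Small N (w.map Prod.fst)) (hl : w.length = q + 1) : lin ℤ (tau e) (dW w) = 0 := by
  have h1 := congrArg (lin ℤ e) (bd_prW (A := ℤ) Prod.snd mu2 w)
  rw [map_add, hc.lin_bd (by rw [← hl]; exact prW_len _ _ w), zero_add, map_sub, lin_wd,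
    lin_wd] at h1
  rw [u2_lin_tau, h1, eta_bd he hc hw hl, sub_self]

theorem tau_const (g : Γ) (w : List Γ) :
    tau e (w.map fun d => (g, d)) = lin ℤ e (prW id (g * ·) w) := by
  rw [tau, eta, SW_const, map_zero, map_zero, sub_zero, prW_map]
  rfl

/-- The chain that represents the torsion cocycle on `c`, and its boundary. -/
theorem u2_X {c : Ch ℤ (Γ × Γ)}
    (hcs : c ∈ sp ℤ fun w => Small N (w.map Prod.fst) ∧ w.length = q) :
    ∃ X ∈ len ℤ Γ (q + 1), (∀ μ : List Γ → ZMod N, Inv Γ μ →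
      lin ℤ μ (bd X) = -lin ℤ (tau μ) (bd c)) ∧
      ∀ e : List Γ → ZMod N, lin ℤ (tau e) c = lin ℤ e X := by
  have hY : mp mu2 (lin ℤ (SW N) c) ∈ len (ZMod N) Γ (q + 1) := by
    refine mp_len mu2 ?_
    refine sp_map (lin ℤ (SW N)) ((len (ZMod N) (Γ × Γ) (q + 1)).restrictScalars ℤ)
      (fun w hw => ?_) hcs
    rw [lin_wd, ← hw.2]
    exact u2_SW_len w
  obtain ⟨Y, hY1, hY2⟩ := bc_surjective_zmod N hY
  have hev : ∀ κ : List Γ → ZMod N, lin ℤ κ Y = lin ℤ (eta κ) c := by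
    intro κ
    rw [← lin_bc (A := ZMod N), hY2]
    exact map_lin ((lin (ZMod N) κ ∘ₗ mp mu2).restrictScalars ℤ) (SW N) c
  refine ⟨pr Prod.snd mu2 c - Y, sub_mem (pr_len _ _ (sp_mono (fun _ hw => hw.2) hcs)) hY1,
    fun μ hμ => ?_, fun e => by rw [u2_lin_tau, map_sub, hev]⟩
  have h1 := congrArg (lin ℤ μ) (bd_pr Prod.snd mu2 c)
  have h2 : lin ℤ μ (bd Y) + lin ℤ (eta μ) (bd c) =
      lin ℤ μ (mp mu2 c) - lin ℤ μ (mp Prod.snd c) := by
    rw [← lin_bc (A := ZMod N), bc_bd, hY2]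
    refine sp_ext
      (φ := (lin (ZMod N) μ ∘ₗ bd ∘ₗ mp mu2).restrictScalars ℤ ∘ₗ lin ℤ (SW N) +
        lin ℤ (eta μ) ∘ₗ bd)
      (ψ := lin ℤ μ ∘ₗ mp mu2 - lin ℤ μ ∘ₗ mp Prod.snd) (fun w hw => ?_) hcs
    simpa using u2_bd_SW hμ hw.1
  rw [map_add, map_sub] at h1
  rw [map_sub, map_sub, u2_lin_tau]
  linear_combination h1 - h2

/-- Sketch: with `c' = mp (·, 1) c` let `X` be a lift (`bc_surjective_zmod`) of
`pr snd mu2 c' - mp mu2 (lin SW c')`.  By `bd_pr`, `bd_SW` its boundary is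
`mp mu2 (cst c') - mp snd c'` modulo `IG`, a sum of differences of constant words. -/
theorem exists_tauX {c : Ch ℤ Γ} (hcs : c ∈ sp ℤ fun w => Small N w ∧ w.length = q)
    (h0 : bd c = 0) : ∃ X ∈ len ℤ Γ (q + 1), WCyc Γ N X ∧
      ∀ e : List Γ → ZMod N, lin ℤ (tau e) (mp (fun g => (g, 1)) c) = lin ℤ e X := by
  obtain ⟨X, hX, h1, h2⟩ := u2_X (N := N) (q := q) (c := mp (fun g => (g, (1 : Γ))) c)
    (sp_map (mp fun g => (g, (1 : Γ))) _ (fun w hw => by
      rw [mp_wd]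
      refine wd_mem ⟨?_, by simpa using hw.2⟩
      simpa [Function.comp_def] using hw.1) hcs)
  refine ⟨X, hX, fun μ hμ => ?_, h2⟩
  rw [h1 μ hμ, bd_mp, h0, map_zero, map_zero, neg_zero]

/-- Sketch: `SW_map`, `mp_prW`, `prW_map`. -/
theorem tau_map {Γ' : Type} [Group Γ'] [Finite Γ'] (f : Γ →* Γ') (hf : Function.Injective f)
    (e' : List Γ' → ZMod N) (w : List (Γ × Γ)) :
    tau e' (w.map fun x => (f x.1, f x.2)) = tau (fun u => e' (u.map f)) w := by
  have h1 := SW_map N f hf 1 1 f w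
  simp only [one_mul, mul_one] at h1
  have h2 : (Prod.snd ∘ fun x : Γ × Γ => (f x.1, f x.2)) = f ∘ Prod.snd := rfl
  have h3 : (mu2 ∘ fun x : Γ × Γ => (f x.1, f x.2)) = f ∘ mu2 := by
    funext x
    simp [mu2]
  rw [tau, tau, eta, eta, h1, prW_map, mp_mp, h2, h3, ← mp_prW, ← mp_mp, lin_mp, lin_mp e']

variable {F : Type} [Field F] [Fintype F] {I J : Type} [Fintype I] [DecidableEq I] [Fintype J]
  [DecidableEq J]

theorem u2_SW_one (w : List Γ) :
    SW N ((w.map fun _ => (1 : Γ)).map fun g => (g, (1 : Γ))) = 0 := by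
  rw [← SW_const N (1 : Γ) (w.map fun _ => (1 : Γ)), List.map_map, List.map_map]
  rfl

/-- Sketch: on an `VW` word `u` of length `q + 1`, `eta_bd` (with `small_of_vw`) gives
`e u = e (1, …, 1) + lin (eta (·, 1)) (dW u)`, and `e (1, …, 1) = 0` by `hn`.  The cochain
`w ↦ eta (w, 1)` is invariant (`eta_inv` with `m = 1`) and vanishes on constant words
(`SW_const`). -/
theorem tau_fill (hN : N ∣ Fintype.card F - 1) (hq : 1 ≤ q) {e : List (GL I F) → ZMod N}
    (he : Inv (GL I F) e) (hc : Coc (q + 1) e) (hn : Nrm e) {c u : Ch ℤ (GL I F)}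
    (hu : u ∈ sp ℤ fun w => VW w ∧ w.length = q + 1)
    (h : bd u - (c - mp (fun _ => 1) c) ∈ IG ℤ (GL I F) (GL I F)) :
    lin ℤ e (pr (fun _ => 1) id c - u) = lin ℤ (tau e) (mp (fun g => (g, 1)) c) := by
  have hη : Inv (GL I F) fun w : List (GL I F) => eta e (w.map fun g => (g, 1)) := by
    intro g w
    refine Eq.trans ?_ (eta_inv he g 1 _)
    simp [Function.comp_def]
  have h1 : lin ℤ e u = lin ℤ (fun w : List (GL I F) => eta e (w.map fun g => (g, 1))) (bd u) := by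
    refine sp_ext (φ := lin ℤ e) (ψ := lin ℤ _ ∘ₗ bd) (fun w hw => ?_) hu
    have h2 := eta_bd he hc (w := w.map fun g => (g, 1))
      (by simpa [Function.comp_def] using small_of_vw hN hw.1) (by simpa using hw.2)
    have h3 : e ((w.map fun g => (g, (1 : GL I F))).map Prod.snd) = 0 := by
      obtain ⟨hw1, hw2⟩ := hw
      match w, hw2 with
      | a :: b :: w, _ => exact hn [] 1 _
      | [a], hw2 => simp at hw2; omega
    rw [h3, sub_zero, ← mp_dW, lin_mp] at h2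
    rw [LinearMap.comp_apply, bd_wd, h2, lin_wd]
    simp [Function.comp_def, mu2]
  have h4 := hη.lin_IP h
  have h5 : lin ℤ (fun w : List (GL I F) => eta e (w.map fun g => (g, 1)))
      (mp (fun _ => 1) c) = 0 := by
    rw [lin_mp, ← lin_zero (M := ZMod N) c]
    congr 2
    funext w
    rw [eta, u2_SW_one, map_zero, map_zero]
  rw [map_sub, map_sub, h5, sub_zero, sub_eq_zero] at h4
  rw [map_sub, h1, h4, u2_lin_tau, pr_mp, lin_mp (eta e)]
  have h6 : (mu2 ∘ fun g : GL I F => (g, (1 : GL I F))) = id := by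
    funext g
    simp [mu2]
  rw [h6]
  rfl

/-- Sketch: `tau_map`, `exists_tauX`, `add_ext` (`ext f` is injective by `extM_apply`). -/
theorem tau_ext (e : AddSys F q N) (hq : 1 ≤ q) (f : I ↪ J) {c : Ch ℤ (GL I F)}
    (hcs : c ∈ sp ℤ fun w => Small N w ∧ w.length = q) (h0 : bd c = 0) :
    lin ℤ (tau (e.e J)) (mp (fun g => (ext f g, 1)) c) =
      lin ℤ (tau (e.e I)) (mp (fun g => (g, 1)) c) := by
  have hf : Function.Injective (ext f : GL I F →* GL J F) := by
    intro g g' hg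
    ext a b
    have h1 := congrArg (fun x : GL J F => (x : Matrix J J F) (f a) (f b)) hg
    simpa [extM_apply] using h1
  obtain ⟨X, hX, h1, h2⟩ := exists_tauX hcs h0
  rw [h2, ← e.add_ext hq f hX h1, lin_mp (e.e J), ← h2, lin_mp, lin_mp]
  congr 2
  funext w
  rw [← tau_map (ext f) hf]
  simp [Function.comp_def]

omit [Finite Γ] in
theorem u2_small_map {Γ' : Type} [Group Γ'] (f : Γ →* Γ') {w : List Γ} (hw : Small N w) :
    Small N (w.map f) := by
  have h1 : Car (w.map f) = (Car w).map f := by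
    rw [Car, Car, MonoidHom.map_closure]
    congr 1
    ext x
    simp only [List.mem_map, Set.mem_ofPred_eq, Set.mem_image]
    constructor
    · rintro ⟨_, ⟨g, hg, rfl⟩, _, ⟨h, hh, rfl⟩, rfl⟩
      exact ⟨_, ⟨g, hg, h, hh, rfl⟩, by simp⟩
    · rintro ⟨_, ⟨g, hg, h, hh, rfl⟩, rfl⟩
      exact ⟨_, ⟨g, hg, rfl⟩, _, ⟨h, hh, rfl⟩, by simp⟩
  rw [Small, h1]
  exact isUnit_of_dvd_unit (Nat.cast_dvd_cast (Subgroup.card_map_dvd _ f)) hw

/-- A product datum.  `hc` says that `c` is a cycle for all cochains invariant under translation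
of the second components.  Sketch: let `Γ₀ = GL I F × GL J F`, `c₀ = mp (fun x => ((x.1, 1), (1, x.2))) c`
and `X = pr snd mu2 c₀ - mp mu2 (lin SW c₀)`, a chain on `Γ₀` with coefficients `ZMod N`; lift it with
`bc_surjective_zmod`.  It is a weak cycle of `Γ₀`: for an invariant `μ`, `bd_pr`, `bd_SW` reduce
`lin μ (bd X)` to `lin μ' (bd c)` with `μ'` invariant in the sense of `hc` (`SW_map`).  By `SW_map`
(`f = bsum`) the left side is `e (bsum X)`; apply `add_bsum`.  First block: `SW_map` for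
`x ↦ (x.1, 1)` in both directions (compare both with `SW` on `GL I F × GL J F`, first component in
`GL I F`).  Second block: `pr snd snd` is killed by `nrm` (`prW_mem`), and `mp_snd_SW`. -/
theorem tau_flat (e : AddSys F q N) {c : Ch ℤ (GL I F × GL J F)}
    (hcs : c ∈ sp ℤ fun w => Small N (w.map Prod.fst) ∧ w.length = q)
    (hc : ∀ μ : List (GL I F × GL J F) → ZMod N,
      (∀ (m : GL J F) w, μ (w.map fun x => (x.1, m * x.2)) = μ w) → lin ℤ μ (bd c) = 0) :
    lin ℤ (tau (e.e (I ⊕ J))) (mp (fun x => (bsum I J F (x.1, 1), bsum I J F (1, x.2))) c) =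
      lin ℤ (tau (e.e I)) (mp (fun x => (x.1, 1)) c) := by
  let ι : GL I F × GL J F → (GL I F × GL J F) × GL I F × GL J F := fun x => ((x.1, 1), (1, x.2))
  have hS : ∀ w : List (GL I F × GL J F), SW N (w.map ι) = mp ι (SW N w) := by
    intro w
    have h1 := SW_map N (MonoidHom.inl (GL I F) (GL J F)) (fun a b h => congrArg Prod.fst h) 1 1
      (fun d : GL J F => ((1 : GL I F), d)) w
    simp only [one_mul, mul_one] at h1
    exact h1
  obtain ⟨X, hX, h1, h2⟩ := u2_X (N := N) (q := q) (c := mp ι c)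
    (sp_map (mp ι) _ (fun w hw => by
      rw [mp_wd]
      refine wd_mem ⟨?_, by simpa using hw.2⟩
      have h3 := u2_small_map (MonoidHom.inl (GL I F) (GL J F)) hw.1
      rw [List.map_map] at h3 ⊢
      exact h3) hcs)
  have hW : WCyc (GL I F × GL J F) N X := by
    intro μ hμ
    rw [h1 μ hμ, bd_mp, lin_mp, neg_eq_zero]
    refine hc _ fun m w => ?_
    refine Eq.trans ?_ (tau_inv hμ (1, m) _)
    simp [Function.comp_def, ι]
  have h3 := e.add_bsum hX hW
  rw [lin_mp, lin_mp, lin_mp, ← h2, ← h2, ← h2, lin_mp, lin_mp, lin_mp] at h3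
  have h4 : lin ℤ (fun w => tau (fun u => e.e J (u.map Prod.snd)) (w.map ι)) c = 0 := by
    rw [← lin_zero (M := ZMod N) c]
    refine lin_congr (fun w hw => ?_) hcs
    have h5 : (Prod.snd ∘ mu2 ∘ ι) = Prod.snd := by
      funext x
      simp [mu2, ι]
    have h6 : (Prod.snd ∘ Prod.snd ∘ ι) = Prod.snd := rfl
    rw [tau, eta, hS, ← lin_mp, ← lin_mp, prW_map, mp_prW, mp_mp, mp_mp, Function.comp_assoc, h5,
      h6, mp_snd_SW N hw.1, map_zero, sub_zero,
      ← lin_zero (A := ℤ) (M := ZMod N) (prW Prod.snd Prod.snd w)]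
    refine lin_congr (fun u hu => ?_) (prW_mem Prod.snd Prod.snd w)
    obtain ⟨w₁, a, w₂, -, rfl⟩ := hu
    exact e.nrm J _ _ _
  rw [h4, add_zero] at h3
  rw [lin_mp, lin_mp]
  refine Eq.trans ?_ (h3.trans ?_)
  · congr 2
    funext w
    rw [← tau_map _ bsum_injective, List.map_map]
    rfl
  · congr 2
    funext w
    have h5 := SW_map N (MonoidHom.id (GL I F)) Function.injective_id 1 1
      (fun _ : GL J F => (1 : GL I F)) w
    simp only [one_mul, mul_one, MonoidHom.id_apply] at h5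
    rw [tau, tau, eta, eta, hS, h5, ← lin_mp, ← lin_mp, prW_map, prW_map, mp_prW, mp_mp, mp_mp,
      mp_mp]
    rfl

end

end Pool.Agent.Lib.MP_446a91_nt.Sou
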