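import Pool.Agent.Lib.MP_446a91_nt.Sou.M1
import Pool.Agent.Lib.MP_446a91_nt.Sou.U2

/-! Comparison of the subdivided simplex with the constant word. -/

namespace Pool.Agent.Lib.MP_446a91_nt.Sou

open Matrix

noncomputable section

variable {F : Type} [Field F] [Fintype F] {L N j : ℕ} [NeZero N] {ζ : Fˣ}

/-- Invariance under the generator is enough. -/
theorem inv_of_gen {M : ℕ} [NeZero M] {A : Type} {μ : List (Cy M) → A}
    (h : ∀ w, μ (w.map (Multiplicative.ofAdd 1 * ·)) = μ w) : Inv (Cy M) μ := by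
  have h1 : ∀ (n : ℕ) (w : List (Cy M)), μ (w.map (Multiplicative.ofAdd 1 ^ n * ·)) = μ w := by
    intro n w
    induction n with
    | zero => simp
    | succ n ih =>
      rw [← ih, ← h (w.map (Multiplicative.ofAdd 1 ^ n * ·)), List.map_map]
      simp only [Function.comp_def, pow_succ', mul_assoc]
  intro g w
  have e : g = Multiplicative.ofAdd 1 ^ g.toAdd.val := by
    rw [← ofAdd_nsmul, nsmul_eq_mul, mul_one, ZMod.natCast_zmod_val, ofAdd_toAdd]
  rw [← h1 g.toAdd.val w, ← e]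
  rfl

/-- The value of the torsion cocycle on the homotopy. -/
def m3_nu (ζ : Fˣ) {K M : ℕ} (T : Cy M →* GL (ZMod N) F)
    (E : List (GL (Fin K ⊕ ZMod N) F) → ZMod N) (k : ℕ) (w : List (Cy M)) : ZMod N :=
  ∑ π : Equiv.Perm (Fin K), lin ℤ (tau E) (mp (ev ζ T w π) (HB (ZMod N) k))

theorem m3_inv {K : ℕ} (hL : L ≠ 0) (hζ : ζ ^ L = 1) (T : Cy (L * N) →* GL (ZMod N) F)
    (hT : T (Multiplicative.ofAdd 1) = rot ζ N) {E : List (GL (Fin K ⊕ ZMod N) F) → ZMod N}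
    (hE : Inv (GL (Fin K ⊕ ZMod N) F) E) (w : List (Cy (L * N))) :
    m3_nu ζ T E w.length (w.map (Multiplicative.ofAdd 1 * ·)) = m3_nu ζ T E w.length w := by
  refine Finset.sum_congr rfl fun π _ => ?_
  conv_lhs => rw [← HB_perm (ZMod N) (Equiv.addRight 1) w.length]
  rw [mp_mp, lin_mp, lin_mp]
  refine lin_congr (fun u hu => ?_) (HB_mem (ZMod N) w.length)
  rw [← tau_inv hE (bsum (Fin K) (ZMod N) F (1, rot ζ N)) (u.map (ev ζ T w π)), List.map_map]
  refine congrArg (tau E) (List.map_congr_left fun x hx => ?_)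
  obtain ⟨h1, h2, h3⟩ := hu.2.1 x hx
  exact ev_rot π hL hζ T hT w (h3 x hx) h1 h2

omit [Fintype F] in
theorem m3_face [Finite F] {K M k : ℕ} (hk : k + 1 ≤ K) (T : Cy M →* GL (ZMod N) F)
    (E : List (GL (Fin K ⊕ ZMod N) F) → ZMod N) (w : List (Cy M)) (s : ℕ) :
    ∑ π : Equiv.Perm (Fin K), lin ℤ (tau E) (mp (ev ζ T w π) (mp (dB (ZMod N) s) (HB (ZMod N) k))) =
      m3_nu ζ T E k (w.eraseIdx s) := by
  obtain ⟨ρ, hρ, hρ'⟩ := exists_rho hk s
  rw [← Equiv.sum_comp (Equiv.mulLeft ρ)]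
  refine Finset.sum_congr rfl fun π _ => ?_
  rw [mp_mp, lin_mp, lin_mp]
  refine lin_congr (fun u hu => ?_) (HB_mem (ZMod N) k)
  refine congrArg (tau E) (List.map_congr_left fun x hx => ?_)
  obtain ⟨h1, -, h3⟩ := hu.2.1 x hx
  exact ev_face T w π hρ hρ' (h3 x hx) h1

theorem m3_bd {K M k : ℕ} (hN : N ∣ Fintype.card F - 1) (h1 : ζ ≠ 1) (hk : k + 1 ≤ K)
    (T : Cy M →* GL (ZMod N) F) {E : List (GL (Fin K ⊕ ZMod N) F) → ZMod N}
    (hE : Inv (GL (Fin K ⊕ ZMod N) F) E) (hE' : Coc (k + 1 + 1) E) {w : List (Cy M)}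
    (hw : w.length = k + 1) :
    ∑ π, lin ℤ (tau E) (mp (ev ζ T w π) (sdB (ZMod N) (k + 1))) -
        ∑ π, lin ℤ (tau E) (mp (ev ζ T w π) (csB (ZMod N) (k + 1))) =
      lin ℤ (m3_nu ζ T E k) (dW w) := by
  have hu : IsUnit (1 - (ζ : F)) :=
    (sub_ne_zero.2 fun h => h1 (Units.val_eq_one.1 h.symm)).isUnit
  have h2 : ∀ π : Equiv.Perm (Fin K),
      lin ℤ (tau E) (mp (ev ζ T w π) (bd (HB (ZMod N) (k + 1)))) = 0 := fun π =>
    sp_ext (φ := lin ℤ (tau E) ∘ₗ mp (ev ζ T w π) ∘ₗ bd) (ψ := 0) (fun u h => by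
      rw [LinearMap.comp_apply, LinearMap.comp_apply, bd_wd, mp_dW, LinearMap.zero_apply]
      exact tau_coc hE hE' (small_of_vw hN (vw_ev T w π hu hk h.2))
        (by rw [List.length_map, h.1])) (HB_mem (ZMod N) (k + 1))
  rw [dW_eq_sum, hw, map_sum, ← Finset.sum_sub_distrib]
  simp only [map_smul, lin_wd, ← m3_face hk T E w, Finset.smul_sum]
  rw [Finset.sum_comm]
  refine Finset.sum_congr rfl fun π _ => ?_
  have h3 := h2 π
  rw [bd_HB, map_sub, map_sub, map_sub, map_sub, sub_eq_zero, alt_apply, map_sum, map_sum] at h3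
  simpa only [map_smul] using h3

/-- Sketch: let `μ w = if w.length = 2 j then ∑ π, lin (tau E) (mp (ev w π) (HB (2 j))) else 0`.  It
is invariant (`inv_of_gen`, `HB_perm`, `ev_rot`, `tau_inv`, `HB_mem`).  For `w` of length `2 j + 1`,
`tau_coc` (`vw_ev`, `small_of_vw`) kills `bd (mp (ev w π) (HB (2 j + 1)))`; expand with `bd_HB`; by
`exists_rho`, `ev_face` and reindexing, the face terms add up to `lin μ (dW w)` (`dW_eq_sum`).  Finally
`zc_cyc`, `Cyc.weak`. -/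
theorem cmp_H (hN : N ∣ Fintype.card F - 1) (hL : L ≠ 0) (hj : 1 ≤ j) (hζ : ζ ^ L = 1)
    (h1 : ζ ≠ 1) (T : Cy (L * N) →* GL (ZMod N) F) (hT : T (Multiplicative.ofAdd 1) = rot ζ N)
    {E : List (GL (Fin (2 * j + 2) ⊕ ZMod N) F) → ZMod N}
    (hE : Inv (GL (Fin (2 * j + 2) ⊕ ZMod N) F) E) (hE' : Coc (2 * j + 1 + 1) E) :
    lin ℤ (fun w => ∑ π, lin ℤ (tau E) (mp (ev ζ T w π) (sdB (ZMod N) (2 * j + 1))))
        (zM (L * N) j) =
      lin ℤ (fun w => ∑ π, lin ℤ (tau E) (mp (ev ζ T w π) (csB (ZMod N) (2 * j + 1))))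
        (zM (L * N) j) := by
  have : NeZero (L * N) := ⟨mul_ne_zero hL (NeZero.ne N)⟩
  have hg : (Multiplicative.ofAdd (1 : ZMod (L * N))) ^ (L * N) = 1 := by
    rw [← ofAdd_nsmul, nsmul_eq_mul, mul_one, ZMod.natCast_self, ofAdd_zero]
  have h2 := (zc_cyc hg hj).weak (dvd_mul_left N L)
    (fun w => if w.length = 2 * j then m3_nu ζ T E (2 * j) w else 0) (inv_of_gen fun w => by
      simp only [List.length_map]
      split_ifs with h
      · have h3 := m3_inv hL hζ T hT hE w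
        rwa [h] at h3
      · rfl)
  rw [lin_congr (g := m3_nu ζ T E (2 * j)) (fun w hw => if_pos hw) (bd_len (zc_len _ _ _))] at h2
  rw [← sub_eq_zero, ← lin_sub, ← h2, zM]
  refine sp_ext (ψ := lin ℤ (m3_nu ζ T E (2 * j)) ∘ₗ bd) (fun w hw => ?_) (zc_len _ _ _)
  rw [lin_wd, LinearMap.comp_apply, bd_wd]
  exact m3_bd hN h1 (by omega) T hE hE' hw

/-- Sketch: `ev_cs`, `tau_const`; for `w` of length `2 j + 1` the word of second components is
`w.map (bsum (1, T ·))`.  So the left side is `E (mp (bsum (1, ·)) X)` with `X` the chain of `hc`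
(`mp_zc`, `mp_pr`, `pr_mp`); `add_bsum` for `mp (1, ·) X`, whose first component is killed by
`nrm`. -/
theorem cmp_cs {K : ℕ} (e : AddSys F (2 * j + 1) N) (T : Cy (L * N) →* GL (ZMod N) F)
    (hT : T (Multiplicative.ofAdd 1) = rot ζ N)
    (hc : WCyc (GL (ZMod N) F) N (pr id (uW ζ N * ·) (zc (rot ζ N) (L * N) j)))
    (π : Equiv.Perm (Fin K)) :
    lin ℤ (fun w => lin ℤ (tau (e.e _)) (mp (ev ζ T w π) (csB (ZMod N) (2 * j + 1))))
        (zM (L * N) j) =
      lin ℤ (e.e (ZMod N)) (pr id (uW ζ N * ·) (zc (rot ζ N) (L * N) j)) := by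
  have hX := pr_len id (uW ζ N * ·) (zc_len (rot ζ N) (L * N) j)
  have h1 := e.add_bsum (I := Fin K) (mp_len (fun d => ((1 : GL (Fin K) F), d)) hX)
    (hc.mp (fun d => ((1 : GL (Fin K) F), d)) fun g => ⟨((1 : GL (Fin K) F), g), fun x => by simp⟩)
  have h2 : lin ℤ (e.e (Fin K)) (mp Prod.fst (mp (fun d => ((1 : GL (Fin K) F), d))
      (pr id (uW ζ N * ·) (zc (rot ζ N) (L * N) j)))) = 0 := by
    rw [mp_mp, lin_mp, ← lin_zero (M := ZMod N) (pr id (uW ζ N * ·) (zc (rot ζ N) (L * N) j))]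
    refine lin_congr (fun w hw => ?_) hX
    match w, hw with
    | a :: b :: w, _ => exact e.nrm (Fin K) [] 1 _
  rw [h2, zero_add, mp_mp Prod.snd,
    show (Prod.snd ∘ fun d : GL (ZMod N) F => ((1 : GL (Fin K) F), d)) = id from rfl, mp_id] at h1
  rw [← h1, ← hT, ← mp_zc, pr_mp, mp_mp, mp_pr, pr, map_lin, zM]
  refine lin_congr (fun w hw => ?_) (zc_len _ _ _)
  have e1 : w = (List.range (2 * j + 1)).map fun i => w.getD i 1 :=
    List.ext_getElem (by simp [hw]) fun i h1 h2 => by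
      simp [List.getD_eq_getElem?_getD, List.getElem?_eq_getElem h1]
  have e2 : ((List.range (2 * j + 1)).map fun i =>
      ((Set.range Sum.inr, Set.range Sum.inr, i) : Ltr (ℕ ⊕ ZMod N))).map (ev ζ T w π) =
      (w.map fun p => bsum (Fin K) (ZMod N) F (1, T p)).map
        fun d => (bsum (Fin K) (ZMod N) F (1, uW ζ N), d) := by
    conv_rhs => rw [e1]
    simp only [List.map_map, Function.comp_def, ev_cs]
  rw [csB, mp_wd, lin_wd, e2, tau_const, prW_map]
  congr 2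
  funext p
  simp only [Function.comp_apply, ← map_mul, Prod.mk_mul_mk, mul_one]

end

end Pool.Agent.Lib.MP_446a91_nt.Sou
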