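import Pool.Agent.Lib.MP_446a91_nt.Sou.M3

/-! The torsion cocycle on configurations and its value on the universal cycle. -/

namespace Pool.Agent.Lib.MP_446a91_nt.Sou

open Matrix

noncomputable section

variable {F : Type} [Field F] [Fintype F] {L N j : ℕ} {ζ : Fˣ}

/-- The torsion cocycle on configurations. -/
def kF (e : AddSys F (2 * j + 1) N) (ζ : Fˣ) (a : Cf) : ZMod N :=
  lin ℤ (tau (e.e (Fin (2 * j + 2))))
    (mp (fun g => (g, 1)) (Phi ζ (2 * j + 2) (2 * j + 1) a))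

theorem kF_shift (e : AddSys F (2 * j + 1) N) (hζ : ζ ^ L = 1) :
    Shift L (2 * j + 1) (kF e ζ) := by
  intro a a' h h'
  rw [kF, kF, Phi_shift hζ _ _ a a' h h']

omit [Fintype F] in
theorem m4_unit (h1 : ζ ≠ 1) : IsUnit (1 - (ζ : F)) :=
  isUnit_iff_ne_zero.2 fun h => h1 (Units.ext (sub_eq_zero.1 h).symm)

/-- Sketch: `bd_Phi`, `Phi_mem`, `tau_coc`, `small_of_vw`. -/
theorem kF_cob (e : AddSys F (2 * j + 1) N) (hN : N ∣ Fintype.card F - 1) (h1 : ζ ≠ 1) {a : Cf}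
    (ha : Val (2 * j + 2) a) : cob (2 * j + 1) (kF e ζ) a = 0 := by
  have h2 : cob (2 * j + 1) (kF e ζ) a = lin ℤ (tau (e.e (Fin (2 * j + 2))))
      (mp (fun g => (g, 1)) (bd (Phi ζ (2 * j + 2) (2 * j + 1 + 1) a))) := by
    rw [bd_Phi ζ le_rfl, cob, cob, map_sum, map_sum]
    refine Finset.sum_congr rfl fun s _ => ?_
    rw [map_smul, map_smul, kF]
  rw [h2]
  refine sp_ext (φ := lin ℤ (tau (e.e (Fin (2 * j + 2)))) ∘ₗ mp (fun g => (g, 1)) ∘ₗ bd) (ψ := 0)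
    (fun w hw => ?_) (Phi_mem (m4_unit h1) le_rfl ha)
  rw [LinearMap.comp_apply, LinearMap.comp_apply, bd_wd, mp_dW, LinearMap.zero_apply]
  refine tau_coc (e.inv _) (e.coc _) ?_ (by simpa using hw.2)
  simpa [Function.comp_def] using small_of_vw hN hw.1

theorem avg_kF (e : AddSys F (2 * j + 1) N) (ζ : Fˣ) : avg L (2 * j + 1) (kF e ζ) std =
    lin ℤ (tau (e.e (Fin (2 * j + 2)))) (mp (fun g => (g, 1)) (cZ ζ L j)) := by
  rw [cZ, avg, avg, map_lin, map_lin]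
  rfl

variable [NeZero N]

/-- The value of a letter before the block sum. -/
def m4_ev {M K : ℕ} (ζ : Fˣ) (T : Cy M →* GL (ZMod N) F) (w : List (Cy M))
    (π : Equiv.Perm (Fin K)) (x : Ltr ℕ) : GL (Fin K) F × GL (ZMod N) F :=
  (evG ζ (cyf N w) (fun u => ((π u : Fin K) : ℕ)) x, T (w.getD x.2.2 1))

/-- The chain of a word of the cyclic group. -/
def m4_Psi {M : ℕ} (ζ : Fˣ) (T : Cy M →* GL (ZMod N) F) (K k : ℕ) (w : List (Cy M)) :
    Ch ℤ (GL (Fin K) F × GL (ZMod N) F) :=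
  ∑ π : Equiv.Perm (Fin K), mp (m4_ev ζ T w π) (sd k)

theorem m4_mp_sd {Y : Type} {f g : Ltr ℕ → Y} {k : ℕ}
    (h : ∀ x : Ltr ℕ, x.1 ⊆ x.2.1 → x.2.1 ⊆ rg k → x.2.2 < k → f x = g x) :
    mp f (sd k) = mp g (sd k) := by
  refine sp_ext (fun u hu => ?_) (sd_mem k)
  rw [mp_wd, mp_wd, List.map_congr_left fun x hx =>
    h x ((hu.2.1 x hx).2.2 x hx) (hu.2.1 x hx).1 (hu.2.1 x hx).2.1]

theorem m4_mem {M K k : ℕ} (hN : N ∣ Fintype.card F - 1) (h1 : ζ ≠ 1)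
    (T : Cy M →* GL (ZMod N) F) (hk : k ≤ K) (w : List (Cy M)) :
    m4_Psi ζ T K k w ∈ sp ℤ fun u => Small N (u.map Prod.fst) ∧ u.length = k := by
  refine Submodule.sum_mem _ fun π _ => sp_map _ _ (fun u hu => ?_) (sd_mem k)
  rw [mp_wd]
  refine wd_mem ⟨?_, by simpa using hu.1⟩
  rw [List.map_map]
  refine small_of_vw hN (vw_evG (m4_unit h1) (val_conf (NeZero.ne N) _ k)
    (fun a b h => π.injective (Fin.ext h)) (fun i hi => ?_) hu.2)
  exact ⟨π.symm ⟨i, lt_of_lt_of_le hi hk⟩, by simp⟩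

omit [Fintype F] in
theorem m4_bd {M K k : ℕ} (T : Cy M →* GL (ZMod N) F) (hk : k + 1 ≤ K) {w : List (Cy M)}
    (hw : w.length = k + 1) : bd (m4_Psi ζ T K (k + 1) w) = lin ℤ (m4_Psi ζ T K k) (dW w) := by
  rw [dW_eq_sum, hw, map_sum, m4_Psi, map_sum]
  simp only [bd_mp, bd_sd, alt_apply, map_sum, map_smul, lin_wd, mp_mp]
  rw [Finset.sum_comm]
  refine Finset.sum_congr rfl fun s _ => ?_
  rw [← Finset.smul_sum, m4_Psi]
  obtain ⟨ρ, hρ, hρ'⟩ := exists_rho hk s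
  rw [← Equiv.sum_comp (Equiv.mulLeft ρ)]
  refine congrArg _ (Finset.sum_congr rfl fun π _ => m4_mp_sd fun x hx hx' _ => ?_)
  refine Prod.ext ?_ ?_
  · refine evG_lm (sa_injective s) (sa s) (W := rg k) (fun u hu => hρ (π u) hu) ?_ ?_ hx hx'
    · rintro u ⟨i, hi, e⟩
      exact hρ' (π u) i hi e.symm
    · intro a _ b _
      rw [cyf, cyf, ← List.eraseIdx_map, conf_eraseIdx]
      rfl
  · exact congrArg T (getD_eraseIdx w s _ 1).symm

omit [Fintype F] in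
theorem m4_inv {K k : ℕ} (hL : L ≠ 0) (hζ : ζ ^ L = 1) (T : Cy (L * N) →* GL (ZMod N) F)
    (g : Cy (L * N)) {w : List (Cy (L * N))} (hw : w.length = k) :
    m4_Psi ζ T K k (w.map (g * ·)) =
      mp (fun x => (x.1, T g * x.2)) (m4_Psi ζ T K k w) := by
  subst hw
  rw [m4_Psi, m4_Psi, map_sum]
  refine Finset.sum_congr rfl fun π _ => ?_
  rw [mp_mp]
  refine m4_mp_sd fun x hx hx' hi => Prod.ext ?_ ?_
  · obtain ⟨s, hs⟩ := cyf_eqv hL (NeZero.ne N) g w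
    refine GG_shift (fun u => L * s (π u)) (Set.preimage_mono hx) (fun a ha b hb => ?_)
      fun a _ => ?_
    · rw [hs _ (hx' ha) _ (hx' hb)]
      ring
    · rw [_root_.zpow_mul, zpow_natCast, hζ, _root_.one_zpow]
  · change T _ = T g * T _
    rw [← map_mul]
    congr 1
    simp [List.getD_eq_getElem?_getD, hi]

/-- Sketch: let `Ψ k w = ∑ π, mp (fun x => (evG ζ (cyf N w) π x, T (w.getD x.2.2 1))) (sd k)` and
`c = lin (Ψ (2 j + 1)) zM`.  By `ev_up` the left side is the left side of `tau_flat` for `c`, and the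
right side is its right side.  Hypothesis `hc` of `tau_flat`: as in `bd_Phi` (`bd_sd`, `exists_rho`,
`evG_lm`, `conf_eraseIdx`, `getD_eraseIdx`), `bd (Ψ (k + 1) w) = lin (Ψ k) (dW w)` for `w` of length
`k + 1`; and `w ↦ if w.length = 2 j then lin μ (Ψ (2 j) w) else 0` is invariant because
`Ψ k (g w) = mp (fun x => (x.1, T g * x.2)) (Ψ k w)` (`cyf_eqv`, `GG_shift`, `sd_mem`). -/
theorem cmp_flat (e : AddSys F (2 * j + 1) N) (hN : N ∣ Fintype.card F - 1) (hL : L ≠ 0)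
    (hj : 1 ≤ j) (hζ : ζ ^ L = 1) (h1 : ζ ≠ 1) (T : Cy (L * N) →* GL (ZMod N) F) :
    lin ℤ (fun w => ∑ π : Equiv.Perm (Fin (2 * j + 2)),
        lin ℤ (tau (e.e _)) (mp (ev ζ T w π) (sdB (ZMod N) (2 * j + 1)))) (zM (L * N) j) =
      lin ℤ (fun w => kF e ζ (cyf N w)) (zM (L * N) j) := by
  have hg : (Multiplicative.ofAdd (1 : ZMod (L * N))) ^ (L * N) = 1 := by
    rw [← ofAdd_nsmul, nsmul_eq_mul, mul_one, ZMod.natCast_self, ofAdd_zero]
  have key := tau_flat e (c := lin ℤ (m4_Psi ζ T (2 * j + 2) (2 * j + 1)) (zM (L * N) j))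
    (sp_map _ _ (fun w _ => by rw [lin_wd]; exact m4_mem hN h1 T (by omega) w) (mem_sp_top _))
    fun μ hμ => by
      have h2 := (zc_cyc hg hj).weak (dvd_mul_left N L)
        (fun w => if w.length = 2 * j then lin ℤ μ (m4_Psi ζ T (2 * j + 2) (2 * j) w) else 0)
        fun g w => by
          simp only [List.length_map, smul_eq_mul]
          split_ifs with h
          · rw [m4_inv hL hζ T g h, lin_mp]
            exact congrArg (fun κ => lin ℤ κ _) (funext (hμ (T g)))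
          · rfl
      rw [← h2]
      refine sp_ext (φ := lin ℤ μ ∘ₗ bd ∘ₗ lin ℤ (m4_Psi ζ T (2 * j + 2) (2 * j + 1)))
        (ψ := lin ℤ _ ∘ₗ bd) (fun w hw => ?_) (zc_len _ _ j)
      rw [LinearMap.comp_apply, LinearMap.comp_apply, LinearMap.comp_apply, lin_wd, bd_wd,
        m4_bd T (by omega) hw, map_lin]
      exact lin_congr (fun u hu => (if_pos (by omega)).symm) (dW_mem_sublist w)
  rw [map_lin, map_lin, map_lin, map_lin] at key
  refine Eq.trans ?_ (key.trans ?_)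
  · refine congrArg (fun κ => lin ℤ κ _) (funext fun w => ?_)
    rw [m4_Psi, map_sum, map_sum]
    refine Finset.sum_congr rfl fun π _ => ?_
    rw [sdB, mp_mp, mp_mp]
    exact congrArg (fun f => lin ℤ _ (mp f _)) (funext (ev_up T w π))
  · refine congrArg (fun κ => lin ℤ κ _) (funext fun w => ?_)
    rw [m4_Psi, kF, Phi, map_sum, map_sum, map_sum, map_sum]
    refine Finset.sum_congr rfl fun π _ => ?_
    rw [mp_mp, mp_mp]
    rfl

/-- Sketch: `T = powH (rot ζ N) (rot_pow ..)`; `cmp_flat`, `cmp_H`, `cmp_cs`, `lin_sum`. -/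
theorem kF_zM (e : AddSys F (2 * j + 1) N) (hN : N ∣ Fintype.card F - 1) (hL : L ≠ 0)
    (hj : 1 ≤ j) (hζ : ζ ^ L = 1) (h1 : ζ ≠ 1)
    (hc : WCyc (GL (ZMod N) F) N (pr id (uW ζ N * ·) (zc (rot ζ N) (L * N) j))) :
    lin ℤ (fun w => kF e ζ (cyf N w)) (zM (L * N) j) = (((2 * j + 2).factorial : ℕ) : ℤ) •
      lin ℤ (e.e (ZMod N)) (pr id (uW ζ N * ·) (zc (rot ζ N) (L * N) j)) := by
  have : NeZero (L * N) := ⟨mul_ne_zero hL (NeZero.ne N)⟩
  have hT := powH_one (rot ζ N) (rot_pow hζ N)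
  rw [← cmp_flat e hN hL hj hζ h1 (powH (rot ζ N) (rot_pow hζ N)),
    cmp_H hN hL hj hζ h1 _ hT (e.inv _) (e.coc _), lin_sum,
    Finset.sum_congr rfl fun π _ => cmp_cs e _ hT hc π, Finset.sum_const, Finset.card_univ,
    Fintype.card_perm, Fintype.card_fin, natCast_zsmul]

end

end Pool.Agent.Lib.MP_446a91_nt.Sou
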