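import Pool.Agent.Lib.MP_446a91_nt.Sou.M2
import Pool.Agent.Lib.MP_446a91_nt.Sou.M4
import Pool.Agent.Lib.MP_446a91_nt.Sou.Fill
import Pool.Agent.Lib.MP_446a91_nt.Sou.Goal

/-! The torsion class. -/

namespace Pool.Agent.Lib.MP_446a91_nt.Sou

open Matrix

noncomputable section

/-- Sketch: `R = AdjoinRoot (Polynomial.cyclotomic L ℤ)`, `AdjoinRoot.powerBasis'` (monic, degree
`φ L`, `Nat.totient_eq_card_coprime`); `ζ = root`, `ζ ^ L = 1` by `cyclotomic.dvd_X_pow_sub_one`;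
`X - 1` divides `Φ - Φ(1)` and `Φ(1) = 1` (`eval_one_cyclotomic_not_prime_pow`), so `1 - ζ` is a
unit; `χ c = AdjoinRoot.lift` with the root `η ^ c` (`IsPrimitiveRoot.isRoot_cyclotomic`,
`map_cyclotomic`, `IsPrimitiveRoot.pow_of_coprime`, `IsPrimitiveRoot.pow_inj`). -/
theorem exists_cyc_ring {L : ℕ} (hL : ∀ p k : ℕ, p.Prime → p ^ k ≠ L) (hL0 : L ≠ 0) :
    ∃ (R : Type) (_ : CommRing R) (n : ℕ) (_ : Module.Basis (Fin n) ℤ R) (ζ : Rˣ),
      ζ ^ L = 1 ∧ IsUnit (1 - (ζ : R)) ∧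
      n = ((Finset.range L).filter fun c => c.Coprime L).card ∧
      ∀ (F : Type) [Field F] (η : Fˣ), IsPrimitiveRoot η L →
        ∃ χ : ((Finset.range L).filter fun c => c.Coprime L) → R →+* F,
          Function.Injective χ ∧ ∀ c, Units.map (χ c).toMonoidHom ζ = η ^ (c : ℕ) := by
  have hm := Polynomial.cyclotomic.monic L ℤ
  have hp : AdjoinRoot.root (Polynomial.cyclotomic L ℤ) ^ L = 1 := by
    have := (AdjoinRoot.mk_eq_zero (f := Polynomial.cyclotomic L ℤ)).2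
      (Polynomial.cyclotomic.dvd_X_pow_sub_one L ℤ)
    rwa [map_sub, map_pow, AdjoinRoot.mk_X, map_one, sub_eq_zero] at this
  refine ⟨AdjoinRoot (Polynomial.cyclotomic L ℤ), inferInstance, _,
    (AdjoinRoot.powerBasis' hm).basis, Units.ofPowEqOne _ L hp hL0, Units.pow_ofPowEqOne _ _,
    ?_, ?_, fun F _ η hη => ?_⟩
  · obtain ⟨Q, hQ⟩ := Polynomial.X_sub_C_dvd_sub_C_eval (a := (1 : ℤ))
      (p := Polynomial.cyclotomic L ℤ)
    rw [Polynomial.eval_one_cyclotomic_not_prime_pow fun hp k => hL _ k hp] at hQ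
    have := congrArg (AdjoinRoot.mk (Polynomial.cyclotomic L ℤ)) hQ
    rw [map_sub, AdjoinRoot.mk_self, map_mul, map_sub, AdjoinRoot.mk_X, Polynomial.C_1,
      map_one] at this
    refine IsUnit.of_mul_eq_one (AdjoinRoot.mk _ Q) ?_
    rw [Units.val_ofPowEqOne]
    linear_combination this
  · rw [AdjoinRoot.powerBasis'_dim, Polynomial.natDegree_cyclotomic, Nat.totient_eq_card_coprime]
    exact congrArg _ (Finset.filter_congr fun _ _ => Nat.coprime_comm)
  · have hr : ∀ c : (Finset.range L).filter fun c => c.Coprime L, Polynomial.eval₂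
        (Int.castRingHom F) ((η ^ (c : ℕ) : Fˣ) : F) (Polynomial.cyclotomic L ℤ) = 0 := fun c => by
      rw [← Polynomial.eval_map, Polynomial.map_cyclotomic]
      exact (IsPrimitiveRoot.coe_units_iff.2
        (hη.pow_of_coprime _ (Finset.mem_filter.1 c.2).2)).isRoot_cyclotomic
          (Nat.pos_of_ne_zero hL0)
    have hv : ∀ c, Units.map (AdjoinRoot.lift _ _ (hr c)).toMonoidHom
        (Units.ofPowEqOne _ L hp hL0) = η ^ (c : ℕ) := fun c =>
      Units.ext (AdjoinRoot.lift_root (hr c))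
    refine ⟨fun c => AdjoinRoot.lift _ _ (hr c), fun c c' h => ?_, hv⟩
    have h1 : AdjoinRoot.lift _ _ (hr c) = AdjoinRoot.lift _ _ (hr c') := h
    have h2 := hv c
    rw [h1, hv c'] at h2
    exact Subtype.ext (hη.pow_inj (Finset.mem_range.1 (Finset.mem_filter.1 c.2).1)
      (Finset.mem_range.1 (Finset.mem_filter.1 c'.2).1) h2.symm)

theorem glMap_ext {R S I J : Type} [CommRing R] [CommRing S] [Fintype I] [DecidableEq I]
    [Fintype J] [DecidableEq J] (χ : R →+* S) (f : I ↪ J) (g : GL I R) :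
    glMap J χ (ext f g) = ext f (glMap I χ g) := by
  refine Units.ext (Matrix.ext fun x y => ?_)
  change χ (extM f (g : Matrix I I R) x y) = extM f (glMap I χ g : Matrix I I S) x y
  by_cases hx : ∃ a, x = f a
  · by_cases hy : ∃ a, y = f a
    · obtain ⟨a, rfl⟩ := hx
      obtain ⟨b, rfl⟩ := hy
      rw [extM_apply, extM_apply]
      rfl
    · rw [extM_right f _ x (not_exists.1 hy), extM_right f _ x (not_exists.1 hy)]
      simp [one_apply, apply_ite χ]
  · rw [extM_left f _ (not_exists.1 hx), extM_left f _ (not_exists.1 hx)]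
    simp [one_apply, apply_ite χ]

/-- Sketch: `fill` gives `J, f, u`; `x = pr (fun _ => 1) id (mp (ext f) c) - u`.  After `mp (glMap χ)`
(`mp_pr`, `pr_mp`, `mp_IG`, `VW.map`, `glMap_ext`) apply `tau_fill` and `tau_ext`. -/
theorem exists_class {R I : Type} [CommRing R] [Fintype I] [DecidableEq I] {q : ℕ} (hq : 1 ≤ q)
    {c : Ch ℤ (GL I R)} (hc : c ∈ sp ℤ fun w => VW w ∧ w.length = q) (h0 : bd c = 0) :
    ∃ (J : Type) (_ : Fintype J) (_ : DecidableEq J) (x : Ch ℤ (GL J R)),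
      x ∈ len ℤ _ (q + 1) ∧ Cyc (GL J R) 0 x ∧
      ∀ (F : Type) [Field F] [Fintype F] (N : ℕ), N ∣ Fintype.card F - 1 →
        ∀ (e : AddSys F q N) (χ : R →+* F), lin ℤ (e.e J) (mp (glMap J χ) x) =
          lin ℤ (tau (e.e I)) (mp (fun g => (g, 1)) (mp (glMap I χ) c)) := by
  have hl : c ∈ len ℤ _ q := sp_mono (fun _ h => h.2) hc
  obtain ⟨J, _, _, f, u, h1, h2, h3⟩ := fill q c hl (sp_mono (fun _ h => h.1) hc) h0
  refine ⟨J, _, _, pr (fun _ => 1) id (mp (ext f) c) - u, sub_mem (pr_len _ _ (mp_len _ hl)) h1,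
    ⟨0, ?_⟩, fun F _ _ N hN e χ => ?_⟩
  · have h4 := bd_pr (fun _ => (1 : GL J R)) id (mp (ext f) c)
    rw [bd_mp, h0, map_zero, map_zero, add_zero, mp_id, mp_mp] at h4
    rw [smul_zero, sub_zero, map_sub, h4, ← neg_sub]
    exact neg_mem h3
  · have e1 : mp (glMap J χ) (mp (ext f) c) = mp (ext f) (mp (glMap I χ) c) := by
      rw [mp_mp, mp_mp]
      exact congrArg (fun φ => mp φ c) (funext (glMap_ext χ f))
    have e2 : mp (glMap J χ) (pr (fun _ => 1) id (mp (ext f) c)) =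
        pr (fun _ => 1) id (mp (glMap J χ) (mp (ext f) c)) := by
      rw [mp_pr, pr_mp (fun _ => 1) id (glMap J χ)]
      exact congrArg (fun φ => pr φ _ _) (funext fun _ => map_one _)
    have e3 : mp (glMap J χ) (mp (fun _ => 1) c) =
        mp (fun _ => 1) (mp (glMap J χ) (mp (ext f) c)) := by
      rw [mp_mp, mp_mp, mp_mp]
      exact congrArg (fun φ => mp φ c) (funext fun _ => map_one _)
    have h4 : mp (glMap J χ) _ ∈ IG ℤ _ (GL J F) :=
      mp_IG (glMap J χ) (fun g => ⟨glMap J χ g, map_mul _ g⟩) h3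
    rw [map_sub, map_sub, ← bd_mp, e3] at h4
    have h5 : mp (glMap J χ) u ∈ sp ℤ fun w => VW w ∧ w.length = q + 1 :=
      sp_map (mp (glMap J χ)) _ (fun w hw => by
        rw [mp_wd]
        exact wd_mem ⟨hw.1.map χ, by rw [List.length_map, hw.2]⟩) (mem_sp_and h2 h1)
    have h6 : mp (glMap I χ) c ∈ sp ℤ fun w => Small N w ∧ w.length = q :=
      sp_map (mp (glMap I χ)) _ (fun w hw => by
        rw [mp_wd]
        exact wd_mem ⟨small_of_vw hN (hw.1.map χ), by rw [List.length_map, hw.2]⟩) hc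
    rw [map_sub (mp (A := ℤ) (glMap J χ)), e2,
      tau_fill hN hq (e.inv J) (e.coc J) (e.nrm J) h5 h4, e1, mp_mp]
    exact tau_ext e hq f h6 (by rw [bd_mp, h0, map_zero])

theorem sum_coprime_split {A : Type} [AddCommMonoid A] {L : ℕ} (hL : L ≠ 0) (N : ℕ) (f : ℕ → A) :
    ∑ c ∈ (Finset.range (L * N)).filter (fun c => c.Coprime L), f c =
      ∑ c ∈ (Finset.range L).filter (fun c => c.Coprime L), ∑ r ∈ Finset.range N, f (c + L * r) := by
  induction N with
  | zero => simp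
  | succ N ih =>
    simp only [Finset.sum_range_succ, Finset.sum_add_distrib, ← ih]
    simp only [Finset.sum_filter]
    rw [Nat.mul_succ, Finset.sum_range_add]
    simp only [add_comm (L * N)]
    simp

/-- Sketch: `R, b, ζ` from `exists_cyc_ring`, `x` from `exists_class` for `cZ ζ L j`,
`X = mp (res b J) x`, `c₁ = c`, `c₂ = c ε (2 j + 2)!` with `c, ε` from `conf_main`.  Given `F, N, ξ` put
`η = ξ ^ N`.  `add_res`, `mp_cZ`, `avg_kF`, `conf_main` (`kF_shift`, `kF_cob`), `kF_zM`, `rot_val`,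
`sum_coprime_split`.  The image of `ζ` is not `1` because `1 - ζ` is a unit. -/
theorem torsion {L j : ℕ} (hL : ∀ p k : ℕ, p.Prime → p ^ k ≠ L) (hL0 : L ≠ 0) (hj : 1 ≤ j) :
    Torsion L j := by
  obtain ⟨R, _, n, b, ζ, hζ, h1, hn, hχ⟩ := exists_cyc_ring hL hL0
  obtain ⟨J, _, _, x, hx, hc, hv⟩ := exists_class (by omega) (cZ_mem h1 L j) (bd_cZ hL0 hζ hj)
  obtain ⟨c, ε, hc0, hε, hm⟩ := conf_main hL0 hj
  refine ⟨J × Fin n, _, _, mp (res b J) x, c, c * ε * ((2 * j + 2).factorial : ℕ), mp_len _ hx,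
    goal_aux hc _, hc0,
    mul_ne_zero (mul_ne_zero hc0 hε) (Nat.cast_ne_zero.2 (Nat.factorial_ne_zero _)),
    fun F _ _ _ Λ N hN h2 ξ hξ => ?_⟩
  have : NeZero N := ⟨by omega⟩
  have hη : IsPrimitiveRoot (ξ ^ N) L :=
    hξ.pow (Nat.mul_pos (Nat.pos_of_ne_zero hL0) (by omega)) (mul_comm _ _)
  obtain ⟨χ, hi, hχ⟩ := hχ F _ hη
  obtain ⟨c₀, hc₀, hr⟩ := rot_val Λ hN h2 hL0 hj hξ
  refine ⟨c₀, hc₀, ?_⟩
  rw [AddSys.val, (sysF Λ hN j).add_res b χ hi (by rw [Fintype.card_coe, Fintype.card_fin, hn]) hx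
    (hc.weak (dvd_zero N)), sum_coprime_split hL0,
    ← Finset.sum_coe_sort ((Finset.range L).filter fun c => c.Coprime L), Finset.smul_sum,
    Finset.smul_sum]
  refine Finset.sum_congr rfl fun k _ => ?_
  have e1 : Units.map (χ k).toMonoidHom ζ = ξ ^ (N * k) := by rw [hχ, pow_mul]
  have e2 : (ξ ^ (N * k)) ^ L = 1 := by rw [← e1, ← map_pow, hζ, map_one]
  have e3 : ξ ^ (N * k) ≠ 1 := fun h => (h1.map (χ k)).ne_zero (by
    have h3 : χ k ζ = 1 := congrArg Units.val (e1.trans h)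
    rw [map_sub, map_one, h3, sub_self])
  obtain ⟨h4, h5⟩ := hr k e3
  rw [hv F N hN, mp_cZ h1, e1, ← avg_kF, hm N h2 _ (kF_shift _ e2) fun a ha => kF_cob _ hN e3 ha,
    kF_zM _ hN hL0 hj e2 e3 h4, h5, smul_smul]

end

end Pool.Agent.Lib.MP_446a91_nt.Sou
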