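import Mathlib

/-! The module argument: universal norms are divisible by all powers of the twisted operator. -/

namespace Pool.Agent.Lib.MP_446a91_nt.Sou

open Finset

variable {A V : Type} [CommRing A] [AddCommGroup V] [Module A V] {l : ℕ} [Fact l.Prime]

/-- Elements that become multiples of `y` in `M` after localisation at the kernel of `ψ`. -/
def locD (ψ : A →+* ZMod l) (M : Submodule A V) (y : A) : Submodule A V where
  carrier := {v | ∃ a, ψ a ≠ 0 ∧ ∃ w ∈ M, a • v = y • w}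
  zero_mem' := ⟨1, by simp, 0, zero_mem _, by simp⟩
  add_mem' := by
    rintro v v' ⟨a, ha, w, hw, e⟩ ⟨a', ha', w', hw', e'⟩
    refine ⟨a * a', by simp [ha, ha'], a' • w + a • w',
      add_mem (M.smul_mem _ hw) (M.smul_mem _ hw'), ?_⟩
    rw [smul_add, smul_add, smul_comm y, smul_comm y, ← e, ← e', ← mul_smul, ← mul_smul,
      mul_comm a' a]
  smul_mem' := by
    rintro b v ⟨a, ha, w, hw, e⟩
    exact ⟨a, ha, b • w, M.smul_mem _ hw, by rw [smul_comm a, e, smul_comm]⟩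

theorem geom_mul (y : A) (a b : ℕ) :
    ∑ i ∈ range (a * b), y ^ i = (∑ i ∈ range a, y ^ i) * ∑ t ∈ range b, (y ^ a) ^ t := by
  induction b with
  | zero => simp
  | succ b ih =>
    rw [mul_add, mul_one, sum_range_add, ih, sum_range_succ, mul_add]
    congr 1
    rw [sum_mul]
    exact sum_congr rfl fun i _ => by rw [pow_add, pow_mul, mul_comm]

theorem norm_mem (s : A) (ρ : ℤ) (hρ : ¬ (l : ℤ) ∣ ρ) (n : ℕ) :
    ∑ i ∈ range (l ^ n), s ^ ((l - 1) * i) ∈
      (Ideal.span {(l : A)} ⊔ Ideal.span {ρ * s - 1}) ^ n := by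
  set m := Ideal.span {(l : A)} ⊔ Ideal.span {ρ * s - 1}
  have h1 : Ideal.Quotient.mk m (l : A) = 0 :=
    Ideal.Quotient.eq_zero_iff_mem.2 (Ideal.mem_sup_left (Ideal.mem_span_singleton_self _))
  have h2 : (ρ : A ⧸ m) * Ideal.Quotient.mk m s = 1 := by
    have : Ideal.Quotient.mk m (ρ * s - 1) = 0 :=
      Ideal.Quotient.eq_zero_iff_mem.2 (Ideal.mem_sup_right (Ideal.mem_span_singleton_self _))
    simpa [sub_eq_zero] using this
  have h3 : (ρ : A ⧸ m) ^ (l - 1) = 1 := by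
    have h4 : ((ρ ^ (l - 1) - 1 : ℤ) : ZMod l) = 0 := by
      push_cast
      rw [ZMod.pow_card_sub_one_eq_one (by rwa [Ne, ZMod.intCast_zmod_eq_zero_iff_dvd]), sub_self]
    obtain ⟨k, hk⟩ := (ZMod.intCast_zmod_eq_zero_iff_dvd _ _).1 h4
    have := congrArg (Int.cast : ℤ → A ⧸ m) hk
    push_cast at this
    rw [map_natCast] at h1
    rwa [h1, zero_mul, sub_eq_zero] at this
  have h5 : Ideal.Quotient.mk m (s ^ (l - 1)) = 1 := by
    have := congrArg (· ^ (l - 1)) h2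
    simpa [mul_pow, h3] using this
  simp only [pow_mul]
  induction n with
  | zero => simp
  | succ n ih =>
    rw [pow_succ l, geom_mul, pow_succ m]
    refine Ideal.mul_mem_mul ih (Ideal.Quotient.eq_zero_iff_mem.1 ?_)
    rw [map_natCast] at h1
    simp [map_sum, map_pow (Ideal.Quotient.mk m) (s ^ (l - 1)), h5, h1, -map_pow,
      map_pow (Ideal.Quotient.mk m) ((s ^ (l - 1)) ^ l ^ n)]

theorem nakayama (ψ : A →+* ZMod l) {x : A} (hx : ψ x = 0) {N : Submodule A V} (hfg : N.FG)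
    (h : N ≤ locD ψ N x) {u : V} (hu : u ∈ N) : ∃ a, ψ a ≠ 0 ∧ a • u = 0 := by
  classical
  have h1 : ∃ a, ψ a ≠ 0 ∧ ∀ v ∈ N, ∃ w ∈ N, a • v = x • w := by
    obtain ⟨T, hT⟩ := hfg
    have hm : ∀ t ∈ T, t ∈ N := fun t ht => hT ▸ Submodule.subset_span ht
    choose! a ha w hw e using fun t ht => h (hm t ht)
    refine ⟨∏ t ∈ T, a t, by rw [map_prod]; exact prod_ne_zero_iff.2 ha, fun v hv => ?_⟩
    rw [← hT] at hv
    induction hv using Submodule.span_induction with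
    | mem t ht =>
      refine ⟨(∏ t' ∈ T.erase t, a t') • w t, N.smul_mem _ (hw t ht), ?_⟩
      rw [← prod_erase_mul T a ht, mul_smul, e t ht, smul_comm]
    | zero => exact ⟨0, zero_mem _, by simp⟩
    | add v v' _ _ h1 h2 =>
      obtain ⟨w, hw, e⟩ := h1
      obtain ⟨w', hw', e'⟩ := h2
      exact ⟨w + w', add_mem hw hw', by rw [smul_add, smul_add, e, e']⟩
    | smul b v _ h1 =>
      obtain ⟨w, hw, e⟩ := h1
      exact ⟨b • w, N.smul_mem _ hw, by rw [smul_comm, e, smul_comm]⟩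
  obtain ⟨a, ha, h1⟩ := h1
  have : Module.Finite A N := Module.Finite.iff_fg.2 hfg
  obtain ⟨p, hp, -, hc, h0⟩ :=
    LinearMap.exists_monic_and_natDegree_eq_and_coeff_mem_pow_and_aeval_eq_zero A
      (algebraMap A (Module.End A N) a) (RingHom.ker ψ) (by
        rintro _ ⟨v, rfl⟩
        obtain ⟨w, hw, e⟩ := h1 v v.2
        have : algebraMap A (Module.End A N) a v = x • (⟨w, hw⟩ : N) := Subtype.ext e
        rw [this]
        exact Submodule.smul_mem_smul hx trivial)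
  refine ⟨p.eval a, ?_, ?_⟩
  · rw [Polynomial.eval_eq_sum_range, map_sum, sum_range_succ, sum_eq_zero, zero_add,
      hp.coeff_natDegree, one_mul, map_pow]
    · exact pow_ne_zero _ ha
    · intro i hi
      have := Ideal.pow_le_self (by have := mem_range.1 hi; omega) (hc i)
      rw [map_mul, (RingHom.mem_ker).1 this, zero_mul]
  · rw [Polynomial.aeval_algebraMap_apply, Polynomial.coe_aeval_eq_eval] at h0
    exact congrArg Subtype.val (LinearMap.congr_fun h0 ⟨u, hu⟩)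

theorem alg [IsNoetherianRing A] (htf : ∀ (k : ℤ) (v : V), k ≠ 0 → (k : A) • v = 0 → v = 0)
    (h2 : l ≠ 2) (s : A) (ρ : ℤ) (ψ : A →+* ZMod l) (hψ : ψ (ρ * s - 1) = 0)
    (M : ℕ → Submodule A V) (ha : ∀ n, ∀ u ∈ M n, s ^ ((l - 1) * l ^ n) • u = u)
    (hb : ∀ n, ∀ w ∈ M n, s ^ (l - 1) • w = w → (2 : A) • w ∈ M 0) {e : ℕ}
    (hc : ∀ n, ∀ u ∈ M n, ∃ w ∈ M n, (2 * (l : A) ^ e) •
      (∑ k ∈ range ((l - 1) * l ^ n), (ρ * s) ^ k) • u = (l : A) ^ (n + 1) • w) {v : ℕ}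
    (hd : ∀ n, ∃ t : ℤ, ¬ (l : ℤ) ∣ t ∧ ρ ^ ((l - 1) * l ^ n) - 1 = (l : ℤ) ^ (n + 1 + v) * t)
    (hfg : (M 0).FG) {u₀ : V} (h0 : u₀ ∈ M 0)
    (hu : ∀ n, ∃ u ∈ M n, (∑ i ∈ range (l ^ n), s ^ ((l - 1) * i)) • u = u₀) :
    ∃ a, ψ a ≠ 0 ∧ a • u₀ = 0 := by
  have hl : l.Prime := Fact.out
  have hl0 : (l : ℤ) ≠ 0 := by exact_mod_cast hl.ne_zero
  have hρ : ¬ (l : ℤ) ∣ ρ := fun h => by
    rw [map_sub, map_mul, map_intCast, (ZMod.intCast_zmod_eq_zero_iff_dvd _ _).2 h] at hψ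
    simp at hψ
  have hψ2 : ψ 2 ≠ 0 := by
    rw [map_ofNat]
    intro h
    exact h2 ((Nat.prime_dvd_prime_iff_eq hl Nat.prime_two).1
      ((ZMod.natCast_eq_zero_iff 2 l).1 (by exact_mod_cast h)))
  set x : A := ρ * s - 1 with hx
  have hθ : ∀ n, ∀ u ∈ M n, x • (∑ k ∈ range ((l - 1) * l ^ n), (ρ * s) ^ k) • u =
      ((ρ ^ ((l - 1) * l ^ n) - 1 : ℤ) : A) • u := fun n u hu => by
    rw [← mul_smul, hx, mul_geom_sum, mul_pow, sub_smul, mul_smul, ha n u hu]
    push_cast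
    rw [sub_smul]
  have hinj : ∀ n r, ∀ u ∈ M n, x ^ r • u = 0 → u = 0 := by
    intro n r
    induction r with
    | zero => simp
    | succ r ih =>
      intro u hu h
      rw [pow_succ, mul_smul] at h
      have h1 := ih _ ((M n).smul_mem _ hu) h
      obtain ⟨t, ht, e⟩ := hd n
      refine htf (ρ ^ ((l - 1) * l ^ n) - 1) u ?_ ?_
      · rw [e]
        exact mul_ne_zero (pow_ne_zero _ hl0) (by rintro rfl; simp at ht)
      · rw [← hθ n u hu, smul_comm, h1, smul_zero]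
  have H1 : ∀ n, ∀ u ∈ M n, (l : A) ^ (e + v) • u ∈ locD ψ (M n) x := by
    intro n u hu
    obtain ⟨w, hw, e1⟩ := hc n u hu
    obtain ⟨t, ht, e2⟩ := hd n
    refine ⟨2 * t, ?_, w, hw, ?_⟩
    · rw [map_mul, map_intCast]
      exact mul_ne_zero hψ2 (by rwa [Ne, ZMod.intCast_zmod_eq_zero_iff_dvd])
    · rw [← sub_eq_zero]
      refine htf ((l : ℤ) ^ (n + 1)) _ (pow_ne_zero _ hl0) ?_
      have e3 := congrArg (x • ·) e1
      rw [smul_comm x, hθ n u hu, e2, smul_comm x] at e3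
      push_cast at e3 ⊢
      rw [smul_sub, ← e3, sub_eq_zero]
      simp only [← mul_smul]
      congr 1
      ring
  set m := Ideal.span {(l : A)} ⊔ Ideal.span {x}
  have HA : ∀ n, ∀ P ∈ m ^ (e + v + 1), ∀ u ∈ M n, P • u ∈ locD ψ (M n) x := by
    intro n P hP u hu
    obtain ⟨P₁, h₁, P₂, h₂, rfl⟩ := Submodule.mem_sup.1 (Ideal.sup_pow_add_le_pow_sup_pow hP)
    rw [Ideal.span_singleton_pow, Ideal.mem_span_singleton'] at h₁ h₂
    obtain ⟨b₁, rfl⟩ := h₁
    obtain ⟨b₂, rfl⟩ := h₂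
    rw [add_smul, mul_smul]
    refine add_mem (Submodule.smul_mem _ _ (H1 n u hu)) ⟨1, by simp, b₂ • u,
      (M n).smul_mem _ hu, ?_⟩
    rw [one_smul, pow_one, mul_comm, mul_smul]
  have HB : ∀ n r, ∀ P ∈ (m ^ (e + v + 1)) ^ r, ∀ u ∈ M n, P • u ∈ locD ψ (M n) (x ^ r) := by
    intro n r
    induction r with
    | zero => exact fun P _ u hu => ⟨1, by simp, P • u, (M n).smul_mem _ hu, by simp⟩
    | succ r ih =>
      intro P hP u hu
      rw [pow_succ] at hP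
      induction hP using Submodule.mul_induction_on' with
      | mem_mul_mem P₁ h₁ P₂ h₂ =>
        obtain ⟨a, ha, w, hw, e1⟩ := HA n P₂ h₂ u hu
        obtain ⟨a', ha', w', hw', e2⟩ := ih P₁ h₁ w hw
        refine ⟨a' * a, by simp [ha, ha'], w', hw', ?_⟩
        rw [mul_smul, mul_smul, smul_comm a, e1, smul_comm P₁, smul_comm a', e2, pow_succ',
          mul_smul]
      | add P _ P' _ h h' => rw [add_smul]; exact add_mem h h'
  have HC : ∀ r, u₀ ∈ locD ψ (M 0) (x ^ r) := by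
    intro r
    obtain ⟨u, hu, e1⟩ := hu ((e + v + 1) * r)
    have h1 := norm_mem s ρ hρ ((e + v + 1) * r)
    rw [pow_mul] at h1
    obtain ⟨a, ha', w, hw, e2⟩ := HB _ r _ h1 u hu
    have h3 : s ^ (l - 1) • w = w := by
      rw [← sub_eq_zero]
      refine hinj _ r _ (sub_mem ((M _).smul_mem _ hw) hw) ?_
      have h4 : (s ^ (l - 1) - 1) • (∑ i ∈ range (l ^ ((e + v + 1) * r)), s ^ ((l - 1) * i)) • u =
          0 := by
        simp only [pow_mul s]
        rw [← mul_smul, mul_geom_sum, ← pow_mul s, sub_smul, ha _ u hu, one_smul, sub_self]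
      rw [smul_sub, smul_comm, ← e2, smul_comm, ← smul_sub]
      rw [sub_smul, one_smul] at h4
      rw [h4, smul_zero]
    refine ⟨2 * a, by simp [ha', hψ2], (2 : A) • w, hb _ w hw h3, ?_⟩
    rw [mul_smul, ← e1, e2, smul_comm]
  let N : Submodule A V := M 0 ⊓ ⨅ r, locD ψ (M 0) (x ^ r)
  have hN : N.FG := by
    have := isNoetherian_of_fg_of_noetherian _ hfg
    exact isNoetherian_submodule.1 this N inf_le_left
  refine nakayama ψ hψ hN (fun y hy => ?_) ⟨h0, (Submodule.mem_iInf _).2 HC⟩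
  have hy' := (Submodule.mem_iInf _).1 hy.2
  obtain ⟨a, ha', w, hw, e1⟩ := hy' 1
  rw [pow_one] at e1
  refine ⟨a, ha', w, ⟨hw, (Submodule.mem_iInf _).2 fun r => ?_⟩, e1⟩
  obtain ⟨a', ha'', w', hw', e2⟩ := hy' (r + 1)
  refine ⟨a', ha'', a • w', (M 0).smul_mem _ hw', ?_⟩
  rw [← sub_eq_zero]
  refine hinj 0 1 _ (sub_mem ((M 0).smul_mem _ hw) ((M 0).smul_mem _ ((M 0).smul_mem _ hw'))) ?_
  rw [pow_one, smul_sub, smul_comm x, ← e1, smul_comm a', e2, ← mul_smul x, ← pow_succ',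
    smul_comm, sub_self]

end Pool.Agent.Lib.MP_446a91_nt.Sou
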