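import Pool.Agent.Lib.MP_446a91_nt.Sou.NKey

/-! If the Soule elements vanish then all twisted norms of units are almost powers. -/

namespace Pool.Agent.Lib.MP_446a91_nt.Sou

open IntermediateField

theorem nbdd_twN {c S : GQ} {ζ : Qb} {k : ℕ} (hk : k ≠ 0) (h : ζ ^ k = 1) (g j φ : ℕ) {u : Qbˣ}
    (hu : u ∈ RU c ζ) : ∃ Θ ∈ RU c ζ, (Θ : Qb) = twN S g j φ u :=
  ⟨∏ i ∈ Finset.range φ, Units.map ((S ^ i : GQ) : Qb →* Qb) u ^ g ^ (i * j),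
    Subgroup.prod_mem _ fun i _ => pow_mem (RU_aut hk h (S ^ i) hu) _, by simp [twN]⟩

theorem nbdd_root {c : GQ} {ι : Qb →+* ℂ} (hc : IsCC c ι) {Z : Set Qb}
    (hZ : ∀ ζ ∈ Z, ∃ k ≠ 0, ζ ^ k = 1) {ζ w : Qb} (hw : FixBy Z w) {E : ℕ} (hE : E ≠ 0) {Θ : Qbˣ}
    (hΘ : Θ ∈ RU c ζ) (h : w ^ E = Θ) : ∃ β ∈ RU c ζ, β ^ E = Θ ^ 2 := by
  have h1 : (w * c w) ^ E = (Θ : Qb) ^ 2 := by
    rw [mul_pow, ← map_pow, h, hΘ.2.2, sq]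
  have h2 : w * c w ≠ 0 := fun h0 => by
    rw [h0, zero_pow hE] at h1
    exact pow_ne_zero 2 Θ.ne_zero h1.symm
  have h3 : w * c w ∈ ℚ⟮ζ⟯ := mem_adjoin_iff.2 fun γ hγ =>
    hw.fix_mul hc hZ hE (by rw [h]; exact mem_adjoin_iff.1 hΘ.1.1 γ hγ)
  refine ⟨Units.mk0 _ h2, ⟨mem_OK.2 ⟨h3, ?_⟩, mem_OK.2 ⟨?_, ?_⟩, ?_⟩, Units.ext (by simpa using h1)⟩
  · refine IsIntegral.of_pow (Nat.pos_of_ne_zero hE) ?_
    rw [Units.val_mk0, h1]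
    exact IsIntegral.pow hΘ.1.2 2
  · rw [Units.val_inv_eq_inv_val, Units.val_mk0]
    exact inv_mem h3
  · refine IsIntegral.of_pow (Nat.pos_of_ne_zero hE) ?_
    rw [Units.val_inv_eq_inv_val, Units.val_mk0, inv_pow, h1, ← inv_pow,
      ← Units.val_inv_eq_inv_val]
    exact IsIntegral.pow hΘ.2.1.2 2
  · rw [Units.val_mk0, map_mul, hc.invol, mul_comm]

theorem nbdd_cancel {l e n : ℕ} (hl : l.Prime) {a a' b d : ℤ} (hd : ¬ (l : ℤ) ∣ d)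
    (h : a * a' = (l : ℤ) ^ e * d) {x y t c₀ : ZMod (l ^ n)} (h1 : a • y = b • x)
    (h2 : a' • x = 0) (h3 : IsUnit c₀) (h4 : y = c₀ * t) : (l : ZMod (l ^ n)) ^ e * t = 0 := by
  have h5 : IsUnit ((d : ℤ) : ZMod (l ^ n)) := by
    rw [ZMod.coe_int_isUnit_iff_isCoprime, Nat.cast_pow]
    exact ((Nat.prime_iff_prime_int.1 hl).coprime_iff_not_dvd.2 hd).pow_left
  have h6 : (a * a') • y = 0 := by
    rw [mul_comm, mul_smul, h1, smul_comm, h2, smul_zero]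
  rw [h, h4, zsmul_eq_mul, Int.cast_mul, Int.cast_pow, Int.cast_natCast] at h6
  refine (h5.mul h3).mul_right_eq_zero.1 ?_
  rw [← h6]
  ring

/-- Sketch: write `c * c₁ = l ^ e * d` with `l ∤ d` (`FiniteMultiplicity.exists_eq_pow_mul_and_not_dvd`
or `Nat.exists_eq_pow_mul_and_not_dvd` for `natAbs`).  Fix `n`, `u`; `ζ = z (n + 1)`,
`Θ = twN .. u` is a real unit (`RU_aut`).  If `n + 1 ≤ e` take `β` a power of `Θ`.  Otherwise let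
`K = adjoin ℚ {z (n + 2), ω, ρ}` (`ω` a primitive cube root, `ρ` from `hno (n + 2)`), finite over `ℚ`;
apply `hb` to `unitCyc b ζ' u' (l ^ (n + 1)) j` (`exists_OK_basis`, `unitCyc_len`, `unitCyc_cyc`); for
`q > r + 3 l`, `χ`, `Λ` take `e = (sysF Λ hN j).comap χr` (`prim_map`, `prim_dvd`, `exists_red`,
`val_comap`): `val_tors`, `val_unit` give `l ^ e * y (χ Θ) = 0`.  `det_pow` gives `w ∈ K` with
`w ^ l ^ (n + 1 - e) = Θ`.  Every element of `K` is `FixBy (insert ω (Set.range z))`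
(`mem_adjoin_iff`).  `β = w * c w` lies in `ℚ⟮ζ⟯` (`FixBy.fix_mul`, `mem_adjoin_iff`), is fixed by `c`
(`IsCC.invol`), and `β ^ l ^ (n + 1 - e) = Θ ^ 2`, so `β` and `β⁻¹` are integral. -/
theorem bdd {l g j r : ℕ} (hl : l.Prime) (h3 : l ≠ 3) {z : ℕ → Qb} (hz : Gal.IsRoots l z)
    {c S : GQ} {ι : Qb →+* ℂ} (hc : IsCC c ι) (hg : IsGen l g) (hS : ∀ n, S (z n) = z n ^ g)
    (hj : 1 ≤ j) (hr : r ≠ 0) {I : Type} [Fintype I] [DecidableEq I] {X : Ch ℤ (GL I ℤ)}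
    {c₁ c₂ : ℤ} (h₁ : c₁ ≠ 0) (hX : TorsAt (3 * l) j X c₁ c₂)
    (hb : ∃ c : ℤ, c ≠ 0 ∧ ∀ (N : ℕ), N ≠ 0 → ∀ (J : Type) [Fintype J] [DecidableEq J]
      (y : Ch ℤ (GL J ℤ)), y ∈ len ℤ _ (2 * j + 1 + 1) → Cyc (GL J ℤ) N y →
      ∃ a : ℤ, ∀ e : AddSys (Zr r) (2 * j + 1) N, c • e.val y = a • e.val X)
    (hno : ∀ n, ∃ ρ : Qb, ρ ^ l ^ n = eps l n j (z n) ∧ ∀ σ ∈ Gal.HH z, σ ρ = ρ) :
    Bdd l z c S g j := by
  obtain ⟨c0, hc0, hb⟩ := hb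
  obtain ⟨e, d0, hd0, hcd⟩ := Nat.exists_eq_pow_mul_and_not_dvd
    (Int.natAbs_ne_zero.2 (mul_ne_zero hc0 h₁)) l hl.ne_one
  obtain ⟨d, hd, hcd'⟩ : ∃ d : ℤ, ¬ (l : ℤ) ∣ d ∧ c0 * c₁ = (l : ℤ) ^ e * d := by
    have h1 : ¬ (l : ℤ) ∣ (d0 : ℤ) := fun h => hd0 (Int.natCast_dvd_natCast.1 h)
    rcases Int.natAbs_eq (c0 * c₁) with h | h
    · exact ⟨d0, h1, by rw [h, hcd]; push_cast; ring⟩
    · exact ⟨-d0, fun h' => h1 (dvd_neg.1 h'), by rw [h, hcd]; push_cast; ring⟩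
  refine ⟨e, fun n u hu => ?_⟩
  have hM : l ^ (n + 1) ≠ 0 := pow_ne_zero _ hl.ne_zero
  have hζ := hz.prim (n + 1)
  obtain ⟨Θ, hΘ, hΘ'⟩ := nbdd_twN (S := S) hM hζ.pow_eq_one g j ((l - 1) * l ^ n) hu
  obtain ⟨ω, hω⟩ := HasEnoughRootsOfUnity.exists_primitiveRoot Qb 3
  obtain ⟨ρ, hρ, hρ'⟩ := hno (n + 2)
  obtain ⟨K, hK⟩ : ∃ K : IntermediateField ℚ Qb, K = adjoin ℚ {z (n + 2), ω, ρ} := ⟨_, rfl⟩
  have : FiniteDimensional ℚ K :=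
    hK ▸ finiteDimensional_adjoin fun x _ =>
      ((AlgebraicClosure.isAlgebraic ℚ).isAlgebraic x).isIntegral
  have m1 : z (n + 2) ∈ K := hK ▸ subset_adjoin ℚ _ (by simp)
  have m2 : ω ∈ K := hK ▸ subset_adjoin ℚ _ (by simp)
  have m3 : ρ ∈ K := hK ▸ subset_adjoin ℚ _ (by simp)
  have m4 : z (n + 1) ∈ K := hz.step (n + 1) ▸ pow_mem m1 l
  have hle : ℚ⟮z (n + 1)⟯ ≤ K := adjoin_simple_le_iff.2 m4
  have hint : IsIntegral ℤ (z (n + 1)) := hζ.isIntegral (Nat.pos_of_ne_zero hM)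
  obtain ⟨b⟩ := exists_OK_basis hM hζ
  let ζ' : (OK ℚ⟮z (n + 1)⟯)ˣ := Units.ofPowEqOne ⟨z (n + 1), mem_adjoin_simple_self ℚ _, hint⟩
    (l ^ (n + 1)) (Subtype.ext hζ.pow_eq_one) hM
  have hζ' : ζ' ^ l ^ (n + 1) = 1 := Units.ext (Subtype.ext hζ.pow_eq_one)
  let u' : (OK ℚ⟮z (n + 1)⟯)ˣ := ⟨⟨u, hu.1⟩, ⟨(u⁻¹ : Qbˣ), hu.2.1⟩, Subtype.ext u.mul_inv,
    Subtype.ext u.inv_mul⟩
  obtain ⟨a, ha⟩ := hb _ hM _ _ (unitCyc_len b u' ζ' (l ^ (n + 1)) j) (unitCyc_cyc b u' hζ' hj)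
  obtain ⟨w, hw, hw'⟩ := det_pow K (c := e) (B := r + 3 * l + 1) hl hζ m4
    ⟨Θ, hle hΘ.1.1, hΘ.1.2⟩ fun q _ hq χ Λ => by
      have hp : IsPrimitiveRoot (⟨z (n + 1), m4, hint⟩ : OK K) (l ^ (n + 1)) :=
        IsPrimitiveRoot.of_map_of_injective (f := (OK K).subtype) hζ Subtype.val_injective
      have hq0 : ((l ^ (n + 1) : ℕ) : ZMod q) ≠ 0 := fun h0 => by
        have h5 := Nat.le_of_dvd hl.pos
          ((Fact.out : q.Prime).dvd_of_dvd_pow ((ZMod.natCast_eq_zero_iff _ _).1 h0))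
        omega
      have hN := prim_dvd (prim_map χ hp hq0) hM
      obtain ⟨χr⟩ := exists_red (q := q) hr (by omega)
      have h5 := ha ((sysF Λ hN j).comap χr)
      rw [AddSys.val_comap, AddSys.val_comap] at h5
      have hl0 := hl.pos
      obtain ⟨c₀, h6, h7⟩ := val_unit hl hg hj hζ (hS (n + 1)) K m4 b ζ' u' rfl
        ⟨Θ, hle hΘ.1.1, hΘ.1.2⟩ hΘ' (by omega) χ Λ hN
      exact nbdd_cancel hl hd hcd' h5
        (val_tors hl h3 hX K (hz.prim (n + 2)) hω m1 m2 m3 hρ (by omega) χ Λ hN) h6 h7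
  have hZ : ∀ ζ ∈ insert ω (Set.range z), ∃ k ≠ 0, ζ ^ k = 1 := by
    rintro _ (rfl | ⟨m, rfl⟩)
    · exact ⟨3, by norm_num, hω.pow_eq_one⟩
    · exact ⟨l ^ m, pow_ne_zero _ hl.ne_zero, (hz.prim m).pow_eq_one⟩
  have hF : FixBy (insert ω (Set.range z)) w := fun σ hσ => by
    refine mem_adjoin_iff.1 (hK ▸ hw) σ ?_
    rintro _ (rfl | rfl | rfl)
    · exact hσ _ (Or.inr ⟨_, rfl⟩)
    · exact hσ _ (Or.inl rfl)
    · exact hρ' σ fun m => hσ _ (Or.inr ⟨m, rfl⟩)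
  obtain ⟨β, hβ, hβ'⟩ := nbdd_root hc hZ hF (pow_ne_zero _ hl.ne_zero) hΘ hw'
  refine ⟨β ^ l ^ (e - (n + 1)), pow_mem hβ _, ?_⟩
  rw [← hΘ', ← Units.val_pow_eq_pow_val, ← Units.val_pow_eq_pow_val, pow_mul, ← hβ', ← pow_mul,
    ← pow_mul, ← pow_add, ← pow_add, show n + 1 - e + e = e - (n + 1) + (n + 1) by omega]

end Pool.Agent.Lib.MP_446a91_nt.Sou
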