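import Pool.Agent.Lib.MP_446a91_nt.Gal.IDefs
import Pool.Agent.Lib.MP_446a91_nt.Sou.Goal

/-! Definitions for the arithmetic part of the nonvanishing of the Soule elements. -/

namespace Pool.Agent.Lib.MP_446a91_nt.Sou

open IntermediateField

noncomputable section

/-- The cyclotomic element of level `p ^ n` and weight `j + 1`. -/
def eps {R : Type} [CommRing R] (p n j : ℕ) (ζ : R) : R :=
  ∏ a ∈ (Finset.range (p ^ n)).filter (fun a => ¬ p ∣ a), (1 - ζ ^ a) ^ a ^ j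

/-- The integers of a subfield of `ℚ̄`. -/
def OK (K : IntermediateField ℚ Qb) : Subring Qb :=
  K.toSubfield.toSubring ⊓ (integralClosure ℤ Qb).toSubring

theorem mem_OK {K : IntermediateField ℚ Qb} {x : Qb} : x ∈ OK K ↔ x ∈ K ∧ IsIntegral ℤ x :=
  Iff.rfl

/-- `c` is the complex conjugation for the embedding `ι`. -/
def IsCC (c : GQ) (ι : Qb →+* ℂ) : Prop := ∀ x, ι (c x) = starRingEnd ℂ (ι x)

/-- `g` generates the units modulo all powers of `l`. -/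
structure IsGen (l g : ℕ) : Prop where
  cop : g.Coprime l
  ord : ∀ n, orderOf (g : ZMod (l ^ (n + 1))) = (l - 1) * l ^ n

/-- The real units of `ℚ(ζ)`. -/
def RU (c : GQ) (ζ : Qb) : Subgroup Qbˣ where
  carrier := {u | (u : Qb) ∈ OK ℚ⟮ζ⟯ ∧ ((u⁻¹ : Qbˣ) : Qb) ∈ OK ℚ⟮ζ⟯ ∧ c u = u}
  one_mem' := ⟨one_mem _, by simp, by simp⟩
  mul_mem' := fun {a b} ha hb => ⟨mul_mem ha.1 hb.1, by
    rw [mul_inv, Units.val_mul]; exact mul_mem ha.2.1 hb.2.1, by simp [ha.2.2, hb.2.2]⟩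
  inv_mem' := fun {a} ha => ⟨ha.2.1, by simpa using ha.1, by simp [ha.2.2]⟩

/-- The twisted norm. -/
def twN (S : GQ) (g j φ : ℕ) (u : Qb) : Qb := ∏ k ∈ Finset.range φ, ((S ^ k) u) ^ g ^ (k * j)

/-- `w` is fixed by every automorphism that fixes `Z` pointwise. -/
def FixBy (Z : Set Qb) (w : Qb) : Prop := ∀ σ : GQ, (∀ ζ ∈ Z, σ ζ = ζ) → σ w = w

/-- The formula for the torsion class. -/
def TorsAt (L j : ℕ) {I : Type} [Fintype I] [DecidableEq I] (X : Ch ℤ (GL I ℤ)) (c₁ c₂ : ℤ) :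
    Prop :=
  ∀ (F : Type) [Field F] [Fintype F] [DecidableEq F] (Λ : Lg F) (N : ℕ)
    (hN : N ∣ Fintype.card F - 1), 2 ≤ N → ∀ ξ : Fˣ, IsPrimitiveRoot ξ (L * N) →
    ∃ c₀ : ZMod N, IsUnit c₀ ∧ c₁ • (sysF Λ hN j).val X =
      c₂ • ∑ c ∈ (Finset.range (L * N)).filter (fun c => c.Coprime L),
        Λ.y N (1 - (ξ : F) ^ c) * (c₀ * c) ^ j

/-- All twisted norms of real units are `l ^ n`-th powers up to a bounded exponent. -/
def Bdd (l : ℕ) (z : ℕ → Qb) (c S : GQ) (g j : ℕ) : Prop :=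
  ∃ e : ℕ, ∀ n, ∀ u ∈ RU c (z (n + 1)), ∃ β ∈ RU c (z (n + 1)),
    twN S g j ((l - 1) * l ^ n) u ^ (2 * l ^ e) = (β : Qb) ^ l ^ (n + 1)

end

end Pool.Agent.Lib.MP_446a91_nt.Sou
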