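import Pool.Agent.Lib.MP_446a91_nt.Sou.ND
import Pool.Agent.Lib.MP_33b3f9_ag.M4.NTFrob
import Pool.Agent.Lib.MP_33b3f9_ag.M4.NTFrobC

/-! A number that is not a `p`-th power is not a `p`-th power modulo many primes of degree one. -/

namespace Pool.Agent.Lib.MP_446a91_nt.Sou

/-- Sketch: for `0 < i < M`, `1 - ζ ^ i` divides `M` (`IsPrimitiveRoot.prod_one_sub_pow_eq_order`). -/
theorem prim_map {R F : Type} [CommRing R] [IsDomain R] [Field F] (χ : R →+* F) {ζ : R} {M : ℕ}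
    (h : IsPrimitiveRoot ζ M) (hM : (M : F) ≠ 0) : IsPrimitiveRoot (χ ζ) M := by
  obtain ⟨n, rfl⟩ := Nat.exists_eq_succ_of_ne_zero (n := M) fun h0 => hM (by rw [h0, Nat.cast_zero])
  refine IsPrimitiveRoot.mk_of_lt _ n.succ_pos (by rw [← map_pow, h.pow_eq_one, map_one])
    fun l h0 hl H => hM ?_
  have h1 := congrArg χ h.prod_one_sub_pow_eq_order
  rw [map_prod, map_add, map_natCast, map_one] at h1
  rw [Nat.cast_succ, ← h1]
  refine Finset.prod_eq_zero (i := l - 1) (Finset.mem_range.2 (by omega)) ?_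
  rw [map_sub, map_one, map_pow, Nat.sub_add_cancel h0, H, sub_self]

theorem prim_dvd {F : Type} [Field F] [Fintype F] {ζ : F} {M : ℕ} (h : IsPrimitiveRoot ζ M)
    (hM : M ≠ 0) : M ∣ Fintype.card F - 1 := by
  exact h.dvd_of_pow_eq_one _ (FiniteField.pow_card_sub_one_eq_one ζ (h.ne_zero hM))

theorem ndet_norm {q : ℕ} [Fact q.Prime] (x : ℤ_[q]) : ‖x‖ < 1 ↔ PadicInt.toZMod x = 0 := by
  rw [← RingHom.mem_ker, PadicInt.ker_toZMod, IsLocalRing.mem_maximalIdeal, PadicInt.mem_nonunits]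

open Polynomial in
theorem ndet_hensel {q p : ℕ} [Fact q.Prime] (hp : (p : ZMod q) ≠ 0) {c : ℤ_[q]} {r : ZMod q}
    (hr : r ≠ 0) (h : r ^ p = PadicInt.toZMod c) : ∃ b : ℤ_[q], b ^ p = c := by
  have ha : PadicInt.toZMod ((r.val : ℕ) : ℤ_[q]) = r := by rw [map_natCast, ZMod.natCast_zmod_val]
  have h1 : ‖aeval ((r.val : ℕ) : ℤ_[q]) (derivative (X ^ p - C c : ℤ_[q][X]))‖ = 1 := by
    refine le_antisymm (PadicInt.norm_le_one _) (not_lt.1 fun H => ?_)
    rw [ndet_norm, derivative_sub, derivative_C, sub_zero, derivative_X_pow, map_mul, map_mul,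
      aeval_C, map_pow, aeval_X, map_pow, ha, map_natCast, map_natCast] at H
    exact mul_ne_zero hp (pow_ne_zero _ hr) H
  obtain ⟨b, hb, -⟩ := hensels_lemma (F := (X ^ p - C c : ℤ_[q][X])) (a := ((r.val : ℕ) : ℤ_[q])) (by
    rw [h1, one_pow, ndet_norm, map_sub, map_pow, aeval_X, aeval_C, map_sub, map_pow, ha, h]
    exact sub_self _)
  rw [map_sub, map_pow, aeval_X, aeval_C] at hb
  exact ⟨b, sub_eq_zero.1 hb⟩

open Polynomial in
theorem ndet_hom (K : Type) [Field K] [NumberField K] {p : ℕ} (hp : p.Prime) {ζ : K}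
    (hζ : IsPrimitiveRoot ζ p) (v : K) (hv : ¬ ∃ w, w ^ p = v) (B : ℕ) :
    ∃ (q : ℕ) (_ : Fact q.Prime), B ≤ q ∧ ∃ φ : K →+* ℚ_[q], ¬ ∃ b, b ^ p = φ v := by
  let L := (X ^ p - C v : K[X]).SplittingField
  have hL : NumberField L := NumberField.of_module_finite K L
  have hG : IsGalois K L := ⟨⟩
  have : NeZero p := ⟨hp.ne_zero⟩
  obtain ⟨x, hx⟩ := (SplittingField.splits (X ^ p - C v : K[X])).exists_eval_eq_zero (by
    rw [degree_map, degree_X_pow_sub_C hp.pos]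
    exact_mod_cast hp.ne_zero)
  rw [eval_map_algebraMap, map_sub, map_pow, aeval_X, aeval_C, sub_eq_zero] at hx
  obtain ⟨g, hg⟩ := not_forall.1 (mt (IsGalois.mem_range_algebraMap_iff_fixed (F := K) x).2
    fun ⟨w, hw⟩ => hv ⟨w, (algebraMap K L).injective (by rw [map_pow, hw, hx])⟩)
  obtain ⟨q, ⟨hq, e, he⟩, hl⟩ := (M4.NT.frob L g.toRingEquiv).exists_ge B
  have hφ : ∀ y : K, ∃ a : ℚ_[q], algebraMap ℚ_[q] (PadicAlgCl q) a = e (algebraMap K L y) :=
    fun y => (he _).2 (g.commutes y)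
  choose φ hφ using hφ
  have hi := (algebraMap ℚ_[q] (PadicAlgCl q)).injective
  refine ⟨q, hq, hl, {
    toFun := φ
    map_one' := hi (by rw [hφ, map_one, map_one, map_one])
    map_mul' := fun a b => hi (by rw [hφ, map_mul, map_mul, map_mul, hφ, hφ])
    map_zero' := hi (by rw [hφ, map_zero, map_zero, map_zero])
    map_add' := fun a b => hi (by rw [hφ, map_add, map_add, map_add, hφ, hφ]) }, ?_⟩
  rintro ⟨b, hb⟩
  have h1 : algebraMap ℚ_[q] (PadicAlgCl q) b ^ p = e x ^ p := by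
    rw [← map_pow, ← map_pow, hx, ← hφ]
    exact congrArg _ hb
  have h2 : algebraMap ℚ_[q] (PadicAlgCl q) b ≠ 0 := fun h0 => hg (by
    rw [h0, zero_pow hp.ne_zero, eq_comm, pow_eq_zero_iff hp.ne_zero, map_eq_zero] at h1
    rw [h1, map_zero])
  obtain ⟨i, -, h3⟩ := ((hζ.map_of_injective (algebraMap K L).injective).map_of_injective
    e.injective).eq_pow_of_pow_eq_one (ξ := e x / algebraMap ℚ_[q] (PadicAlgCl q) b)
    (by rw [div_pow, ← h1, div_self (pow_ne_zero _ h2)])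
  refine hg ((he x).1 ⟨φ ζ ^ i * b, ?_⟩)
  rw [map_mul, map_pow, hφ, h3, div_mul_cancel₀ _ h2]

/-- Sketch: `X ^ p - C v` is irreducible over `K` (`X_pow_sub_C_irreducible_of_prime`),
`L = AdjoinRoot` of it is a number field with an automorphism `g` over `K` that sends the root `r` to
`ζ r` (`autAdjoinRootXPowSubC`, or `AdjoinRoot.liftAlgHom` and `AlgHom.bijective`).  `v ≠ 0` divides a
nonzero integer `D` in `OK K` (constant term of the minimal polynomial over `ℤ`, or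
`Algebra.IsAlgebraic.exists_nsmul_eq`-like lemmas).  `M4.NT.frob L g` and `M4.NT.Dvg.exists_ge` give
a prime `q ≥ B + p + |D| + 1` and `e : L →+* PadicAlgCl q` with `e x ∈ Qp q ↔ g x = x`.  On `OK K`
the map `e` has values in `ℤ_[q]` (integral elements of `ℚ_[q]`); compose with `PadicInt.toZMod`.  If
`χ v = a ^ p` then `a ≠ 0` and `hensels_lemma` gives `b` in `ℤ_[q]` with `b ^ p = e v`; then
`e r = e ζ ^ i * b` lies in `Qp q`, so `g r = r`, absurd. -/
theorem det (K : IntermediateField ℚ Qb) [FiniteDimensional ℚ K] {p : ℕ} (hp : p.Prime) {ζ : Qb}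
    (hζ : IsPrimitiveRoot ζ p) (hK : ζ ∈ K) (v : OK K) (hv : ¬ ∃ w ∈ K, w ^ p = v) (B : ℕ) :
    ∃ (q : ℕ) (_ : Fact q.Prime), B ≤ q ∧ ∃ χ : OK K →+* ZMod q, ¬ ∃ r, r ^ p = χ v := by
  have hN : NumberField K := ⟨⟩
  have hv0 : v ≠ 0 := fun h => hv ⟨0, zero_mem K, by rw [h, zero_pow hp.ne_zero]; rfl⟩
  have hint : IsIntegral ℤ v :=
    (isIntegral_algHom_iff (OK K).subtype.toIntAlgHom Subtype.val_injective).1 v.2.2
  obtain ⟨D, hD, hvD⟩ := hint.isAlgebraic.exists_nonzero_dvd (mem_nonZeroDivisors_of_ne_zero hv0)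
  obtain ⟨q, hq, hB, φ, hφ⟩ := ndet_hom K hp (ζ := ⟨ζ, hK⟩)
    (hζ.of_map_of_injective (f := K.val) Subtype.val_injective) ⟨v, v.2.1⟩
    (fun ⟨w, hw⟩ => hv ⟨w, w.2, congrArg Subtype.val hw⟩) (B + p + D.natAbs + 1)
  let j : OK K →+* K := (OK K).subtype.codRestrict K fun x => x.2.1
  have h1 : ∀ x : OK K, ∃ y : ℤ_[q], algebraMap ℤ_[q] ℚ_[q] y = φ (j x) := fun x =>
    IsIntegrallyClosed.isIntegral_iff.1 (IsIntegral.tower_top (R := ℤ)
      (((isIntegral_algHom_iff (OK K).subtype.toIntAlgHom Subtype.val_injective).1 x.2.2).map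
        (φ.comp j).toIntAlgHom))
  let ψ : OK K →+* ℤ_[q] := (φ.comp j).codRestrict (PadicInt.subring q) fun x => by
    obtain ⟨y, hy⟩ := h1 x
    exact hy ▸ y.2
  refine ⟨q, hq, by omega, PadicInt.toZMod.comp ψ, fun ⟨r, hr⟩ => hφ ?_⟩
  have h2 : r ≠ 0 := fun h0 => by
    have h3 := map_dvd (PadicInt.toZMod.comp ψ) hvD
    rw [← hr, h0, zero_pow hp.ne_zero, zero_dvd_iff, eq_intCast, map_intCast,
      ZMod.intCast_zmod_eq_zero_iff_dvd] at h3
    have h4 := Int.natAbs_le_of_dvd_ne_zero h3 hD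
    omega
  obtain ⟨b, hb⟩ := ndet_hensel (fun h0 => by
    have h4 := Nat.le_of_dvd hp.pos ((ZMod.natCast_eq_zero_iff p q).1 h0)
    omega) h2 hr
  exact ⟨b, by rw [← PadicInt.coe_pow, hb]; rfl⟩

end Pool.Agent.Lib.MP_446a91_nt.Sou
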