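import Pool.Agent.Lib.MP_446a91_nt.Sou.ND

/-! Galois theory of the cyclotomic tower inside `ℚ̄`. -/

namespace Pool.Agent.Lib.MP_446a91_nt.Sou

open IntermediateField

theorem ngal_alg : Algebra.IsAlgebraic ℚ Qb := AlgebraicClosure.isAlgebraic ℚ

theorem ngal_gal : IsGalois ℚ Qb :=
  @IsAlgClosure.isGalois ℚ Qb _ _ _ (AlgebraicClosure.instIsAlgClosure ℚ) _

/-- Sketch: `IsAlgClosed.lift`, `AlgHom.restrictNormal'` (or: two embeddings of a normal extension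
differ by an automorphism, `Normal.algHomEquivAut`). -/
theorem exists_cc : ∃ c ι, IsCC c ι := by
  have := ngal_alg
  have := ngal_gal
  let ι : Qb →ₐ[ℚ] ℂ := IsAlgClosed.lift
  let _ : Algebra Qb ℂ := ι.toRingHom.toAlgebra
  have : IsScalarTower ℚ Qb ℂ := IsScalarTower.of_algebraMap_eq fun q => (ι.commutes q).symm
  exact ⟨(starRingEnd ℂ).toRatAlgHom.restrictNormal' Qb, ι.toRingHom,
    fun x => (starRingEnd ℂ).toRatAlgHom.restrictNormal_commutes Qb x⟩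

variable {c : GQ} {ι : Qb →+* ℂ}

theorem IsCC.invol (hc : IsCC c ι) (x : Qb) : c (c x) = x := by
  refine ι.injective ?_
  rw [hc, hc, Complex.conj_conj]

theorem IsCC.root (hc : IsCC c ι) {ζ : Qb} {k : ℕ} (hk : k ≠ 0) (h : ζ ^ k = 1) : c ζ = ζ⁻¹ := by
  refine ι.injective ?_
  rw [hc, map_inv₀, Complex.inv_eq_conj
    (Complex.norm_eq_one_of_pow_eq_one (by rw [← map_pow, h, map_one]) hk)]

/-- An automorphism raises a root of unity to a power. -/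
theorem aut_root (σ : GQ) {ζ : Qb} {k : ℕ} (hk : k ≠ 0) (h : ζ ^ k = 1) : ∃ a : ℕ, σ ζ = ζ ^ a := by
  have : NeZero (orderOf ζ) :=
    ⟨(isOfFinOrder_iff_pow_eq_one.2 ⟨k, Nat.pos_of_ne_zero hk, h⟩).orderOf_pos.ne'⟩
  obtain ⟨a, -, ha⟩ := (IsPrimitiveRoot.orderOf ζ).eq_pow_of_pow_eq_one (ξ := σ ζ)
    (by rw [← map_pow, pow_orderOf_eq_one, map_one])
  exact ⟨a, ha.symm⟩

theorem ngal_aut {ζ : Qb} {M b : ℕ} (hM : M ≠ 0) (hζ : IsPrimitiveRoot ζ M) (hb : b.Coprime M) :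
    ∃ σ : GQ, σ ζ = ζ ^ b := by
  have := ngal_alg
  have := ngal_gal
  refine minpoly.exists_algEquiv_of_root' (Algebra.IsAlgebraic.isAlgebraic ζ) ?_
  rw [← Polynomial.cyclotomic_eq_minpoly_rat hζ (Nat.pos_of_ne_zero hM),
    Polynomial.cyclotomic_eq_minpoly_rat (hζ.pow_of_coprime b hb) (Nat.pos_of_ne_zero hM)]
  exact minpoly.aeval _ _

theorem ngal_closed (x y : Qb) : IsClosed {σ : GQ | σ x = y} := by
  have := ngal_alg
  rcases Set.eq_empty_or_nonempty {σ : GQ | σ x = y} with h | ⟨τ, hτ⟩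
  · rw [h]
    exact isClosed_empty
  · have e : {σ : GQ | σ x = y} = (τ⁻¹ * ·) ⁻¹' (MulAction.stabilizer GQ x : Set GQ) := by
      ext σ
      change σ x = y ↔ τ.symm (σ x) = x
      rw [AlgEquiv.symm_apply_eq, show τ x = y from hτ]
    rw [e]
    exact (Subgroup.isClosed_of_isOpen _ (stabilizer_isOpen_of_isIntegral x)).preimage
      (continuous_const_mul _)

/-- Sketch: the sets `{σ | σ (z n) = z n ^ g}` are nonempty (`z n` and `z n ^ g` have the same minimal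
polynomial: `IsPrimitiveRoot.minpoly_eq_pow_coprime` or `cyclotomic_eq_minpoly_rat`, then
`minpoly.exists_algEquiv_of_root`), closed (cosets of an open stabiliser,
`stabilizer_isOpen_of_isIntegral`) and decreasing in the compact group `GQ`
(`IsCompact.nonempty_iInter_of_sequence_nonempty_isCompact_isClosed`). -/
theorem exists_S {l : ℕ} (hl : l.Prime) {z : ℕ → Qb} (hz : Gal.IsRoots l z) {g : ℕ}
    (hg : g.Coprime l) : ∃ S : GQ, ∀ n, S (z n) = z n ^ g := by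
  have := ngal_gal
  obtain ⟨S, hS⟩ := IsCompact.nonempty_iInter_of_sequence_nonempty_isCompact_isClosed
    (fun n => {σ : GQ | σ (z n) = z n ^ g})
    (fun n σ hσ => by
      change σ (z n) = z n ^ g
      rw [← hz.step, map_pow, show σ (z (n + 1)) = z (n + 1) ^ g from hσ, pow_right_comm])
    (fun n => ngal_aut (pow_ne_zero n hl.ne_zero) (hz.prim n) (hg.pow_right n))
    (ngal_closed _ _).isCompact fun n => ngal_closed _ _
  exact ⟨S, fun n => Set.mem_iInter.1 hS n⟩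

theorem exists_aut {ζ : Qb} {M b : ℕ} (hM : M ≠ 0) (hζ : IsPrimitiveRoot ζ M) (hb : b.Coprime M) :
    ∃ σ : GQ, σ ζ = ζ ^ b := ngal_aut hM hζ hb

/-- Sketch: `InfiniteGalois.fixedField_fixingSubgroup`. -/
theorem mem_adjoin_iff {Z : Set Qb} {x : Qb} : x ∈ adjoin ℚ Z ↔ FixBy Z x := by
  have := ngal_gal
  have key : ∀ σ : GQ, (∀ ζ ∈ Z, σ ζ = ζ) → ∀ y ∈ adjoin ℚ Z, σ y = y := fun σ hσ y hy => by
    induction hy using adjoin_induction with
    | mem y hy => exact hσ y hy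
    | algebraMap q => exact σ.commutes q
    | add a b _ _ ha hb => rw [map_add, ha, hb]
    | inv a _ ha => rw [map_inv₀, ha]
    | mul a b _ _ ha hb => rw [map_mul, ha, hb]
  refine ⟨fun hx σ hσ => key σ hσ x hx, fun hx => ?_⟩
  rw [← InfiniteGalois.fixedField_fixingSubgroup (adjoin ℚ Z), mem_fixedField_iff]
  exact fun σ hσ => hx σ fun ζ hζ => (mem_fixingSubgroup_iff _ _).1 hσ ζ (subset_adjoin ℚ Z hζ)

/-- Sketch: the commutator of `γ` and `σ` fixes every root of unity (`aut_root`). -/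
theorem FixBy.comm {Z : Set Qb} (hZ : ∀ ζ ∈ Z, ∃ k ≠ 0, ζ ^ k = 1) {w : Qb} (hw : FixBy Z w)
    (γ σ : GQ) : γ (σ w) = σ (γ w) := by
  have h := hw ((σ * γ)⁻¹ * (γ * σ)) fun ζ hζ => by
    obtain ⟨k, hk, h⟩ := hZ ζ hζ
    obtain ⟨a, ha⟩ := aut_root γ hk h
    obtain ⟨b, hb⟩ := aut_root σ hk h
    change (σ * γ).symm (γ (σ ζ)) = ζ
    rw [AlgEquiv.symm_apply_eq, AlgEquiv.mul_apply, ha, hb, map_pow, map_pow, ha, hb,
      pow_right_comm]
  exact (AlgEquiv.symm_apply_eq (σ * γ)).1 h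

/-- Sketch: `ι (γ (w * c w)) = ‖ι (γ w)‖ ^ 2` and `ι (w * c w) = ‖ι w‖ ^ 2` (`FixBy.comm`) are
nonnegative reals with the same `e`-th power. -/
theorem FixBy.fix_mul (hc : IsCC c ι) {Z : Set Qb} (hZ : ∀ ζ ∈ Z, ∃ k ≠ 0, ζ ^ k = 1) {w : Qb}
    (hw : FixBy Z w) {e : ℕ} (he : e ≠ 0) {γ : GQ} (hγ : γ (w ^ e) = w ^ e) :
    γ (w * c w) = w * c w := by
  refine ι.injective ?_
  rw [map_mul γ, hw.comm hZ γ c, map_mul, map_mul, hc, hc, Complex.mul_conj', Complex.mul_conj']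
  have h : ‖ι (γ w)‖ ^ e = ‖ι w‖ ^ e := by
    rw [← norm_pow, ← norm_pow, ← map_pow, ← map_pow, ← map_pow, hγ]
  rw [(pow_left_inj₀ (norm_nonneg _) (norm_nonneg _) he).1 h]

/-- Sketch: `β = w * c w` is rational (`fix_mul`, `InfiniteGalois.mem_bot_iff_fixed`) and
`β ^ e = p ^ 2`; compare `padicValRat`. -/
theorem FixBy.pow_ne {Z : Set Qb} (hZ : ∀ ζ ∈ Z, ∃ k ≠ 0, ζ ^ k = 1) {w : Qb} (hw : FixBy Z w)
    {p e : ℕ} (hp : p.Prime) (he : 2 < e) : w ^ e ≠ p := by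
  intro h
  have := ngal_gal
  have := Fact.mk hp
  obtain ⟨c, ι, hc⟩ := exists_cc
  obtain ⟨q, hq⟩ := mem_bot.1 ((InfiniteGalois.mem_bot_iff_fixed (k := ℚ) (w * c w)).2 fun γ =>
    hw.fix_mul hc hZ (e := e) (by omega) (by rw [h, map_natCast]))
  have h1 : q ^ e = (p : ℚ) ^ 2 := (algebraMap ℚ Qb).injective (by
    rw [map_pow, hq, mul_pow, ← map_pow, h, map_natCast, map_pow, map_natCast, sq])
  have h2 := congrArg (padicValRat p) h1
  rw [padicValRat.pow, padicValRat.pow, padicValRat.self hp.one_lt, mul_one] at h2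
  have h3 := Int.le_of_dvd (by norm_num) (Dvd.intro _ h2)
  omega

/-- Conjugates of elements of a cyclotomic ring stay in it. -/
theorem OK_aut {ζ : Qb} {k : ℕ} (hk : k ≠ 0) (h : ζ ^ k = 1) (σ : GQ) {x : Qb}
    (hx : x ∈ OK ℚ⟮ζ⟯) : σ x ∈ OK ℚ⟮ζ⟯ := by
  refine ⟨mem_adjoin_iff.2 fun γ hγ => ?_,
    (mem_OK.1 hx).2.map (σ : Qb →+* Qb).toIntAlgHom⟩
  have hw : FixBy {ζ} x := mem_adjoin_iff.1 hx.1
  rw [hw.comm (fun _ e => ⟨k, hk, (Set.mem_singleton_iff.1 e).symm ▸ h⟩) γ σ, hw γ hγ]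

theorem RU_aut {ζ : Qb} {k : ℕ} (hk : k ≠ 0) (h : ζ ^ k = 1) (σ : GQ) {u : Qbˣ}
    (hu : u ∈ RU c ζ) : Units.map (σ : Qb →* Qb) u ∈ RU c ζ := by
  refine ⟨OK_aut hk h σ hu.1, OK_aut hk h σ hu.2.1, ?_⟩
  have hw : FixBy {ζ} (u : Qb) := mem_adjoin_iff.1 hu.1.1
  change c (σ u) = σ u
  rw [hw.comm (fun _ e => ⟨k, hk, (Set.mem_singleton_iff.1 e).symm ▸ h⟩) c σ, hu.2.2]

end Pool.Agent.Lib.MP_446a91_nt.Sou
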