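import Pool.Agent.Lib.MP_446a91_nt.Sou.NDet

/-! Detection of prime power roots; reduction of `ℤ[1/r]`; integral bases. -/

namespace Pool.Agent.Lib.MP_446a91_nt.Sou

open IntermediateField

/-- Sketch: show by induction on `s ≤ n - c` that `α = w ^ l ^ s` with `w ∈ K` (integral as a root of
`X ^ l ^ s - α`, `IsIntegral.of_pow`).  If `w` is not an `l`-th power, `det` with the bound
`B + l + 1` and the root `ζ ^ l ^ (n - 1)` gives `q, χ`; `prim_map`, `prim_dvd` give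
`l ^ n ∣ card - 1`; `exists_Lg`, `Lg.y_pow`, `Lg.isUnit_y` give `l ^ (c + s) = 0` in `ZMod (l ^ n)`. -/
theorem det_pow (K : IntermediateField ℚ Qb) [FiniteDimensional ℚ K] {l n c B : ℕ} (hl : l.Prime)
    {ζ : Qb} (hζ : IsPrimitiveRoot ζ (l ^ n)) (hK : ζ ∈ K) (α : OK K)
    (h : ∀ (q : ℕ) [Fact q.Prime], B ≤ q → ∀ (χ : OK K →+* ZMod q) (Λ : Lg (ZMod q)),
      (l : ZMod (l ^ n)) ^ c * Λ.y (l ^ n) (χ α) = 0) :
    ∃ w ∈ K, w ^ l ^ (n - c) = α := by
  suffices key : ∀ s, s ≤ n - c → ∃ w ∈ K, w ^ l ^ s = α from key _ le_rfl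
  intro s
  induction s with
  | zero => exact fun _ => ⟨α, α.2.1, by simp⟩
  | succ s ih =>
    intro hs
    obtain ⟨w, hw, e⟩ := ih (by omega)
    have hi : IsIntegral ℤ w := IsIntegral.of_pow (pow_pos hl.pos s) (e ▸ α.2.2)
    by_cases hv : ∃ u ∈ K, u ^ l = w
    · obtain ⟨u, hu, rfl⟩ := hv
      exact ⟨u, hu, by rw [pow_succ', pow_mul, e]⟩
    exfalso
    have hz : IsPrimitiveRoot (ζ ^ l ^ (n - 1)) l :=
      hζ.pow (pow_pos hl.pos n) (by rw [← pow_succ, Nat.sub_add_cancel (by omega)])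
    obtain ⟨q, _, hq, χ, hχ⟩ := det K hl hz (pow_mem hK _) ⟨w, hw, hi⟩ hv (B + l + 1)
    obtain ⟨Λ⟩ := exists_Lg (ZMod q)
    have hζ' : IsPrimitiveRoot (⟨ζ, hK, hζ.isIntegral (pow_pos hl.pos n)⟩ : OK K) (l ^ n) :=
      IsPrimitiveRoot.of_map_of_injective (f := (OK K).subtype) hζ Subtype.val_injective
    have hN := prim_dvd (prim_map χ hζ' (by
      rw [Nat.cast_pow]
      refine pow_ne_zero _ fun t => ?_
      have := Nat.le_of_dvd hl.pos ((ZMod.natCast_eq_zero_iff _ _).1 t)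
      omega)) (pow_ne_zero _ hl.ne_zero)
    have h0 : χ ⟨w, hw, hi⟩ ≠ 0 := fun t => hχ ⟨0, by rw [t, zero_pow hl.ne_zero]⟩
    have h1 := h q (by omega) χ Λ
    have e' : α = (⟨w, hw, hi⟩ : OK K) ^ l ^ s := Subtype.ext e.symm
    rw [e', map_pow, Λ.y_pow hN h0, ← mul_assoc, (Λ.isUnit_y hl h0 hχ).mul_left_eq_zero,
      Nat.cast_pow, ← pow_add, ← Nat.cast_pow, ZMod.natCast_eq_zero_iff,
      Nat.pow_dvd_pow_iff_le_right hl.one_lt] at h1
    omega

/-- Sketch: `IsLocalization.Away.lift`. -/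
theorem exists_red {r q : ℕ} [Fact q.Prime] (hr : r ≠ 0) (h : r < q) :
    Nonempty (Zr r →+* ZMod q) := by
  refine ⟨IsLocalization.Away.lift (r : ℤ) (g := Int.castRingHom (ZMod q)) (Ne.isUnit fun t => ?_)⟩
  rw [map_natCast, ZMod.natCast_eq_zero_iff] at t
  exact (Nat.le_of_dvd (Nat.pos_of_ne_zero hr) t).not_gt h

/-- The ring of integers in the model `OK`. -/
theorem exists_OK_equiv (K : IntermediateField ℚ Qb) :
    ∃ e : NumberField.RingOfIntegers K ≃+* OK K, ∀ x, ((e x : OK K) : Qb) = ((x : K) : Qb) := by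
  let f : NumberField.RingOfIntegers K →+* OK K :=
    ((algebraMap K Qb).comp (algebraMap (NumberField.RingOfIntegers K) K)).codRestrict (OK K)
      fun x => ⟨(x : K).2, (NumberField.RingOfIntegers.isIntegral_coe x).algebraMap⟩
  refine ⟨RingEquiv.ofBijective f ⟨fun x y t => ?_, fun y => ?_⟩, fun _ => rfl⟩
  · exact NumberField.RingOfIntegers.ext (Subtype.ext (congrArg (fun v : OK K => (v : Qb)) t))
  · exact ⟨⟨⟨y, y.2.1⟩, (isIntegral_algebraMap_iff (algebraMap K Qb).injective).1 y.2.2⟩, rfl⟩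

/-- Sketch: `NumberField.RingOfIntegers.basis`, `RingOfIntegers.rank`, `exists_OK_equiv`; the degree
of `ℚ⟮ζ⟯` is the degree of the cyclotomic polynomial (`IntermediateField.adjoin.finrank`,
`Polynomial.cyclotomic_eq_minpoly_rat`). -/
theorem exists_OK_basis {ζ : Qb} {M : ℕ} (hM : M ≠ 0) (hζ : IsPrimitiveRoot ζ M) :
    Nonempty (Module.Basis (Fin M.totient) ℤ (OK ℚ⟮ζ⟯)) := by
  have hi : IsIntegral ℚ ζ := ((AlgebraicClosure.isAlgebraic ℚ).isAlgebraic ζ).isIntegral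
  have := adjoin.finiteDimensional hi
  have : NumberField ℚ⟮ζ⟯ := ⟨⟩
  obtain ⟨e, -⟩ := exists_OK_equiv ℚ⟮ζ⟯
  refine ⟨(Module.finBasisOfFinrankEq ℤ (NumberField.RingOfIntegers ℚ⟮ζ⟯) ?_).map
    e.toAddEquiv.toIntLinearEquiv⟩
  rw [NumberField.RingOfIntegers.rank, adjoin.finrank hi,
    ← Polynomial.cyclotomic_eq_minpoly_rat hζ (Nat.pos_of_ne_zero hM),
    Polynomial.natDegree_cyclotomic]

/-- Sketch: the instance `Module.Finite ℤ (Additive (𝓞 K)ˣ)` (or `Monoid.FG`), the injection of `RU`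
in `(𝓞 K)ˣ`; subgroups of finitely generated abelian groups are finitely generated. -/
theorem RU_fg (c : GQ) (ζ : Qb) : (RU c ζ).FG := by
  have hi : IsIntegral ℚ ζ := ((AlgebraicClosure.isAlgebraic ℚ).isAlgebraic ζ).isIntegral
  have := adjoin.finiteDimensional hi
  have : NumberField ℚ⟮ζ⟯ := ⟨⟩
  obtain ⟨e, -⟩ := exists_OK_equiv ℚ⟮ζ⟯
  let f : RU c ζ →* (OK ℚ⟮ζ⟯)ˣ :=
    { toFun := fun u => ⟨⟨u.1, u.2.1⟩, ⟨_, u.2.2.1⟩, Subtype.ext u.1.mul_inv,
        Subtype.ext u.1.inv_mul⟩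
      map_one' := rfl
      map_mul' := fun _ _ => Units.ext rfl }
  have hf : Function.Injective f := fun a b t =>
    Subtype.ext (Units.ext (congrArg (fun v : (OK ℚ⟮ζ⟯)ˣ => ((v : OK ℚ⟮ζ⟯) : Qb)) t))
  have h1 : Module.Finite ℤ (Additive (RU c ζ)) := Module.Finite.of_injective
    (MonoidHom.toAdditive
      ((Units.mapEquiv e.symm.toMulEquiv).toMonoidHom.comp f)).toIntLinearMap
    ((Units.mapEquiv e.symm.toMulEquiv).injective.comp hf)
  rw [← Group.fg_iff_subgroup_fg, GroupFG.iff_add_fg, ← Module.Finite.iff_addGroup_fg]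
  exact h1

end Pool.Agent.Lib.MP_446a91_nt.Sou
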