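import Pool.Agent.Lib.MP_446a91_nt.Sou.NEps
import Pool.Agent.Lib.MP_446a91_nt.Sou.NGal
import Pool.Agent.Lib.MP_446a91_nt.Sou.NPow

/-! The elementary cases, and the torsion class is not torsion. -/

namespace Pool.Agent.Lib.MP_446a91_nt.Sou

open IntermediateField

theorem nelem_fermat {p j : ℕ} (hp : p.Prime) (h : (p - 1) ∣ j) (a : ℕ) (ha : ¬ p ∣ a) :
    a ^ j ≡ 1 [MOD p] := by
  obtain ⟨k, rfl⟩ := h
  have := (Nat.ModEq.pow_totient ((Nat.Prime.coprime_iff_not_dvd hp).2 ha).symm).pow k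
  rwa [Nat.totient_prime hp, one_pow, ← pow_mul] at this

theorem nelem_aux {l j n : ℕ} (hl : l.Prime) {z : ℕ → Qb} (hz : Gal.IsRoots l z)
    (he : 2 < l ^ (n + 1)) (h : ∀ a, ¬ l ∣ a → a ^ j ≡ 1 [MOD l ^ (n + 1)]) :
    ¬ ∃ r : Qb, r ^ l ^ (n + 1) = eps l (n + 1) j (z (n + 1)) ∧ ∀ σ ∈ Gal.HH z, σ r = r := by
  rintro ⟨r, hr, hf⟩
  rw [eps_eq hl (hz.prim _) h] at hr
  refine FixBy.pow_ne (Z := Set.range z) ?_ ?_ hl he ((div_pow r _ _).trans ((div_eq_iff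
    (pow_ne_zero _ (Finset.prod_ne_zero_iff.2 fun a ha => pow_ne_zero _
      (one_sub_pow_ne (hz.prim _) (Finset.mem_filter.1 ha).2)))).2 hr))
  · rintro _ ⟨m, rfl⟩
    exact ⟨l ^ m, pow_ne_zero _ hl.ne_zero, (hz.prim m).pow_eq_one⟩
  · intro σ hσ
    have h1 : ∀ m, σ (z m) = z m := fun m => hσ _ ⟨m, rfl⟩
    simp only [map_div₀, hf σ h1, map_prod, map_pow, map_sub, map_one, h1]

/-- Sketch: `l` odd: `n = 1`, `e = l` (Fermat); `l = 2`: `n = 2`, `e = 4` (`a` odd, `j` even).  By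
`eps_eq`, `r ^ e = l * δ ^ e` with `δ ≠ 0` (`one_sub_pow_ne`); `w = r / δ` is fixed by `HH z`, which
is `FixBy (Set.range z) w`; `FixBy.pow_ne`. -/
theorem sou_elem {l j : ℕ} (hl : l.Prime) {z : ℕ → Qb} (hz : Gal.IsRoots l z) (hj : Even j)
    (h : (l - 1) ∣ j) :
    ∃ n, ¬ ∃ r : Qb, r ^ l ^ n = eps l n j (z n) ∧ ∀ σ ∈ Gal.HH z, σ r = r := by
  rcases hl.two_le.eq_or_lt with rfl | h2
  · refine ⟨_, nelem_aux (n := 1) hl hz (by norm_num) fun a ha => ?_⟩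
    obtain ⟨k, rfl⟩ := hj.two_dvd
    obtain ⟨b, rfl⟩ := Nat.odd_iff.2 (Nat.two_dvd_ne_zero.1 ha)
    have : 1 ≡ (2 * b + 1) ^ 2 [MOD 2 ^ (1 + 1)] :=
      (Nat.modEq_iff_exists_eq_add (Nat.one_le_pow _ _ (by omega))).2 ⟨b * b + b, by ring⟩
    simpa only [one_pow, pow_mul] using (this.pow k).symm
  · exact ⟨_, nelem_aux (n := 0) hl hz (by simpa using h2) (by simpa using nelem_fermat hl h)⟩

/-- Sketch: suppose `c ≠ 0` kills all values.  Fix `n ≥ 1`, `N = 3 ^ n`, `ξ` a primitive root of order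
`l * 3 * 3 ^ n` in `Qb` (`HasEnoughRootsOfUnity.exists_primitiveRoot`), `K = ℚ⟮ξ⟯`.  `3` is not a cube
in `K` (`mem_adjoin_iff`, `FixBy.pow_ne`); `det` with `B = r + 3 l + 1` gives `q, χ`; `χ ξ` is
primitive (`prim_map`; lift to `OK K` with `IsPrimitiveRoot.of_map_of_injective`, to the units with
`IsPrimitiveRoot.isUnit`, `IsPrimitiveRoot.coe_units_iff`).  Take
`e = (sysF Λ hN j).comap χr` (`exists_red`, `val_comap`).  By `hX` and `dist` (with `r := l`,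
`p := 3`): `c c₂ (1 - l ^ j) c₀ ^ j y(eps) = 0`.  `eps = 3 δ ^ 3` in `OK K` (`eps_eq`, `map_eps`),
`χ δ ≠ 0` (`one_sub_pow_ne` in the finite field), so `χ eps` is not a cube and `y` is a unit
(`Lg.isUnit_y`).  Hence `3 ^ n` divides the nonzero integer `c c₂ (1 - l ^ j)` for all `n`. -/
theorem not_tors {l j r : ℕ} (hl : l.Prime) (h3 : l ≠ 3) (hj : Even j) (hj0 : j ≠ 0) (hr : r ≠ 0)
    {I : Type} [Fintype I] [DecidableEq I] {X : Ch ℤ (GL I ℤ)} {c₁ c₂ : ℤ} (h₂ : c₂ ≠ 0)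
    (hX : TorsAt (3 * l) j X c₁ c₂) :
    ¬ ∃ c : ℤ, c ≠ 0 ∧ ∀ (N : ℕ) (e : AddSys (Zr r) (2 * j + 1) N), c • e.val X = 0 := by
  rintro ⟨c, hc, h0⟩
  have key : ∀ n, n ≠ 0 → ((3 ^ n : ℕ) : ℤ) ∣ c * c₂ * (1 - l ^ j) := fun n hn => by
    have hM : l * 3 * 3 ^ n ≠ 0 := by simp [hl.ne_zero]
    have : NeZero ((l * 3 * 3 ^ n : ℕ) : ℚ) := ⟨Nat.cast_ne_zero.2 hM⟩
    obtain ⟨ξ, hξ⟩ := HasEnoughRootsOfUnity.exists_primitiveRoot Qb (l * 3 * 3 ^ n)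
    have : FiniteDimensional ℚ ℚ⟮ξ⟯ :=
      adjoin.finiteDimensional (hξ.isIntegral hM.bot_lt).tower_top
    let ξ' : OK ℚ⟮ξ⟯ := ⟨ξ, mem_adjoin_simple_self ℚ ξ, hξ.isIntegral hM.bot_lt⟩
    have hξ' : IsPrimitiveRoot ξ' (l * 3 * 3 ^ n) :=
      IsPrimitiveRoot.of_map_of_injective (f := (OK ℚ⟮ξ⟯).subtype) hξ Subtype.val_injective
    obtain ⟨q, _, hq, χ, hχ3⟩ := det ℚ⟮ξ⟯ Nat.prime_three
      (hξ.pow (a := l * 3 ^ n) hM.bot_lt (by ring)) (pow_mem (mem_adjoin_simple_self ℚ ξ) _)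
      (3 : ℕ) (fun ⟨w, hw, e⟩ => FixBy.pow_ne (Z := {ξ})
        (fun _ h => ⟨_, hM, h ▸ hξ.pow_eq_one⟩) (mem_adjoin_iff.1 hw) Nat.prime_three
        (by norm_num) e) (r + 3 * l + 1)
    have k : ∀ a : ℕ, a ≠ 0 → a < q → (a : ZMod q) ≠ 0 := fun a h1 h2 h =>
      h1 (Nat.eq_zero_of_dvd_of_lt ((ZMod.natCast_eq_zero_iff a q).1 h) h2)
    have k3 := k 3 three_ne_zero (by have := hl.pos; omega)
    have hχ := prim_map χ hξ' (by
      rw [Nat.cast_mul, Nat.cast_mul, Nat.cast_pow]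
      exact mul_ne_zero (mul_ne_zero (k l hl.ne_zero (by omega)) k3) (pow_ne_zero _ k3))
    have hN := (dvd_mul_left _ _).trans (prim_dvd hχ hM)
    obtain ⟨Λ⟩ := exists_Lg (ZMod q)
    obtain ⟨c₀, h1, h2⟩ := hX (ZMod q) Λ _ hN (Nat.one_lt_pow hn (by norm_num))
      (Units.mk0 _ (hχ.ne_zero hM)) (IsPrimitiveRoot.coe_units_iff.1 (by rwa [mul_comm 3 l]))
    rw [mul_comm 3 l, Units.val_mk0, dist Λ Nat.prime_three hl h3.symm hN hχ] at h2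
    obtain ⟨χr⟩ := exists_red (q := q) hr (by omega)
    have h4 := h0 _ ((sysF Λ hN j).comap χr)
    rw [AddSys.val_comap] at h4
    have h5 : ¬ ∃ s, s ^ 3 = eps 3 (n + 1) j (χ ξ' ^ l) := by
      rintro ⟨s, hs⟩
      rw [← map_pow, ← map_eps, eps_eq Nat.prime_three (hξ'.pow hM.bot_lt (by ring))
        (nelem_fermat Nat.prime_three hj.two_dvd), map_mul, map_pow] at hs
      refine hχ3 ⟨_, (div_pow s _ _).trans ((div_eq_iff (pow_ne_zero _ ?_)).2 hs)⟩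
      simp only [map_prod, map_pow, map_sub, map_one]
      exact Finset.prod_ne_zero_iff.2 fun a ha => pow_ne_zero _ (one_sub_pow_ne (n := n)
        (hχ.pow hM.bot_lt (by ring)) (Finset.mem_filter.1 ha).2)
    have hy := Λ.isUnit_y (n := n) Nat.prime_three (fun h => h5 ⟨0, by simp [h]⟩) h5
    rw [← ZMod.intCast_zmod_eq_zero_iff_dvd, ← ((h1.pow j).mul hy).mul_left_eq_zero]
    have h6 := congrArg (c • ·) h2
    simp only [smul_comm c c₁, h4, smul_zero] at h6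
    rw [h6]
    simp [mul_assoc]
  have hne : c * c₂ * (1 - l ^ j) ≠ 0 := mul_ne_zero (mul_ne_zero hc h₂)
    (sub_ne_zero.2 (by exact_mod_cast (Nat.one_lt_pow hj0 hl.one_lt).ne))
  exact hne (Int.eq_zero_of_dvd_of_natAbs_lt_natAbs (key _ (Int.natAbs_ne_zero.2 hne))
    (Nat.lt_pow_self (by norm_num)))

end Pool.Agent.Lib.MP_446a91_nt.Sou
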