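import Pool.Agent.Lib.MP_446a91_nt.Sou.NGen

/-! Distribution relations for the cyclotomic elements. -/

namespace Pool.Agent.Lib.MP_446a91_nt.Sou

open Finset

theorem map_eps {R S : Type} [CommRing R] [CommRing S] (χ : R →+* S) (p n j : ℕ) (ζ : R) :
    χ (eps p n j ζ) = eps p n j (χ ζ) := by
  simp only [eps, map_prod, map_pow, map_sub, map_one]

theorem one_sub_pow_ne {R : Type} [CommRing R] [IsDomain R] {p n a : ℕ} {ζ : R}
    (hζ : IsPrimitiveRoot ζ (p ^ (n + 1))) (ha : ¬ p ∣ a) : 1 - ζ ^ a ≠ 0 := by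
  intro h
  exact ha ((dvd_pow_self p n.succ_ne_zero).trans
    (hζ.dvd_of_pow_eq_one a (sub_eq_zero.1 h).symm))

theorem neps_prod {R : Type} [CommRing R] [IsDomain R] {r : ℕ} {η : R} (hη : IsPrimitiveRoot η r)
    (hr : 0 < r) (x : R) : ∏ t ∈ range r, (1 - η ^ t * x) = 1 - x ^ r := by
  have h := congrArg (Polynomial.eval 1) (X_pow_sub_C_eq_prod hη hr (rfl : x ^ r = x ^ r))
  simp only [Polynomial.eval_sub, Polynomial.eval_pow, Polynomial.eval_X, Polynomial.eval_C,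
    Polynomial.eval_prod, one_pow] at h
  exact h.symm

theorem neps_prim {R : Type} [CommRing R] [IsDomain R] {p n : ℕ} (hp : p.Prime)
    {ζ : R} (hζ : IsPrimitiveRoot ζ (p ^ (n + 1))) :
    ∏ a ∈ (range (p ^ (n + 1))).filter (fun a => ¬ p ∣ a), (1 - ζ ^ a) = p := by
  have : Fact p.Prime := ⟨hp⟩
  have h0 : 0 < p ^ (n + 1) := pow_pos hp.pos _
  have : NeZero (p ^ (n + 1)) := ⟨h0.ne'⟩
  have hc : ∀ a, a.Coprime (p ^ (n + 1)) ↔ ¬ p ∣ a := fun a => by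
    rw [Nat.coprime_pow_right_iff n.succ_pos, Nat.coprime_comm, hp.coprime_iff_not_dvd]
  rw [← Polynomial.eval_one_cyclotomic_prime_pow (R := R) n,
    Polynomial.cyclotomic_eq_prod_X_sub_primitiveRoots hζ, Polynomial.eval_prod]
  refine Finset.prod_nbij (fun a => ζ ^ a) (fun a ha => ?_) (fun a ha b hb h => ?_)
    (fun μ hμ => ?_) (fun a _ => ?_)
  · rw [mem_primitiveRoots h0]
    exact hζ.pow_of_coprime a ((hc a).2 (mem_filter.1 ha).2)
  · exact hζ.pow_inj (mem_range.1 (mem_filter.1 (mem_coe.1 ha)).1)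
      (mem_range.1 (mem_filter.1 (mem_coe.1 hb)).1) h
  · have h1 := (mem_primitiveRoots h0).1 (mem_coe.1 hμ)
    obtain ⟨a, ha, rfl⟩ := hζ.eq_pow_of_pow_eq_one h1.pow_eq_one
    exact ⟨a, mem_coe.2 (mem_filter.2 ⟨mem_range.2 ha,
      (hc a).1 ((hζ.pow_iff_coprime h0 a).1 h1)⟩), rfl⟩
  · simp only [Polynomial.eval_sub, Polynomial.eval_X, Polynomial.eval_C]

/-- Sketch: `∏ (1 - ζ ^ a)` over `a` prime to `p` is the value at `1` of the cyclotomic polynomial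
(`Polynomial.eval_one_cyclotomic_prime_pow`, `cyclotomic_eq_prod_X_sub_primitiveRoots`; or divide
`IsPrimitiveRoot.prod_one_sub_pow_eq_order` for `ζ` by the one for `ζ ^ p`), and
`a ^ j = 1 + e * ((a ^ j - 1) / e)`. -/
theorem eps_eq {R : Type} [CommRing R] [IsDomain R] [CharZero R] {p n j e : ℕ} (hp : p.Prime)
    {ζ : R} (hζ : IsPrimitiveRoot ζ (p ^ (n + 1))) (h : ∀ a, ¬ p ∣ a → a ^ j ≡ 1 [MOD e]) :
    eps p (n + 1) j ζ = p * (∏ a ∈ (range (p ^ (n + 1))).filter (fun a => ¬ p ∣ a),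
      (1 - ζ ^ a) ^ ((a ^ j - 1) / e)) ^ e := by
  rw [← neps_prim hp hζ, ← prod_pow, ← prod_mul_distrib, eps]
  refine prod_congr rfl fun a ha => ?_
  have h1 := (mem_filter.1 ha).2
  have h2 : 1 ≤ a ^ j := Nat.one_le_pow _ _ (Nat.pos_of_ne_zero fun h0 => h1 (h0 ▸ dvd_zero p))
  rw [← pow_mul, Nat.div_mul_cancel ((Nat.modEq_iff_dvd' h2).1 (h a h1).symm), ← pow_succ',
    Nat.sub_add_cancel h2]

theorem neps_range {M : Type} [AddCommMonoid M] (f : ℕ → M) (r A : ℕ) :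
    ∑ c ∈ range (r * A), f c = ∑ a ∈ range A, ∑ t ∈ range r, f (A * t + a) := by
  induction r with
  | zero => simp
  | succ r ih =>
    rw [add_one_mul, sum_range_add, ih, ← sum_add_distrib]
    refine sum_congr rfl fun a _ => ?_
    rw [sum_range_succ, mul_comm A r]

theorem neps_dvd {M : Type} [AddCommMonoid M] (f : ℕ → M) {r : ℕ} (hr : 0 < r) (A : ℕ) :
    ∑ c ∈ range (r * A), (if r ∣ c then f c else 0) = ∑ a ∈ range A, f (r * a) := by
  rw [mul_comm, neps_range, sum_eq_single 0]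
  · exact sum_congr rfl fun a _ => by rw [add_zero, if_pos (dvd_mul_right r a)]
  · intro t ht h0
    refine sum_eq_zero fun a _ => if_neg fun h => ?_
    have h1 := Nat.le_of_dvd (Nat.pos_of_ne_zero h0) ((Nat.dvd_add_right (dvd_mul_right r a)).1 h)
    exact absurd (mem_range.1 ht) (not_lt.2 h1)
  · intro h
    exact absurd (mem_range.2 hr) h

/-- Sketch: `A = p ^ (n + 1)`, `ζ = ξ ^ r`.  The `c < r A` prime to `r p` are those prime to `p` minus
those of the form `r a`.  First sum: `c = a + A t`, `t < r`; `c ≡ a` modulo `p ^ n`;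
`∏ t, (1 - ξ ^ a (ξ ^ A) ^ t) = 1 - ξ ^ (r a)` because `ξ ^ A` is a primitive `r`-th root
(`IsPrimitiveRoot.pow_sub_pow_eq_prod_sub_mul` or `X_pow_sub_C_eq_prod`); `Lg.y_prod`.  Second sum:
`(c₀ r a) ^ j = r ^ j (c₀ a) ^ j`.  Finally `Lg.y_prod`, `Lg.y_pow` for `eps`. -/
theorem dist {F : Type} [Field F] [Fintype F] (Λ : Lg F) {p r n j : ℕ} (hp : p.Prime)
    (hr : r.Prime) (hpr : p ≠ r) (hN : p ^ n ∣ Fintype.card F - 1) {ξ : F}
    (hξ : IsPrimitiveRoot ξ (r * p * p ^ n)) (c₀ : ZMod (p ^ n)) :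
    ∑ c ∈ (range (r * p * p ^ n)).filter (fun c => c.Coprime (r * p)),
        Λ.y (p ^ n) (1 - ξ ^ c) * (c₀ * c) ^ j =
      (1 - (r : ZMod (p ^ n)) ^ j) * c₀ ^ j * Λ.y (p ^ n) (eps p (n + 1) j (ξ ^ r)) := by
  have hA : r * p * p ^ n = r * p ^ (n + 1) := by ring
  rw [hA] at hξ ⊢
  have h0 : 0 < r * p ^ (n + 1) := Nat.mul_pos hr.pos (pow_pos hp.pos _)
  have hζ : IsPrimitiveRoot (ξ ^ r) (p ^ (n + 1)) := hξ.pow h0 rfl
  have hη : IsPrimitiveRoot (ξ ^ p ^ (n + 1)) r := hξ.pow h0 (mul_comm _ _)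
  have hpA : p ∣ p ^ (n + 1) := dvd_pow_self p n.succ_ne_zero
  have hne : ∀ c, ¬ p ∣ c → 1 - ξ ^ c ≠ 0 := fun c hc h =>
    hc ((hpA.mul_left r).trans (hξ.dvd_of_pow_eq_one c (sub_eq_zero.1 h).symm))
  have hpr' : ¬ p ∣ r := fun h => hpr ((Nat.prime_dvd_prime_iff_eq hp hr).1 h)
  have hE : Λ.y (p ^ n) (eps p (n + 1) j (ξ ^ r)) = ∑ a ∈ range (p ^ (n + 1)),
      if ¬ p ∣ a then (a : ZMod (p ^ n)) ^ j * Λ.y (p ^ n) (1 - (ξ ^ r) ^ a) else 0 := by
    rw [eps, Λ.y_prod hN _ fun a ha => pow_ne_zero _ (one_sub_pow_ne hζ (mem_filter.1 ha).2),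
      ← sum_filter]
    refine sum_congr rfl fun a ha => ?_
    rw [Λ.y_pow hN (one_sub_pow_ne hζ (mem_filter.1 ha).2), Nat.cast_pow]
  set f : ℕ → ZMod (p ^ n) := fun c =>
    if ¬ p ∣ c then Λ.y (p ^ n) (1 - ξ ^ c) * (c₀ * c) ^ j else 0 with hf
  have h1 : ∑ c ∈ range (r * p ^ (n + 1)), f c =
      c₀ ^ j * Λ.y (p ^ n) (eps p (n + 1) j (ξ ^ r)) := by
    rw [neps_range, hE, mul_sum]
    refine sum_congr rfl fun a _ => ?_
    by_cases ha : p ∣ a
    · rw [if_neg (not_not.2 ha), mul_zero]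
      exact sum_eq_zero fun t _ => if_neg (not_not.2 ((hpA.mul_right t).add ha))
    · have h2 : ∀ t, ¬ p ∣ p ^ (n + 1) * t + a := fun t h =>
        ha ((Nat.dvd_add_right (hpA.mul_right t)).1 h)
      have h3 : ∀ t, ((p ^ (n + 1) * t + a : ℕ) : ZMod (p ^ n)) = a := fun t => by
        rw [Nat.cast_add, (ZMod.natCast_eq_zero_iff _ _).2
          ((pow_dvd_pow p n.le_succ).mul_right t), zero_add]
      have h4 : ∑ t ∈ range r, f (p ^ (n + 1) * t + a) =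
          (∑ t ∈ range r, Λ.y (p ^ n) (1 - ξ ^ (p ^ (n + 1) * t + a))) * (c₀ * a) ^ j := by
        rw [sum_mul]
        exact sum_congr rfl fun t _ => by rw [hf]; simp only [if_pos (h2 t), h3]
      rw [h4, ← Λ.y_prod hN _ fun t _ => hne _ (h2 t), if_pos ha]
      simp only [pow_add ξ, pow_mul ξ]
      rw [neps_prod hη hr.pos, ← pow_mul, mul_comm a r, pow_mul]
      ring
  have h2 : ∑ c ∈ range (r * p ^ (n + 1)), (if r ∣ c then f c else 0) =
      (r : ZMod (p ^ n)) ^ j * c₀ ^ j * Λ.y (p ^ n) (eps p (n + 1) j (ξ ^ r)) := by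
    rw [neps_dvd f hr.pos, hE, mul_sum]
    refine sum_congr rfl fun a _ => ?_
    by_cases ha : p ∣ a
    · rw [if_neg (not_not.2 ha), mul_zero]
      exact if_neg (not_not.2 (ha.mul_left r))
    · have h3 : ¬ p ∣ r * a := fun h => (hp.dvd_mul.1 h).elim hpr' ha
      rw [if_pos ha, hf]
      simp only [if_pos h3, Nat.cast_mul, pow_mul]
      ring
  rw [sub_mul, sub_mul, one_mul, ← h2, ← h1, ← sum_sub_distrib, sum_filter]
  refine sum_congr rfl fun c _ => ?_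
  have h3 : c.Coprime (r * p) ↔ ¬ r ∣ c ∧ ¬ p ∣ c := by
    rw [Nat.coprime_mul_iff_right, Nat.coprime_comm, hr.coprime_iff_not_dvd, Nat.coprime_comm,
      hp.coprime_iff_not_dvd]
  by_cases hc : r ∣ c
  · rw [if_pos hc, sub_self, if_neg fun h => (h3.1 h).1 hc]
  · rw [if_neg hc, sub_zero, hf]
    simp only [h3, hc, not_false_eq_true, true_and]

/-- Sketch: the `l ^ n` elements `ζ ^ g ^ ((l - 1) i)` are distinct (`IsGen.inj`) roots of
`X ^ l ^ n - ζ ^ l ^ n` (`g ^ (l - 1) ≡ 1` modulo `l`, `IsGen.pow_eq_one 0`), so this polynomial is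
the product of the linear factors; evaluate at `1`. -/
theorem norm_rel {R : Type} [CommRing R] [IsDomain R] {l g n : ℕ} (hl : l.Prime) (hg : IsGen l g)
    {ζ : R} (hζ : IsPrimitiveRoot ζ (l ^ (n + 1))) :
    ∏ i ∈ range (l ^ n), (1 - ζ ^ g ^ ((l - 1) * i)) = 1 - ζ ^ l ^ n := by
  classical
  have h0 : 0 < l ^ n := pow_pos hl.pos _
  have h1 : 0 < l - 1 := Nat.sub_pos_of_lt hl.one_lt
  have hη : IsPrimitiveRoot (ζ ^ l) (l ^ n) := hζ.pow (pow_pos hl.pos _) (pow_succ' l n)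
  have hm : ∀ a b, ζ ^ a = ζ ^ b ↔ a ≡ b [MOD l ^ (n + 1)] := fun a b => by
    have hf : IsOfFinOrder ζ :=
      isOfFinOrder_iff_pow_eq_one.2 ⟨_, pow_pos hl.pos _, hζ.pow_eq_one⟩
    rw [hf.pow_eq_pow_iff_modEq, ← hζ.eq_orderOf]
  have hφ : Set.InjOn (fun i => ζ ^ g ^ ((l - 1) * i)) (range (l ^ n)) := fun i hi k hk h =>
    Nat.eq_of_mul_eq_mul_left h1 (hg.inj n (Nat.mul_lt_mul_of_pos_left (mem_range.1 hi) h1)
      (Nat.mul_lt_mul_of_pos_left (mem_range.1 hk) h1) ((hm _ _).1 h))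
  have hψ : Set.InjOn (fun t => (ζ ^ l) ^ t * ζ) (range (l ^ n)) := fun i hi k hk h =>
    hη.pow_inj (mem_range.1 hi) (mem_range.1 hk)
      (mul_right_cancel₀ (hζ.ne_zero (pow_pos hl.pos _).ne') h)
  have hsub : (range (l ^ n)).image (fun i => ζ ^ g ^ ((l - 1) * i)) ⊆
      (range (l ^ n)).image (fun t => (ζ ^ l) ^ t * ζ) := by
    intro x hx
    obtain ⟨i, -, rfl⟩ := mem_image.1 hx
    have h2 : g ^ ((l - 1) * i) ≡ 1 [MOD l] := by
      have h3 := (hg.pow_eq_one 0).pow i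
      simpa only [pow_zero, mul_one, zero_add, pow_one, one_pow, ← pow_mul] using h3
    have h4 := Nat.div_add_mod (g ^ ((l - 1) * i)) l
    rw [h2, Nat.mod_eq_of_lt hl.one_lt] at h4
    refine mem_image.2 ⟨(g ^ ((l - 1) * i) / l) % l ^ n, mem_range.2 (Nat.mod_lt _ h0), ?_⟩
    rw [← pow_eq_pow_mod _ hη.pow_eq_one, ← pow_mul, ← pow_succ, h4]
  have he := eq_of_subset_of_card_le hsub
    (by rw [card_image_of_injOn hφ, card_image_of_injOn hψ])
  rw [← neps_prod hη h0 ζ, ← prod_image (f := fun x => 1 - x) hφ, he,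
    prod_image (f := fun x => 1 - x) hψ]

/-- Sketch: `(1 - ζ ^ b) / (1 - ζ)` is a geometric sum, and `ζ` is a power of `ζ ^ b`. -/
theorem exists_unit {R : Type} [CommRing R] [IsDomain R] {M b : ℕ} {ζ : R}
    (hζ : IsPrimitiveRoot ζ M) (hM : 1 < M) (hb : b.Coprime M) :
    ∃ u : Rˣ, 1 - ζ ^ b = u * (1 - ζ) := by
  obtain ⟨u, hu⟩ := hζ.associated_sub_one_pow_sub_one_of_coprime hb
  exact ⟨u, by linear_combination hu⟩

end Pool.Agent.Lib.MP_446a91_nt.Sou
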