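import Pool.Agent.Lib.MP_e97e2b_nt.Ln.A2a

/-! The logarithmic character sum does not vanish. -/

namespace Pool.Agent.Lib.MP_446a91_nt.Sou

open Filter Topology

theorem nlog_units (l : ℕ) [Fact l.Prime] (F : ZMod l → ℂ) (h0 : F 0 = 0) :
    ∑ b : (ZMod l)ˣ, F (b : ZMod l) = ∑ b : ZMod l, F b := by
  refine Fintype.sum_of_injective (fun b : (ZMod l)ˣ => (b : ZMod l)) Units.val_injective _ _
    (fun i hi => ?_) (fun _ => rfl)
  by_cases h : i = 0
  · rw [h, h0]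
  · exact absurd ⟨Units.mk0 i h, rfl⟩ hi

theorem nlog_range (l : ℕ) [NeZero l] (G : ℕ → ℝ) :
    ∑ b : ZMod l, G b.val = ∑ k ∈ Finset.range l, G k := by
  refine Finset.sum_bij (fun b _ => b.val) (fun b _ => Finset.mem_range.2 (ZMod.val_lt b))
    (fun a _ b _ h => ZMod.val_injective l h) (fun k hk => ?_) (fun _ _ => rfl)
  exact ⟨(k : ZMod l), Finset.mem_univ _, ZMod.val_cast_of_lt (Finset.mem_range.1 hk)⟩

theorem nlog_triv (l : ℕ) [Fact l.Prime] {ζ : ℂ} (hζ : IsPrimitiveRoot ζ l) :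
    ∑ b : ZMod l, Real.log ‖1 - ζ ^ b.val‖ = Real.log l := by
  have hl : l.Prime := Fact.out
  rw [nlog_range l (fun k => Real.log ‖1 - ζ ^ k‖)]
  obtain ⟨n, rfl⟩ : ∃ n, l = n + 1 := ⟨l - 1, by have := hl.pos; omega⟩
  rw [Finset.sum_range_succ']
  have h1 := hζ.prod_one_sub_pow_eq_order
  have h2 : ∀ k ∈ Finset.range n, ‖1 - ζ ^ (k + 1)‖ ≠ 0 := by
    intro k hk
    rw [norm_ne_zero_iff, sub_ne_zero]
    exact (hζ.pow_ne_one_of_pos_of_lt (by omega)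
      (by have := Finset.mem_range.1 hk; omega)).symm
  rw [← Real.log_prod h2, ← norm_prod, h1]
  have h3 : ((n : ℂ) + 1) = ((n + 1 : ℕ) : ℂ) := by push_cast; rfl
  rw [h3, Complex.norm_natCast]
  simp

theorem nlog_shift (l : ℕ) [Fact l.Prime] (χ : DirichletCharacter ℂ l) (hχ : χ ≠ 1)
    (ψ : AddChar (ZMod l) ℂ) (a : ZMod l) :
    ∑ b : ZMod l, χ b * ψ (a * b) = χ⁻¹ a * gaussSum χ ψ := by
  by_cases h : a = 0
  · subst h
    simp only [zero_mul, AddChar.map_zero_eq_one, mul_one, MulChar.map_zero]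
    exact MulChar.sum_eq_zero_of_ne_one hχ
  · have h1 := gaussSum_mulShift_eq χ ψ (Units.mk0 a h)
    rw [Units.val_mk0] at h1
    rw [← h1]
    simp only [gaussSum, AddChar.mulShift_apply]

theorem nlog_series {w : ℂ} (hw : ‖w‖ < 1) :
    HasSum (fun k : ℕ => (w ^ k + (starRingEnd ℂ w) ^ k) / k)
      (-2 * (Real.log ‖1 - w‖ : ℂ)) := by
  have h1 := Complex.hasSum_taylorSeries_neg_log hw
  have h2 : HasSum (fun k : ℕ => (starRingEnd ℂ w) ^ k / k)
      (starRingEnd ℂ (-Complex.log (1 - w))) := by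
    have h3 := Complex.hasSum_conj'.2 h1
    simpa only [map_div₀, map_pow, map_natCast] using h3
  have h4 := h1.add h2
  rw [Complex.add_conj, Complex.neg_re, Complex.log_re] at h4
  have h5 : ((2 * -Real.log ‖1 - w‖ : ℝ) : ℂ) = -2 * (Real.log ‖1 - w‖ : ℂ) := by
    push_cast; ring
  rw [h5] at h4
  simpa only [add_div] using h4

theorem nlog_conj (l : ℕ) [Fact l.Prime] (ψ : AddChar (ZMod l) ℂ) (b : ZMod l) :
    starRingEnd ℂ (ψ b) = ψ (-b) := by
  rw [AddChar.map_neg_eq_conj]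

theorem nlog_hasSum (l : ℕ) [Fact l.Prime] (χ : DirichletCharacter ℂ l) (hχ : χ ≠ 1)
    (he : χ (-1) = 1) (ψ : AddChar (ZMod l) ℂ) {r : ℝ} (hr0 : 0 ≤ r) (hr : r < 1) :
    ∑ b : ZMod l, χ b * (Real.log ‖1 - r * ψ b‖ : ℂ) =
      -gaussSum χ ψ * ∑' k : ℕ, χ⁻¹ (k : ZMod l) / k * (r : ℂ) ^ k := by
  have hn : ∀ b, ‖(r : ℂ) * ψ b‖ < 1 := by
    intro b
    rw [norm_mul, AddChar.norm_apply, mul_one, Complex.norm_real, Real.norm_of_nonneg hr0]
    exact hr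
  have h1 := hasSum_sum (s := Finset.univ)
    (fun b (_ : b ∈ (Finset.univ : Finset (ZMod l))) => (nlog_series (hn b)).mul_left (χ b))
  have he' : χ⁻¹ (-1) = 1 := by rw [MulChar.inv_apply_eq_inv', he, inv_one]
  have h2 : ∀ k : ℕ, ∑ b : ZMod l, χ b * ((((r : ℂ) * ψ b) ^ k +
      (starRingEnd ℂ ((r : ℂ) * ψ b)) ^ k) / k) =
      2 * gaussSum χ ψ * (χ⁻¹ (k : ZMod l) / k * (r : ℂ) ^ k) := by
    intro k
    have h3 := nlog_shift l χ hχ ψ (k : ZMod l)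
    have h4 := nlog_shift l χ hχ ψ (-(k : ZMod l))
    rw [← neg_one_mul (k : ZMod l), map_mul, he', one_mul] at h4
    have h5 : ∀ b : ZMod l, χ b * ((((r : ℂ) * ψ b) ^ k +
        (starRingEnd ℂ ((r : ℂ) * ψ b)) ^ k) / k) =
        (χ b * ψ (k * b) + χ b * ψ (-1 * k * b)) * ((r : ℂ) ^ k / k) := by
      intro b
      rw [map_mul, Complex.conj_ofReal, nlog_conj, mul_pow, mul_pow, ← AddChar.map_nsmul_eq_pow,
        ← AddChar.map_nsmul_eq_pow, nsmul_eq_mul, nsmul_eq_mul]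
      have h6 : (k : ZMod l) * -b = -1 * k * b := by ring
      rw [h6]
      ring
    simp only [h5]
    rw [← Finset.sum_mul, Finset.sum_add_distrib, h3, h4]
    ring
  simp only [h2] at h1
  have h7 := h1.tsum_eq
  rw [tsum_mul_left] at h7
  have h8 : ∑ b : ZMod l, χ b * (-2 * (Real.log ‖1 - r * ψ b‖ : ℂ)) =
      -2 * ∑ b : ZMod l, χ b * (Real.log ‖1 - r * ψ b‖ : ℂ) := by
    rw [Finset.mul_sum]
    exact Finset.sum_congr rfl fun b _ => by ring
  rw [h8] at h7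
  linear_combination (1 / 2 : ℂ) * h7

theorem nlog_abel (l : ℕ) [NeZero l] (ξ : DirichletCharacter ℂ l) (hξ : ξ ≠ 1) :
    Tendsto (fun r : ℝ => ∑' k : ℕ, ξ (k : ZMod l) / k * (r : ℂ) ^ k) (𝓝[<] 1)
      (𝓝 (ξ.LFunction 1)) := by
  have h1 := Pool.Agent.Lib.MP_e97e2b_nt.Ln.lfun_tendsto ξ hξ (s := 1) (by simp)
  have h2 : Tendsto (fun n : ℕ => ∑ k ∈ Finset.range n, ξ (k : ZMod l) / k) atTop
      (𝓝 (ξ.LFunction 1)) := by
    rw [← tendsto_add_atTop_iff_nat 1]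
    refine h1.congr fun N => ?_
    rw [Finset.range_eq_Ico, Finset.sum_eq_sum_Ico_succ_bot (by omega)]
    have h3 : Finset.Ico (0 + 1) (N + 1) = Finset.Ioc 0 N := by
      ext k
      simp only [Finset.mem_Ico, Finset.mem_Ioc]
      omega
    rw [h3, Nat.cast_zero (R := ℂ), div_zero, zero_add]
    refine Finset.sum_congr rfl fun k _ => ?_
    rw [Complex.cpow_neg_one, div_eq_mul_inv]
  exact tendsto_map'_iff.1 (Complex.tendsto_tsum_powerSeries_nhdsWithin_lt h2)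

/-- Sketch.  `χ = 1`: the sum is `log ‖∏ (1 - ζ ^ b)‖ = log l`
(`IsPrimitiveRoot.prod_one_sub_pow_eq_order`).  `χ ≠ 1`: for real `0 < r < 1` put
`f r = ∑ b, χ b * log ‖1 - r ζ ^ b‖`.  `log ‖1 - w‖ = re (Complex.log (1 - w))` and
`-Complex.log (1 - w) = ∑' k, w ^ k / k` (`Complex.hasSum_taylorSeries_neg_log`); so
`-2 log ‖1 - r ζ ^ b‖ = ∑' k, r ^ k (ζ ^ (b k) + ζ ^ (-b k)) / k` (conjugate of `ζ` is `ζ⁻¹`).
With the Gauss sum `τ = ∑ b, χ b * ζ ^ b` one has `∑ b, χ b * ζ ^ (b k) = χ⁻¹ k * τ` for all `k`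
(`gaussSum_mulShift_eq`, or reindex `b ↦ b k`; for `l ∣ k` both sides vanish), and the same for `-k`
because `χ` is even.  So `f r = -τ ∑' k, χ⁻¹ k * r ^ k / k`.  `τ ≠ 0`
(`gaussSum_ne_zero_of_nontrivial` with `AddChar.zmodChar`).  As `r → 1` the left side is continuous
(`1 - ζ ^ b ≠ 0`), the right side tends to `-τ L(1, χ⁻¹)` by Abel's theorem
(`Complex.tendsto_tsum_powerSeries_nhdsWithin_lt`) and `Pool.Agent.Lib.MP_e97e2b_nt.Ln.lfun_tendsto`;
`DirichletCharacter.LFunction_apply_one_ne_zero`. -/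
theorem log_sum_ne_zero (l : ℕ) [Fact l.Prime] {ζ : ℂ} (hζ : IsPrimitiveRoot ζ l)
    (χ : DirichletCharacter ℂ l) (he : χ (-1) = 1) :
    ∑ b : (ZMod l)ˣ, χ b * (Real.log ‖1 - ζ ^ (b : ZMod l).val‖ : ℂ) ≠ 0 := by
  have hl : l.Prime := Fact.out
  by_cases hχ : χ = 1
  · subst hχ
    have h1 : ∀ b : (ZMod l)ˣ, (1 : DirichletCharacter ℂ l) b = 1 := fun b => MulChar.one_apply_coe b
    simp only [h1, one_mul]
    rw [nlog_units l (fun b => (Real.log ‖1 - ζ ^ b.val‖ : ℂ)) (by simp), ← Complex.ofReal_sum,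
      nlog_triv l hζ, Complex.ofReal_ne_zero]
    exact (Real.log_pos (by exact_mod_cast hl.one_lt)).ne'
  · set ψ : AddChar (ZMod l) ℂ := AddChar.zmodChar l hζ.pow_eq_one with hψ
    have hψa : ∀ b : ZMod l, ψ b = ζ ^ b.val := fun b => AddChar.zmodChar_apply _ b
    have hprim : ψ.IsPrimitive := AddChar.zmodChar_primitive_of_primitive_root l hζ
    have hτ : gaussSum χ ψ ≠ 0 := by
      refine gaussSum_ne_zero_of_nontrivial ?_ hχ hprim
      rw [ZMod.card]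
      exact_mod_cast hl.ne_zero
    rw [nlog_units l (fun b => χ b * (Real.log ‖1 - ζ ^ b.val‖ : ℂ)) (by simp)]
    have hc : ContinuousAt (fun r : ℝ => ∑ b : ZMod l, χ b * (Real.log ‖1 - r * ψ b‖ : ℂ)) 1 := by
      refine tendsto_finsetSum _ fun b _ => ?_
      by_cases hb : b = 0
      · subst hb
        simp only [MulChar.map_zero, zero_mul]
        exact tendsto_const_nhds
      · have h2 : ‖1 - ((1 : ℝ) : ℂ) * ψ b‖ ≠ 0 := by
          rw [norm_ne_zero_iff, Complex.ofReal_one, one_mul, sub_ne_zero, hψa]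
          exact (hζ.pow_ne_one_of_pos_of_lt ((ZMod.val_ne_zero b).2 hb) (ZMod.val_lt b)).symm
        have h3 : ContinuousAt (fun r : ℝ => ‖1 - (r : ℂ) * ψ b‖) 1 := by fun_prop
        exact (Complex.continuous_ofReal.continuousAt.comp (h3.log h2)).const_mul (χ b)
    have h4 := (nlog_abel l χ⁻¹ (inv_ne_one.2 hχ)).const_mul (-gaussSum χ ψ)
    have h5 : Tendsto (fun r : ℝ => ∑ b : ZMod l, χ b * (Real.log ‖1 - r * ψ b‖ : ℂ)) (𝓝[<] 1)
        (𝓝 (-gaussSum χ ψ * (χ⁻¹).LFunction 1)) := by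
      refine h4.congr' ?_
      filter_upwards [Ioo_mem_nhdsLT (zero_lt_one (α := ℝ))] with r hr
      exact (nlog_hasSum l χ hχ he ψ hr.1.le hr.2).symm
    have h6 := tendsto_nhds_unique (hc.tendsto.mono_left nhdsWithin_le_nhds) h5
    simp only [Complex.ofReal_one, one_mul, hψa] at h6
    rw [h6]
    exact mul_ne_zero (neg_ne_zero.2 hτ)
      (DirichletCharacter.LFunction_apply_one_ne_zero (inv_ne_one.2 hχ))

end Pool.Agent.Lib.MP_446a91_nt.Sou
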