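import Pool.Agent.Lib.MP_446a91_nt.Sou.NGen
import Pool.Agent.Lib.MP_446a91_nt.Sou.NLog

/-! Independence of the cyclotomic elements of prime level. -/

namespace Pool.Agent.Lib.MP_446a91_nt.Sou

open Polynomial

theorem nind_char {l g : ℕ} [Fact l.Prime] (h2 : l ≠ 2) (hg : IsGen l g) {ω : ℂ}
    (hω : ω ^ ((l - 1) / 2) = 1) :
    ∃ χ : DirichletCharacter ℂ l, χ (-1) = 1 ∧ ω * χ (g : ZMod l) = 1 := by
  have hl : l.Prime := Fact.out
  obtain ⟨m, hm⟩ := hl.odd_of_ne_two h2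
  have h3 := hl.two_le
  have e : (l - 1) / 2 = m := by omega
  rw [e] at hω
  have hω0 : ω ≠ 0 := by
    rintro rfl
    rw [zero_pow (by omega)] at hω
    exact zero_ne_one hω
  have ho : orderOf (g : ZMod l) = l - 1 := by
    have := hg.ord 0
    rwa [zero_add, pow_one, pow_zero, mul_one] at this
  let u : (ZMod l)ˣ := ZMod.unitOfCoprime g hg.cop
  have hu : (u : ZMod l) = g := ZMod.coe_unitOfCoprime g hg.cop
  have htop : Subgroup.zpowers u = ⊤ := Subgroup.eq_top_of_card_eq _ (by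
    rw [Nat.card_zpowers, ← orderOf_units, hu, ho, Nat.card_eq_fintype_card, ZMod.card_units])
  have hgen : ∀ x, x ∈ Subgroup.zpowers u := fun x => htop ▸ Subgroup.mem_top x
  have hw : (Units.mk0 ω hω0)⁻¹ ∈ rootsOfUnity (Fintype.card (ZMod l)ˣ) ℂ := by
    refine inv_mem ((mem_rootsOfUnity' _ _).2 ?_)
    rw [ZMod.card_units, show l - 1 = m * 2 by omega, Units.val_mk0, pow_mul, hω, one_pow]
  have hχ : ω * MulChar.ofRootOfUnity hw hgen (g : ZMod l) = 1 := by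
    rw [← hu, MulChar.ofRootOfUnity_spec, Units.val_inv_eq_inv_val, Units.val_mk0,
      mul_inv_cancel₀ hω0]
  refine ⟨MulChar.ofRootOfUnity hw hgen, ?_, hχ⟩
  have h1 : (g : ZMod l) ^ m = -1 := by
    refine (mul_self_eq_one_iff.1 ?_).resolve_left
      (pow_ne_one_of_lt_orderOf (by omega) (by omega))
    rw [← pow_add, show m + m = orderOf (g : ZMod l) by omega, pow_orderOf_eq_one]
  have h4 := congrArg (· ^ m) hχ
  simp only [mul_pow, hω, one_mul, one_pow] at h4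
  rw [← h1, map_pow, h4]

theorem nind_root {l g : ℕ} (hl : l.Prime) (h2 : l ≠ 2) (hg : IsGen l g) {ζ : ℂ}
    (hζ : IsPrimitiveRoot ζ l) (Q : ℤ[X])
    (h : ∀ b : ℕ, ¬ l ∣ b → (Q.sum fun i a => (a : ℝ) * Real.log ‖1 - ζ ^ (b * g ^ i)‖) = 0)
    {ω : ℂ} (hω : ω ^ ((l - 1) / 2) = 1) : aeval ω Q = 0 := by
  have : Fact l.Prime := ⟨hl⟩
  obtain ⟨χ, he, hχ⟩ := nind_char h2 hg hω
  let u : (ZMod l)ˣ := ZMod.unitOfCoprime g hg.cop
  have hu : (u : ZMod l) = g := ZMod.coe_unitOfCoprime g hg.cop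
  let f : (ZMod l)ˣ → ℂ := fun b => (Real.log ‖1 - ζ ^ (b : ZMod l).val‖ : ℂ)
  have h1 : ∀ (b : (ZMod l)ˣ) (i : ℕ),
      f (b * u ^ i) = (Real.log ‖1 - ζ ^ ((b : ZMod l).val * g ^ i)‖ : ℂ) := fun b i => by
    have : ((b * u ^ i : (ZMod l)ˣ) : ZMod l) = (((b : ZMod l).val * g ^ i : ℕ) : ZMod l) := by
      simp [hu]
    simp only [f]
    rw [this, ZMod.val_natCast, ← pow_eq_pow_mod _ hζ.pow_eq_one]
  have h3 : ∀ i : ℕ, ω ^ i * ∑ b : (ZMod l)ˣ, χ b * f b =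
      ∑ b : (ZMod l)ˣ, χ b * f (b * u ^ i) := fun i => by
    rw [← Equiv.sum_comp (Equiv.mulRight (u ^ i)), Finset.mul_sum]
    refine Finset.sum_congr rfl fun b _ => ?_
    have h4 : ω ^ i * χ (g : ZMod l) ^ i = 1 := by rw [← mul_pow, hχ, one_pow]
    rw [Equiv.coe_mulRight, Units.val_mul, Units.val_pow_eq_pow_val, map_mul, map_pow, hu]
    linear_combination (χ b * f (b * u ^ i)) * h4
  refine (mul_eq_zero.1 ?_).resolve_right (log_sum_ne_zero l hζ χ he)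
  change _ * ∑ b : (ZMod l)ˣ, χ b * f b = 0
  rw [aeval_def, eval₂_eq_sum, Polynomial.sum, Finset.sum_mul]
  simp only [mul_assoc, h3]
  simp only [Finset.mul_sum]
  rw [Finset.sum_comm]
  refine Finset.sum_eq_zero fun b _ => ?_
  have h5 := congrArg (fun x : ℝ => χ b * (x : ℂ)) (h (b : ZMod l).val fun hb =>
    b.ne_zero (by rw [← ZMod.natCast_zmod_val (b : ZMod l), ZMod.natCast_eq_zero_iff]; exact hb))
  simp only [Polynomial.sum, Complex.ofReal_sum, Complex.ofReal_mul, Complex.ofReal_intCast,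
    Complex.ofReal_zero, mul_zero, Finset.mul_sum] at h5
  refine Eq.trans (Finset.sum_congr rfl fun i _ => ?_) h5
  rw [h1, eq_intCast, mul_left_comm]

/-- Sketch: let `h = (l - 1) / 2` and `ω ^ h = 1` in `ℂ`.  `g` generates `(ZMod l)ˣ` (`hg.ord 0`); let
`χ` be the character with `χ g = ω⁻¹` (`MulChar.ofRootOfUnity`); `-1 = g ^ h`, so `χ (-1) = 1`.
Multiply the hypothesis for `b` by `χ b`, sum over the units `b`, substitute `b ↦ b g ^ (-i)`: the
result is `Q(ω)` times the sum of `log_sum_ne_zero`.  So `Q` vanishes at the `h` distinct roots of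
`X ^ h - 1`; the remainder of `Q` modulo the monic `X ^ h - 1` has degree `< h` and `h` roots
(`Polynomial.eq_zero_of_natDegree_lt_card_of_eval_eq_zero'`, `nthRootsFinset`), so it is zero. -/
theorem indep {l g : ℕ} (hl : l.Prime) (h2 : l ≠ 2) (hg : IsGen l g) {ζ : ℂ}
    (hζ : IsPrimitiveRoot ζ l) (Q : ℤ[X])
    (h : ∀ b : ℕ, ¬ l ∣ b → (Q.sum fun i a => (a : ℝ) * Real.log ‖1 - ζ ^ (b * g ^ i)‖) = 0) :
    (X ^ ((l - 1) / 2) - 1 : ℤ[X]) ∣ Q := by
  have hm : (l - 1) / 2 ≠ 0 := by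
    obtain ⟨m, hm⟩ := hl.odd_of_ne_two h2
    have := hl.two_le
    omega
  have hmon : (X ^ ((l - 1) / 2) - 1 : ℤ[X]).Monic := monic_X_pow_sub_C 1 hm
  have hdeg : (X ^ ((l - 1) / 2) - 1 : ℤ[X]).natDegree = (l - 1) / 2 := natDegree_X_pow_sub_C
  rw [← modByMonic_eq_zero_iff_dvd hmon]
  refine map_injective (algebraMap ℤ ℂ) (RingHom.injective_int _) ?_
  rw [Polynomial.map_zero]
  refine eq_zero_of_natDegree_lt_card_of_eval_eq_zero' _ (nthRootsFinset ((l - 1) / 2) 1)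
    (fun ω hω => ?_) ?_
  · have h1 := (mem_nthRootsFinset (Nat.pos_of_ne_zero hm) 1).1 hω
    rw [eval_map_algebraMap, aeval_modByMonic_eq_self_of_root (by simp [h1])]
    exact nind_root hl h2 hg hζ Q h h1
  · rw [(Complex.isPrimitiveRoot_exp _ hm).card_nthRootsFinset]
    refine natDegree_map_le.trans_lt ((natDegree_modByMonic_lt Q hmon fun e => hm ?_).trans_eq hdeg)
    rw [← hdeg, e, natDegree_one]

end Pool.Agent.Lib.MP_446a91_nt.Sou
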