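import Pool.Agent.Lib.MP_446a91_nt.Sou.NGal

/-! The multiplicative group of `ℚ̄` modulo torsion as a module over the polynomial ring. -/

namespace Pool.Agent.Lib.MP_446a91_nt.Sou

open Polynomial

noncomputable section

/-- The multiplicative group modulo torsion, written additively, with the action of `S`. -/
def VS (_ : GQ) : Type := Additive (Qbˣ ⧸ CommGroup.torsion Qbˣ)

instance (S : GQ) : AddCommGroup (VS S) :=
  inferInstanceAs (AddCommGroup (Additive (Qbˣ ⧸ CommGroup.torsion Qbˣ)))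

variable (S : GQ)

/-- The class of a unit. -/
def clU : Additive Qbˣ →+ VS S :=
  MonoidHom.toAdditive (QuotientGroup.mk' (CommGroup.torsion Qbˣ))

/-- The action of `S`. -/
def actS : Module.End ℤ (VS S) :=
  (MonoidHom.toAdditive (QuotientGroup.map (CommGroup.torsion Qbˣ) (CommGroup.torsion Qbˣ)
    (Units.map (S : Qb →* Qb)) fun _ h => MonoidHom.isOfFinOrder _ h)).toIntLinearMap

instance : Module ℤ[X] (VS S) := Module.compHom (VS S) (aeval (actS S)).toRingHom

theorem VS_smul (P : ℤ[X]) (v : VS S) : P • v = aeval (actS S) P v := rfl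

theorem VS_int (k : ℤ) (v : VS S) : (k : ℤ[X]) • v = k • v := by
  rw [VS_smul, map_intCast, Module.End.intCast_apply]

theorem VS_tf (k : ℤ) (v : VS S) (hk : k ≠ 0) (h : (k : ℤ[X]) • v = 0) : v = 0 := by
  rw [VS_int] at h
  have : IsAddTorsionFree (VS S) :=
    inferInstanceAs (IsAddTorsionFree (Additive (Qbˣ ⧸ CommGroup.torsion Qbˣ)))
  exact (smul_eq_zero.1 h).resolve_left hk

open Classical in
/-- The class of an element. -/
def lgc (x : Qb) : VS S := if h : x = 0 then 0 else clU S (Additive.ofMul (Units.mk0 x h))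

theorem lgc_unit (u : Qbˣ) : lgc S u = clU S (Additive.ofMul u) := by
  simp [lgc]

theorem lgc_mul {x y : Qb} (hx : x ≠ 0) (hy : y ≠ 0) : lgc S (x * y) = lgc S x + lgc S y := by
  lift x to Qbˣ using hx.isUnit
  lift y to Qbˣ using hy.isUnit
  rw [← Units.val_mul, lgc_unit, lgc_unit, lgc_unit, ofMul_mul, map_add]

theorem lgc_eq_zero {x : Qb} (hx : x ≠ 0) : lgc S x = 0 ↔ ∃ k ≠ 0, x ^ k = 1 := by
  lift x to Qbˣ using hx.isUnit
  rw [lgc_unit]
  refine (QuotientGroup.eq_one_iff (N := CommGroup.torsion Qbˣ) x).trans ?_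
  rw [CommGroup.mem_torsion, isOfFinOrder_iff_pow_eq_one]
  simp only [Nat.pos_iff_ne_zero, Units.ext_iff, Units.val_pow_eq_pow_val, Units.val_one]

theorem lgc_one : lgc S 1 = 0 := (lgc_eq_zero S one_ne_zero).2 ⟨1, one_ne_zero, pow_one _⟩

theorem lgc_pow {x : Qb} (hx : x ≠ 0) (k : ℕ) : lgc S (x ^ k) = (k : ℤ[X]) • lgc S x := by
  induction k with
  | zero => simp [lgc_one]
  | succ k ih => rw [pow_succ, lgc_mul S (pow_ne_zero _ hx) hx, ih, Nat.cast_succ, add_smul, one_smul]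

theorem lgc_inv {x : Qb} (hx : x ≠ 0) : lgc S x⁻¹ = -lgc S x := by
  rw [eq_neg_iff_add_eq_zero, ← lgc_mul S (inv_ne_zero hx) hx, inv_mul_cancel₀ hx, lgc_one]

theorem lgc_prod {ι : Type} (s : Finset ι) {x : ι → Qb} (hx : ∀ i ∈ s, x i ≠ 0) :
    lgc S (∏ i ∈ s, x i) = ∑ i ∈ s, lgc S (x i) := by
  classical
  induction s using Finset.induction_on with
  | empty => simp [lgc_one]
  | insert a s ha ih =>
    have h1 := fun i hi => hx i (Finset.mem_insert_of_mem hi)
    rw [Finset.prod_insert ha, Finset.sum_insert ha, lgc_mul S (hx a (by simp))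
      (Finset.prod_ne_zero_iff.2 h1), ih h1]

theorem X_smul_lgc (x : Qb) : (X : ℤ[X]) • lgc S x = lgc S (S x) := by
  rcases eq_or_ne x 0 with rfl | hx
  · simp [lgc]
  lift x to Qbˣ using hx.isUnit
  rw [VS_smul, aeval_X, lgc_unit, show S x = (Units.map (S : Qb →* Qb) x : Qbˣ) from rfl, lgc_unit]
  rfl

theorem X_pow_smul_lgc (k : ℕ) (x : Qb) : (X : ℤ[X]) ^ k • lgc S x = lgc S ((S ^ k) x) := by
  induction k with
  | zero => simp
  | succ k ih => rw [pow_succ', mul_smul, ih, X_smul_lgc, pow_succ', AlgEquiv.mul_apply]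

/-- The classes of the real units of a cyclotomic field. -/
def MU (c : GQ) {ζ : Qb} (hζ : ∃ k ≠ 0, ζ ^ k = 1) : Submodule ℤ[X] (VS S) where
  carrier := {v | ∃ u ∈ RU c ζ, v = lgc S u}
  zero_mem' := ⟨1, one_mem _, by simp [lgc_one]⟩
  add_mem' := by
    rintro _ _ ⟨u, hu, rfl⟩ ⟨u', hu', rfl⟩
    exact ⟨u * u', mul_mem hu hu', (lgc_mul S u.ne_zero u'.ne_zero).symm⟩
  smul_mem' := by
    obtain ⟨k, hk, hζ⟩ := hζ
    rintro P _ ⟨u, hu, rfl⟩
    induction P using Polynomial.induction_on' with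
    | add P Q hP hQ =>
      obtain ⟨a, ha, e⟩ := hP
      obtain ⟨b, hb, e'⟩ := hQ
      exact ⟨a * b, mul_mem ha hb, by
        rw [add_smul, e, e']; exact (lgc_mul S a.ne_zero b.ne_zero).symm⟩
    | monomial n a =>
      refine ⟨Units.map ((S ^ n : GQ) : Qb →* Qb) u ^ a, zpow_mem (RU_aut hk hζ _ hu) a, ?_⟩
      rw [← C_mul_X_pow_eq_monomial, mul_smul, X_pow_smul_lgc, eq_intCast, VS_int, lgc_unit,
        ofMul_zpow, map_zsmul, ← lgc_unit]
      rfl

theorem MU_fg (c : GQ) {ζ : Qb} (hζ : ∃ k ≠ 0, ζ ^ k = 1) (h : (RU c ζ).FG) :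
    (MU S c hζ).FG := by
  classical
  obtain ⟨T, hT⟩ := h
  refine ⟨T.image fun u : Qbˣ => lgc S u, le_antisymm (Submodule.span_le.2 ?_) ?_⟩
  · intro v hv
    obtain ⟨u, hu, rfl⟩ := Finset.mem_image.1 hv
    exact ⟨u, hT ▸ Subgroup.subset_closure hu, rfl⟩
  · rintro _ ⟨u, hu, rfl⟩
    rw [← hT] at hu
    induction hu using Subgroup.closure_induction with
    | mem u hu => exact Submodule.subset_span (Finset.mem_image_of_mem _ hu)
    | one => simp [lgc_one]
    | mul u u' _ _ h1 h2 =>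
      rw [Units.val_mul, lgc_mul S u.ne_zero u'.ne_zero]
      exact add_mem h1 h2
    | inv u _ h1 =>
      rw [Units.val_inv_eq_inv_val, lgc_inv S u.ne_zero]
      exact neg_mem h1

/-- The logarithm of an absolute value is a functional on the classes. -/
theorem exists_log (ι : Qb →+* ℂ) :
    ∃ f : VS S →+ ℝ, ∀ x, f (lgc S x) = Real.log ‖ι x‖ := by
  let f₀ : Qbˣ →* Multiplicative ℝ := MonoidHom.mk' (fun u => Multiplicative.ofAdd
    (Real.log ‖ι u‖)) fun u u' => by
      rw [← ofAdd_add, Units.val_mul, map_mul, norm_mul, Real.log_mul] <;> simp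
  have h : CommGroup.torsion Qbˣ ≤ f₀.ker := fun u hu =>
    (MonoidHom.isOfFinOrder f₀ hu).eq_one'
  refine ⟨MonoidHom.toAdditiveLeft (QuotientGroup.lift _ f₀ h), fun x => ?_⟩
  rcases eq_or_ne x 0 with rfl | hx
  · simp [lgc]
  lift x to Qbˣ using hx.isUnit
  rw [lgc_unit]
  rfl

end

end Pool.Agent.Lib.MP_446a91_nt.Sou
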