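import Pool.Agent.Lib.MP_446a91_nt.Sou.NAlg
import Pool.Agent.Lib.MP_446a91_nt.Sou.NMod
import Pool.Agent.Lib.MP_446a91_nt.Sou.NInd
import Pool.Agent.Lib.MP_446a91_nt.Sou.NBdd

/-! The twisted norms of units are not almost powers; the nonvanishing theorem. -/

namespace Pool.Agent.Lib.MP_446a91_nt.Sou

open Polynomial IntermediateField

theorem pow_S {S : GQ} {ζ : Qb} {g : ℕ} (h : S ζ = ζ ^ g) (k : ℕ) : (S ^ k) ζ = ζ ^ g ^ k := by
  induction k with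
  | zero => simp
  | succ k ih => rw [pow_succ, AlgEquiv.mul_apply, h, map_pow, ih, ← pow_mul, pow_succ]

theorem aut_ne (σ : GQ) (w : Qbˣ) : σ w ≠ 0 := (_root_.map_ne_zero σ).2 w.ne_zero

theorem roots_pow {l : ℕ} {z : ℕ → Qb} (hz : Gal.IsRoots l z) (n : ℕ) :
    z (n + 1) ^ l ^ n = z 1 := by
  induction n with
  | zero => simp
  | succ n ih => rw [pow_succ', pow_mul, hz.step, ih]

theorem lgc_cyc {l g n : ℕ} (hl : l.Prime) (hg : g.Coprime l) {ζ : Qb}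
    (hζ : IsPrimitiveRoot ζ (l ^ (n + 1))) {c S : GQ} {ι : Qb →+* ℂ} (hc : IsCC c ι)
    (hS : S ζ = ζ ^ g) : ∃ u ∈ RU c ζ, lgc S u = (2 * (X - 1) : ℤ[X]) • lgc S (1 - ζ) := by
  have h0 : l ^ (n + 1) ≠ 0 := pow_ne_zero _ hl.ne_zero
  have h1 : 1 < l ^ (n + 1) := Nat.one_lt_pow (by omega) hl.one_lt
  let ζ' : OK ℚ⟮ζ⟯ := ⟨ζ, mem_OK.2 ⟨mem_adjoin_simple_self ℚ ζ, hζ.isIntegral (by omega)⟩⟩
  have hζ' : IsPrimitiveRoot ζ' (l ^ (n + 1)) :=
    IsPrimitiveRoot.of_map_of_injective (f := (OK ℚ⟮ζ⟯).subtype) hζ Subtype.val_injective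
  obtain ⟨a, ha⟩ := exists_unit hζ' h1 (hg.pow_right (n + 1))
  let b : Qbˣ := Units.map ((OK ℚ⟮ζ⟯).subtype : OK ℚ⟮ζ⟯ →* Qb) a
  have hb : 1 - ζ ^ g = b * (1 - ζ) := by simpa [ζ', b] using congrArg Subtype.val ha
  have m1 : (b : Qb) ∈ OK ℚ⟮ζ⟯ := a.1.2
  have m2 : ((b⁻¹ : Qbˣ) : Qb) ∈ OK ℚ⟮ζ⟯ := a.2.2
  have hz0 : ζ ≠ 0 := hζ.ne_zero h0
  have key : ∀ η : Qb, η ≠ 1 → η ^ l ^ (n + 1) = 1 → lgc S (c (1 - η)) = lgc S (1 - η) := by
    intro η h2 h3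
    have h4 : η ≠ 0 := by rintro rfl; rw [zero_pow h0] at h3; exact zero_ne_one h3
    have h5 : c (1 - η) = -η⁻¹ * (1 - η) := by
      rw [map_sub, map_one, hc.root h0 h3]
      field_simp
      ring
    rw [h5, lgc_mul S (by simp [h4]) (sub_ne_zero.2 h2.symm),
      (lgc_eq_zero S (by simp [h4])).2 ⟨2 * l ^ (n + 1), by omega, by
        rw [pow_mul, neg_sq, ← pow_mul, mul_comm, pow_mul, inv_pow, h3]; simp⟩, zero_add]
  have n1 : ζ ≠ 1 := hζ.ne_one h1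
  have n2 : ζ ^ g ≠ 1 := (hζ.pow_of_coprime g (hg.pow_right _)).ne_one h1
  have n3 : 1 - ζ ≠ 0 := sub_ne_zero.2 n1.symm
  have e1 : lgc S (b : Qb) = (X - 1 : ℤ[X]) • lgc S (1 - ζ) := by
    rw [sub_smul, one_smul, X_smul_lgc, map_sub, map_one, hS, hb, lgc_mul S b.ne_zero n3,
      add_sub_cancel_right]
  have e2 : lgc S (c b) = lgc S (b : Qb) := by
    have h6 := key (ζ ^ g) n2 (by rw [← pow_mul, mul_comm, pow_mul, hζ.pow_eq_one, one_pow])
    rw [hb, map_mul, lgc_mul S (aut_ne _ _) ((_root_.map_ne_zero c).2 n3), key ζ n1 hζ.pow_eq_one,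
      lgc_mul S b.ne_zero n3] at h6
    exact add_right_cancel h6
  refine ⟨b * Units.map (c : Qb →* Qb) b, ⟨mul_mem m1 (OK_aut h0 hζ.pow_eq_one c m1), ?_, ?_⟩, ?_⟩
  · rw [mul_inv, Units.val_mul, ← map_inv]
    exact mul_mem m2 (OK_aut h0 hζ.pow_eq_one c m2)
  · simp [hc.invol, mul_comm]
  · rw [Units.val_mul, lgc_mul S (Units.ne_zero _) (Units.ne_zero _), mul_smul, two_smul, ← e1]
    exact congrArg _ e2

theorem not_bdd {l g j : ℕ} (hl : l.Prime) (h2 : l ≠ 2) {z : ℕ → Qb} (hz : Gal.IsRoots l z)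
    {c S : GQ} {ι : Qb →+* ℂ} (hc : IsCC c ι) (hg : IsGen l g) (hS : ∀ n, S (z n) = z n ^ g)
    (hj : Even j) (hj' : ¬ (l - 1) ∣ j) : ¬ Bdd l z c S g j := by
  rintro ⟨e, he⟩
  have := Fact.mk hl
  have hj0 : j ≠ 0 := by rintro rfl; simp at hj'
  have hr : ∀ n, ∃ k ≠ 0, z n ^ k = 1 := fun n =>
    ⟨l ^ n, pow_ne_zero _ hl.ne_zero, (hz.prim n).pow_eq_one⟩
  have hg0 : (g : ZMod l) ≠ 0 := fun h => hl.one_lt.ne'
    (Nat.Coprime.eq_one_of_dvd hg.cop.symm ((ZMod.natCast_eq_zero_iff _ _).1 h))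
  let ψ : ℤ[X] →+* ZMod l := eval₂RingHom (Int.castRingHom _) ((g : ZMod l) ^ j)⁻¹
  have hψX : ψ X = ((g : ZMod l) ^ j)⁻¹ := by simp [ψ]
  have hfix : ∀ n (σ : GQ), σ (z n) = z n → ∀ x ∈ ℚ⟮z n⟯, σ x = x := fun n σ h x hx =>
    mem_adjoin_iff.1 hx σ (by simpa using h)
  have hmod : ∀ n a b, a ≡ b [MOD l ^ n] → z n ^ a = z n ^ b := fun n a b h => by
    rw [← pow_mod_orderOf, ← (hz.prim n).eq_orderOf, h, (hz.prim n).eq_orderOf, pow_mod_orderOf]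
  obtain ⟨v, hv⟩ := hg.val hl h2 hj0
  choose U hU hU' using fun n => lgc_cyc hl hg.cop (hz.prim (n + 1)) hc (hS (n + 1))
  have hne : ∀ n a, ¬ l ∣ a → 1 - z (n + 1) ^ a ≠ 0 := fun n a ha =>
    one_sub_pow_ne (hz.prim (n + 1)) ha
  have hgp : ∀ k, ¬ l ∣ g ^ k := fun k h =>
    hl.one_lt.ne' (Nat.Coprime.eq_one_of_dvd (hg.cop.pow_left k).symm h)
  obtain ⟨a, ha, ha'⟩ := alg (VS_tf S) h2 (X : ℤ[X]) ((g : ℤ) ^ j) ψ
    (by simp [hψX, hg0]) (fun n => MU S c (hr (n + 1)))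
    (by
      rintro n _ ⟨u, hu, rfl⟩
      rw [X_pow_smul_lgc, hfix (n + 1) _ _ _ hu.1.1]
      rw [pow_S (hS _), hmod _ _ _ (hg.pow_eq_one n), pow_one])
    (by
      rintro n _ ⟨w, hw, rfl⟩ h
      obtain ⟨k, hk, hk'⟩ := hr (n + 1)
      have hw' := RU_aut hk hk' (S ^ (l - 1)) hw
      have h3 : (S ^ (l - 1)) w * (w : Qb)⁻¹ ≠ 0 :=
        mul_ne_zero (aut_ne _ _) (inv_ne_zero w.ne_zero)
      rw [X_pow_smul_lgc, ← sub_eq_zero, sub_eq_add_neg, ← lgc_inv S w.ne_zero,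
        ← lgc_mul S (aut_ne _ _) (inv_ne_zero w.ne_zero), lgc_eq_zero S h3] at h
      obtain ⟨m, hm, hm'⟩ := h
      have h4 := hc.root hm hm'
      rw [map_mul, map_inv₀, hw.2.2, show c ((S ^ (l - 1)) w) = (S ^ (l - 1)) w from hw'.2.2] at h4
      have h5 : (S ^ (l - 1)) ((w : Qb) ^ 2) = (w : Qb) ^ 2 := by
        have h6 := aut_ne (S ^ (l - 1)) w
        have h7 := w.ne_zero
        rw [map_pow]
        field_simp at h4
        exact h4
      have h6 : ∀ i, (S ^ ((l - 1) * i)) ((w : Qb) ^ 2) = (w : Qb) ^ 2 := by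
        intro i
        induction i with
        | zero => simp
        | succ i ih => rw [mul_add, mul_one, pow_add, AlgEquiv.mul_apply, h5, ih]
      have h7 : (w : Qb) ^ 2 ∈ ℚ⟮z (0 + 1)⟯ := by
        refine mem_adjoin_iff.2 fun σ hσ => ?_
        obtain ⟨b, hb⟩ := aut_root σ hk hk'
        have h8 : b ≡ 1 [MOD l] := by
          have h9 := hσ (z 1) rfl
          rw [← roots_pow hz n, map_pow, hb, ← pow_mul, mul_comm, pow_mul, roots_pow hz n] at h9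
          have h10 := (hz.prim 1).eq_orderOf
          rw [pow_one] at h10
          rw [h10, ← (isOfFinOrder_iff_pow_eq_one.2 ⟨l ^ 1, by simpa using hl.pos,
            (hz.prim 1).pow_eq_one⟩).pow_eq_pow_iff_modEq, h9, pow_one]
        obtain ⟨i, hi⟩ := hg.exists_pow hl n h8
        have h9 := hfix (n + 1) ((S ^ ((l - 1) * i))⁻¹ * σ) (by
          rw [AlgEquiv.mul_apply, hb, ← hmod _ _ _ hi, ← pow_S (hS _)]
          exact AlgEquiv.symm_apply_apply _ _) _ (pow_mem hw.1.1 2)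
        rw [AlgEquiv.mul_apply] at h9
        exact ((AlgEquiv.symm_apply_eq _).1 h9).trans (h6 i)
      refine ⟨w ^ 2, ⟨⟨h7, (pow_mem hw.1 2).2⟩, ⟨?_, ?_⟩, by simp [hw.2.2]⟩, ?_⟩
      · simpa using inv_mem h7
      · rw [← inv_pow]
        exact (pow_mem hw.2.1 2).2
      · rw [Units.val_pow_eq_pow_val, lgc_pow S w.ne_zero]
        rfl)
    (e := e) (by
      rintro n _ ⟨u, hu, rfl⟩
      obtain ⟨β, hβ, h⟩ := he n u hu
      refine ⟨_, ⟨β, hβ, rfl⟩, ?_⟩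
      have h3 := congrArg (lgc S) h
      have h4 := fun k (_ : k ∈ Finset.range ((l - 1) * l ^ n)) =>
        pow_ne_zero (g ^ (k * j)) (aut_ne (S ^ k) u)
      rw [lgc_pow S β.ne_zero, twN, lgc_pow S (Finset.prod_ne_zero_iff.2 h4),
        lgc_prod S _ h4] at h3
      push_cast at h3
      rw [← h3, Finset.sum_smul]
      congr 1
      refine Finset.sum_congr rfl fun k _ => ?_
      rw [lgc_pow S (aut_ne _ _), mul_pow, mul_smul, X_pow_smul_lgc]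
      push_cast
      rw [← pow_mul, mul_comm j k])
    hv (MU_fg S c _ (RU_fg c _)) (u₀ := lgc S (U 0)) ⟨U 0, hU 0, rfl⟩
    (fun n => ⟨_, ⟨U n, hU n, rfl⟩, by
      rw [hU', hU', smul_comm, Finset.sum_smul]
      congr 1
      rw [← roots_pow hz n, ← norm_rel hl hg (hz.prim (n + 1)),
        lgc_prod S _ fun i _ => hne n _ (hgp _)]
      refine Finset.sum_congr rfl fun i _ => ?_
      rw [X_pow_smul_lgc, map_sub, map_one, pow_S (hS _)]⟩)
  rw [hU', ← mul_smul] at ha'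
  have hζ : IsPrimitiveRoot (z 1) l := by simpa using hz.prim 1
  obtain ⟨P, hP⟩ := indep hl h2 hg (hζ.map_of_injective ι.injective) (a * (2 * (X - 1)))
    fun b hb => by
      obtain ⟨σ, hσ⟩ := exists_aut hl.ne_zero hζ ((Nat.Prime.coprime_iff_not_dvd hl).2 hb).symm
      obtain ⟨f, hf⟩ := exists_log S (ι.comp (σ : Qb →+* Qb))
      have h3 := congrArg f ha'
      rw [map_zero] at h3
      rw [← h3]
      generalize a * (2 * (X - 1)) = Q
      conv_rhs => rw [← Q.sum_C_mul_X_pow_eq, Polynomial.sum, Finset.sum_smul, map_sum]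
      refine Finset.sum_congr rfl fun i _ => ?_
      rw [mul_smul, X_pow_smul_lgc, eq_intCast, VS_int, map_zsmul, hf, map_sub, map_one,
        pow_S (hS _)]
      simp [hσ, pow_mul]
  have h3 := congrArg ψ hP
  obtain ⟨k, rfl⟩ := hj
  have h4 : ψ X ^ ((l - 1) / 2) = 1 := by
    rw [hψX, inv_pow, ← pow_mul, ← two_mul, mul_comm 2 k, mul_assoc,
      Nat.mul_div_cancel' (hl.even_sub_one h2).two_dvd, mul_comm, pow_mul,
      ZMod.pow_card_sub_one_eq_one hg0, one_pow, inv_one]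
  rw [map_mul ψ _ P, map_sub ψ (X ^ _), map_pow, h4, map_one, sub_self, zero_mul] at h3
  simp only [map_mul, map_sub, map_one, mul_eq_zero, ha,
    false_or, map_ofNat, sub_eq_zero, hψX, inv_eq_one] at h3
  rcases h3 with h3 | h3
  · exact h2 ((Nat.prime_dvd_prime_iff_eq hl Nat.prime_two).1
      ((ZMod.natCast_eq_zero_iff 2 l).1 (by exact_mod_cast h3)))
  · exact hg.pow_ne_one hj' h3

theorem sou_of (hT : ∀ L j, (∀ p k : ℕ, p.Prime → p ^ k ≠ L) → L ≠ 0 → 1 ≤ j → Torsion L j)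
    (hR : ∀ q, Odd q → 3 ≤ q → RankOne q) (l : ℕ) [Fact l.Prime] (z : ℕ → Qb)
    (hz : Gal.IsRoots l z) : Gal.Sou l z := by
  intro m hm h3
  have hl : l.Prime := Fact.out
  have hj : Even (m - 1) := Nat.Odd.sub_odd hm odd_one
  by_cases h : (l - 1) ∣ m - 1
  · exact sou_elem hl hz hj h
  have h2 : l ≠ 2 := by rintro rfl; simp at h
  have h3' : l ≠ 3 := by rintro rfl; exact h hj.two_dvd
  by_contra hno
  push Not at hno
  obtain ⟨c, ι, hc⟩ := exists_cc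
  obtain ⟨g, hg⟩ := exists_gen hl h2
  obtain ⟨S, hS⟩ := exists_S hl hz hg.cop
  obtain ⟨I, _, _, X, c₁, c₂, hX1, hX2, h₁, h₂, hX⟩ := hT (3 * l) (m - 1) (fun p k hp e => by
    have a1 : 3 ∣ p := Nat.prime_three.dvd_of_dvd_pow (e ▸ dvd_mul_right 3 l)
    have a2 : l ∣ p := hl.dvd_of_dvd_pow (e ▸ dvd_mul_left l 3)
    exact h3' (((Nat.prime_dvd_prime_iff_eq hl hp).1 a2).trans
      ((Nat.prime_dvd_prime_iff_eq Nat.prime_three hp).1 a1).symm))
    (mul_ne_zero (by norm_num) hl.ne_zero) (by omega)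
  obtain ⟨r, hr, hR⟩ := hR (2 * (m - 1) + 1) (odd_two_mul_add_one _) (by omega)
  rcases hR I X hX1 hX2 with ha | hb
  · exact not_tors hl h3' hj (by omega) hr h₂ hX ha
  · exact not_bdd hl h2 hz hc hg hS hj h (bdd hl h3' hz hc hg hS (by omega) hr h₁ hX hb hno)

end Pool.Agent.Lib.MP_446a91_nt.Sou
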