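import Pool.Agent.Lib.MP_446a91_nt.Sou.ND

/-! Primitive roots modulo all powers of an odd prime. -/

namespace Pool.Agent.Lib.MP_446a91_nt.Sou

variable {l g : ℕ}

theorem ngen_mod (N g k : ℕ) : g ^ k ≡ 1 [MOD N] ↔ orderOf (g : ZMod N) ∣ k := by
  rw [orderOf_dvd_iff_pow_eq_one, ← ZMod.natCast_eq_natCast_iff]
  simp

theorem ngen_int (N g k : ℕ) : (N : ℤ) ∣ (g : ℤ) ^ k - 1 ↔ g ^ k ≡ 1 [MOD N] := by
  rw [Nat.ModEq.comm, Nat.modEq_iff_dvd]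
  simp

theorem ngen_dvd (hg : IsGen l g) (n k : ℕ) :
    g ^ k ≡ 1 [MOD l ^ (n + 1)] ↔ (l - 1) * l ^ n ∣ k := by
  rw [ngen_mod, hg.ord]

theorem ngen_dvd_one (hg : IsGen l g) (k : ℕ) : g ^ k ≡ 1 [MOD l] ↔ l - 1 ∣ k := by
  simpa using ngen_dvd hg 0 k

/-- Sketch: take a generator of `(ZMod (l ^ 2))ˣ` (`ZMod.isCyclic_units_of_prime_pow`), `g` its
value.  Then `g ^ (l - 1) = 1 + l * a` with `l ∤ a`; `ZMod.orderOf_one_add_mul_prime` gives the order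
`l ^ n` of `g ^ (l - 1)` modulo `l ^ (n + 1)`; the order of `g` divides the totient, is divisible by
`l ^ n` and by `l - 1` (reduce modulo `l`, where `g` is a generator). -/
theorem exists_gen (hl : l.Prime) (h2 : l ≠ 2) : ∃ g, IsGen l g := by
  have : NeZero (l ^ 2) := ⟨pow_ne_zero _ hl.ne_zero⟩
  have h1 : 0 < l - 1 := Nat.sub_pos_of_lt hl.one_lt
  obtain ⟨u, hu⟩ := (ZMod.isCyclic_units_of_prime_pow l hl h2 2).exists_ofOrder_eq_natCard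
  rw [Nat.card_eq_fintype_card, ZMod.card_units_eq_totient, Nat.totient_prime_pow_succ hl,
    pow_one, ← orderOf_units, ← ZMod.natCast_zmod_val (u : ZMod (l ^ 2))] at hu
  have hc : (u : ZMod (l ^ 2)).val.Coprime l :=
    (ZMod.val_coe_unit_coprime u).coprime_dvd_right (dvd_pow_self l two_ne_zero)
  generalize (u : ZMod (l ^ 2)).val = g at hu hc
  have h3 : ∀ k, g ^ k ≡ 1 [MOD l] → l - 1 ∣ k := fun k hk => by
    have h4 := dvd_sub_pow_of_dvd_sub ((ngen_int l g k).2 hk) 1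
    rw [one_pow, ← pow_mul, pow_one, ← Nat.cast_pow, ngen_int, ngen_mod, hu, mul_comm k] at h4
    exact Nat.dvd_of_mul_dvd_mul_left hl.pos h4
  obtain ⟨a, ha⟩ := (ngen_int l g (l - 1)).2 (by
    simpa [Nat.totient_prime hl] using Nat.ModEq.pow_totient hc)
  have h5 : ¬ (l : ℤ) ∣ a := by
    rintro ⟨b, rfl⟩
    have h6 : ((l ^ 2 : ℕ) : ℤ) ∣ (g : ℤ) ^ (l - 1) - 1 := ⟨b, by rw [ha]; push_cast; ring⟩
    rw [ngen_int, ngen_mod, hu] at h6
    have := Nat.le_of_dvd h1 h6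
    nlinarith [hl.one_lt]
  refine ⟨g, hc, fun n => ?_⟩
  have h7 : orderOf ((g : ZMod (l ^ (n + 1))) ^ (l - 1)) = l ^ n := by
    rw [← ZMod.orderOf_one_add_mul_prime hl h2 a h5 n]
    have := congrArg (Int.cast : ℤ → ZMod (l ^ (n + 1))) (eq_add_of_sub_eq' ha)
    push_cast at this
    rw [this]
  refine Nat.dvd_antisymm (orderOf_dvd_of_pow_eq_one ?_) ?_
  · rw [pow_mul, ← h7, pow_orderOf_eq_one]
  · obtain ⟨m, hm⟩ := h3 _ (((ngen_mod (l ^ (n + 1)) g _).2 dvd_rfl).of_dvd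
      (dvd_pow_self l n.succ_ne_zero))
    rw [hm]
    refine Nat.mul_dvd_mul_left _ ?_
    rw [← h7]
    refine orderOf_dvd_of_pow_eq_one ?_
    rw [← pow_mul, ← hm, pow_orderOf_eq_one]

/-- Sketch: from `ord 0`, `ord 1`: `l` divides `g ^ (l - 1) - 1` exactly once; lifting the exponent
(`Int.emultiplicity_pow_sub_pow` or `padicValNat.pow_sub_pow`), `v` the valuation of `j`. -/
theorem IsGen.val (hg : IsGen l g) (hl : l.Prime) (h2 : l ≠ 2) {j : ℕ} (hj : j ≠ 0) :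
    ∃ v : ℕ, ∀ n, ∃ t : ℤ, ¬ (l : ℤ) ∣ t ∧
      ((g : ℤ) ^ j) ^ ((l - 1) * l ^ n) - 1 = (l : ℤ) ^ (n + 1 + v) * t := by
  have h1 : 0 < l - 1 := Nat.sub_pos_of_lt hl.one_lt
  obtain ⟨v, j', hj', rfl⟩ := Nat.exists_eq_pow_mul_and_not_dvd hj l hl.ne_one
  refine ⟨v, fun n => ?_⟩
  rw [← pow_mul]
  obtain ⟨t, ht⟩ := (ngen_int _ _ _).2
    ((ngen_dvd hg (n + v) (l ^ v * j' * ((l - 1) * l ^ n))).2 ⟨j', by ring⟩)
  refine ⟨t, ?_, by rw [ht]; push_cast; ring⟩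
  rintro ⟨b, rfl⟩
  have h3 := (ngen_dvd hg (n + v + 1) (l ^ v * j' * ((l - 1) * l ^ n))).1
    ((ngen_int _ _ _).1 ⟨b, by rw [ht]; push_cast; ring⟩)
  rw [show (l - 1) * l ^ (n + v + 1) = (l - 1) * l ^ (n + v) * l by ring,
    show l ^ v * j' * ((l - 1) * l ^ n) = (l - 1) * l ^ (n + v) * j' by ring] at h3
  exact hj' (Nat.dvd_of_mul_dvd_mul_left (Nat.mul_pos h1 (pow_pos hl.pos _)) h3)

/-- Sketch: the powers of `g` exhaust the units modulo `l ^ (n + 1)` (order = totient), so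
`a ≡ g ^ k`; modulo `l` the order `l - 1` divides `k`. -/
theorem IsGen.exists_pow (hg : IsGen l g) (hl : l.Prime) (n : ℕ) {a : ℕ} (ha : a ≡ 1 [MOD l]) :
    ∃ i, g ^ ((l - 1) * i) ≡ a [MOD l ^ (n + 1)] := by
  have : NeZero (l ^ (n + 1)) := ⟨pow_ne_zero _ hl.ne_zero⟩
  have hc : a.Coprime l := by
    rw [Nat.Coprime, ha.gcd_eq]
    simp
  have h1 : orderOf (ZMod.unitOfCoprime g (hg.cop.pow_right (n + 1))) =
      Nat.card (ZMod (l ^ (n + 1)))ˣ := by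
    rw [← orderOf_units, ZMod.coe_unitOfCoprime, hg.ord, Nat.card_eq_fintype_card,
      ZMod.card_units_eq_totient, Nat.totient_prime_pow_succ hl, mul_comm]
  have h2 : ZMod.unitOfCoprime a (hc.pow_right (n + 1)) ∈
      Subgroup.zpowers (ZMod.unitOfCoprime g (hg.cop.pow_right (n + 1))) := by
    rw [Subgroup.eq_top_of_card_eq _ ((Nat.card_zpowers _).trans h1)]
    trivial
  obtain ⟨k, hk⟩ := mem_powers_iff_mem_zpowers.2 h2
  have h3 : g ^ k ≡ a [MOD l ^ (n + 1)] := by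
    rw [← ZMod.natCast_eq_natCast_iff]
    simpa using congrArg Units.val hk
  obtain ⟨i, rfl⟩ := (ngen_dvd_one hg k).1 ((h3.of_dvd (dvd_pow_self l n.succ_ne_zero)).trans ha)
  exact ⟨i, h3⟩

theorem IsGen.inj (hg : IsGen l g) (n : ℕ) {i k : ℕ} (hi : i < (l - 1) * l ^ n)
    (hk : k < (l - 1) * l ^ n) (h : g ^ i ≡ g ^ k [MOD l ^ (n + 1)]) : i = k := by
  rw [← hg.ord] at hi hk
  rw [← ZMod.natCast_eq_natCast_iff] at h
  exact pow_injOn_Iio_orderOf hi hk (by simpa using h)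

theorem IsGen.pow_eq_one (hg : IsGen l g) (n : ℕ) :
    g ^ ((l - 1) * l ^ n) ≡ 1 [MOD l ^ (n + 1)] := by
  exact (ngen_dvd hg n _).2 dvd_rfl

theorem IsGen.pow_ne_one (hg : IsGen l g) {j : ℕ} (hj : ¬ (l - 1) ∣ j) :
    ((g : ZMod l)) ^ j ≠ 1 := by
  intro h
  exact hj ((ngen_dvd_one hg j).1 ((ngen_mod l g j).2 (orderOf_dvd_of_pow_eq_one h)))

end Pool.Agent.Lib.MP_446a91_nt.Sou
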