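import Pool.Agent.Lib.MP_446a91_nt.Sou.NElem

/-! Values of the additive systems on the torsion class and on the unit cycles. -/

namespace Pool.Agent.Lib.MP_446a91_nt.Sou

open IntermediateField

theorem nkey_root {l m : ℕ} (hl : l.Prime) (h3 : l ≠ 3) {ζ ω : Qb}
    (hζ : IsPrimitiveRoot ζ (l ^ (m + 1))) (hω : IsPrimitiveRoot ω 3) :
    ∃ t : ℕ, IsPrimitiveRoot (ω * ζ ^ t) (3 * l ^ (m + 1)) ∧ (ω * ζ ^ t) ^ 3 = ζ := by
  have hc : Nat.Coprime 3 (l ^ (m + 1)) :=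
    ((Nat.coprime_primes Nat.prime_three hl).2 h3.symm).pow_right _
  have h1 : 1 < l ^ (m + 1) := Nat.one_lt_pow (Nat.succ_ne_zero m) hl.one_lt
  obtain ⟨t, -, ht⟩ := Nat.exists_mul_mod_eq_one_of_coprime hc h1
  have ht' : 3 * t ≡ 1 [MOD l ^ (m + 1)] := by
    rw [Nat.ModEq, ht, Nat.mod_eq_of_lt h1]
  have hct : t.Coprime (l ^ (m + 1)) := Nat.coprime_of_mul_modEq_one 3 (by rwa [mul_comm])
  have h2 := hζ.pow_of_coprime t hct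
  refine ⟨t, IsPrimitiveRoot.iff_orderOf.2 ?_, ?_⟩
  · rw [(Commute.all _ _).orderOf_mul_eq_mul_orderOf_of_coprime
      (by rw [← hω.eq_orderOf, ← h2.eq_orderOf]; exact hc), ← hω.eq_orderOf, ← h2.eq_orderOf]
  · rw [mul_pow, hω.pow_eq_one, one_mul, ← pow_mul', ← pow_mod_orderOf, ← hζ.eq_orderOf, ht,
      pow_one]

theorem nkey_cast {q M : ℕ} [Fact q.Prime] (h : M.Coprime q) : (M : ZMod q) ≠ 0 :=
  ((ZMod.isUnit_iff_coprime M q).2 h).ne_zero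

theorem nkey_cop {q p : ℕ} [Fact q.Prime] (hp : p.Prime) (h : p < q) : p.Coprime q :=
  (Nat.coprime_primes hp Fact.out).2 h.ne

theorem nkey_eps {K : IntermediateField ℚ Qb} (p n j : ℕ) (x : OK K) :
    ((eps p n j x : OK K) : Qb) = eps p n j (x : Qb) :=
  map_eps (OK K).subtype p n j x

/-- Sketch: choose `t` with `3 t ≡ 1` modulo `l ^ (n + 2)`; `ξ = ω ζ ^ t` is a primitive root of order
`3 * l * l ^ (n + 1)` with `ξ ^ 3 = ζ` (coprime orders, `Commute.orderOf_mul_eq_mul_orderOf_of_coprime`,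
`IsPrimitiveRoot.eq_orderOf`).  Lift `ξ, ρ` to `OK K` (`ρ` is integral by `IsIntegral.of_pow`), apply
`prim_map`, `hX`, `dist` with `r := 3`, `p := l`, `map_eps`; `y (χ ρ ^ l ^ (n + 2)) = 0` by
`Lg.y_pow` (or `χ ρ = 0` and `y 0 = 0`). -/
theorem val_tors {l j n : ℕ} (hl : l.Prime) (h3 : l ≠ 3) {I : Type} [Fintype I] [DecidableEq I]
    {X : Ch ℤ (GL I ℤ)} {c₁ c₂ : ℤ} (hX : TorsAt (3 * l) j X c₁ c₂) (K : IntermediateField ℚ Qb)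
    {ζ ω ρ : Qb} (hζ : IsPrimitiveRoot ζ (l ^ (n + 2))) (hω : IsPrimitiveRoot ω 3) (h1 : ζ ∈ K)
    (h2 : ω ∈ K) (h4 : ρ ∈ K) (hρ : ρ ^ l ^ (n + 2) = eps l (n + 2) j ζ) {q : ℕ} [Fact q.Prime]
    (hq : 3 * l < q) (χ : OK K →+* ZMod q) (Λ : Lg (ZMod q))
    (hN : l ^ (n + 1) ∣ Fintype.card (ZMod q) - 1) : c₁ • (sysF Λ hN j).val X = 0 := by
  have hl2 := hl.two_le
  obtain ⟨t, hp, hp3⟩ := nkey_root hl h3 hζ hω
  have e : 3 * l ^ (n + 1 + 1) = 3 * l * l ^ (n + 1) := by ring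
  rw [e] at hp
  have h0 : 3 * l * l ^ (n + 1) ≠ 0 := by positivity
  let ξ : OK K := ⟨ω * ζ ^ t, mem_OK.2 ⟨mul_mem h2 (pow_mem h1 t), hp.isIntegral (by positivity)⟩⟩
  have hξ : IsPrimitiveRoot ξ (3 * l * l ^ (n + 1)) :=
    IsPrimitiveRoot.coe_submonoidClass_iff.1 hp
  have hξ3 : ((ξ ^ 3 : OK K) : Qb) = ζ := hp3
  have hi : IsIntegral ℤ ρ := by
    refine IsIntegral.of_pow (n := l ^ (n + 2)) (by positivity) ?_
    rw [hρ, ← hξ3, ← nkey_eps]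
    exact (mem_OK.1 (eps l (n + 2) j (ξ ^ 3)).2).2
  let ρ' : OK K := ⟨ρ, mem_OK.2 ⟨h4, hi⟩⟩
  have hρ' : ρ' ^ l ^ (n + 2) = eps l (n + 2) j (ξ ^ 3) := by
    apply Subtype.ext
    rw [nkey_eps, hξ3, ← hρ]
    rfl
  have hcl : l.Coprime q := nkey_cop hl (by omega)
  have hχ : IsPrimitiveRoot (χ ξ) (3 * l * l ^ (n + 1)) := prim_map χ hξ (nkey_cast
    (((nkey_cop Nat.prime_three (by omega)).mul_left hcl).mul_left (hcl.pow_left _)))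
  obtain ⟨υ, hυ⟩ := hχ.isUnit h0
  obtain ⟨c₀, -, hc⟩ := hX (ZMod q) Λ (l ^ (n + 1)) hN
    (Nat.one_lt_pow (Nat.succ_ne_zero n) hl.one_lt) υ
    (IsPrimitiveRoot.coe_units_iff.1 (hυ ▸ hχ))
  rw [hc, hυ, dist Λ hl Nat.prime_three h3 hN hχ c₀, ← map_pow, ← map_eps, ← hρ', map_pow]
  by_cases hz : χ ρ' = 0
  · rw [hz, zero_pow (by positivity), Lg.y, dif_pos rfl, mul_zero, smul_zero]
  · rw [Λ.y_pow hN hz, (ZMod.natCast_eq_zero_iff _ _).2 (pow_dvd_pow l (by omega)), zero_mul,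
      mul_zero, smul_zero]

/-- Sketch: `unitCyc_val` with `κ = Fin ((l - 1) * l ^ n)`, `χ k` the composite of `S ^ k`
(restricted with `OK_aut`, `RingHom.codRestrict`; `ℚ⟮ζ⟯ ≤ K`) and `χ`, `a k = g ^ k`, `ξ = χ ζ`
(`prim_map`); `(S ^ k) ζ = ζ ^ g ^ k`; injectivity by `IsGen.inj` and `IsPrimitiveRoot.pow_inj`-like
lemmas (`pow_eq_pow_iff_modEq`); `Nat.totient_prime_pow`.  Then `Lg.y_prod`, `Lg.y_pow`; the answer is
`c₀ ^ j`. -/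
theorem val_unit {l g j n : ℕ} (hl : l.Prime) (hg : IsGen l g) (hj : 1 ≤ j) {ζ : Qb}
    (hζ : IsPrimitiveRoot ζ (l ^ (n + 1))) {S : GQ} (hS : S ζ = ζ ^ g)
    (K : IntermediateField ℚ Qb) (hK : ζ ∈ K)
    (b : Module.Basis (Fin (l ^ (n + 1)).totient) ℤ (OK ℚ⟮ζ⟯)) (ζ' u : (OK ℚ⟮ζ⟯)ˣ)
    (hζ' : ((ζ' : OK ℚ⟮ζ⟯) : Qb) = ζ) (α : OK K)
    (hα : (α : Qb) = twN S g j ((l - 1) * l ^ n) ((u : OK ℚ⟮ζ⟯) : Qb)) {q : ℕ} [Fact q.Prime]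
    (hq : l < q) (χ : OK K →+* ZMod q) (Λ : Lg (ZMod q))
    (hN : l ^ (n + 1) ∣ Fintype.card (ZMod q) - 1) : ∃ c₀ : ZMod (l ^ (n + 1)), IsUnit c₀ ∧
      (sysF Λ hN j).val (unitCyc b ζ' u (l ^ (n + 1)) j) = c₀ * Λ.y (l ^ (n + 1)) (χ α) := by
  have h0 : l ^ (n + 1) ≠ 0 := pow_ne_zero _ hl.ne_zero
  have hle : ℚ⟮ζ⟯ ≤ K := adjoin_simple_le_iff.2 hK
  have hmem : ∀ (σ : GQ) (x : OK ℚ⟮ζ⟯), σ x ∈ OK K := fun σ x =>
    have h := mem_OK.1 (OK_aut h0 hζ.pow_eq_one σ x.2)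
    mem_OK.2 ⟨hle h.1, h.2⟩
  let ψ : GQ → OK ℚ⟮ζ⟯ →+* OK K := fun σ =>
    ((σ : Qb →+* Qb).comp (OK ℚ⟮ζ⟯).subtype).codRestrict (OK K) (hmem σ)
  have hψ : ∀ σ x, ((ψ σ x : OK K) : Qb) = σ x := fun _ _ => rfl
  have hSk : ∀ k : ℕ, (S ^ k) ζ = ζ ^ g ^ k := by
    intro k
    induction k with
    | zero => simp
    | succ k ih => rw [pow_succ', AlgEquiv.mul_apply, ih, map_pow, hS, ← pow_mul, ← pow_succ']
  let z : OK K := ⟨ζ, mem_OK.2 ⟨hK, hζ.isIntegral (Nat.pos_of_ne_zero h0)⟩⟩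
  have hz : IsPrimitiveRoot z (l ^ (n + 1)) := IsPrimitiveRoot.coe_submonoidClass_iff.1 hζ
  have hχ : IsPrimitiveRoot (χ z) (l ^ (n + 1)) :=
    prim_map χ hz (nkey_cast ((nkey_cop hl hq).pow_left _))
  obtain ⟨υ, hυ⟩ := hχ.isUnit h0
  have hυ' : IsPrimitiveRoot υ (l ^ (n + 1)) := IsPrimitiveRoot.coe_units_iff.1 (hυ ▸ hχ)
  have ha : ∀ k : Fin ((l - 1) * l ^ n),
      (χ.comp (ψ (S ^ (k : ℕ)))) ζ' = (υ : ZMod q) ^ g ^ (k : ℕ) := by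
    intro k
    rw [hυ, ← map_pow, RingHom.comp_apply]
    refine congrArg χ (Subtype.ext ?_)
    rw [hψ, hζ', hSk]
    rfl
  have hζ1 : ζ' ^ l ^ (n + 1) = 1 := by
    apply Units.ext
    apply Subtype.ext
    rw [Units.val_pow_eq_pow_val, SubmonoidClass.coe_pow, hζ', hζ.pow_eq_one]
    rfl
  have hinj : Function.Injective
      fun k : Fin ((l - 1) * l ^ n) => χ.comp (ψ (S ^ (k : ℕ))) := by
    intro i k hik
    have h := (ha i).symm.trans ((RingHom.congr_fun hik ζ').trans (ha k))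
    rw [← Units.val_pow_eq_pow_val, ← Units.val_pow_eq_pow_val, Units.val_inj,
      pow_eq_pow_iff_modEq, ← hυ'.eq_orderOf] at h
    exact Fin.ext (hg.inj n i.2 k.2 h)
  obtain ⟨c₀, hc₀, hc⟩ := unitCyc_val b u hζ1 hj h0 Λ hN dvd_rfl hυ' _ hinj
    (by rw [Fintype.card_fin, Fintype.card_fin, Nat.totient_prime_pow_succ hl, mul_comm])
    (fun k => g ^ (k : ℕ)) ha
  refine ⟨c₀ ^ j, hc₀.pow j, hc.trans ?_⟩
  have hα' : α = ∏ k : Fin ((l - 1) * l ^ n), ψ (S ^ (k : ℕ)) u ^ g ^ ((k : ℕ) * j) := by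
    apply Subtype.ext
    rw [hα, twN, Finset.prod_range, SubmonoidClass.coe_finsetProd]
    rfl
  have hne : ∀ k : Fin ((l - 1) * l ^ n), χ (ψ (S ^ (k : ℕ)) u) ≠ 0 := fun k =>
    ((u.isUnit.map _).map χ).ne_zero
  rw [hα', map_prod, Λ.y_prod hN _ fun k _ => by rw [map_pow]; exact pow_ne_zero _ (hne k),
    Finset.mul_sum]
  refine Finset.sum_congr rfl fun k _ => ?_
  rw [map_pow, Λ.y_pow hN (hne k), RingHom.comp_apply]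
  push_cast
  ring

end Pool.Agent.Lib.MP_446a91_nt.Sou
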