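import Pool.Agent.Lib.MP_446a91_nt.Sou.NFin
import Pool.Agent.Lib.MP_446a91_nt.Sou.M5

/-! The nonvanishing theorem, from the rank one statement. -/

namespace Pool.Agent.Lib.MP_446a91_nt.Sou

theorem sou_of_rank (hR : ∀ q, Odd q → 3 ≤ q → RankOne q) (l : ℕ) [Fact l.Prime] (z : ℕ → Qb)
    (hz : Gal.IsRoots l z) : Gal.Sou l z :=
  sou_of (fun _ _ a b c => torsion a b c) hR l z hz

end Pool.Agent.Lib.MP_446a91_nt.Sou
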