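import Pool.Agent.Lib.MP_446a91_nt.Sou.R1

/-! The averaging contraction on words whose quotients generate a group of invertible order. -/

namespace Pool.Agent.Lib.MP_446a91_nt.Sou

noncomputable section

variable {Γ Γ' D D' : Type} [Group Γ] [Group Γ'] [Finite Γ] [Finite Γ'] (N : ℕ)

/-- The averaged cone over the coset of `T` through the first letter. -/
def kap (T : Subgroup Γ) (d : D) : Ch (ZMod N) (Γ × D) →ₗ[ZMod N] Ch (ZMod N) (Γ × D) :=
  lin (ZMod N) fun u => Ring.inverse ((Nat.card T : ℕ) : ZMod N) •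
    ∑ᶠ t : T, wd (((u.map Prod.fst).headD 1 * t, d) :: u)

/-- Replace the first components by the first one. -/
def cst (w : List (Γ × D)) : List (Γ × D) := w.map fun x => ((w.map Prod.fst).headD 1, x.2)

/-- The contraction on words of length `n`. -/
def SS : ℕ → List (Γ × D) → Ch (ZMod N) (Γ × D)
  | n + 1, x :: w => kap N (Car ((x :: w).map Prod.fst)) x.2
      (wd (x :: w) - wd (cst (x :: w)) - lin (ZMod N) (SS n) (dW (x :: w)))
  | _, _ => 0

/-- The contraction. -/
def SW (w : List (Γ × D)) : Ch (ZMod N) (Γ × D) := SS N w.length w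

/-- Left translation of the first components. -/
@[reducible] def actL (Γ D : Type) [Group Γ] : MulAction Γ (Γ × D) where
  smul h x := (h * x.1, x.2)
  one_smul _ := Prod.ext (one_mul _) rfl
  mul_smul _ _ _ := Prod.ext (mul_assoc _ _ _) rfl

omit [Finite Γ] in
theorem SW_nil : SW N ([] : List (Γ × D)) = 0 := rfl

theorem SW_cons (x : Γ × D) (w : List (Γ × D)) : SW N (x :: w) =
    kap N (Car ((x :: w).map Prod.fst)) x.2
      (wd (x :: w) - wd (cst (x :: w)) - lin (ZMod N) (SW N) (dW (x :: w))) := by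
  refine congrArg (fun c => kap N _ x.2 (_ - c)) (lin_congr (fun u hu => ?_) (dW_mem_sublist _))
  rw [SW, Nat.add_right_cancel hu.2]

omit [Finite Γ] in
theorem car_mono {w w' : List Γ} (h : ∀ g ∈ w', g ∈ w) : Car w' ≤ Car w := by
  exact Subgroup.closure_mono fun _ ⟨a, ha, b, hb, e⟩ => ⟨a, h a ha, b, h b hb, e⟩

theorem her_small : Her (Small N : List Γ → Prop) := by
  intro w w' h hw
  exact isUnit_of_dvd_unit
    (Nat.cast_dvd_cast (Subgroup.card_dvd_of_le (car_mono fun g hg => h.subset hg))) hw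

theorem u1_ind {X : Type} {p : List X → Prop}
    (h : ∀ w, (∀ u, u.length + 1 = w.length → p u) → p w) (w : List X) : p w := by
  induction hn : w.length generalizing w with
  | zero => exact h w fun u hu => by omega
  | succ n ih => exact h w fun u hu => ih u (by omega)

omit [Finite Γ] in
theorem u1_quot {w : List (Γ × D)} {a b : Γ × D} (ha : a ∈ w) (hb : b ∈ w) :
    a.1⁻¹ * b.1 ∈ Car (w.map Prod.fst) :=
  Subgroup.subset_closure ⟨_, List.mem_map_of_mem ha, _, List.mem_map_of_mem hb, rfl⟩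

omit [Finite Γ] in
theorem u1_kap_wd (T : Subgroup Γ) (d : D) (z : Γ × D) (u : List (Γ × D)) :
    kap N T d (wd (z :: u)) = Ring.inverse ((Nat.card T : ℕ) : ZMod N) •
      ∑ᶠ t : T, wd ((z.1 * t, d) :: z :: u) := lin_wd _ _

omit [Finite Γ] in
theorem u1_kap_mem {T : Subgroup Γ} {d : D} {P Q : List (Γ × D) → Prop} (h0 : ¬ P [])
    (h : ∀ z u, P (z :: u) → ∀ t ∈ T, Q ((z.1 * t, d) :: z :: u)) {c : Ch (ZMod N) (Γ × D)}
    (hc : c ∈ sp (ZMod N) P) : kap N T d c ∈ sp (ZMod N) Q := by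
  refine sp_map _ _ (fun u hu => ?_) hc
  cases u with
  | nil => exact absurd hu h0
  | cons z u =>
    rw [u1_kap_wd]
    exact Submodule.smul_mem _ _ (finsum_induction (· ∈ sp (ZMod N) Q) (zero_mem _)
      (fun _ _ => add_mem) fun t => wd_mem (h z u hu t t.2))

/-- The letters of `u` are controlled by those of `w`. -/
def u1R (w u : List (Γ × D)) : Prop :=
  ∀ x ∈ u, (∀ y ∈ w, y.1⁻¹ * x.1 ∈ Car (w.map Prod.fst)) ∧ ∃ y ∈ w, x.2 = y.2

omit [Finite Γ] in
theorem u1_c_mem (x : Γ × D) (w : List (Γ × D)) (ih : ∀ u : List (Γ × D),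
    u.length + 1 = (x :: w).length →
      SW N u ∈ sp (ZMod N) fun v => v.length = u.length + 1 ∧ u1R u v) :
    wd (x :: w) - wd (cst (x :: w)) - lin (ZMod N) (SW N) (dW (x :: w)) ∈
      sp (ZMod N) fun v => v.length = w.length + 1 ∧ u1R (x :: w) v := by
  refine sub_mem (sub_mem (wd_mem ⟨rfl, fun z hz => ⟨fun y hy => u1_quot hy hz, z, hz, rfl⟩⟩)
    (wd_mem ⟨by simp [cst], fun z hz => ?_⟩)) (sp_map _ _ (fun u hu => ?_) (dW_mem_sublist _))
  · obtain ⟨y, hy, rfl⟩ := List.mem_map.1 hz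
    exact ⟨fun a ha => u1_quot (b := x) ha List.mem_cons_self, y, hy, rfl⟩
  · rw [lin_wd]
    refine sp_mono (fun v hv => ⟨hv.1.trans hu.2, fun z hz => ?_⟩) (ih u hu.2)
    obtain ⟨h1, y, hy, e⟩ := hv.2 z hz
    refine ⟨fun a ha => ?_, y, hu.1.subset hy, e⟩
    have := mul_mem (u1_quot ha (hu.1.subset hy))
      (car_mono (fun g hg => (hu.1.map Prod.fst).subset hg) (h1 y hy))
    rwa [mul_assoc, mul_inv_cancel_left] at this

/-- The words of `SW w` have one more letter, first components in the coset of `Car w` through the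
letters of `w`, second components among those of `w`. -/
theorem SW_mem (w : List (Γ × D)) : SW N w ∈ sp (ZMod N) fun u => u.length = w.length + 1 ∧
    ∀ x ∈ u, (∀ y ∈ w, y.1⁻¹ * x.1 ∈ Car (w.map Prod.fst)) ∧ ∃ y ∈ w, x.2 = y.2 := by
  induction w using u1_ind with
  | h w ih =>
    cases w with
    | nil => exact zero_mem _
    | cons x w =>
      rw [SW_cons]
      refine u1_kap_mem N (by simp) (fun z u hu t ht => ⟨by simpa using hu.1, fun y hy => ?_⟩)
        (u1_c_mem N x w ih)
      rcases List.mem_cons.1 hy with rfl | hy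
      · refine ⟨fun a ha => ?_, x, List.mem_cons_self, rfl⟩
        rw [← mul_assoc]
        exact mul_mem ((hu.2 z List.mem_cons_self).1 a ha) ht
      · exact hu.2 y hy

omit [Finite Γ'] in
theorem u1_kap_map (ψ : Γ →* Γ') (hψ : Function.Injective ψ) {φ : Γ → Γ'}
    (hφ : ∀ a t, φ a * ψ t = φ (a * t)) (f' : D → D') (T : Subgroup Γ) (d : D)
    {c : Ch (ZMod N) (Γ × D)} (hc : c ∈ sp (ZMod N) fun u => u ≠ []) :
    kap N (T.map ψ) (f' d) (mp (fun x => (φ x.1, f' x.2)) c) =
      mp (fun x => (φ x.1, f' x.2)) (kap N T d c) := by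
  refine sp_ext (φ := kap N (T.map ψ) (f' d) ∘ₗ mp _) (ψ := mp _ ∘ₗ kap N T d) (fun u hu => ?_) hc
  cases u with
  | nil => exact absurd rfl hu
  | cons z u =>
    rw [LinearMap.comp_apply, LinearMap.comp_apply, mp_wd, List.map_cons, u1_kap_wd, u1_kap_wd,
      map_smul, map_finsum _ (Set.toFinite _), Subgroup.card_map_of_injective hψ,
      ← finsum_comp_equiv (T.equivMapOfInjective ψ hψ).toEquiv]
    refine congrArg _ (finsum_congr fun t => ?_)
    rw [mp_wd, List.map_cons, List.map_cons, ← hφ]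
    rfl

omit [Finite Γ] [Finite Γ'] in
theorem u1_car_map (ψ : Γ →* Γ') {φ : Γ → Γ'} (hφ : ∀ a t, φ a * ψ t = φ (a * t)) (w : List Γ) :
    Car (w.map φ) = (Car w).map ψ := by
  have h : ∀ a b, (φ a)⁻¹ * φ b = ψ (a⁻¹ * b) := fun a b => by
    rw [inv_mul_eq_iff_eq_mul, hφ, mul_inv_cancel_left]
  rw [Car, Car, MonoidHom.map_closure]
  congr 1
  ext g
  simp only [List.mem_map, exists_exists_and_eq_and, h, Set.mem_image, Set.mem_ofPred_eq]
  exact ⟨fun ⟨a, ha, b, hb, e⟩ => ⟨_, ⟨a, ha, b, hb, rfl⟩, e.symm⟩,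
    fun ⟨_, ⟨a, ha, b, hb, e⟩, e'⟩ => ⟨a, ha, b, hb, e ▸ e'.symm⟩⟩

theorem u1_mp_sub {X Y : Type} (F : X → Y) (a b : List X) (g : List X → Ch (ZMod N) X)
    (c : Ch (ZMod N) X) : mp F (wd a - wd b - lin (ZMod N) g c) =
      wd (a.map F) - wd (b.map F) - lin (ZMod N) (fun u => mp F (g u)) c := by
  rw [map_sub, map_sub, mp_wd, mp_wd, map_lin]

theorem u1_c_ne (x : Γ × D) (w : List (Γ × D)) :
    wd (x :: w) - wd (cst (x :: w)) - lin (ZMod N) (SW N) (dW (x :: w)) ∈
      sp (ZMod N) fun v => v ≠ [] :=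
  sp_mono (fun _ hv => List.ne_nil_of_length_eq_add_one hv.1)
    (u1_c_mem N x w fun u _ => SW_mem N u)

/-- Naturality: `F` is `g ↦ h * f g * h'` on the first components with `f` an injective
homomorphism.  Sketch: `Car` of the image is `h'⁻¹ (Car w).map f h'`; reindex the average. -/
theorem SW_map (f : Γ →* Γ') (hf : Function.Injective f) (h h' : Γ') (f' : D → D')
    (w : List (Γ × D)) :
    SW N (w.map fun x => (h * f x.1 * h', f' x.2)) =
      mp (fun x => (h * f x.1 * h', f' x.2)) (SW N w) := by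
  have hφ : ∀ a t, h * f a * h' * ((MulAut.conj h'⁻¹).toMonoidHom.comp f) t =
      h * f (a * t) * h' := fun a t => by simp [mul_assoc]
  induction w using u1_ind with
  | h w ih =>
    cases w with
    | nil => exact (map_zero _).symm
    | cons x w =>
      have e1 : ((x :: w).map fun x => (h * f x.1 * h', f' x.2)).map Prod.fst =
          ((x :: w).map Prod.fst).map fun a => h * f a * h' := by
        simp [Function.comp_def]
      have e2 : cst ((x :: w).map fun x => (h * f x.1 * h', f' x.2)) =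
          (cst (x :: w)).map fun x => (h * f x.1 * h', f' x.2) := by
        simp [cst, Function.comp_def]
      rw [SW_cons, ← u1_kap_map N _ ((MulAut.conj h'⁻¹).injective.comp hf) hφ f' _ _
        (u1_c_ne N x w), ← u1_car_map _ hφ, ← e1, u1_mp_sub, ← e2,
        ← lin_congr (fun u hu => ih u hu.2) (dW_mem_sublist _), ← lin_mp, mp_dW]
      exact SW_cons N _ _

theorem u1_snd_kap (T : Subgroup Γ) (d : D) (c : Ch (ZMod N) (Γ × D)) :
    mp Prod.snd (kap N T d c) = (Ring.inverse ((Nat.card T : ℕ) : ZMod N) * Nat.card T) •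
      cons d (mp Prod.snd c) := by
  refine ch_ext' (φ := mp Prod.snd ∘ₗ kap N T d) (ψ := (_ : ZMod N) • cons d ∘ₗ mp Prod.snd)
    (fun u => ?_) c
  have := Fintype.ofFinite T
  simp [kap, finsum_eq_sum_of_fintype, mul_smul, Nat.cast_smul_eq_nsmul]

theorem mp_snd_SW {w : List (Γ × D)} (hw : Small N (w.map Prod.fst)) :
    mp Prod.snd (SW N w) = 0 := by
  induction w using u1_ind with
  | h w ih =>
    cases w with
    | nil => exact map_zero _
    | cons x w =>
      have e : (cst (x :: w)).map Prod.snd = (x :: w).map Prod.snd := by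
        simp [cst, Function.comp_def]
      rw [SW_cons, u1_snd_kap, u1_mp_sub, e, lin_congr
        (fun u hu => ih u hu.2 (her_small N _ _ (hu.1.map _) hw)) (dW_mem_sublist _), lin_zero,
        sub_self, sub_self, map_zero, smul_zero]

theorem SW_const (g : Γ) (w : List D) : SW N (w.map fun d => (g, d)) = 0 := by
  induction w using u1_ind with
  | h w ih =>
    cases w with
    | nil => rfl
    | cons x w =>
      have e : cst ((x :: w).map fun d => (g, d)) = (x :: w).map fun d => (g, d) := by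
        simp [cst, Function.comp_def]
      rw [List.map_cons, SW_cons, ← List.map_cons (f := fun d => (g, d)), e, ← mp_dW, lin_mp,
        lin_congr (fun u hu => ih u hu.2) (dW_mem_sublist _), lin_zero, sub_self, sub_self,
        map_zero]

theorem u1_kap_eq {T : Subgroup Γ} (d : D) (g : Γ) {c : Ch (ZMod N) (Γ × D)}
    (hc : c ∈ sp (ZMod N) fun u => u ≠ [] ∧ ∀ z ∈ u, g⁻¹ * z.1 ∈ T) :
    kap N T d c = Ring.inverse ((Nat.card T : ℕ) : ZMod N) • ∑ᶠ t : T, cons (g * t, d) c := by
  have := Fintype.ofFinite T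
  rw [finsum_eq_sum_of_fintype, ← LinearMap.sum_apply, ← LinearMap.smul_apply]
  refine sp_ext (fun u hu => ?_) hc
  cases u with
  | nil => exact absurd rfl hu.1
  | cons z u =>
    rw [u1_kap_wd, finsum_eq_sum_of_fintype, LinearMap.smul_apply, LinearMap.sum_apply]
    refine congrArg _ (Fintype.sum_equiv
      (Equiv.mulLeft (⟨_, hu.2 z List.mem_cons_self⟩ : T)) _ _ fun t => ?_)
    simp [mul_assoc]

theorem u1_bd_kap {T : Subgroup Γ} (hT : IsUnit ((Nat.card T : ℕ) : ZMod N)) (d : D) (g : Γ)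
    {n : ℕ} {c : Ch (ZMod N) (Γ × D)}
    (hc : c ∈ sp (ZMod N) fun u => u.length = n + 2 ∧ ∀ z ∈ u, g⁻¹ * z.1 ∈ T) :
    bd (kap N T d c) = c - kap N T d (bd c) := by
  have h1 : bd c ∈ sp (ZMod N) fun u : List (Γ × D) => u ≠ [] ∧ ∀ z ∈ u, g⁻¹ * z.1 ∈ T := by
    refine sp_map _ _ (fun u hu => ?_) hc
    rw [bd_wd]
    refine sp_mono (fun v hv => ⟨?_, fun z hz => hu.2 z (hv.1.subset hz)⟩) (dW_mem_sublist u)
    exact List.ne_nil_of_length_eq_add_one (Nat.add_right_cancel (hv.2.trans hu.1))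
  have := Fintype.ofFinite T
  rw [u1_kap_eq N d g h1, u1_kap_eq N d g
    (sp_mono (fun v hv => ⟨List.ne_nil_of_length_eq_add_one hv.1, hv.2⟩) hc),
    finsum_eq_sum_of_fintype, finsum_eq_sum_of_fintype, map_smul, map_sum]
  simp only [bd_cons]
  rw [Finset.sum_sub_distrib, Finset.sum_const, Finset.card_univ, ← Nat.card_eq_fintype_card,
    smul_sub, ← Nat.cast_smul_eq_nsmul (ZMod N), smul_smul, Ring.inverse_mul_cancel _ hT, one_smul]

/-- Differences of translates of words with all quotients in `T`. -/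
def u1I (D : Type) (T : Subgroup Γ) : Submodule (ZMod N) (Ch (ZMod N) (Γ × D)) :=
  @IP (ZMod N) _ (Γ × D) Γ _ (actL Γ D) fun u => u ≠ [] ∧ ∀ a ∈ u, ∀ b ∈ u, a.1⁻¹ * b.1 ∈ T

theorem u1_kap_I {T : Subgroup Γ} (d : D) {c : Ch (ZMod N) (Γ × D)} (hc : c ∈ u1I N D T) :
    kap N T d c ∈ u1I N D T := by
  let _ := actL Γ D
  refine IP_map _ _ (fun g u hu => ?_) hc
  have h1 := u1_kap_map N (MonoidHom.id Γ) Function.injective_id (φ := fun a => g * a)
    (fun a t => mul_assoc _ _ _) id T d (wd_mem hu.1)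
  rw [Subgroup.map_id, mp_wd] at h1
  refine h1 ▸ mp_smul_sub g (u1_kap_mem N
    (P := fun u => u ≠ [] ∧ ∀ a ∈ u, ∀ b ∈ u, a.1⁻¹ * b.1 ∈ T) (fun h => h.1 rfl)
    (fun z v hv t ht => ?_) (wd_mem hu))
  have h2 : ∀ a ∈ (z.1 * t, d) :: z :: v, z.1⁻¹ * a.1 ∈ T := fun a ha => by
    rcases List.mem_cons.1 ha with rfl | ha
    · rwa [inv_mul_cancel_left]
    · exact hv.2 z List.mem_cons_self a ha
  refine ⟨List.cons_ne_nil _ _, fun a ha b hb => ?_⟩
  simpa [mul_assoc] using mul_mem (inv_mem (h2 a ha)) (h2 b hb)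

theorem u1_bd_SW {w : List (Γ × D)} (hw : Small N (w.map Prod.fst)) :
    bd (SW N w) + lin (ZMod N) (SW N) (dW w) - (wd w - wd (cst w)) ∈
      u1I N D (Car (w.map Prod.fst)) := by
  let _ := actL Γ D
  induction w using u1_ind with
  | h w ih =>
    rcases w with _ | ⟨x, _ | ⟨y, w⟩⟩
    · simp [SW_nil, cst]
    · simp [SW_cons, SW_nil, cst, dW_cons]
    obtain ⟨v, hv⟩ : ∃ v, v = x :: y :: w := ⟨_, rfl⟩
    have h1 := u1_bd_kap N hw x.2 x.1 (sp_mono
      (fun u hu => ⟨hu.1, fun z hz => (hu.2 z hz).1 x List.mem_cons_self⟩)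
      (u1_c_mem N x (y :: w) fun u _ => SW_mem N u))
    have h2 : cst (x :: y :: w) = (x :: y :: w).map fun z => (x.1, z.2) := rfl
    have h3 : ∀ u : List (Γ × D), u.length + 1 = v.length → u ≠ [] := fun u hu =>
      List.ne_nil_of_length_eq_add_one (Nat.add_right_cancel (hu.trans (by rw [hv]; rfl)))
    rw [← SW_cons] at h1
    rw [← hv] at h1 h2 ih hw ⊢
    have h4 : (bd ∘ₗ lin (ZMod N) (SW N) + lin (ZMod N) (SW N) ∘ₗ bd -
        (LinearMap.id - mp fun z : Γ × D => (x.1, z.2)) : Module.End (ZMod N) _) (dW v) ∈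
        u1I N D (Car (v.map Prod.fst)) := by
      refine sp_map _ _ (fun u hu => ?_) (dW_mem_sublist v)
      have h5 : _ ∈ u1I N D (Car (v.map Prod.fst)) := IP_mono (fun s hs => ⟨hs.1, fun a ha b hb =>
        car_mono (fun g hg => (hu.1.map Prod.fst).subset hg) (hs.2 a ha b hb)⟩)
        (ih u hu.2 (her_small N _ _ (hu.1.map _) hw))
      have h6 : _ ∈ u1I N D (Car (v.map Prod.fst)) :=
        sub_mem_IP ((u.map Prod.fst).headD 1 * x.1⁻¹) (w := u.map fun z => (x.1, z.2))
          ⟨by simpa using h3 u hu.2, by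
            simp only [List.forall_mem_map, inv_mul_cancel]
            exact fun _ _ _ _ => one_mem _⟩
      have h7 : (u.map fun z => (x.1, z.2)).map (((u.map Prod.fst).headD 1 * x.1⁻¹) • ·) =
          cst u := by
        rw [List.map_map]
        exact List.map_congr_left fun z _ => Prod.ext (inv_mul_cancel_right _ _) rfl
      rw [h7] at h6
      refine (congrArg (· ∈ _) ?_).mp (sub_mem h5 h6)
      simp only [LinearMap.sub_apply, LinearMap.add_apply, LinearMap.comp_apply, lin_wd, bd_wd,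
        LinearMap.id_apply, mp_wd]
      abel
    refine (congrArg (· ∈ _) ?_).mp (u1_kap_I N x.2 h4)
    rw [h1, h2]
    simp only [LinearMap.sub_apply, LinearMap.add_apply, LinearMap.comp_apply, bd_wd, bd_dW,
      LinearMap.id_apply, mp_dW, map_sub, map_zero, add_zero]
    abel

/-- Sketch: induction on the length.  Let `T = Car`, `P u` the property that the first components
of `u` lie in the coset `G₀ T`, `I` the span of `h u - u` with `h ∈ Γ`, `u ≠ []` and all quotients
of first components of `u` in `T`.  For such `u` of length `≥ 2`,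
`bd (kap u) = u - kap (dW u)` (reindex the average on each face), and `kap` commutes with left
translation, so it preserves `I`.  Prove the sharper claim with `I` (monotone in `T`) in place of
`IG`.  `dW (cst w) - ∑ ± cst (faces) ∈ I`.  Lengths `0, 1` are trivial (`cst [x] = [x]`). -/
theorem bd_SW {w : List (Γ × D)} (hw : Small N (w.map Prod.fst)) :
    bd (SW N w) + lin (ZMod N) (SW N) (dW w) - (wd w - wd (cst w)) ∈
      @IG (ZMod N) _ (Γ × D) Γ _ (actL Γ D) := by
  let _ := actL Γ D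
  exact IP_mono (fun _ _ => trivial) (u1_bd_SW N hw)

end

end Pool.Agent.Lib.MP_446a91_nt.Sou
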