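import Mathlib

/-!
Chains on words: boundary, cones, prisms, invariant cochains (MP_446a91_nt, part S).
A word of length `k + 1` is a homogeneous `k`-simplex; the empty word is the augmentation.
-/

namespace Pool.Agent.Lib.MP_446a91_nt.Sou

noncomputable section

/-- Chains on words in the alphabet `X`. -/
abbrev Ch (A X : Type) [CommRing A] : Type := List X →₀ A

variable {A : Type} [CommRing A] {X Y Z : Type}

/-- A word as a chain. -/
def wd (w : List X) : Ch A X := Finsupp.single w 1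

variable (A) in
/-- The linear extension of a function on words. -/
def lin {M : Type} [AddCommGroup M] [Module A M] (f : List X → M) : Ch A X →ₗ[A] M :=
  Finsupp.linearCombination A f

section lin
variable {M M' : Type} [AddCommGroup M] [Module A M] [AddCommGroup M'] [Module A M']

@[simp] theorem lin_wd (f : List X → M) (w : List X) : lin A f (wd w) = f w := by
  simp [lin, wd]

theorem ch_ext {φ ψ : Ch A X →ₗ[A] M} (h : ∀ w, φ (wd w) = ψ (wd w)) : φ = ψ :=
  Finsupp.lhom_ext' fun w => LinearMap.ext_ring (by simpa [wd] using h w)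

theorem ch_ext' {φ ψ : Ch A X →ₗ[A] M} (h : ∀ w, φ (wd w) = ψ (wd w)) (c : Ch A X) :
    φ c = ψ c := by rw [ch_ext h]

theorem map_lin (φ : M →ₗ[A] M') (f : List X → M) (c : Ch A X) :
    φ (lin A f c) = lin A (fun w => φ (f w)) c :=
  ch_ext' (φ := φ ∘ₗ lin A f) (fun w => by simp) c

theorem lin_self (φ : Ch A X →ₗ[A] M) (c : Ch A X) : lin A (fun w => φ (wd w)) c = φ c :=
  ch_ext' (fun w => by simp) c

theorem lin_add (f g : List X → M) (c : Ch A X) :
    lin A (fun w => f w + g w) c = lin A f c + lin A g c :=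
  ch_ext' (ψ := lin A f + lin A g) (fun w => by simp) c

theorem lin_sub (f g : List X → M) (c : Ch A X) :
    lin A (fun w => f w - g w) c = lin A f c - lin A g c :=
  ch_ext' (ψ := lin A f - lin A g) (fun w => by simp) c

theorem lin_smul (a : A) (f : List X → M) (c : Ch A X) :
    lin A (fun w => a • f w) c = a • lin A f c :=
  ch_ext' (ψ := a • lin A f) (fun w => by simp) c

theorem lin_zero (c : Ch A X) : lin A (fun _ => (0 : M)) c = 0 :=
  ch_ext' (ψ := 0) (fun w => by simp) c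

theorem lin_sum {ι : Type} (s : Finset ι) (f : ι → List X → M) (c : Ch A X) :
    lin A (fun w => ∑ i ∈ s, f i w) c = ∑ i ∈ s, lin A (f i) c :=
  (ch_ext' (ψ := ∑ i ∈ s, lin A (f i)) (fun w => by simp [LinearMap.sum_apply]) c).trans
    (LinearMap.sum_apply _ _ _)

end lin

/-- Put the letter `a` in front (the cone with vertex `a`). -/
def cons (a : X) : Ch A X →ₗ[A] Ch A X := lin A fun w => wd (a :: w)

/-- Apply `f` to every letter. -/
def mp (f : X → Y) : Ch A X →ₗ[A] Ch A Y := lin A fun w => wd (w.map f)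

@[simp] theorem cons_wd (a : X) (w : List X) : cons a (wd w : Ch A X) = wd (a :: w) := lin_wd _ _
@[simp] theorem mp_wd (f : X → Y) (w : List X) : mp f (wd w : Ch A X) = wd (w.map f) := lin_wd _ _

theorem mp_cons (f : X → Y) (a : X) (c : Ch A X) : mp f (cons a c) = cons (f a) (mp f c) :=
  ch_ext' (φ := mp f ∘ₗ cons a) (ψ := cons (f a) ∘ₗ mp f) (fun w => by simp) c

theorem mp_mp (g : Y → Z) (f : X → Y) (c : Ch A X) : mp g (mp f c) = mp (g ∘ f) c :=
  ch_ext' (φ := mp g ∘ₗ mp f) (fun w => by simp) c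

@[simp] theorem mp_id (c : Ch A X) : mp id c = c :=
  ch_ext' (ψ := LinearMap.id) (fun w => by simp) c

theorem lin_mp {M : Type} [AddCommGroup M] [Module A M] (κ : List Y → M) (f : X → Y)
    (c : Ch A X) : lin A κ (mp f c) = lin A (fun w => κ (w.map f)) c :=
  ch_ext' (φ := lin A κ ∘ₗ mp f) (fun w => by simp) c

theorem lin_cons {M : Type} [AddCommGroup M] [Module A M] (κ : List X → M) (a : X)
    (c : Ch A X) : lin A κ (cons a c) = lin A (fun w => κ (a :: w)) c :=
  ch_ext' (φ := lin A κ ∘ₗ cons a) (fun w => by simp) c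

/-- The boundary of a word. -/
def dW : List X → Ch A X
  | [] => 0
  | a :: w => wd w - cons a (dW w)

/-- The boundary. -/
def bd : Ch A X →ₗ[A] Ch A X := lin A dW

@[simp] theorem bd_wd (w : List X) : bd (wd w : Ch A X) = dW w := lin_wd _ _
@[simp] theorem dW_nil : (dW [] : Ch A X) = 0 := rfl
theorem dW_cons (a : X) (w : List X) : (dW (a :: w) : Ch A X) = wd w - cons a (dW w) := rfl

theorem bd_cons (a : X) (c : Ch A X) : bd (cons a c) = c - cons a (bd c) :=
  ch_ext' (φ := bd ∘ₗ cons a) (ψ := LinearMap.id - cons a ∘ₗ bd)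
    (fun w => by simp [dW_cons]) c

theorem bd_dW (w : List X) : bd (dW w : Ch A X) = 0 := by
  induction w with
  | nil => simp
  | cons a w ih => simp [dW_cons, bd_cons, ih]

@[simp] theorem bd_bd (c : Ch A X) : bd (bd c) = 0 :=
  ch_ext' (φ := bd ∘ₗ bd) (ψ := 0) (fun w => by simp [bd_dW]) c

theorem mp_dW (f : X → Y) (w : List X) : mp f (dW w : Ch A X) = dW (w.map f) := by
  induction w with
  | nil => simp
  | cons a w ih => simp [dW_cons, mp_cons, ih]

theorem bd_mp (f : X → Y) (c : Ch A X) : bd (mp f c) = mp f (bd c) :=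
  ch_ext' (φ := bd ∘ₗ mp f) (ψ := mp f ∘ₗ bd) (fun w => by simp [mp_dW]) c

/-- The boundary as an alternating sum of deletions. -/
theorem dW_eq_sum (w : List X) :
    (dW w : Ch A X) = ∑ i ∈ Finset.range w.length, (-1 : A) ^ i • wd (w.eraseIdx i) := by
  induction w with
  | nil => simp
  | cons a w ih =>
    rw [dW_cons, List.length_cons, Finset.sum_range_succ', ih, map_sum]
    simp [pow_succ, sub_eq_add_neg, add_comm, ← Finset.sum_neg_distrib]

/-- The prism of a word between two maps. -/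
def prW (f g : X → Y) : List X → Ch A Y
  | [] => 0
  | a :: w => wd (f a :: g a :: w.map g) - cons (f a) (prW f g w)

/-- The prism operator. -/
def pr (f g : X → Y) : Ch A X →ₗ[A] Ch A Y := lin A (prW f g)

@[simp] theorem pr_wd (f g : X → Y) (w : List X) : pr f g (wd w : Ch A X) = prW f g w := lin_wd _ _

theorem pr_cons (f g : X → Y) (a : X) (c : Ch A X) :
    pr f g (cons a c) = cons (f a) (cons (g a) (mp g c)) - cons (f a) (pr f g c) :=
  ch_ext' (φ := pr f g ∘ₗ cons a)
    (ψ := cons (f a) ∘ₗ cons (g a) ∘ₗ mp g - cons (f a) ∘ₗ pr f g) (fun w => by simp [prW]) c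

theorem bd_prW (f g : X → Y) (w : List X) :
    bd (prW f g w : Ch A Y) + pr f g (dW w) = wd (w.map g) - wd (w.map f) := by
  induction w with
  | nil => simp [prW]
  | cons a w ih =>
    have h : bd (prW f g w : Ch A Y) = wd (w.map g) - wd (w.map f) - pr f g (dW w) := by
      rw [← ih]; abel
    have h2 : (dW (g a :: w.map g) : Ch A Y) = wd (w.map g) - cons (g a) (mp g (dW w)) := by
      rw [dW_cons, mp_dW]
    rw [prW, dW_cons a, map_sub, map_sub, bd_cons, pr_cons, bd_wd, dW_cons, h, h2]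
    simp only [map_sub, cons_wd, pr_wd, List.map_cons]
    abel

theorem bd_pr (f g : X → Y) (c : Ch A X) : bd (pr f g c) + pr f g (bd c) = mp g c - mp f c :=
  ch_ext' (φ := bd ∘ₗ pr f g + pr f g ∘ₗ bd) (ψ := mp g - mp f)
    (fun w => by simpa using bd_prW f g w) c

theorem mp_prW (h : Y → Z) (f g : X → Y) (w : List X) :
    mp h (prW f g w : Ch A Y) = prW (h ∘ f) (h ∘ g) w := by
  induction w with
  | nil => simp [prW]
  | cons a w ih => simp [prW, mp_cons, ih]

theorem mp_pr (h : Y → Z) (f g : X → Y) (c : Ch A X) :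
    mp h (pr f g c) = pr (h ∘ f) (h ∘ g) c :=
  ch_ext' (φ := mp h ∘ₗ pr f g) (fun w => by simp [mp_prW]) c

theorem prW_map (f g : Y → Z) (h : X → Y) (w : List X) :
    (prW f g (w.map h) : Ch A Z) = prW (f ∘ h) (g ∘ h) w := by
  induction w with
  | nil => simp [prW]
  | cons a w ih => simp [prW, ih]

theorem pr_mp (f g : Y → Z) (h : X → Y) (c : Ch A X) :
    pr f g (mp h c) = pr (f ∘ h) (g ∘ h) c :=
  ch_ext' (φ := pr f g ∘ₗ mp h) (fun w => by simp [prW_map]) c

variable (A) in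
/-- Chains supported on words with property `P`. -/
def sp (P : List X → Prop) : Submodule A (Ch A X) := Submodule.span A {c | ∃ w, P w ∧ c = wd w}

theorem wd_mem {P : List X → Prop} {w : List X} (h : P w) : (wd w : Ch A X) ∈ sp A P :=
  Submodule.subset_span ⟨w, h, rfl⟩

theorem sp_mono {P Q : List X → Prop} (h : ∀ w, P w → Q w) : sp A P ≤ sp A Q :=
  Submodule.span_mono fun _ ⟨w, h1, h2⟩ => ⟨w, h w h1, h2⟩

theorem sp_map {M : Type} [AddCommGroup M] [Module A M] {P : List X → Prop}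
    (φ : Ch A X →ₗ[A] M) (U : Submodule A M) (h : ∀ w, P w → φ (wd w) ∈ U) {c : Ch A X}
    (hc : c ∈ sp A P) : φ c ∈ U := by
  have : sp A P ≤ U.comap φ := Submodule.span_le.2 (by rintro _ ⟨w, h1, rfl⟩; exact h w h1)
  exact this hc

theorem sp_ext {M : Type} [AddCommGroup M] [Module A M] {P : List X → Prop}
    {φ ψ : Ch A X →ₗ[A] M} (h : ∀ w, P w → φ (wd w) = ψ (wd w)) {c : Ch A X}
    (hc : c ∈ sp A P) : φ c = ψ c :=
  LinearMap.eqOn_span (by rintro _ ⟨w, h1, rfl⟩; exact h w h1) hc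

theorem lin_congr {M : Type} [AddCommGroup M] [Module A M] {P : List X → Prop}
    {f g : List X → M} (h : ∀ w, P w → f w = g w) {c : Ch A X} (hc : c ∈ sp A P) :
    lin A f c = lin A g c :=
  sp_ext (fun w hw => by simp [h w hw]) hc

theorem mem_sp_iff {P : List X → Prop} {c : Ch A X} : c ∈ sp A P ↔ ∀ w ∈ c.support, P w := by
  have : sp A P = Finsupp.supported A A {w | P w} := by
    rw [Finsupp.supported_eq_span_single, sp]
    congr 1
    ext c
    simp [wd, eq_comm]
  rw [this, Finsupp.mem_supported]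
  rfl

theorem mem_sp_top (c : Ch A X) : c ∈ sp A fun _ => True := mem_sp_iff.2 fun _ _ => trivial

theorem mem_sp_and {P Q : List X → Prop} {c : Ch A X} (h : c ∈ sp A P) (h' : c ∈ sp A Q) :
    c ∈ sp A fun w => P w ∧ Q w :=
  mem_sp_iff.2 fun w hw => ⟨mem_sp_iff.1 h w hw, mem_sp_iff.1 h' w hw⟩

/-- `P` passes to sublists. -/
def Her (P : List X → Prop) : Prop := ∀ w w', List.Sublist w' w → P w → P w'

theorem dW_mem_sublist (w : List X) :
    (dW w : Ch A X) ∈ sp A fun u => List.Sublist u w ∧ u.length + 1 = w.length := by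
  rw [dW_eq_sum]
  refine Submodule.sum_mem _ fun i hi => Submodule.smul_mem _ _ (wd_mem ⟨?_, ?_⟩)
  · exact List.eraseIdx_sublist w i
  · have := Finset.mem_range.1 hi
    rw [List.length_eraseIdx_of_lt this]; omega

theorem bd_mem {P : List X → Prop} (hP : Her P) {c : Ch A X} (hc : c ∈ sp A P) :
    bd c ∈ sp A P :=
  sp_map bd _ (fun w hw => by
    rw [bd_wd]; exact sp_mono (fun u hu => hP w u hu.1 hw) (dW_mem_sublist w)) hc

variable (A X) in
/-- Chains on words of length `k`. -/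
def len (k : ℕ) : Submodule A (Ch A X) := sp A fun w => w.length = k

theorem bd_len {k : ℕ} {c : Ch A X} (hc : c ∈ len A X (k + 1)) : bd c ∈ len A X k :=
  sp_map bd _ (fun w hw => by
    rw [bd_wd]; exact sp_mono (fun u hu => by omega) (dW_mem_sublist w)) hc

theorem cons_len {k : ℕ} (a : X) {c : Ch A X} (hc : c ∈ len A X k) :
    cons a c ∈ len A X (k + 1) :=
  sp_map (cons a) _ (fun w hw => by rw [cons_wd]; exact wd_mem (by simp [hw])) hc

theorem mp_len {k : ℕ} (f : X → Y) {c : Ch A X} (hc : c ∈ len A X k) : mp f c ∈ len A Y k :=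
  sp_map (mp f) _ (fun w hw => by rw [mp_wd]; exact wd_mem (by simp [hw])) hc

theorem prW_len (f g : X → Y) (w : List X) : (prW f g w : Ch A Y) ∈ len A Y (w.length + 1) := by
  induction w with
  | nil => exact zero_mem _
  | cons a w ih => exact sub_mem (wd_mem (by simp)) (cons_len _ ih)

theorem pr_len {k : ℕ} (f g : X → Y) {c : Ch A X} (hc : c ∈ len A X k) :
    pr f g c ∈ len A Y (k + 1) :=
  sp_map (pr f g) _ (fun w hw => by rw [pr_wd, ← hw]; exact prW_len f g w) hc

/-- The words of a prism: `f` on an initial part, `g` on the rest, with one letter used twice. -/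
theorem prW_mem (f g : X → Y) (w : List X) : (prW f g w : Ch A Y) ∈ sp A fun u =>
    ∃ w₁ a w₂, w = w₁ ++ a :: w₂ ∧ u = w₁.map f ++ f a :: g a :: w₂.map g := by
  induction w with
  | nil => exact zero_mem _
  | cons a w ih =>
    refine sub_mem (wd_mem ⟨[], a, w, rfl, rfl⟩) (sp_map (cons (f a)) _ ?_ ih)
    rintro u ⟨w₁, b, w₂, rfl, rfl⟩
    rw [cons_wd]
    exact wd_mem ⟨a :: w₁, b, w₂, rfl, rfl⟩

/-- Base change of integral chains. -/
def bc (A : Type) [CommRing A] : Ch ℤ X →ₗ[ℤ] Ch A X := lin ℤ fun w => wd w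

@[simp] theorem bc_wd (w : List X) : bc A (wd w) = wd w := lin_wd _ _

theorem bc_cons (a : X) (c : Ch ℤ X) : bc A (cons a c) = cons a (bc A c) :=
  ch_ext' (φ := bc A ∘ₗ cons a) (ψ := (cons a).restrictScalars ℤ ∘ₗ bc A) (fun w => by simp) c

theorem bc_mp (f : X → Y) (c : Ch ℤ X) : bc A (mp f c) = mp f (bc A c) :=
  ch_ext' (φ := bc A ∘ₗ mp f) (ψ := (mp f).restrictScalars ℤ ∘ₗ bc A) (fun w => by simp) c

theorem bc_dW (w : List X) : bc A (dW w) = dW w := by
  induction w with
  | nil => simp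
  | cons a w ih => simp [dW_cons, bc_cons, ih]

theorem bc_bd (c : Ch ℤ X) : bc A (bd c) = bd (bc A c) :=
  ch_ext' (φ := bc A ∘ₗ bd) (ψ := bd.restrictScalars ℤ ∘ₗ bc A) (fun w => by simp [bc_dW]) c

theorem bc_prW (f g : X → Y) (w : List X) : bc A (prW f g w) = prW f g w := by
  induction w with
  | nil => simp [prW]
  | cons a w ih => simp [prW, bc_cons, ih]

theorem bc_pr (f g : X → Y) (c : Ch ℤ X) : bc A (pr f g c) = pr f g (bc A c) :=
  ch_ext' (φ := bc A ∘ₗ pr f g) (ψ := (pr f g).restrictScalars ℤ ∘ₗ bc A)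
    (fun w => by simp [bc_prW]) c

theorem lin_bc {M : Type} [AddCommGroup M] [Module A M] (κ : List X → M) (c : Ch ℤ X) :
    lin A κ (bc A c) = lin ℤ κ c :=
  ch_ext' (φ := (lin A κ).restrictScalars ℤ ∘ₗ bc A) (fun w => by simp) c

section group
variable (G : Type) [Group G] [MulAction G X]

variable (A) in
/-- The span of the differences `g w - w` over the words with property `P`. -/
def IP (P : List X → Prop) : Submodule A (Ch A X) :=
  Submodule.span A {c | ∃ (g : G) (w : List X), P w ∧ c = wd (w.map (g • ·)) - wd w}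

variable (A X) in
/-- The kernel of the map to the coinvariants. -/
def IG : Submodule A (Ch A X) := IP A G fun _ : List X => True

/-- An invariant cochain. -/
def Inv {M : Type} (κ : List X → M) : Prop := ∀ (g : G) (w : List X), κ (w.map (g • ·)) = κ w

variable {G}

theorem sub_mem_IP {P : List X → Prop} (g : G) {w : List X} (h : P w) :
    (wd (w.map (g • ·)) - wd w : Ch A X) ∈ IP A G P :=
  Submodule.subset_span ⟨g, w, h, rfl⟩

theorem IP_map {M : Type} [AddCommGroup M] [Module A M] {P : List X → Prop}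
    (φ : Ch A X →ₗ[A] M) (U : Submodule A M)
    (h : ∀ (g : G) w, P w → φ (wd (w.map (g • ·))) - φ (wd w) ∈ U) {c : Ch A X}
    (hc : c ∈ IP A G P) : φ c ∈ U := by
  have : IP A G P ≤ U.comap φ := Submodule.span_le.2 (by
    rintro _ ⟨g, w, h1, rfl⟩
    simpa using h g w h1)
  exact this hc

theorem mp_smul_sub {P : List X → Prop} (g : G) {c : Ch A X} (hc : c ∈ sp A P) :
    mp (g • ·) c - c ∈ IP A G P :=
  sp_map (mp (g • ·) - LinearMap.id) _ (fun w hw => by simpa using sub_mem_IP g hw) hc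

theorem mp_smul_sub_IG (g : G) (c : Ch A X) : mp (g • ·) c - c ∈ IG A X G :=
  mp_smul_sub g (mem_sp_top c)

theorem IP_mono {P Q : List X → Prop} (h : ∀ w, P w → Q w) : IP A G P ≤ IP A G Q :=
  Submodule.span_mono fun _ ⟨g, w, h1, h2⟩ => ⟨g, w, h w h1, h2⟩

theorem bd_IP {P : List X → Prop} (hP : Her P) {c : Ch A X} (hc : c ∈ IP A G P) :
    bd c ∈ IP A G P :=
  IP_map bd _ (fun g w hw => by
    rw [bd_wd, bd_wd, ← mp_dW]
    exact mp_smul_sub g (by rw [← bd_wd]; exact bd_mem hP (wd_mem hw))) hc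

theorem bd_IG {c : Ch A X} (hc : c ∈ IG A X G) : bd c ∈ IG A X G :=
  bd_IP (fun _ _ _ _ => trivial) hc

theorem Inv.lin_IP {M : Type} [AddCommGroup M] [Module A M] {κ : List X → M} (h : Inv G κ)
    {P : List X → Prop} {c : Ch A X} (hc : c ∈ IP A G P) : lin A κ c = 0 :=
  (Submodule.mem_bot A).1 (IP_map (lin A κ) ⊥ (fun g w _ => by simp [h g w]) hc)

/-- An equivariant linear map respects the coinvariants. -/
theorem IG_map {G' : Type} [Group G'] [MulAction G' Y] (φ : Ch A X →ₗ[A] Ch A Y)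
    (h : ∀ (g : G) w, ∃ g' : G', φ (wd (w.map (g • ·))) = mp (g' • ·) (φ (wd w))) {c : Ch A X}
    (hc : c ∈ IG A X G) : φ c ∈ IG A Y G' :=
  IP_map φ _ (fun g w _ => by
    obtain ⟨g', e⟩ := h g w
    rw [e]; exact mp_smul_sub_IG g' _) hc

theorem mp_IG {G' : Type} [Group G'] [MulAction G' Y] (f : X → Y)
    (h : ∀ g : G, ∃ g' : G', ∀ x, f (g • x) = g' • f x) {c : Ch A X} (hc : c ∈ IG A X G) :
    mp f c ∈ IG A Y G' :=
  IG_map (mp f) (fun g w => by
    obtain ⟨g', e⟩ := h g
    exact ⟨g', by simp [Function.comp_def, e]⟩) hc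

theorem pr_IG {G' : Type} [Group G'] [MulAction G' Y] (f f' : X → Y)
    (h : ∀ g : G, ∃ g' : G', ∀ x, f (g • x) = g' • f x ∧ f' (g • x) = g' • f' x) {c : Ch A X}
    (hc : c ∈ IG A X G) : pr f f' c ∈ IG A Y G' :=
  IG_map (pr f f') (fun g w => by
    obtain ⟨g', e⟩ := h g
    refine ⟨g', ?_⟩
    rw [pr_wd, pr_wd, prW_map, mp_prW]
    congr 1 <;> funext x
    exacts [(e x).1, (e x).2]) hc

end group

/-- `κ` is a cocycle on words of length `k`. -/
def Coc {M : Type} [AddCommGroup M] (k : ℕ) (κ : List X → M) : Prop :=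
  ∀ w : List X, w.length = k + 1 → lin ℤ κ (dW w) = 0

theorem Coc.lin_bd {M : Type} [AddCommGroup M] [Module A M] {k : ℕ} {κ : List X → M}
    (h : Coc k κ) {c : Ch A X} (hc : c ∈ len A X (k + 1)) : lin A κ (bd c) = 0 :=
  sp_ext (φ := lin A κ ∘ₗ bd) (ψ := 0) (fun w hw => by
    simpa [← bc_dW (A := A), lin_bc] using h w hw) hc

/-- `κ` vanishes on words with two equal neighbours. -/
def Nrm {M : Type} [Zero M] (κ : List X → M) : Prop :=
  ∀ (w₁ : List X) (a : X) (w₂ : List X), κ (w₁ ++ a :: a :: w₂) = 0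

section cyc
variable (G : Type) [Group G] [MulAction G X]

/-- An integral chain that is a cycle modulo `N` in the coinvariants (`N = 0`: integral cycle). -/
def Cyc (N : ℕ) (c : Ch ℤ X) : Prop := ∃ b : Ch ℤ X, bd c - (N : ℤ) • b ∈ IG ℤ X G

/-- Weak form: every invariant cochain modulo `N` vanishes on the boundary. -/
def WCyc (N : ℕ) (c : Ch ℤ X) : Prop :=
  ∀ μ : List X → ZMod N, Inv G μ → lin ℤ μ (bd c) = 0

variable {G}

theorem Cyc.weak {N N' : ℕ} {c : Ch ℤ X} (h : Cyc G N c) (hN : N' ∣ N) : WCyc G N' c := by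
  intro μ hμ
  obtain ⟨b, hb⟩ := h
  have h1 := hμ.lin_IP hb
  rw [map_sub, map_smul, sub_eq_zero] at h1
  rw [h1, zsmul_eq_mul, Int.cast_natCast, (ZMod.natCast_eq_zero_iff N N').2 hN, zero_mul]

theorem Cyc.mp {G' : Type} [Group G'] [MulAction G' Y] {N : ℕ} {c : Ch ℤ X} (hc : Cyc G N c)
    (f : X → Y) (h : ∀ g : G, ∃ g' : G', ∀ x, f (g • x) = g' • f x) : Cyc G' N (mp f c) := by
  obtain ⟨b, hb⟩ := hc
  exact ⟨Sou.mp f b, by rw [bd_mp, ← map_smul, ← map_sub]; exact mp_IG f h hb⟩

theorem WCyc.mp {G' : Type} [Group G'] [MulAction G' Y] {N : ℕ} {c : Ch ℤ X} (hc : WCyc G N c)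
    (f : X → Y) (h : ∀ g : G, ∃ g' : G', ∀ x, f (g • x) = g' • f x) : WCyc G' N (mp f c) := by
  intro μ hμ
  rw [bd_mp, lin_mp]
  refine hc _ fun g w => ?_
  obtain ⟨g', e⟩ := h g
  rw [← hμ g' (w.map f)]
  simp [Function.comp_def, e]

/-- An invariant cocycle takes the same value on the images of a cycle under two equivariant
maps. -/
theorem WCyc.homotopy {G' : Type} [Group G'] [MulAction G' Y] {N k : ℕ} {c : Ch ℤ X}
    (hc : WCyc G N c) (hk : c ∈ len ℤ X k) (f f' : X → Y)
    (h : ∀ g : G, ∃ g' : G', ∀ x, f (g • x) = g' • f x ∧ f' (g • x) = g' • f' x)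
    {κ : List Y → ZMod N} (hκ : Inv G' κ) (hκ' : Coc k κ) :
    lin ℤ κ (Sou.mp f' c) = lin ℤ κ (Sou.mp f c) := by
  rw [← sub_eq_zero, ← map_sub, ← bd_pr, map_add, hκ'.lin_bd (pr_len f f' hk), zero_add, pr,
    map_lin]
  refine hc _ fun g w => ?_
  obtain ⟨g', e⟩ := h g
  have e1 : (prW f f' (w.map (g • ·)) : Ch ℤ Y) = Sou.mp (g' • ·) (prW f f' w) := by
    rw [prW_map, mp_prW]
    congr 1 <;> funext x
    exacts [(e x).1, (e x).2]
  simp only [e1, lin_mp]
  exact congrArg (fun κ => lin ℤ κ (prW f f' w)) (funext (hκ g'))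

end cyc

end

end Pool.Agent.Lib.MP_446a91_nt.Sou
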