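import Pool.Agent.Lib.MP_446a91_nt.Sou.W0

/-! Cup products of cochains on words, and the standard cycles of a cyclic group. -/

namespace Pool.Agent.Lib.MP_446a91_nt.Sou

noncomputable section

variable {X Y M : Type} [CommRing M]

/-- The cup product of a two-cochain with a cochain. -/
def cup (u : X → X → X → M) (κ : List X → M) : List X → M
  | a :: b :: c :: w => u a b c * κ (c :: w)
  | _ => 0

/-- The cup product of a one-cochain with a cochain. -/
def cup1 (y : X → X → M) (κ : List X → M) : List X → M
  | a :: b :: w => y a b * κ (b :: w)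
  | _ => 0

/-- The cup powers of a two-cochain. -/
def pw (u : X → X → X → M) : ℕ → List X → M
  | 0 => fun w => if w.length = 1 then 1 else 0
  | j + 1 => cup u (pw u j)

theorem w1_mul (m : M) (f : List X → M) (c : Ch ℤ X) :
    lin ℤ (fun w => m * f w) c = m * lin ℤ f c :=
  (map_lin (LinearMap.mulLeft ℤ m) f c).symm

/-- Sketch: induction on `j`; a word of length `2 (j + 1) + 2` is `a :: b :: c :: d :: w`; expand
`dW` three times with `dW_cons`, `lin_cons`; the terms with `κ (d :: w)` cancel by `hu`, the rest is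
`u a b c * lin κ (dW (c :: d :: w))` (all words of `dW (d :: w)` may be treated by `lin_cons` and
`lin_smul`, or by `lin_congr`). -/
theorem coc_pw {u : X → X → X → M} (hu : ∀ a b c d, u b c d - u a c d + u a b d - u a b c = 0)
    (j : ℕ) : Coc (2 * j + 1) (pw u j) := by
  induction j with
  | zero =>
    intro w hw
    match w, hw with
    | [a, b], _ => simp [dW_cons, pw]
  | succ j ih =>
    intro w hw
    match w, hw with
    | a :: b :: c :: d :: w, hw =>
      have h1 := ih (c :: d :: w) (by simp only [List.length_cons] at hw ⊢; omega)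
      rw [dW_cons, map_sub, lin_cons, lin_wd] at h1
      rw [dW_cons a, dW_cons b, dW_cons c]
      simp only [map_sub, lin_cons, lin_wd, pw, cup, w1_mul]
      linear_combination hu a b c d * pw u j (d :: w) + u a b c * h1

theorem coc_cup1 {y : X → X → M} (hy : ∀ a b c, y b c - y a c + y a b = 0) {κ : List X → M}
    {k : ℕ} (hk : 1 ≤ k) (hκ : Coc k κ) : Coc (k + 1) (cup1 y κ) := by
  intro w hw
  match w, hw with
  | [_, _], hw => simp only [List.length_cons, List.length_nil] at hw; omega
  | a :: b :: c :: w, hw =>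
    have h1 := hκ (b :: c :: w) (by simp only [List.length_cons] at hw ⊢; omega)
    rw [dW_cons, map_sub, lin_cons, lin_wd] at h1
    rw [dW_cons a, dW_cons b]
    simp only [map_sub, lin_cons, lin_wd, cup1, w1_mul]
    linear_combination hy a b c * κ (c :: w) - y a b * h1

theorem pw_map {u : X → X → X → M} {u' : Y → Y → Y → M} (f : X → Y)
    (h : ∀ a b c, u' (f a) (f b) (f c) = u a b c) (j : ℕ) (w : List X) :
    pw u' j (w.map f) = pw u j w := by
  induction j generalizing w with
  | zero => simp [pw]
  | succ j ih =>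
    match w with
    | [] | [_] | [_, _] => rfl
    | a :: b :: c :: w => exact congrArg₂ (· * ·) (h a b c) (ih (c :: w))

theorem pw_congr {u u' : X → X → X → M} (j : ℕ) (w : List X)
    (h : ∀ a b c, List.Sublist [a, b, c] w → u a b c = u' a b c) : pw u j w = pw u' j w := by
  induction j generalizing w with
  | zero => rfl
  | succ j ih =>
    match w, h with
    | [], _ | [_], _ | [_, _], _ => rfl
    | a :: b :: c :: w, h =>
      exact congrArg₂ (· * ·) (h a b c (by simp)) (ih (c :: w) fun _ _ _ h1 =>
        h _ _ _ ((h1.cons b).cons a))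

theorem pw_ringHom {M' : Type} [CommRing M'] (f : M →+* M') (u : X → X → X → M) (j : ℕ)
    (w : List X) : f (pw u j w) = pw (fun a b c => f (u a b c)) j w := by
  induction j generalizing w with
  | zero => simp [pw, apply_ite f]
  | succ j ih =>
    match w with
    | [] | [_] | [_, _] => exact map_zero f
    | a :: b :: c :: w => exact (map_mul f _ _).trans (congrArg (_ * ·) (ih (c :: w)))

theorem inv_cup1_pw {G : Type} [Group G] [MulAction G X] {y : X → X → M} {u : X → X → X → M}
    (hy : ∀ (g : G) a b, y (g • a) (g • b) = y a b)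
    (hu : ∀ (g : G) a b c, u (g • a) (g • b) (g • c) = u a b c) (j : ℕ) :
    Inv G (cup1 y (pw u j)) := by
  intro g w
  match w with
  | [] | [_] => rfl
  | a :: b :: w => exact congrArg₂ (· * ·) (hy g a b) (pw_map _ (hu g) j (b :: w))

theorem nrm_cup1_pw {y : X → X → M} {u : X → X → X → M} (hy : ∀ a, y a a = 0)
    (hu : ∀ a b, u a a b = 0) (hu' : ∀ a b, u a b b = 0) (j : ℕ) : Nrm (cup1 y (pw u j)) := by
  have h : Nrm (pw u j) := by
    induction j with
    | zero => exact fun w a w' => if_neg (by simp; omega)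
    | succ j ih =>
      intro w a w'
      match w, w' with
      | [], [] => rfl
      | [], c :: w' => exact mul_eq_zero_of_left (hu a c) _
      | [b], w' => exact mul_eq_zero_of_left (hu' b a) _
      | [b, c], w' => exact mul_eq_zero_of_right _ (ih [] a w')
      | b :: c :: d :: w, w' => exact mul_eq_zero_of_right _ (ih (d :: w) a w')
  intro w a w'
  match w with
  | [] => exact mul_eq_zero_of_left (hy a) _
  | [b] => exact mul_eq_zero_of_right _ (h [] a w')
  | b :: c :: w => exact mul_eq_zero_of_right _ (h (c :: w) a w')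

section cyclic
variable {G G' : Type} [Group G] [Group G']

/-- The norm operator of the cyclic group generated by `g`. -/
def nm (g : G) (n : ℕ) (c : Ch ℤ G) : Ch ℤ G := ∑ a ∈ Finset.range n, mp (g ^ a * ·) c

/-- The standard chain of degree `2 j` of the cyclic group generated by `g`. -/
def zc (g : G) (n : ℕ) : ℕ → Ch ℤ G
  | 0 => wd [1]
  | j + 1 => cons 1 (nm g n (cons 1 (mp (g * ·) (zc g n j))))

theorem zc_len (g : G) (n j : ℕ) : zc g n j ∈ len ℤ G (2 * j + 1) := by
  induction j with
  | zero => exact wd_mem rfl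
  | succ j ih =>
    exact cons_len (k := 2 * j + 1 + 1) 1 (Submodule.sum_mem _ fun a _ =>
      mp_len _ (cons_len 1 (mp_len _ ih)))

theorem mp_zc (f : G →* G') (g : G) (n j : ℕ) : mp f (zc g n j) = zc (f g) n j := by
  have h : ∀ (a : G) (c : Ch ℤ G), mp f (mp (a * ·) c) = mp (f a * ·) (mp f c) := fun a c => by
    rw [mp_mp, mp_mp]
    congr 2
    funext x
    exact map_mul f a x
  induction j with
  | zero => simp [zc]
  | succ j ih => simp only [zc, nm, mp_cons, map_sum, h, map_one, map_pow, map_mul, ih]

/-- Sketch: with `w j = cons 1 (mp (g * ·) (zc j))` prove together `bd (w j) = g zc j - zc j` and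
`bd (zc (j + 1)) = nm (w j)`; use `nm (g c) = nm c` and `g (nm c) = nm c` for `g ^ n = 1`.
Then `nm w - n • w` lies in `IG` (`mp_smul_sub_IG`). -/
theorem zc_cyc {g : G} {n : ℕ} (hg : g ^ n = 1) {j : ℕ} (hj : 1 ≤ j) : Cyc G n (zc g n j) := by
  have h0 : ∀ c : Ch ℤ G, ∑ a ∈ Finset.range n, mp (g ^ (a + 1) * ·) c = nm g n c := fun c => by
    have h := Finset.sum_range_succ (fun a => mp (g ^ a * ·) c) n
    rw [Finset.sum_range_succ', hg, pow_zero] at h
    exact add_right_cancel h
  have h1 : ∀ c : Ch ℤ G, nm g n (mp (g * ·) c) = nm g n c := fun c => by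
    rw [← h0 c]
    simp only [nm, mp_mp, Function.comp_def, pow_succ, mul_assoc]
  have h2 : ∀ c : Ch ℤ G, mp (g * ·) (nm g n c) = nm g n c := fun c => by
    conv_rhs => rw [← h0 c]
    simp only [nm, map_sum, mp_mp, Function.comp_def, pow_succ', mul_assoc]
  have h3 : ∀ j, bd (cons 1 (mp (g * ·) (zc g n j))) = mp (g * ·) (zc g n j) - zc g n j →
      bd (zc g n (j + 1)) = nm g n (cons 1 (mp (g * ·) (zc g n j))) := fun j h => by
    have h4 : bd (nm g n (cons 1 (mp (g * ·) (zc g n j)))) =
        nm g n (mp (g * ·) (zc g n j)) - nm g n (zc g n j) := by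
      simp only [nm, map_sum, bd_mp, h, map_sub, Finset.sum_sub_distrib]
    rw [zc, bd_cons, h4, h1, sub_self, map_zero, sub_zero]
  have h4 : ∀ j, bd (cons 1 (mp (g * ·) (zc g n j))) = mp (g * ·) (zc g n j) - zc g n j := by
    intro j
    induction j with
    | zero => simp [zc, dW_cons]
    | succ j ih => rw [bd_cons, bd_mp, h3 j ih, h2, zc]
  obtain ⟨j, rfl⟩ : ∃ i, j = i + 1 := ⟨j - 1, by omega⟩
  refine ⟨cons 1 (mp (g * ·) (zc g n j)), ?_⟩
  rw [h3 j (h4 j), natCast_zsmul, ← Finset.card_range n, ← Finset.sum_const, Finset.card_range, nm,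
    ← Finset.sum_sub_distrib]
  exact Submodule.sum_mem _ fun a _ => mp_smul_sub_IG (g ^ a) _

/-- Sketch: every word of `zc` starts with `1`; induction on `j` with `lin_cons`, `lin_mp`,
`pw_map`. -/
theorem lin_pw_zc {u : G → G → G → M} (hu : ∀ g a b c, u (g * a) (g * b) (g * c) = u a b c)
    (g : G) (n j : ℕ) :
    lin ℤ (pw u j) (zc g n j) = (∑ a ∈ Finset.range n, u 1 (g ^ a) (g ^ (a + 1))) ^ j := by
  induction j with
  | zero => simp [zc, pw]
  | succ j ih =>
    have h1 : zc g n j ∈ sp ℤ fun w : List G => ∃ w', w = 1 :: w' := by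
      cases j with
      | zero => exact wd_mem ⟨[], rfl⟩
      | succ j =>
        exact sp_map (A := ℤ) (cons (1 : G)) _
          (fun w _ => by rw [cons_wd]; exact wd_mem ⟨w, rfl⟩) (mem_sp_top _)
    rw [zc, lin_cons, nm, map_sum, pow_succ', ← ih, Finset.sum_mul]
    refine Finset.sum_congr rfl fun a _ => ?_
    rw [lin_mp, lin_cons, lin_mp, ← w1_mul]
    refine lin_congr ?_ h1
    rintro _ ⟨w, rfl⟩
    refine congrArg₂ (· * ·) (by simp only [mul_one, pow_succ]) ?_
    exact (pw_map _ (hu (g ^ a)) j (List.map (g * ·) (1 :: w))).trans (pw_map _ (hu g) j _)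

end cyclic

section cross
variable {C : Type} [CommGroup C]

/-- The product of the loop `v` with a chain. -/
def crs {A : Type} [CommRing A] (v : C) : Ch A C →ₗ[A] Ch A C := pr id (v * ·)

theorem crs_cyc {N : ℕ} {z : Ch ℤ C} (hz : Cyc C N z) (v : C) : Cyc C N (crs v z) := by
  obtain ⟨b, hb⟩ := hz
  refine ⟨-crs v b, ?_⟩
  have h1 : bd (crs v z) - (N : ℤ) • -crs v b =
      (mp (v • ·) z - z) - pr id (v * ·) (bd z - (N : ℤ) • b) := by
    have h2 := bd_pr id (v * ·) z
    rw [mp_id] at h2
    rw [map_sub, map_smul, smul_neg]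
    exact (congrArg (· - _) (eq_sub_of_add_eq h2)).trans (by simp only [crs, smul_eq_mul]; abel)
  rw [h1]
  exact sub_mem (mp_smul_sub_IG v z)
    (pr_IG _ _ (fun g => ⟨g, fun x => ⟨rfl, mul_left_comm v g x⟩⟩) hb)

theorem mp_crs {A C' : Type} [CommRing A] [CommGroup C'] (f : C →* C') (v : C) (z : Ch A C) :
    mp f (crs v z) = crs (f v) (mp f z) := by
  rw [crs, crs, mp_pr, pr_mp]
  congr 2
  funext x
  exact map_mul f v x

/-- Sketch: first show `lin (pw u j) (prW id (v * ·) w) = 0` for all words `w` of length `2 j`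
(induction on `j`, `w = a :: b :: w'`: the first two terms of the prism cancel by `hs`, the rest is
`u a b c` times the same expression for `w'`; all words of `prW w'` start with the head of `w'`).
For `w = a :: w'` of length `2 j + 1` the first term gives `y a (v a) * pw (v • w)`. -/
theorem lin_cup1_crs {y : C → C → M} {u : C → C → C → M}
    (hy : ∀ g a b, y (g * a) (g * b) = y a b)
    (hu : ∀ g a b c, u (g * a) (g * b) (g * c) = u a b c)
    (hs : ∀ a b, u 1 a (a * b) = u 1 b (a * b)) (v : C) {j : ℕ} {z : Ch ℤ C}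
    (hz : z ∈ len ℤ C (2 * j + 1)) :
    lin ℤ (cup1 y (pw u j)) (crs v z) = y 1 v * lin ℤ (pw u j) z := by
  have h0 : ∀ (c : C) (w : List C), (prW id (v * ·) (c :: w) : Ch ℤ C) =
      cons c (wd ((c :: w).map (v * ·)) - prW id (v * ·) w) := fun c w => by
    rw [map_sub, cons_wd]
    rfl
  have h1 : ∀ (j : ℕ) (w : List C), w.length = 2 * j → lin ℤ (pw u j) (prW id (v * ·) w) = 0 := by
    intro j
    induction j with
    | zero =>
      intro w hw
      rw [List.length_eq_zero_iff.1 hw, prW, map_zero]
    | succ j ih =>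
      intro w hw
      match w, hw with
      | a :: b :: w, hw =>
        have h2 := ih w (by simp only [List.length_cons] at hw; omega)
        have h3 : u a (v * a) (v * b) = u a b (v * b) := by
          have h4 := hu a 1 v (v * (b / a))
          have h5 := hu a 1 (b / a) (v * (b / a))
          rw [mul_one, mul_left_comm, mul_div_cancel] at h4 h5
          rw [mul_comm v a, h4, h5, hs]
        have h4 : lin ℤ (fun x => cup u (pw u j) (a :: b :: x)) (prW id (v * ·) w) = 0 := by
          cases w with
          | nil => exact map_zero _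
          | cons c w =>
            rw [h0, lin_cons] at h2 ⊢
            simp only [cup]
            rw [w1_mul, h2, mul_zero]
        rw [h0, lin_cons, map_sub, h0, lin_cons, map_sub, lin_wd, lin_wd]
        exact sub_eq_zero.2 ((congrArg (· * _) h3).trans ((congrArg (_ - ·) h4).trans
          (sub_zero _)).symm)
  rw [← w1_mul]
  refine sp_ext (φ := lin ℤ (cup1 y (pw u j)) ∘ₗ crs v) (fun w hw => ?_) hz
  match w, hw with
  | a :: w, hw =>
    have h2 := h1 j w (by simp only [List.length_cons] at hw; omega)
    have h3 : lin ℤ (fun x => cup1 y (pw u j) (a :: x)) (prW id (v * ·) w) = 0 := by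
      cases w with
      | nil => exact map_zero _
      | cons c w =>
        rw [h0, lin_cons] at h2 ⊢
        simp only [cup1]
        rw [w1_mul, h2, mul_zero]
    rw [LinearMap.comp_apply, crs, pr_wd, h0, lin_cons, map_sub, h3, sub_zero, lin_wd, lin_wd]
    refine congrArg₂ (· * ·) ?_ (pw_map _ (hu v) j (a :: w))
    rw [← hy a 1 v, mul_one, mul_comm]

end cross

end

end Pool.Agent.Lib.MP_446a91_nt.Sou
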